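import Mathlib

set_option autoImplicit false

/-! A hereditarily indecomposable weak Hilbert space, part M1: this file joins several modules. -/

section S_Defs

/-!
# MP_96d438_an: a hereditarily indecomposable weak Hilbert space -- definitions
(paper proof: /team-store/H94_WH.md)
-/

set_option autoImplicit false

namespace H94.WH

open Finset

/-! ## Parameters -/

/-- growth function -/
def g (n : ℕ) : ℕ := 5 ^ (4 * n + 2)

/-- the (inverse) weights: `m 0 = 4`, `m 1 = 16`, `m (s+1) = m s ^ 2` -/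
def m (s : ℕ) : ℕ := 2 ^ (2 ^ (s + 1))

/-- complexities -/
def nn (s : ℕ) : ℕ := 2 ^ ((s + 5) ^ 2)

/-! ## The families `K_n` -/

/-- modified Schreier families of finite subsets of `ℕ` -/
def Kset : ℕ → Finset ℕ → Prop
  | 0, A => A.card ≤ 1
  | n + 1, A => ∃ (b N : ℕ) (F : Fin N → Finset ℕ), N ≤ g b ∧ (∀ i, Kset n (F i)) ∧
      (∀ a ∈ A, b ≤ a) ∧ A = Finset.univ.biUnion F

/-- `[a, next element of A after a)` -/
def cell (A : Finset ℕ) (a : ℕ) : Set ℕ := {l | a ≤ l ∧ ∀ a' ∈ A, a < a' → l < a'}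

/-- `J` is separated from `A`: a point of `A` in `J` is the least element of `J` -/
def Sep (A : Finset ℕ) (J : Set ℕ) : Prop := ∀ a ∈ A, a ∈ J → ∀ j ∈ J, a ≤ j

/-! ## Lifted functionals -/

/-- atoms: (position, path) -/
abbrev Atom : Type := ℕ × List ℕ

/-- lifted functionals -/
abbrev V : Type := Atom →₀ ℚ

/-- finitely supported sequences (`𝕜 = ℝ` or `ℂ`) -/
abbrev X0 (𝕜 : Type) [RCLike 𝕜] : Type := ℕ →₀ 𝕜

/-- weight of a path -/
noncomputable def wt (π : List ℕ) : ℝ := (π.map (fun s => ((m s : ℝ))⁻¹)).prod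

/-- the functional with lift `v` -/
noncomputable def Phi {𝕜 : Type} [RCLike 𝕜] (v : V) (x : X0 𝕜) : 𝕜 :=
  v.sum (fun a c => (((c : ℝ) * wt a.2 : ℝ) : 𝕜) * x a.1)

/-- the norm of the lift -/
noncomputable def nrm (v : V) : ℝ := Real.sqrt (∑ a ∈ v.support, (v a : ℝ) ^ 2)

open Classical in
/-- restriction to positions in `J` -/
noncomputable def res (J : Set ℕ) (v : V) : V := v.filter (fun a => a.1 ∈ J)

open Classical in
/-- restriction to the paths starting with a symbol in `S` -/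
noncomputable def col (S : Set ℕ) (v : V) : V := v.filter (fun a => ∃ s ∈ S, a.2.head? = some s)

open Classical in
/-- the part on the empty path -/
noncomputable def leaf (v : V) : V := v.filter (fun a => a.2 = [])

/-- put `s` in front of all paths -/
noncomputable def pre (s : ℕ) (v : V) : V := v.mapDomain (fun a => (a.1, s :: a.2))

/-- the atoms whose path starts with `s`, with `s` removed -/
noncomputable def comp (s : ℕ) (v : V) : V :=
  v.comapDomain (fun a => (a.1, s :: a.2)) (fun a _ b _ h => by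
    simp only [Prod.mk.injEq, List.cons.injEq, true_and] at h
    exact Prod.ext h.1 h.2)

/-- restriction of a sequence to positions in `J` -/
noncomputable def resX {𝕜 : Type} [RCLike 𝕜] (J : Set ℕ) (x : X0 𝕜) : X0 𝕜 := by
  classical exact x.filter (fun l => l ∈ J)

/-! ## The coding and the cone -/

theorem exists_code : ∃ f : List V → ℕ, Function.Injective f :=
  Countable.exists_injective_nat (List V)

/-- an injective coding of lists of lifted functionals by even numbers `≥ q + 2` -/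
noncomputable def code (q : ℕ) (ws : List V) : ℕ := 2 * (Classical.choose exists_code ws + q + 1)

/-- `ws` is a special sequence for `q` with starting points `bs` (membership in the cone is a
separate condition) -/
def Special (q : ℕ) (ws : List V) (bs : ℕ → ℕ) : Prop :=
  StrictMono bs ∧ Kset (nn q) ((Finset.range ws.length).image bs) ∧
  (∀ r (hr : r < ws.length), ∀ p ∈ (ws[r]).support, bs r ≤ p.1 ∧ p.1 < bs (r + 1)) ∧
  (∀ r (hr : r < ws.length), col {code q (ws.take r)} ws[r] = ws[r])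

/-- the cone of lifted functionals -/
inductive C : V → Prop
  | atom (l : ℕ) (c : ℚ) : C (Finsupp.single (l, []) c)
  | even (j : ℕ) (hj : 1 ≤ j) (hj2 : Even j) (v : V) (A : Finset ℕ) (hA : Kset (nn j) A)
      (hs : ∀ p ∈ v.support, ∃ a ∈ A, a ≤ p.1) (hv : ∀ a ∈ A, C (res (cell A a) v)) : C (pre j v)
  | odd (q : ℕ) (hq : Odd q) (ws : List V) (bs : ℕ → ℕ) (hsp : Special q ws bs)
      (hC : ∀ w ∈ ws, C w) (I : Set ℕ) (hI : I.OrdConnected) (c : ℚ) :
      C (c • pre q (res I ws.sum))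
  | merge (b N : ℕ) (hN : N ≤ g b) (u : Fin N → V) (hu : ∀ i, C (u i))
      (hb : ∀ i, ∀ p ∈ (u i).support, b ≤ p.1) : C (pre 0 (∑ i, u i))

/-- the classes `G_d` -/
def G : ℕ → V → Prop
  | 0, v => C v
  | d + 1, v => ∃ (b N : ℕ) (u : Fin N → V), N ≤ g b ∧ (∀ i, G d (u i)) ∧
      (∀ i, ∀ p ∈ (u i).support, b ≤ p.1) ∧ v = ∑ i, u i

/-- the norm on `c_00` -/
noncomputable def nor {𝕜 : Type} [RCLike 𝕜] (x : X0 𝕜) : ℝ :=
  sSup {t : ℝ | ∃ v, C v ∧ nrm v ≤ 1 ∧ t = ‖Phi v x‖}

/-! ## Blocks -/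

/-- `l2 a B = (∑_{k ∈ B} a_k^2)^{1/2}` -/
noncomputable def l2 (a : ℕ → ℝ) (B : Finset ℕ) : ℝ := Real.sqrt (∑ k ∈ B, (a k) ^ 2)

/-- successive intervals `[lo k, hi k]`, `k < M` -/
def Ivals (M : ℕ) (lo hi : ℕ → ℕ) : Prop :=
  (∀ k < M, lo k ≤ hi k) ∧ ∀ k, k + 1 < M → hi k < lo (k + 1)

/-- `Z` has nonzero vectors supported beyond every bound -/
def Far {𝕜 : Type} [RCLike 𝕜] (Z : Submodule 𝕜 (X0 𝕜)) : Prop := ∀ N : ℕ, ∃ z ∈ Z, z ≠ 0 ∧ ∀ l ∈ z.support, N < l

end H94.WH

end S_Defs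

section S_KS

/-!
# MODULE KS: the families `K_n` (section 1 of /team-store/H94_WH.md)
All by induction on `n`. `Kset (n+1) A ↔ ∃ b N F, N ≤ g b ∧ (∀ i, Kset n (F i)) ∧ (∀ a ∈ A, b ≤ a) ∧ A = ⋃ F i`.
(In `Kset.succ_finset` re-index a finset by `Fin s.card` (`Finset.equivFin`).)
-/

set_option autoImplicit false

namespace H94.WH

open Finset

theorem g_mono : Monotone g := by
  intro a b h
  unfold g
  exact Nat.pow_le_pow_right (by norm_num) (by omega)
theorem five_le_g (b : ℕ) : 5 ≤ g b := by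
  unfold g
  calc 5 = 5 ^ 1 := by norm_num
    _ ≤ 5 ^ (4 * b + 2) := Nat.pow_le_pow_right (by norm_num) (by omega)
theorem exists_le_g (K : ℕ) : ∃ b, K ≤ g b := by
  refine ⟨K, ?_⟩
  unfold g
  calc K ≤ 4 * K + 2 := by omega
    _ ≤ 5 ^ (4 * K + 2) := (Nat.lt_pow_self (by norm_num)).le

theorem Kset.empty (n : ℕ) : Kset n ∅ := by
  cases n with
  | zero => simp [Kset]
  | succ n =>
    refine ⟨0, 0, fun i => i.elim0, Nat.zero_le _, fun i => i.elim0, by simp, by simp⟩
/-- hereditary -/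
theorem Kset.sub {n : ℕ} {A B : Finset ℕ} (h : Kset n A) (hB : B ⊆ A) : Kset n B := by
  induction n generalizing A B with
  | zero => exact le_trans (Finset.card_le_card hB) h
  | succ n ih =>
    obtain ⟨b, N, F, hN, hF, hb, rfl⟩ := h
    refine ⟨b, N, fun i => F i ∩ B, hN, fun i => ih (hF i) Finset.inter_subset_left,
      fun a ha => hb a (hB ha), ?_⟩
    ext a
    simp only [Finset.mem_biUnion, Finset.mem_univ, true_and, Finset.mem_inter]
    constructor
    · intro ha
      have := hB ha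
      simp only [Finset.mem_biUnion, Finset.mem_univ, true_and] at this
      obtain ⟨i, hi⟩ := this
      exact ⟨i, hi, ha⟩
    · rintro ⟨i, _, ha⟩
      exact ha
theorem Kset.mono {n n' : ℕ} (hn : n ≤ n') {A : Finset ℕ} (h : Kset n A) : Kset n' A := by
  induction n', hn using Nat.le_induction with
  | base => exact h
  | succ k _ ih =>
    refine ⟨0, 1, fun _ => A, le_trans (by norm_num) (five_le_g 0), fun _ => ih, by simp, ?_⟩
    ext a
    simp
theorem Kset.single (n a : ℕ) : Kset n {a} := by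
  apply Kset.mono (Nat.zero_le n)
  simp [Kset]
/-- union of at most `g b` members contained in `[b, ∞)` -/
theorem Kset.succ_finset {ι : Type*} {n b : ℕ} (s : Finset ι) (F : ι → Finset ℕ) (hs : s.card ≤ g b)
    (hF : ∀ i ∈ s, Kset n (F i)) (hb : ∀ i ∈ s, ∀ a ∈ F i, b ≤ a) : Kset (n + 1) (s.biUnion F) := by
  refine ⟨b, s.card, fun i => F (s.equivFin.symm i : ι), hs, fun i => hF _ (s.equivFin.symm i).2, ?_, ?_⟩
  · intro a ha
    obtain ⟨i, hi, hai⟩ := Finset.mem_biUnion.mp ha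
    exact hb i hi a hai
  · ext a
    simp only [Finset.mem_biUnion, Finset.mem_univ, true_and]
    constructor
    · rintro ⟨i, hi, ha⟩
      refine ⟨s.equivFin ⟨i, hi⟩, ?_⟩
      simpa using ha
    · rintro ⟨i, ha⟩
      exact ⟨_, (s.equivFin.symm i).2, ha⟩
theorem Kset.succ_fin {n b N : ℕ} (F : Fin N → Finset ℕ) (hN : N ≤ g b)
    (hF : ∀ i, Kset n (F i)) (hb : ∀ i, ∀ a ∈ F i, b ≤ a) :
    Kset (n + 1) (Finset.univ.biUnion F) := by
  apply Kset.succ_finset (b := b)
  · simpa using hN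
  · intro i _
    exact hF i
  · intro i _
    exact hb i
/-- (b = 0, `g 0 = 5`) -/
theorem Kset.union {n : ℕ} {A B : Finset ℕ} (hA : Kset n A) (hB : Kset n B) : Kset (n + 1) (A ∪ B) := by
  have h := Kset.succ_finset (n := n) (b := 0) (Finset.univ : Finset Bool)
    (fun i => if i then A else B) (le_trans (by simp) (five_le_g 0))
    (by
      intro i _
      cases i
      · simpa using hB
      · simpa using hA) (by intro i _ a _; exact Nat.zero_le _)
  convert h using 1
  ext a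
  simp only [Finset.mem_union, Finset.mem_biUnion, Finset.mem_univ, true_and]
  constructor
  · rintro (ha | ha)
    · exact ⟨true, by simpa using ha⟩
    · exact ⟨false, by simpa using ha⟩
  · rintro ⟨i, hi⟩
    cases i
    · right
      simpa using hi
    · left
      simpa using hi
theorem Kset.of_card {b : ℕ} {A : Finset ℕ} (hA : A.card ≤ g b) (hb : ∀ a ∈ A, b ≤ a) : Kset 1 A := by
  have h := Kset.succ_finset (n := 0) (b := b) A (fun a => ({a} : Finset ℕ)) hA
    (fun i _ => Kset.single 0 i) (by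
      intro i hi a ha
      rw [Finset.mem_singleton] at ha
      rw [ha]
      exact hb i hi)
  rwa [Finset.biUnion_singleton_eq_self] at h
/-- spreading -/
theorem Kset.image {n : ℕ} {A : Finset ℕ} (h : Kset n A) (φ : ℕ → ℕ) (hφ : ∀ a ∈ A, a ≤ φ a) :
    Kset n (A.image φ) := by
  induction n generalizing A with
  | zero => exact le_trans Finset.card_image_le h
  | succ n ih =>
    obtain ⟨b, N, F, hN, hF, hb, rfl⟩ := h
    refine ⟨b, N, fun i => (F i).image φ, hN, fun i => ih (hF i) ?_, ?_, ?_⟩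
    · intro a ha
      exact hφ a (Finset.mem_biUnion.mpr ⟨i, Finset.mem_univ _, ha⟩)
    · intro a ha
      obtain ⟨c, hc, rfl⟩ := Finset.mem_image.mp ha
      exact le_trans (hb c hc) (hφ c hc)
    · ext a
      simp only [Finset.mem_image, Finset.mem_biUnion, Finset.mem_univ, true_and]
      constructor
      · rintro ⟨c, ⟨i, hi⟩, hc⟩
        exact ⟨i, c, hi, hc⟩
      · rintro ⟨i, c, hi, hc⟩
        exact ⟨c, ⟨i, hi⟩, hc⟩
/-- spreading, convenient form: every element of `B` is above an element of `A`, different ones for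
different elements of `B` -/
theorem Kset.of_inj {n : ℕ} {A B : Finset ℕ} (h : Kset n A) (ψ : ℕ → ℕ) (hψ : ∀ b ∈ B, ψ b ∈ A ∧ ψ b ≤ b)
    (hinj : ∀ b ∈ B, ∀ b' ∈ B, ψ b = ψ b' → b = b') : Kset n B := by
  induction n generalizing A B with
  | zero =>
    refine le_trans ?_ h
    exact Finset.card_le_card_of_injOn ψ (fun b hb => (hψ b hb).1)
      (fun b hb b' hb' e => hinj b hb b' hb' e)
  | succ n ih =>
    obtain ⟨b, N, F, hN, hF, hb, rfl⟩ := h
    refine ⟨b, N, fun i => B.filter (fun x => ψ x ∈ F i), hN, fun i => ih (hF i) ?_ ?_, ?_, ?_⟩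
    · intro x hx
      rw [Finset.mem_filter] at hx
      exact ⟨hx.2, (hψ x hx.1).2⟩
    · intro x hx y hy e
      rw [Finset.mem_filter] at hx hy
      exact hinj x hx.1 y hy.1 e
    · intro x hx
      exact le_trans (hb _ (hψ x hx).1) (hψ x hx).2
    · ext x
      simp only [Finset.mem_filter, Finset.mem_biUnion, Finset.mem_univ, true_and]
      constructor
      · intro hx
        have := (hψ x hx).1
        simp only [Finset.mem_biUnion, Finset.mem_univ, true_and] at this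
        obtain ⟨i, hi⟩ := this
        exact ⟨i, hx, hi⟩
      · rintro ⟨i, hx, _⟩
        exact hx
/-- composition -/
theorem Kset.comp {n k : ℕ} {A : Finset ℕ} (h : Kset n A) (B : ℕ → Finset ℕ) (hB : ∀ a ∈ A, Kset k (B a))
    (hb : ∀ a ∈ A, ∀ x ∈ B a, a ≤ x) : Kset (n + k) (A.biUnion B) := by
  induction n generalizing A with
  | zero =>
    have h1 : A.card ≤ 1 := h
    rw [Finset.card_le_one_iff_subset_singleton] at h1
    obtain ⟨a, ha⟩ := h1
    by_cases haA : a ∈ A
    · apply Kset.mono (n := k) (by omega)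
      apply Kset.sub (hB a haA)
      intro x hx
      obtain ⟨c, hc, hxc⟩ := Finset.mem_biUnion.mp hx
      have := Finset.mem_singleton.mp (ha hc)
      rwa [this] at hxc
    · have hA : A = ∅ := by
        apply Finset.eq_empty_of_forall_notMem
        intro c hc
        have := Finset.mem_singleton.mp (ha hc)
        exact haA (this ▸ hc)
      rw [hA]
      simpa using Kset.empty (0 + k)
  | succ n ih =>
    obtain ⟨b, N, F, hN, hF, hb', rfl⟩ := h
    have e : n + 1 + k = (n + k) + 1 := by ring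
    rw [e]
    refine ⟨b, N, fun i => (F i).biUnion B, hN, fun i => ih (hF i) ?_ ?_, ?_, ?_⟩
    · intro a ha
      exact hB a (Finset.mem_biUnion.mpr ⟨i, Finset.mem_univ _, ha⟩)
    · intro a ha
      exact hb a (Finset.mem_biUnion.mpr ⟨i, Finset.mem_univ _, ha⟩)
    · intro x hx
      obtain ⟨c, hc, hxc⟩ := Finset.mem_biUnion.mp hx
      exact le_trans (hb' c hc) (hb c hc x hxc)
    · ext x
      simp only [Finset.mem_biUnion, Finset.mem_univ, true_and]
      constructor
      · rintro ⟨c, ⟨i, hi⟩, hc⟩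
        exact ⟨i, c, hi, hc⟩
      · rintro ⟨i, c, hi, hc⟩
        exact ⟨c, ⟨i, hi⟩, hc⟩

end H94.WH

end S_KS

section S_PAR

/-!
# MODULE PAR: inequalities between the parameters
`m s = 2^(2^(s+1))`, `nn s = 2^((s+5)^2)`. Hint for the sums: `(m s)⁻¹ ≤ 4⁻¹ ^ (s+1)` and, for `s ≥ t`,
`(m s)⁻¹ ≤ (m t)⁻¹ * 4⁻¹^(s-t)`; compare with a geometric series. For `par1`: `nn p = 2^(2p+9) * nn (p-1)` and `2^(p+1) ≤ nn (p-1)`.
-/

set_option autoImplicit false

namespace H94.WH

open Finset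

theorem m_succ (s : ℕ) : m (s + 1) = m s ^ 2 := by
  unfold m
  rw [← pow_mul]
  congr 1
theorem four_le_m (s : ℕ) : 4 ≤ m s := by
  unfold m
  have h1 : 2 ≤ 2 ^ (s + 1) := by
    have := Nat.one_le_two_pow (n := s)
    rw [pow_succ]
    omega
  calc 4 = 2 ^ 2 := by norm_num
    _ ≤ 2 ^ (2 ^ (s + 1)) := Nat.pow_le_pow_right (by norm_num) h1
theorem m_pos (s : ℕ) : (0 : ℝ) < m s := by
  have := four_le_m s
  exact_mod_cast (by omega : 0 < m s)
theorem m_strictMono : StrictMono m := by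
  apply strictMono_nat_of_lt_succ
  intro s
  rw [m_succ]
  have := four_le_m s
  nlinarith
theorem m_zero : m 0 = 4 := by
  simp [m]

theorem PAR_m_add (t k : ℕ) : m t * 4 ^ k ≤ m (t + k) := by
  induction k with
  | zero => simp
  | succ k ih =>
    rw [← add_assoc, m_succ, pow_succ]
    have := four_le_m (t + k)
    nlinarith

theorem PAR_geom (N : ℕ) : ∑ k ∈ Finset.range N, ((4 : ℝ)⁻¹) ^ k ≤ 4 / 3 := by
  have h : ∑ k ∈ Finset.range N, ((4 : ℝ)⁻¹) ^ k = 4 / 3 * (1 - (4 : ℝ)⁻¹ ^ N) := by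
    induction N with
    | zero => simp
    | succ N ih =>
      rw [Finset.sum_range_succ, ih, pow_succ]
      ring
  rw [h]
  have : (0 : ℝ) ≤ (4 : ℝ)⁻¹ ^ N := by positivity
  nlinarith

theorem PAR_inv_le (t s : ℕ) (h : t ≤ s) : ((m s : ℝ))⁻¹ ≤ ((m t : ℝ))⁻¹ * (4 : ℝ)⁻¹ ^ (s - t) := by
  have h1 := PAR_m_add t (s - t)
  rw [Nat.add_sub_cancel' h] at h1
  have h2 : (m t : ℝ) * 4 ^ (s - t) ≤ m s := by exact_mod_cast h1
  have h3 : (0 : ℝ) < (m t : ℝ) * 4 ^ (s - t) := mul_pos (m_pos t) (by positivity)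
  rw [inv_pow, ← mul_inv]
  exact inv_anti₀ h3 h2

theorem PAR_tail (S : Finset ℕ) (t : ℕ) (h : ∀ s ∈ S, t ≤ s) :
    ∑ s ∈ S, ((m s : ℝ))⁻¹ ≤ 4 / 3 * ((m t : ℝ))⁻¹ := by
  have h1 : ∑ s ∈ S, ((m s : ℝ))⁻¹ ≤ ∑ s ∈ S, ((m t : ℝ))⁻¹ * (4 : ℝ)⁻¹ ^ (s - t) :=
    Finset.sum_le_sum fun s hs => PAR_inv_le t s (h s hs)
  have h2 : ∑ s ∈ S, (4 : ℝ)⁻¹ ^ (s - t) = ∑ k ∈ S.image (fun s => s - t), (4 : ℝ)⁻¹ ^ k := by
    rw [Finset.sum_image]
    intro a ha b hb hab
    have := h a ha
    have := h b hb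
    simp only at hab
    omega
  obtain ⟨N, hN⟩ := (S.image (fun s => s - t)).exists_nat_subset_range
  have h3 : ∑ k ∈ S.image (fun s => s - t), (4 : ℝ)⁻¹ ^ k ≤ ∑ k ∈ Finset.range N, (4 : ℝ)⁻¹ ^ k :=
    Finset.sum_le_sum_of_subset_of_nonneg hN (fun _ _ _ => by positivity)
  have h4 := PAR_geom N
  rw [← Finset.mul_sum, h2] at h1
  have h5 : (0 : ℝ) ≤ ((m t : ℝ))⁻¹ := (inv_pos.2 (m_pos t)).le
  calc ∑ s ∈ S, ((m s : ℝ))⁻¹ ≤ ((m t : ℝ))⁻¹ * ∑ k ∈ S.image (fun s => s - t), (4 : ℝ)⁻¹ ^ k := h1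
    _ ≤ ((m t : ℝ))⁻¹ * (4 / 3) := mul_le_mul_of_nonneg_left (h3.trans h4) h5
    _ = 4 / 3 * ((m t : ℝ))⁻¹ := mul_comm _ _
/-- `∑_{s < q} 1/m_s ≤ 1/2` -/
theorem sum_inv_m_le (q : ℕ) : ∑ s ∈ Finset.range q, ((m s : ℝ))⁻¹ ≤ 1 / 2 := by
  have h1 := PAR_tail (Finset.range q) 0 (fun s _ => Nat.zero_le s)
  rw [m_zero] at h1
  norm_num at h1
  linarith
/-- `∑_{s ∈ S} 1/m_s ≤ 2/m_t` if all elements of `S` are `≥ t` -/
theorem sum_inv_m_tail (S : Finset ℕ) (t : ℕ) (h : ∀ s ∈ S, t ≤ s) : ∑ s ∈ S, ((m s : ℝ))⁻¹ ≤ 2 / m t := by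
  have h1 := PAR_tail S t h
  have h5 : (0 : ℝ) ≤ ((m t : ℝ))⁻¹ := (inv_pos.2 (m_pos t)).le
  rw [div_eq_mul_inv]
  linarith
/-- any finite sum of `1/m_s` over different symbols is `≤ 1/2` -/
theorem sum_inv_m_all (S : Finset ℕ) : ∑ s ∈ S, ((m s : ℝ))⁻¹ ≤ 1 / 2 := by
  have h1 := PAR_tail S 0 (fun s _ => Nat.zero_le s)
  rw [m_zero] at h1
  norm_num at h1
  linarith
theorem two_pow_inv (p : ℕ) : ((2 : ℝ)⁻¹) ^ (2 ^ (p + 1)) = ((m p : ℝ))⁻¹ := by
  unfold m
  rw [inv_pow]
  push_cast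
  rfl
theorem two_pow_inv' (q : ℕ) : ((2 : ℝ)⁻¹) ^ (2 ^ (q + 2)) = ((m (q + 1) : ℝ))⁻¹ :=
  two_pow_inv (q + 1)
theorem exists_m_ge (c : ℝ) : ∃ s, c ≤ m s := by
  obtain ⟨s, hs⟩ := exists_nat_ge c
  refine ⟨s, hs.trans ?_⟩
  exact_mod_cast m_strictMono.id_le s

/-- complexity bound in Lemma IS -/
def cc (q r d : ℕ) : ℕ := r * (nn (q - 1) + d + r + 6)

theorem nn_mono : Monotone nn := by
  intro a b hab
  unfold nn
  exact Nat.pow_le_pow_right (by norm_num) (Nat.pow_le_pow_left (by omega) 2)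
theorem one_le_nn (s : ℕ) : 1 ≤ nn s := Nat.one_le_two_pow

theorem PAR_two_pow_le_nn {a b : ℕ} (h : a ≤ (b + 5) ^ 2) : 2 ^ a ≤ nn b :=
  Nat.pow_le_pow_right (by norm_num) h

theorem PAR_nn_succ (s : ℕ) : nn (s + 1) = 2 ^ (2 * s + 11) * nn s := by
  unfold nn
  rw [← pow_add]
  congr 1
  ring
theorem cc_mono {q r d d' : ℕ} (h : d ≤ d') : cc q r d ≤ cc q r d' := by
  unfold cc
  exact Nat.mul_le_mul_left _ (by omega)
theorem cc_step0 (q r d : ℕ) : cc q r (d + 1) + 1 ≤ cc q (r + 1) d := by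
  unfold cc
  nlinarith [Nat.zero_le (nn (q - 1)), Nat.zero_le r, Nat.zero_le d]
theorem cc_stepS (q r d : ℕ) : nn (q - 1) + d + cc q r d + 1 + 1 ≤ cc q (r + 1) d := by
  unfold cc
  nlinarith [Nat.zero_le (nn (q - 1)), Nat.zero_le r, Nat.zero_le d]
theorem cc_stepQ (q r d : ℕ) : d + 3 + 1 ≤ cc q (r + 1) d := by
  unfold cc
  nlinarith [Nat.zero_le (nn (q - 1)), Nat.zero_le r, Nat.zero_le d,
    Nat.zero_le (r * (nn (q - 1) + d + (r + 1) + 6))]
theorem par1 (p : ℕ) (hp : 1 ≤ p) :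
    nn (p - 1) + nn (p - 1) + cc p (2 ^ (p + 1)) (nn (p - 1)) + 2 ≤ nn p - 1 := by
  obtain ⟨s, rfl⟩ : ∃ s, p = s + 1 := ⟨p - 1, by omega⟩
  rw [Nat.add_sub_cancel]
  unfold cc
  rw [Nat.add_sub_cancel]
  have h1 : 2 ^ (s + 1 + 1) ≤ nn s := PAR_two_pow_le_nn (by nlinarith)
  have h2 : nn (s + 1) = 128 * (2 ^ (s + 1 + 1)) ^ 2 * nn s := by
    rw [PAR_nn_succ, show 2 * s + 11 = (s + 1 + 1) * 2 + 7 by ring, pow_add 2 _ 7, pow_mul,
      show (2 : ℕ) ^ 7 = 128 by norm_num]
    ring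
  have h3 : 1 ≤ 2 ^ (s + 1 + 1) := Nat.one_le_two_pow
  have h4 := one_le_nn s
  generalize 2 ^ (s + 1 + 1) = R at *
  generalize nn s = N at *
  have h5 : N + N + R * (N + N + R + 6) + 2 + 1 ≤ 14 * (R * N) := by
    have e1 : N ≤ R * N := Nat.le_mul_of_pos_left N h3
    have e2 : R ≤ R * N := Nat.le_mul_of_pos_right R h4
    have e3 : R * R ≤ R * N := Nat.mul_le_mul_left R h1
    have e4 : R * (N + N + R + 6) = 2 * (R * N) + R * R + 6 * R := by ring
    rw [e4]
    omega
  have h6 : 14 * (R * N) ≤ 128 * R ^ 2 * N := by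
    have e1 : R ≤ R ^ 2 := by nlinarith
    have e2 : R * N ≤ R ^ 2 * N := Nat.mul_le_mul_right N e1
    have e3 : 128 * R ^ 2 * N = 128 * (R ^ 2 * N) := by ring
    rw [e3]
    omega
  rw [h2]
  omega
theorem par2 (q : ℕ) (hq : 1 ≤ q) : cc q (2 ^ (q + 2)) 0 ≤ nn q - 2 := by
  obtain ⟨s, rfl⟩ : ∃ s, q = s + 1 := ⟨q - 1, by omega⟩
  unfold cc
  rw [Nat.add_sub_cancel]
  have h1 : 2 ^ (s + 1 + 2) ≤ nn s := PAR_two_pow_le_nn (by nlinarith)
  have h2 : nn (s + 1) = 32 * (2 ^ (s + 1 + 2)) ^ 2 * nn s := by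
    rw [PAR_nn_succ, show 2 * s + 11 = (s + 1 + 2) * 2 + 5 by ring, pow_add 2 _ 5, pow_mul,
      show (2 : ℕ) ^ 5 = 32 by norm_num]
    ring
  have h3 : 1 ≤ 2 ^ (s + 1 + 2) := Nat.one_le_two_pow
  have h4 := one_le_nn s
  generalize 2 ^ (s + 1 + 2) = R at *
  generalize nn s = N at *
  have h5 : R * (N + 0 + R + 6) + 2 ≤ 10 * (R * N) := by
    have e1 : N ≤ R * N := Nat.le_mul_of_pos_left N h3
    have e2 : R ≤ R * N := Nat.le_mul_of_pos_right R h4
    have e3 : R * R ≤ R * N := Nat.mul_le_mul_left R h1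
    have e4 : R * (N + 0 + R + 6) = R * N + R * R + 6 * R := by ring
    rw [e4]
    omega
  have h6 : 10 * (R * N) ≤ 32 * R ^ 2 * N := by
    have e1 : R ≤ R ^ 2 := by nlinarith
    have e2 : R * N ≤ R ^ 2 * N := Nat.mul_le_mul_right N e1
    have e3 : 32 * R ^ 2 * N = 32 * (R ^ 2 * N) := by ring
    rw [e3]
    omega
  rw [h2]
  omega
theorem par3 (q : ℕ) : nn q + 2 ^ (q + 2) ≤ nn (q + 1) := by
  have h1 : 2 ^ (q + 2) ≤ nn q := PAR_two_pow_le_nn (by nlinarith)
  have h2 : 2 * nn q ≤ nn (q + 1) := by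
    rw [PAR_nn_succ]
    apply Nat.mul_le_mul_right
    calc 2 = 2 ^ 1 := by norm_num
      _ ≤ 2 ^ (2 * q + 11) := Nat.pow_le_pow_right (by norm_num) (by omega)
  omega
theorem par4 (n : ℕ) : ∃ j, 1 ≤ j ∧ Even j ∧ (n + 1) * (2 ^ (j + 1) + 2) ≤ nn j := by
  refine ⟨2 * (n + 1), by omega, even_two_mul _, ?_⟩
  set j := 2 * (n + 1) with hj
  have h1 : n + 1 ≤ 2 ^ j := by
    have := Nat.lt_two_pow_self (n := j)
    omega
  have h2 : 2 ^ (j + 1) + 2 ≤ 2 ^ (j + 2) := by
    have := Nat.one_le_two_pow (n := j)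
    rw [pow_succ, pow_succ]
    have h3 : 1 ≤ j := by omega
    have h4 : 2 ^ 1 ≤ 2 ^ j := Nat.pow_le_pow_right (by norm_num) h3
    omega
  calc (n + 1) * (2 ^ (j + 1) + 2) ≤ 2 ^ j * 2 ^ (j + 2) := Nat.mul_le_mul h1 h2
    _ = 2 ^ (j + (j + 2)) := (pow_add 2 j (j + 2)).symm
    _ ≤ nn j := PAR_two_pow_le_nn (by nlinarith)

end H94.WH

end S_PAR

section S_VB1

/-!
# MODULE VB1: algebra of `res`, `col`, `leaf`, `pre`, `comp`
Prove the `_apply` lemmas first; then everything is `ext ⟨l, π⟩; simp [..]` with a case split on `π`.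
-/

set_option autoImplicit false

namespace H94.WH

open Finset

section apply
open Classical
theorem res_apply (J : Set ℕ) (v : V) (p : Atom) : res J v p = if p.1 ∈ J then v p else 0 := by
  unfold res; rw [Finsupp.filter_apply]
theorem leaf_apply (v : V) (p : Atom) : leaf v p = if p.2 = [] then v p else 0 := by
  unfold leaf; rw [Finsupp.filter_apply]
theorem col_apply_cons (S : Set ℕ) (v : V) (l s : ℕ) (π : List ℕ) :
    col S v (l, s :: π) = if s ∈ S then v (l, s :: π) else 0 := by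
  unfold col; rw [Finsupp.filter_apply]
  by_cases h : s ∈ S
  · rw [if_pos h, if_pos ⟨s, h, rfl⟩]
  · rw [if_neg h, if_neg]
    rintro ⟨t, ht, e⟩
    simp only [List.head?_cons, Option.some.injEq] at e
    exact h (e ▸ ht)
end apply
theorem col_apply_nil (S : Set ℕ) (v : V) (l : ℕ) : col S v (l, []) = 0 := by
  classical
  unfold col; rw [Finsupp.filter_apply, if_neg]
  rintro ⟨t, ht, e⟩
  simp at e
theorem comp_apply (s : ℕ) (v : V) (l : ℕ) (π : List ℕ) : comp s v (l, π) = v (l, s :: π) := by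
  unfold comp; rw [Finsupp.comapDomain_apply]
theorem VB1_inj (s : ℕ) : Function.Injective (fun a : Atom => ((a.1, s :: a.2) : Atom)) := by
  intro a b h
  simp only [Prod.mk.injEq, List.cons.injEq, true_and] at h
  exact Prod.ext h.1 h.2
theorem pre_apply_cons (s : ℕ) (v : V) (l : ℕ) (π : List ℕ) : pre s v (l, s :: π) = v (l, π) := by
  unfold pre
  exact Finsupp.mapDomain_apply (VB1_inj s) v (l, π)
theorem VB1_pre_not (s : ℕ) (v : V) (p : Atom) (h : ∀ a : Atom, (a.1, s :: a.2) ≠ p) : pre s v p = 0 := by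
  unfold pre
  apply Finsupp.mapDomain_of_notMem_range
  rintro ⟨a, ha⟩
  exact h a ha
theorem pre_apply_ne {s s' : ℕ} (h : s' ≠ s) (v : V) (l : ℕ) (π : List ℕ) : pre s v (l, s' :: π) = 0 := by
  apply VB1_pre_not
  intro a ha
  simp only [Prod.mk.injEq, List.cons.injEq] at ha
  exact h ha.2.1.symm
theorem pre_apply_nil (s : ℕ) (v : V) (l : ℕ) : pre s v (l, []) = 0 := by
  apply VB1_pre_not
  intro a ha
  simp only [Prod.mk.injEq] at ha
  exact absurd ha.2 (List.cons_ne_nil _ _)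

/-! supports -/
theorem mem_res {J : Set ℕ} {v : V} {p : Atom} : p ∈ (res J v).support ↔ p ∈ v.support ∧ p.1 ∈ J := by
  classical
  rw [Finsupp.mem_support_iff, Finsupp.mem_support_iff, res_apply]
  by_cases h : p.1 ∈ J <;> simp [h]
theorem mem_leaf {v : V} {p : Atom} : p ∈ (leaf v).support ↔ p ∈ v.support ∧ p.2 = [] := by
  classical
  rw [Finsupp.mem_support_iff, Finsupp.mem_support_iff, leaf_apply]
  by_cases h : p.2 = [] <;> simp [h]
theorem mem_col {S : Set ℕ} {v : V} {p : Atom} :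
    p ∈ (col S v).support ↔ p ∈ v.support ∧ ∃ s ∈ S, ∃ π, p.2 = s :: π := by
  classical
  obtain ⟨l, π⟩ := p
  rw [Finsupp.mem_support_iff, Finsupp.mem_support_iff]
  cases π with
  | nil => simp [col_apply_nil]
  | cons s π =>
    rw [col_apply_cons]
    by_cases h : s ∈ S
    · simp [h]
    · simp only [h, if_false]
      constructor
      · intro h'; exact absurd rfl h'
      · rintro ⟨-, t, ht, π', e⟩
        simp only [List.cons.injEq] at e
        exact absurd (e.1 ▸ ht) h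
theorem mem_comp {s : ℕ} {v : V} {p : Atom} : p ∈ (comp s v).support ↔ (p.1, s :: p.2) ∈ v.support := by
  rw [Finsupp.mem_support_iff, Finsupp.mem_support_iff]
  obtain ⟨l, π⟩ := p
  rw [comp_apply]
theorem mem_pre {s : ℕ} {v : V} {p : Atom} :
    p ∈ (pre s v).support ↔ ∃ q ∈ v.support, p = (q.1, s :: q.2) := by
  obtain ⟨l, π⟩ := p
  rw [Finsupp.mem_support_iff]
  constructor
  · intro h
    cases π with
    | nil => exact absurd (pre_apply_nil s v l) h
    | cons s' π =>
      by_cases e : s' = s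
      · subst e
        rw [pre_apply_cons] at h
        exact ⟨(l, π), Finsupp.mem_support_iff.2 h, rfl⟩
      · exact absurd (pre_apply_ne e v l π) h
  · rintro ⟨⟨l', π'⟩, hq, e⟩
    simp only [Prod.mk.injEq] at e
    obtain ⟨rfl, rfl⟩ := e
    rw [pre_apply_cons]
    exact Finsupp.mem_support_iff.1 hq

/-! additivity -/
theorem res_zero (J : Set ℕ) : res J (0 : V) = 0 := by
  
  classical
  unfold res; exact Finsupp.filter_zero _
theorem res_add (J : Set ℕ) (v w : V) : res J (v + w) = res J v + res J w := by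
  
  classical
  unfold res; exact Finsupp.filter_add
theorem res_smul (J : Set ℕ) (c : ℚ) (v : V) : res J (c • v) = c • res J v := by
  
  classical
  unfold res; exact Finsupp.filter_smul
theorem res_sum {ι : Type*} (J : Set ℕ) (s : Finset ι) (u : ι → V) :
    res J (∑ i ∈ s, u i) = ∑ i ∈ s, res J (u i) := by
  classical
  induction s using Finset.induction_on with
  | empty => simp [res_zero]
  | insert a s ha ih => rw [Finset.sum_insert ha, Finset.sum_insert ha, res_add, ih]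
theorem col_zero (S : Set ℕ) : col S (0 : V) = 0 := by
  
  classical
  unfold col; exact Finsupp.filter_zero _
theorem col_add (S : Set ℕ) (v w : V) : col S (v + w) = col S v + col S w := by
  
  classical
  unfold col; exact Finsupp.filter_add
theorem col_smul (S : Set ℕ) (c : ℚ) (v : V) : col S (c • v) = c • col S v := by
  
  classical
  unfold col; exact Finsupp.filter_smul
theorem col_sum {ι : Type*} (S : Set ℕ) (s : Finset ι) (u : ι → V) :
    col S (∑ i ∈ s, u i) = ∑ i ∈ s, col S (u i) := by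
  classical
  induction s using Finset.induction_on with
  | empty => simp [col_zero]
  | insert a s ha ih => rw [Finset.sum_insert ha, Finset.sum_insert ha, col_add, ih]
theorem leaf_zero : leaf (0 : V) = 0 := by
  
  classical
  unfold leaf; exact Finsupp.filter_zero _
theorem leaf_add (v w : V) : leaf (v + w) = leaf v + leaf w := by
  
  classical
  unfold leaf; exact Finsupp.filter_add
theorem leaf_smul (c : ℚ) (v : V) : leaf (c • v) = c • leaf v := by
  
  classical
  unfold leaf; exact Finsupp.filter_smul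
theorem leaf_sum {ι : Type*} (s : Finset ι) (u : ι → V) :
    leaf (∑ i ∈ s, u i) = ∑ i ∈ s, leaf (u i) := by
  classical
  induction s using Finset.induction_on with
  | empty => simp [leaf_zero]
  | insert a s ha ih => rw [Finset.sum_insert ha, Finset.sum_insert ha, leaf_add, ih]
theorem comp_zero (t : ℕ) : comp t (0 : V) = 0 := by
  ext ⟨l, π⟩; rw [comp_apply]; rfl
theorem comp_add (t : ℕ) (v w : V) : comp t (v + w) = comp t v + comp t w := by
  ext ⟨l, π⟩; rw [Finsupp.add_apply, comp_apply, comp_apply, comp_apply, Finsupp.add_apply]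
theorem comp_smul (t : ℕ) (c : ℚ) (v : V) : comp t (c • v) = c • comp t v := by
  ext ⟨l, π⟩; rw [Finsupp.smul_apply, comp_apply, comp_apply, Finsupp.smul_apply]
theorem comp_sum {ι : Type*} (t : ℕ) (s : Finset ι) (u : ι → V) :
    comp t (∑ i ∈ s, u i) = ∑ i ∈ s, comp t (u i) := by
  classical
  induction s using Finset.induction_on with
  | empty => simp [comp_zero]
  | insert a s ha ih => rw [Finset.sum_insert ha, Finset.sum_insert ha, comp_add, ih]
theorem pre_zero (t : ℕ) : pre t (0 : V) = 0 := by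
  unfold pre; exact Finsupp.mapDomain_zero
theorem pre_add (t : ℕ) (v w : V) : pre t (v + w) = pre t v + pre t w := by
  unfold pre; exact Finsupp.mapDomain_add
theorem pre_smul (t : ℕ) (c : ℚ) (v : V) : pre t (c • v) = c • pre t v := by
  unfold pre; exact Finsupp.mapDomain_smul c v
theorem pre_sum {ι : Type*} (t : ℕ) (s : Finset ι) (u : ι → V) :
    pre t (∑ i ∈ s, u i) = ∑ i ∈ s, pre t (u i) := by
  classical
  induction s using Finset.induction_on with
  | empty => simp [pre_zero]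
  | insert a s ha ih => rw [Finset.sum_insert ha, Finset.sum_insert ha, pre_add, ih]

end H94.WH

end S_VB1

section S_VB1b

/-!
# MODULE VB1b: interplay of `res`, `col`, `leaf`, `pre`, `comp`
Everything is `ext ⟨l, π⟩; cases π; simp [res_apply, col_apply_cons, ..]` (the `_apply` lemmas of VB1). `col_finset`: `Finsupp.finsetSum_apply`.
`exists_bound`: `Q` = a bound for all first symbols in the (finite) support.
-/

set_option autoImplicit false

namespace H94.WH

open Finset

theorem VB1b_res_in {J : Set ℕ} {v : V} {p : Atom} (h : p.1 ∈ J) : res J v p = v p := by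
  classical
  rw [res_apply, if_pos h]
theorem VB1b_res_out {J : Set ℕ} {v : V} {p : Atom} (h : p.1 ∉ J) : res J v p = 0 := by
  classical
  rw [res_apply, if_neg h]
theorem VB1b_col_in {S : Set ℕ} {v : V} {l s : ℕ} {π : List ℕ} (h : s ∈ S) : col S v (l, s :: π) = v (l, s :: π) := by
  classical
  rw [col_apply_cons, if_pos h]
theorem VB1b_col_out {S : Set ℕ} {v : V} {l s : ℕ} {π : List ℕ} (h : s ∉ S) : col S v (l, s :: π) = 0 := by
  classical
  rw [col_apply_cons, if_neg h]
theorem VB1b_leaf_nil (v : V) (l : ℕ) : leaf v (l, []) = v (l, []) := by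
  classical
  rw [leaf_apply, if_pos rfl]
theorem VB1b_leaf_cons (v : V) (l s : ℕ) (π : List ℕ) : leaf v (l, s :: π) = 0 := by
  classical
  rw [leaf_apply, if_neg (List.cons_ne_nil _ _)]

/-! interplay -/
theorem res_res (J K : Set ℕ) (v : V) : res J (res K v) = res (J ∩ K) v := by
  ext p
  by_cases hJ : p.1 ∈ J
  · by_cases hK : p.1 ∈ K
    · rw [VB1b_res_in hJ, VB1b_res_in hK, VB1b_res_in (J := J ∩ K) ⟨hJ, hK⟩]
    · rw [VB1b_res_in hJ, VB1b_res_out hK, VB1b_res_out (fun h => hK h.2)]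
  · rw [VB1b_res_out hJ, VB1b_res_out (fun h => hJ h.1)]
theorem res_eq_self {J : Set ℕ} {v : V} (h : ∀ p ∈ v.support, p.1 ∈ J) : res J v = v := by
  ext p
  by_cases hp : p ∈ v.support
  · rw [VB1b_res_in (h p hp)]
  · have h0 : v p = 0 := Finsupp.notMem_support_iff.1 hp
    by_cases hJ : p.1 ∈ J
    · rw [VB1b_res_in hJ]
    · rw [VB1b_res_out hJ, h0]
theorem res_eq_zero {J : Set ℕ} {v : V} (h : ∀ p ∈ v.support, p.1 ∉ J) : res J v = 0 := by
  ext p
  by_cases hp : p ∈ v.support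
  · rw [VB1b_res_out (h p hp)]; rfl
  · have h0 : v p = 0 := Finsupp.notMem_support_iff.1 hp
    by_cases hJ : p.1 ∈ J
    · rw [VB1b_res_in hJ, h0]; rfl
    · rw [VB1b_res_out hJ]; rfl
theorem res_congr {J K : Set ℕ} {v : V} (h : ∀ p ∈ v.support, p.1 ∈ J ↔ p.1 ∈ K) : res J v = res K v := by
  ext p
  by_cases hp : p ∈ v.support
  · by_cases hJ : p.1 ∈ J
    · rw [VB1b_res_in hJ, VB1b_res_in ((h p hp).1 hJ)]
    · rw [VB1b_res_out hJ, VB1b_res_out (fun hK => hJ ((h p hp).2 hK))]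
  · have h0 : v p = 0 := Finsupp.notMem_support_iff.1 hp
    have : ∀ L : Set ℕ, res L v p = 0 := by
      intro L
      by_cases hL : p.1 ∈ L
      · rw [VB1b_res_in hL, h0]
      · rw [VB1b_res_out hL]
    rw [this J, this K]
theorem res_col (J S : Set ℕ) (v : V) : res J (col S v) = col S (res J v) := by
  ext ⟨l, π⟩
  by_cases hJ : l ∈ J
  · rw [VB1b_res_in (p := (l, π)) hJ]
    cases π with
    | nil => rw [col_apply_nil, col_apply_nil]
    | cons s π =>
      by_cases hs : s ∈ S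
      · rw [VB1b_col_in hs, VB1b_col_in hs, VB1b_res_in (p := (l, s :: π)) hJ]
      · rw [VB1b_col_out hs, VB1b_col_out hs]
  · rw [VB1b_res_out (p := (l, π)) hJ]
    cases π with
    | nil => rw [col_apply_nil]
    | cons s π =>
      by_cases hs : s ∈ S
      · rw [VB1b_col_in hs, VB1b_res_out (p := (l, s :: π)) hJ]
      · rw [VB1b_col_out hs]
theorem res_leaf (J : Set ℕ) (v : V) : res J (leaf v) = leaf (res J v) := by
  ext ⟨l, π⟩
  by_cases hJ : l ∈ J
  · rw [VB1b_res_in (p := (l, π)) hJ]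
    cases π with
    | nil => rw [VB1b_leaf_nil, VB1b_leaf_nil, VB1b_res_in (p := (l, [])) hJ]
    | cons s π => rw [VB1b_leaf_cons, VB1b_leaf_cons]
  · rw [VB1b_res_out (p := (l, π)) hJ]
    cases π with
    | nil => rw [VB1b_leaf_nil, VB1b_res_out (p := (l, [])) hJ]
    | cons s π => rw [VB1b_leaf_cons]
theorem res_pre (J : Set ℕ) (s : ℕ) (v : V) : res J (pre s v) = pre s (res J v) := by
  ext ⟨l, π⟩
  by_cases hJ : l ∈ J
  · rw [VB1b_res_in (p := (l, π)) hJ]
    cases π with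
    | nil => rw [pre_apply_nil, pre_apply_nil]
    | cons s' π =>
      by_cases hs : s' = s
      · subst hs
        rw [pre_apply_cons, pre_apply_cons, VB1b_res_in (p := (l, π)) hJ]
      · rw [pre_apply_ne hs, pre_apply_ne hs]
  · rw [VB1b_res_out (p := (l, π)) hJ]
    cases π with
    | nil => rw [pre_apply_nil]
    | cons s' π =>
      by_cases hs : s' = s
      · subst hs
        rw [pre_apply_cons, VB1b_res_out (p := (l, π)) hJ]
      · rw [pre_apply_ne hs]
theorem res_comp (J : Set ℕ) (s : ℕ) (v : V) : res J (comp s v) = comp s (res J v) := by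
  ext ⟨l, π⟩
  rw [comp_apply]
  by_cases hJ : l ∈ J
  · rw [VB1b_res_in (p := (l, π)) hJ, VB1b_res_in (p := (l, s :: π)) hJ, comp_apply]
  · rw [VB1b_res_out (p := (l, π)) hJ, VB1b_res_out (p := (l, s :: π)) hJ]
theorem col_col (S T : Set ℕ) (v : V) : col S (col T v) = col (S ∩ T) v := by
  ext ⟨l, π⟩
  cases π with
  | nil => rw [col_apply_nil, col_apply_nil]
  | cons s π =>
    by_cases hS : s ∈ S
    · by_cases hT : s ∈ T
      · rw [VB1b_col_in hS, VB1b_col_in hT, VB1b_col_in (S := S ∩ T) ⟨hS, hT⟩]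
      · rw [VB1b_col_in hS, VB1b_col_out hT, VB1b_col_out (fun h => hT h.2)]
    · rw [VB1b_col_out hS, VB1b_col_out (fun h => hS h.1)]
theorem comp_pre (s : ℕ) (v : V) : comp s (pre s v) = v := by
  ext ⟨l, π⟩
  rw [comp_apply, pre_apply_cons]
theorem comp_pre_ne {s t : ℕ} (h : s ≠ t) (v : V) : comp s (pre t v) = 0 := by
  ext ⟨l, π⟩
  rw [comp_apply, pre_apply_ne h]; rfl
theorem pre_comp (s : ℕ) (v : V) : pre s (comp s v) = col {s} v := by
  ext ⟨l, π⟩
  cases π with
  | nil => rw [pre_apply_nil, col_apply_nil]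
  | cons s' π =>
    by_cases hs : s' = s
    · subst hs
      rw [pre_apply_cons, comp_apply, VB1b_col_in (Set.mem_singleton s')]
    · rw [pre_apply_ne hs, VB1b_col_out (by simpa using hs)]
theorem col_pre_mem {S : Set ℕ} {s : ℕ} (h : s ∈ S) (v : V) : col S (pre s v) = pre s v := by
  ext ⟨l, π⟩
  cases π with
  | nil => rw [col_apply_nil, pre_apply_nil]
  | cons s' π =>
    by_cases hs : s' = s
    · subst hs
      rw [VB1b_col_in h]
    · by_cases hS : s' ∈ S
      · rw [VB1b_col_in hS]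
      · rw [VB1b_col_out hS, pre_apply_ne hs]
theorem col_pre_not {S : Set ℕ} {s : ℕ} (h : s ∉ S) (v : V) : col S (pre s v) = 0 := by
  ext ⟨l, π⟩
  cases π with
  | nil => rw [col_apply_nil]; rfl
  | cons s' π =>
    by_cases hs : s' = s
    · subst hs
      rw [VB1b_col_out h]; rfl
    · by_cases hS : s' ∈ S
      · rw [VB1b_col_in hS, pre_apply_ne hs]; rfl
      · rw [VB1b_col_out hS]; rfl
theorem comp_col_mem {S : Set ℕ} {s : ℕ} (h : s ∈ S) (v : V) : comp s (col S v) = comp s v := by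
  ext ⟨l, π⟩
  rw [comp_apply, comp_apply, VB1b_col_in h]
theorem comp_col_not {S : Set ℕ} {s : ℕ} (h : s ∉ S) (v : V) : comp s (col S v) = 0 := by
  ext ⟨l, π⟩
  rw [comp_apply, VB1b_col_out h]; rfl
theorem leaf_pre (s : ℕ) (v : V) : leaf (pre s v) = 0 := by
  ext ⟨l, π⟩
  cases π with
  | nil => rw [VB1b_leaf_nil, pre_apply_nil]; rfl
  | cons s' π => rw [VB1b_leaf_cons]; rfl
theorem leaf_col (S : Set ℕ) (v : V) : leaf (col S v) = 0 := by
  ext ⟨l, π⟩
  cases π with
  | nil => rw [VB1b_leaf_nil, col_apply_nil]; rfl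
  | cons s' π => rw [VB1b_leaf_cons]; rfl
theorem leaf_leaf (v : V) : leaf (leaf v) = leaf v := by
  ext ⟨l, π⟩
  cases π with
  | nil => rw [VB1b_leaf_nil]
  | cons s' π => rw [VB1b_leaf_cons, VB1b_leaf_cons]
theorem col_leaf (S : Set ℕ) (v : V) : col S (leaf v) = 0 := by
  ext ⟨l, π⟩
  cases π with
  | nil => rw [col_apply_nil]; rfl
  | cons s' π =>
    by_cases hS : s' ∈ S
    · rw [VB1b_col_in hS, VB1b_leaf_cons]; rfl
    · rw [VB1b_col_out hS]; rfl
theorem comp_leaf (s : ℕ) (v : V) : comp s (leaf v) = 0 := by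
  ext ⟨l, π⟩
  rw [comp_apply, VB1b_leaf_cons]; rfl
theorem VB1b_single_cons (l : ℕ) (c : ℚ) (l' s : ℕ) (π : List ℕ) : (Finsupp.single (l, []) c : V) (l', s :: π) = 0 := by
  classical
  rw [Finsupp.single_apply, if_neg]
  intro h
  exact List.cons_ne_nil s π (Prod.mk.inj h).2.symm
theorem leaf_single (l : ℕ) (c : ℚ) : leaf (Finsupp.single (l, []) c) = Finsupp.single (l, []) c := by
  ext ⟨l', π⟩
  cases π with
  | nil => rw [VB1b_leaf_nil]
  | cons s' π => rw [VB1b_leaf_cons, VB1b_single_cons]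
theorem col_single (S : Set ℕ) (l : ℕ) (c : ℚ) : col S (Finsupp.single (l, []) c) = 0 := by
  rw [← leaf_single, col_leaf]
theorem comp_single (s l : ℕ) (c : ℚ) : comp s (Finsupp.single (l, []) c) = 0 := by
  rw [← leaf_single, comp_leaf]
theorem leaf_add_col (v : V) : leaf v + col Set.univ v = v := by
  ext ⟨l, π⟩
  rw [Finsupp.add_apply]
  cases π with
  | nil => rw [VB1b_leaf_nil, col_apply_nil, add_zero]
  | cons s' π => rw [VB1b_leaf_cons, VB1b_col_in (Set.mem_univ _), zero_add]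
theorem col_union {S T : Set ℕ} (h : Disjoint S T) (v : V) : col (S ∪ T) v = col S v + col T v := by
  ext ⟨l, π⟩
  rw [Finsupp.add_apply]
  cases π with
  | nil => rw [col_apply_nil, col_apply_nil, col_apply_nil, add_zero]
  | cons s π =>
    by_cases hS : s ∈ S
    · have hT : s ∉ T := fun h' => Set.disjoint_left.1 h hS h'
      rw [VB1b_col_in (S := S ∪ T) (Or.inl hS), VB1b_col_in hS, VB1b_col_out hT, add_zero]
    · by_cases hT : s ∈ T
      · rw [VB1b_col_in (S := S ∪ T) (Or.inr hT), VB1b_col_in hT, VB1b_col_out hS, zero_add]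
      · rw [VB1b_col_out (S := S ∪ T) (fun h' => h'.elim hS hT), VB1b_col_out hT, VB1b_col_out hS, zero_add]
theorem col_finset (S : Finset ℕ) (v : V) : col (S : Set ℕ) v = ∑ s ∈ S, col {s} v := by
  classical
  induction S using Finset.induction_on with
  | empty =>
    rw [Finset.sum_empty]
    ext ⟨l, π⟩
    cases π with
    | nil => rw [col_apply_nil]; rfl
    | cons s π => rw [VB1b_col_out (by simp)]; rfl
  | insert a S ha ih =>
    rw [Finset.sum_insert ha, ← ih, ← col_union (by simpa using ha), Finset.coe_insert, Set.insert_eq]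
/-- symbols occurring in `v` -/
theorem exists_bound (v : V) : ∃ Q : ℕ, (∀ s, Q ≤ s → comp s v = 0) ∧ ∀ S : Set ℕ, col S v = col (S ∩ Set.Iio Q) v := by
  classical
  have hv : ∀ p ∈ v.support, p.2.headI ≤ v.support.sup (fun p => p.2.headI) := fun p hp =>
    Finset.le_sup (f := fun p : Atom => p.2.headI) hp
  refine ⟨v.support.sup (fun p => p.2.headI) + 1, ?_, ?_⟩
  · intro s hs
    ext ⟨l, π⟩
    rw [comp_apply]
    by_contra hne
    have := hv (l, s :: π) (Finsupp.mem_support_iff.2 hne)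
    simp only [List.headI_cons] at this
    omega
  · intro S
    ext ⟨l, π⟩
    cases π with
    | nil => rw [col_apply_nil, col_apply_nil]
    | cons s π =>
      by_cases h0 : v (l, s :: π) = 0
      · have : ∀ T : Set ℕ, col T v (l, s :: π) = 0 := by
          intro T
          by_cases hT : s ∈ T
          · rw [VB1b_col_in hT, h0]
          · rw [VB1b_col_out hT]
        rw [this, this]
      · have h1 := hv (l, s :: π) (Finsupp.mem_support_iff.2 h0)
        simp only [List.headI_cons] at h1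
        have h2 : s ∈ Set.Iio (v.support.sup (fun p => p.2.headI) + 1) := Nat.lt_succ_of_le h1
        by_cases hS : s ∈ S
        · rw [VB1b_col_in hS, VB1b_col_in (S := S ∩ Set.Iio _) ⟨hS, h2⟩]
        · rw [VB1b_col_out hS, VB1b_col_out (fun h => hS h.1)]
/-- `v` = sum of its restrictions to disjoint pieces covering the support -/
theorem sum_res_eq {ι : Type*} (s : Finset ι) (J : ι → Set ℕ) (hd : ∀ i ∈ s, ∀ j ∈ s, i ≠ j → Disjoint (J i) (J j))
    (v : V) (h : ∀ p ∈ v.support, ∃ i ∈ s, p.1 ∈ J i) : ∑ i ∈ s, res (J i) v = v := by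
  classical
  ext p
  rw [Finsupp.finsetSum_apply]
  by_cases hp : p ∈ v.support
  · obtain ⟨i, hi, hpi⟩ := h p hp
    rw [Finset.sum_eq_single_of_mem i hi, VB1b_res_in hpi]
    intro j hj hji
    exact VB1b_res_out (fun hpj => Set.disjoint_left.1 (hd j hj i hi hji) hpj hpi)
  · have h0 : v p = 0 := Finsupp.notMem_support_iff.1 hp
    rw [h0]
    apply Finset.sum_eq_zero
    intro j _
    by_cases hJ : p.1 ∈ J j
    · rw [VB1b_res_in hJ, h0]
    · rw [VB1b_res_out hJ]

end H94.WH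

end S_VB1b

section S_VB2

/-!
# MODULE VB2: the Hilbert norm `nrm` of a lift
`nrm v = sqrt (∑ a ∈ v.support, (v a)^2)`. For `nrm_pre`/`nrm_comp` re-index the sums (`Finsupp.sum_mapDomain_index_inj`,
or `Finset.sum_bij`). For the sums over disjoint pieces: exchange sums, each atom is in at most one piece.
-/

set_option autoImplicit false

namespace H94.WH

open Finset

theorem nrm_nonneg (v : V) : 0 ≤ nrm v := Real.sqrt_nonneg _
theorem nrm_sq (v : V) : nrm v ^ 2 = ∑ a ∈ v.support, (v a : ℝ) ^ 2 := by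
  unfold nrm
  rw [Real.sq_sqrt (Finset.sum_nonneg fun a _ => sq_nonneg _)]
/-- sum over any finite set containing the support -/
theorem nrm_sq_of_subset (v : V) (s : Finset Atom) (h : v.support ⊆ s) : nrm v ^ 2 = ∑ a ∈ s, (v a : ℝ) ^ 2 := by
  rw [nrm_sq]
  apply Finset.sum_subset h
  intro a _ ha
  rw [Finsupp.notMem_support_iff.1 ha]; simp
theorem VB2_le {v w : V} (h : nrm v ^ 2 ≤ nrm w ^ 2) : nrm v ≤ nrm w :=
  (pow_le_pow_iff_left₀ (nrm_nonneg v) (nrm_nonneg w) two_ne_zero).1 h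
theorem nrm_zero : nrm 0 = 0 := by
  unfold nrm; simp
theorem nrm_eq_zero {v : V} (h : nrm v = 0) : v = 0 := by
  have h2 : ∑ a ∈ v.support, (v a : ℝ) ^ 2 = 0 := by rw [← nrm_sq, h]; norm_num
  rw [Finset.sum_eq_zero_iff_of_nonneg (fun a _ => sq_nonneg _)] at h2
  ext a
  by_contra ha
  have h3 := h2 a (Finsupp.mem_support_iff.2 ha)
  rw [sq_eq_zero_iff] at h3
  exact ha (by exact_mod_cast h3)
theorem nrm_smul (c : ℚ) (v : V) : nrm (c • v) = |(c : ℝ)| * nrm v := by
  have h : nrm (c • v) ^ 2 = (|(c : ℝ)| * nrm v) ^ 2 := by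
    rw [nrm_sq_of_subset (c • v) v.support Finsupp.support_smul, mul_pow, nrm_sq, sq_abs, Finset.mul_sum]
    apply Finset.sum_congr rfl
    intro a _
    rw [Finsupp.smul_apply, smul_eq_mul, Rat.cast_mul, mul_pow]
  exact (pow_left_inj₀ (nrm_nonneg _) (mul_nonneg (abs_nonneg _) (nrm_nonneg v)) two_ne_zero).1 h
theorem nrm_single (p : Atom) (c : ℚ) : nrm (Finsupp.single p c) = |(c : ℝ)| := by
  classical
  have h : nrm (Finsupp.single p c) ^ 2 = |(c : ℝ)| ^ 2 := by
    rw [nrm_sq_of_subset _ {p} Finsupp.support_single_subset, Finset.sum_singleton, Finsupp.single_eq_same, sq_abs]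
  exact (pow_left_inj₀ (nrm_nonneg _) (abs_nonneg _) two_ne_zero).1 h
theorem nrm_add_le (v w : V) : nrm (v + w) ≤ nrm v + nrm w := by
  classical
  set s := v.support ∪ w.support
  have hv : nrm v ^ 2 = ∑ a ∈ s, (v a : ℝ) ^ 2 := nrm_sq_of_subset v s Finset.subset_union_left
  have hw : nrm w ^ 2 = ∑ a ∈ s, (w a : ℝ) ^ 2 := nrm_sq_of_subset w s Finset.subset_union_right
  have hvw : nrm (v + w) ^ 2 = ∑ a ∈ s, ((v + w) a : ℝ) ^ 2 := nrm_sq_of_subset (v + w) s Finsupp.support_add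
  have cs := Finset.sum_mul_sq_le_sq_mul_sq s (fun a => (v a : ℝ)) (fun a => (w a : ℝ))
  rw [← hv, ← hw] at cs
  have cs2 : ∑ a ∈ s, (v a : ℝ) * (w a : ℝ) ≤ nrm v * nrm w := by
    apply le_of_sq_le_sq _ (mul_nonneg (nrm_nonneg v) (nrm_nonneg w))
    rw [mul_pow]; exact cs
  apply le_of_sq_le_sq _ (add_nonneg (nrm_nonneg v) (nrm_nonneg w))
  have e : nrm (v + w) ^ 2 = nrm v ^ 2 + 2 * ∑ a ∈ s, (v a : ℝ) * (w a : ℝ) + nrm w ^ 2 := by
    rw [hvw, hv, hw, Finset.mul_sum, ← Finset.sum_add_distrib, ← Finset.sum_add_distrib]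
    apply Finset.sum_congr rfl
    intro a _
    rw [Finsupp.add_apply, Rat.cast_add]; ring
  rw [e]; nlinarith
theorem VB2_filter_le {v w : V} (h : ∀ a, w a = 0 ∨ w a = v a) : nrm w ≤ nrm v := by
  apply VB2_le
  have hs : w.support ⊆ v.support := by
    intro a ha
    rw [Finsupp.mem_support_iff] at ha ⊢
    rcases h a with h | h
    · exact absurd h ha
    · rwa [← h]
  rw [nrm_sq_of_subset w _ hs, nrm_sq]
  apply Finset.sum_le_sum
  intro a _
  rcases h a with h | h
  · rw [h]; simpa using sq_nonneg ((v a : ℝ))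
  · rw [h]
theorem nrm_res_le (J : Set ℕ) (v : V) : nrm (res J v) ≤ nrm v := by
  classical
  apply VB2_filter_le
  intro a
  rw [res_apply]
  by_cases h : a.1 ∈ J <;> simp [h]
theorem nrm_col_le (S : Set ℕ) (v : V) : nrm (col S v) ≤ nrm v := by
  classical
  apply VB2_filter_le
  rintro ⟨l, π⟩
  cases π with
  | nil => left; exact col_apply_nil S v l
  | cons s π =>
    rw [col_apply_cons]
    by_cases h : s ∈ S <;> simp [h]
theorem nrm_leaf_le (v : V) : nrm (leaf v) ≤ nrm v := by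
  classical
  apply VB2_filter_le
  intro a
  rw [leaf_apply]
  by_cases h : a.2 = [] <;> simp [h]
theorem nrm_pre (s : ℕ) (v : V) : nrm (pre s v) = nrm v := by
  classical
  have h : nrm (pre s v) ^ 2 = nrm v ^ 2 := by
    have e : (pre s v).support ⊆ v.support.image (fun a => ((a.1, s :: a.2) : Atom)) := by
      intro p hp
      obtain ⟨q, hq, rfl⟩ := mem_pre.1 hp
      exact Finset.mem_image_of_mem _ hq
    rw [nrm_sq_of_subset _ _ e, Finset.sum_image (fun a _ b _ h => VB1_inj s h), nrm_sq]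
    apply Finset.sum_congr rfl
    rintro ⟨l, π⟩ _
    rw [pre_apply_cons]
  exact (pow_left_inj₀ (nrm_nonneg _) (nrm_nonneg v) two_ne_zero).1 h
theorem nrm_comp (s : ℕ) (v : V) : nrm (comp s v) = nrm (col {s} v) := by
  rw [← pre_comp, nrm_pre]
theorem nrm_comp_le (s : ℕ) (v : V) : nrm (comp s v) ≤ nrm v := by
  rw [nrm_comp]; exact nrm_col_le _ _
theorem abs_apply_le (v : V) (p : Atom) : |(v p : ℝ)| ≤ nrm v := by
  classical
  apply le_of_sq_le_sq _ (nrm_nonneg v)
  rw [sq_abs, nrm_sq]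
  by_cases h : p ∈ v.support
  · exact Finset.single_le_sum (f := fun a => (v a : ℝ) ^ 2) (fun a _ => sq_nonneg _) h
  · rw [Finsupp.notMem_support_iff.1 h]
    simp only [Rat.cast_zero, ne_eq, OfNat.ofNat_ne_zero, not_false_eq_true, zero_pow]
    exact Finset.sum_nonneg fun a _ => sq_nonneg _
/-- Bessel for disjoint position sets -/
theorem sum_nrm_res_sq_le {ι : Type*} (s : Finset ι) (J : ι → Set ℕ)
    (hd : ∀ i ∈ s, ∀ j ∈ s, i ≠ j → Disjoint (J i) (J j)) (v : V) :
    ∑ i ∈ s, nrm (res (J i) v) ^ 2 ≤ nrm v ^ 2 := by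
  classical
  have h1 : ∀ i ∈ s, nrm (res (J i) v) ^ 2 = ∑ a ∈ v.support, (if a.1 ∈ J i then (v a : ℝ) ^ 2 else 0) := by
    intro i _
    have hs : (res (J i) v).support ⊆ v.support := fun p hp => (mem_res.1 hp).1
    rw [nrm_sq_of_subset _ _ hs]
    apply Finset.sum_congr rfl
    intro a _
    rw [res_apply]
    by_cases h : a.1 ∈ J i <;> simp [h]
  rw [Finset.sum_congr rfl h1, Finset.sum_comm, nrm_sq]
  apply Finset.sum_le_sum
  intro a _
  by_cases h : ∃ i ∈ s, a.1 ∈ J i
  · obtain ⟨i, hi, ha⟩ := h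
    rw [Finset.sum_eq_single_of_mem i hi, if_pos ha]
    intro j hj hji
    rw [if_neg]
    intro hj'
    exact Set.disjoint_left.1 (hd j hj i hi hji) hj' ha
  · rw [Finset.sum_eq_zero]
    · exact sq_nonneg _
    · intro i hi
      rw [if_neg]
      intro h'
      exact h ⟨i, hi, h'⟩
/-- Pythagoras for sums of pieces living on disjoint position sets -/
theorem nrm_sum_sq {ι : Type*} (s : Finset ι) (J : ι → Set ℕ)
    (hd : ∀ i ∈ s, ∀ j ∈ s, i ≠ j → Disjoint (J i) (J j)) (u : ι → V)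
    (hu : ∀ i ∈ s, ∀ p ∈ (u i).support, p.1 ∈ J i) : nrm (∑ i ∈ s, u i) ^ 2 = ∑ i ∈ s, nrm (u i) ^ 2 := by
  classical
  set S : Finset Atom := s.biUnion (fun i => (u i).support) with hS
  have hsub : (∑ i ∈ s, u i).support ⊆ S := by
    intro p hp
    by_contra hn
    rw [Finsupp.mem_support_iff, Finsupp.finsetSum_apply] at hp
    apply hp
    apply Finset.sum_eq_zero
    intro i hi
    by_contra h
    exact hn (Finset.mem_biUnion.2 ⟨i, hi, Finsupp.mem_support_iff.2 h⟩)
  have h1 : ∀ i ∈ s, nrm (u i) ^ 2 = ∑ a ∈ S, (u i a : ℝ) ^ 2 := fun i hi =>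
    nrm_sq_of_subset _ _ (fun p hp => Finset.mem_biUnion.2 ⟨i, hi, hp⟩)
  rw [Finset.sum_congr rfl h1, Finset.sum_comm, nrm_sq_of_subset _ _ hsub]
  apply Finset.sum_congr rfl
  intro a ha
  obtain ⟨i, hi, hia⟩ := Finset.mem_biUnion.1 ha
  have hz : ∀ j ∈ s, j ≠ i → u j a = 0 := by
    intro j hj hji
    by_contra h
    exact Set.disjoint_left.1 (hd j hj i hi hji) (hu j hj a (Finsupp.mem_support_iff.2 h)) (hu i hi a hia)
  rw [Finsupp.finsetSum_apply, Finset.sum_eq_single_of_mem i hi hz,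
    Finset.sum_eq_single_of_mem i hi (fun j hj hji => by rw [hz j hj hji]; simp)]

end H94.WH

end S_VB2

section S_VL2

/-!
# MODULE VL2: `l2` and the two Cauchy-Schwarz lemmas
`Finset.sum_mul_le_sqrt_mul_sqrt` or `Finset.sum_mul_sq_le_sq_mul_sq`, then `sum_nrm_res_sq_le`.
-/

set_option autoImplicit false

namespace H94.WH

open Finset

/-! `l2` -/
theorem l2_nonneg (a : ℕ → ℝ) (B : Finset ℕ) : 0 ≤ l2 a B := Real.sqrt_nonneg _
theorem l2_sq (a : ℕ → ℝ) (B : Finset ℕ) : l2 a B ^ 2 = ∑ k ∈ B, a k ^ 2 := by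
  unfold l2
  rw [Real.sq_sqrt (Finset.sum_nonneg fun a _ => sq_nonneg _)]
theorem l2_mono (a : ℕ → ℝ) {B B' : Finset ℕ} (h : B ⊆ B') : l2 a B ≤ l2 a B' := by
  unfold l2
  apply Real.sqrt_le_sqrt
  exact Finset.sum_le_sum_of_subset_of_nonneg h (fun i _ _ => sq_nonneg _)
theorem l2_empty (a : ℕ → ℝ) : l2 a ∅ = 0 := by
  unfold l2; simp
theorem l2_congr {a b : ℕ → ℝ} (B : Finset ℕ) (h : ∀ k ∈ B, a k ^ 2 = b k ^ 2) : l2 a B = l2 b B := by
  unfold l2
  rw [Finset.sum_congr rfl h]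
theorem l2_le_sqrt {a : ℕ → ℝ} {B : Finset ℕ} {δ : ℝ} (h : ∑ k ∈ B, a k ^ 2 ≤ δ) : l2 a B ≤ Real.sqrt δ :=
  Real.sqrt_le_sqrt h
/-- general Cauchy-Schwarz -/
theorem VL2_cs {ι : Type*} (s : Finset ι) (f h : ι → ℝ) {A B : ℝ} (hA : 0 ≤ A) (hB : 0 ≤ B)
    (hf : ∑ i ∈ s, f i ^ 2 ≤ A ^ 2) (hh : ∑ i ∈ s, h i ^ 2 ≤ B ^ 2) : ∑ i ∈ s, f i * h i ≤ A * B := by
  have cs := Finset.sum_mul_sq_le_sq_mul_sq s f h
  apply le_of_sq_le_sq _ (mul_nonneg hA hB)
  rw [mul_pow]
  exact cs.trans (mul_le_mul hf hh (Finset.sum_nonneg fun i _ => sq_nonneg _) (sq_nonneg _))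
/-- Cauchy-Schwarz: terms `|a_k| * nrm (v|J_k)` -/
theorem sum_abs_mul_nrm_le (B : Finset ℕ) (J : ℕ → Set ℕ)
    (hd : ∀ i ∈ B, ∀ j ∈ B, i ≠ j → Disjoint (J i) (J j)) (v : V) (a : ℕ → ℝ) :
    ∑ k ∈ B, |a k| * nrm (res (J k) v) ≤ nrm v * l2 a B := by
  rw [mul_comm]
  apply VL2_cs B _ _ (l2_nonneg a B) (nrm_nonneg v)
  · rw [l2_sq]
    apply le_of_eq
    exact Finset.sum_congr rfl fun i _ => sq_abs _
  · exact sum_nrm_res_sq_le B J hd v
/-- Cauchy-Schwarz over groups of indices: `∑_i nrm (v|J_i) * l2 a (B i) ≤ nrm v * l2 a (⋃ B i)`, `B i` disjoint -/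
theorem sum_nrm_mul_l2_le {ι : Type*} [DecidableEq ι] (s : Finset ι) (J : ι → Set ℕ)
    (hd : ∀ i ∈ s, ∀ j ∈ s, i ≠ j → Disjoint (J i) (J j)) (v : V) (a : ℕ → ℝ) (B : ι → Finset ℕ)
    (hB : ∀ i ∈ s, ∀ j ∈ s, i ≠ j → Disjoint (B i) (B j)) :
    ∑ i ∈ s, nrm (res (J i) v) * l2 a (B i) ≤ nrm v * l2 a (s.biUnion B) := by
  apply VL2_cs s _ _ (nrm_nonneg v) (l2_nonneg a _)
  · exact sum_nrm_res_sq_le s J hd v
  · rw [l2_sq, Finset.sum_biUnion (fun i hi j hj hij => hB i hi j hj hij)]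
    apply le_of_eq
    exact Finset.sum_congr rfl fun i _ => l2_sq _ _

end H94.WH

end S_VL2

section S_VB3

/-!
# MODULE VB3: the pairing `Phi`
`Phi v x = v.sum (fun a c => c * wt a.2 * x a.1)`; bilinear (rational scalars on the left, `𝕜`- and `ℝ`-scalars on the right; `(c : ℝ) • x` for `x : ℕ →₀ 𝕜` is `(c : 𝕜) • x`).
-/

set_option autoImplicit false

namespace H94.WH

open Finset

variable {𝕜 : Type} [RCLike 𝕜]

theorem wt_nil : wt [] = 1 := by
  unfold wt; simp
theorem wt_cons (s : ℕ) (π : List ℕ) : wt (s :: π) = ((m s : ℝ))⁻¹ * wt π := by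
  unfold wt; simp
theorem wt_pos (π : List ℕ) : 0 < wt π := by
  induction π with
  | nil => rw [wt_nil]; exact one_pos
  | cons s π ih => rw [wt_cons]; exact mul_pos (inv_pos.2 (m_pos s)) ih

/-- `Phi` as a sum over any finset containing the support -/
theorem VB3_Phi_subset (v : V) (x : X0 𝕜) (s : Finset Atom) (h : v.support ⊆ s) :
    Phi v x = ∑ a ∈ s, ((((v a : ℚ) : ℝ) * wt a.2 : ℝ) : 𝕜) * x a.1 := by
  unfold Phi Finsupp.sum
  apply Finset.sum_subset h
  intro a _ ha
  rw [Finsupp.notMem_support_iff.1 ha]; simp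
theorem Phi_zero_left (x : X0 𝕜) : Phi 0 x = 0 := by
  unfold Phi; exact Finsupp.sum_zero_index
theorem Phi_add_left (v w : V) (x : X0 𝕜) : Phi (v + w) x = Phi v x + Phi w x := by
  unfold Phi
  apply Finsupp.sum_add_index'
  · intro a; simp
  · intro a c d
    push_cast
    ring
theorem Phi_smul_left (c : ℚ) (v : V) (x : X0 𝕜) : Phi (c • v) x = ((c : ℝ) : 𝕜) * Phi v x := by
  rw [VB3_Phi_subset (c • v) x v.support Finsupp.support_smul, VB3_Phi_subset v x v.support subset_rfl, Finset.mul_sum]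
  apply Finset.sum_congr rfl
  intro a _
  rw [Finsupp.smul_apply, smul_eq_mul]
  push_cast
  ring
theorem Phi_sum_left {ι : Type*} (s : Finset ι) (u : ι → V) (x : X0 𝕜) :
    Phi (∑ i ∈ s, u i) x = ∑ i ∈ s, Phi (u i) x := by
  classical
  induction s using Finset.induction_on with
  | empty => simp [Phi_zero_left]
  | insert a s ha ih => rw [Finset.sum_insert ha, Finset.sum_insert ha, Phi_add_left, ih]
theorem Phi_zero_right (v : V) : Phi v (0 : X0 𝕜) = 0 := by
  unfold Phi Finsupp.sum; simp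
theorem Phi_add_right (v : V) (x y : X0 𝕜) : Phi v (x + y) = Phi v x + Phi v y := by
  unfold Phi Finsupp.sum
  rw [← Finset.sum_add_distrib]
  apply Finset.sum_congr rfl
  intro a _
  beta_reduce
  rw [Finsupp.add_apply]; ring
theorem Phi_smul_right (v : V) (c : 𝕜) (x : X0 𝕜) : Phi v (c • x) = c * Phi v x := by
  unfold Phi Finsupp.sum
  rw [Finset.mul_sum]
  apply Finset.sum_congr rfl
  intro a _
  beta_reduce
  rw [Finsupp.smul_apply, smul_eq_mul]; ring
theorem Phi_smul_real (v : V) (c : ℝ) (x : X0 𝕜) : Phi v (c • x) = (c : 𝕜) * Phi v x := by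
  rw [← Phi_smul_right]
  congr 1
  ext l
  rw [Finsupp.smul_apply, Finsupp.smul_apply, smul_eq_mul, RCLike.real_smul_eq_coe_mul]
theorem Phi_sum_right {ι : Type*} (v : V) (s : Finset ι) (x : ι → X0 𝕜) :
    Phi v (∑ i ∈ s, x i) = ∑ i ∈ s, Phi v (x i) := by
  classical
  induction s using Finset.induction_on with
  | empty => simp [Phi_zero_right]
  | insert a s ha ih => rw [Finset.sum_insert ha, Finset.sum_insert ha, Phi_add_right, ih]
theorem Phi_neg_right (v : V) (x : X0 𝕜) : Phi v (-x) = - Phi v x := by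
  have h := Phi_add_right v x (-x)
  rw [add_neg_cancel, Phi_zero_right] at h
  exact (neg_eq_of_add_eq_zero_right h.symm).symm
theorem Phi_sub_right (v : V) (x y : X0 𝕜) : Phi v (x - y) = Phi v x - Phi v y := by
  rw [sub_eq_add_neg, Phi_add_right, Phi_neg_right, sub_eq_add_neg]
theorem Phi_single (l : ℕ) (c : ℚ) (x : X0 𝕜) : Phi (Finsupp.single (l, []) c) x = ((c : ℝ) : 𝕜) * x l := by
  classical
  rw [VB3_Phi_subset _ x {(l, [])} Finsupp.support_single_subset, Finset.sum_singleton, Finsupp.single_eq_same, wt_nil,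
    mul_one]
theorem Phi_pre (s : ℕ) (v : V) (x : X0 𝕜) : Phi (pre s v) x = (((m s : ℝ)⁻¹ : ℝ) : 𝕜) * Phi v x := by
  classical
  have e : (pre s v).support ⊆ v.support.image (fun a => ((a.1, s :: a.2) : Atom)) := by
    intro p hp
    obtain ⟨q, hq, rfl⟩ := mem_pre.1 hp
    exact Finset.mem_image_of_mem _ hq
  rw [VB3_Phi_subset _ x _ e, Finset.sum_image (fun a _ b _ h => VB1_inj s h),
    VB3_Phi_subset v x v.support subset_rfl, Finset.mul_sum]
  apply Finset.sum_congr rfl
  rintro ⟨l, π⟩ _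
  simp only [pre_apply_cons, wt_cons]
  push_cast
  ring
theorem Phi_col_single (s : ℕ) (v : V) (x : X0 𝕜) :
    Phi (col {s} v) x = (((m s : ℝ)⁻¹ : ℝ) : 𝕜) * Phi (comp s v) x := by
  rw [← pre_comp, Phi_pre]
theorem norm_Phi_smul_left (c : ℚ) (v : V) (x : X0 𝕜) : ‖Phi (c • v) x‖ = |(c : ℝ)| * ‖Phi v x‖ := by
  rw [Phi_smul_left, norm_mul, RCLike.norm_ofReal]
theorem norm_Phi_pre (s : ℕ) (v : V) (x : X0 𝕜) : ‖Phi (pre s v) x‖ = (m s : ℝ)⁻¹ * ‖Phi v x‖ := by
  rw [Phi_pre, norm_mul, RCLike.norm_ofReal, abs_of_pos (inv_pos.2 (m_pos s))]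
theorem norm_Phi_col_single (s : ℕ) (v : V) (x : X0 𝕜) :
    ‖Phi (col {s} v) x‖ = (m s : ℝ)⁻¹ * ‖Phi (comp s v) x‖ := by
  rw [Phi_col_single, norm_mul, RCLike.norm_ofReal, abs_of_pos (inv_pos.2 (m_pos s))]
/-- restriction does not matter if `x` lives on `J` -/
theorem Phi_res {J : Set ℕ} (v : V) (x : X0 𝕜) (h : ∀ l ∈ x.support, l ∈ J) : Phi (res J v) x = Phi v x := by
  classical
  have hs : (res J v).support ⊆ v.support := fun p hp => (mem_res.1 hp).1
  rw [VB3_Phi_subset _ x _ hs, VB3_Phi_subset v x v.support subset_rfl]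
  apply Finset.sum_congr rfl
  intro a _
  rw [res_apply]
  by_cases hx : x a.1 = 0
  · rw [hx]; simp
  · rw [if_pos (h _ (Finsupp.mem_support_iff.2 hx))]
theorem Phi_res_eq (J : Set ℕ) (v : V) (x : X0 𝕜) : Phi (res J v) x = Phi v (resX J x) := by
  classical
  have hs : (res J v).support ⊆ v.support := fun p hp => (mem_res.1 hp).1
  rw [VB3_Phi_subset _ x _ hs, VB3_Phi_subset v _ v.support subset_rfl]
  apply Finset.sum_congr rfl
  intro a _
  rw [res_apply]
  unfold resX
  rw [Finsupp.filter_apply]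
  by_cases hx : a.1 ∈ J
  · simp [hx]
  · simp [hx]
theorem Phi_eq_zero_of_disj (v : V) (x : X0 𝕜) (h : ∀ p ∈ v.support, p.1 ∉ x.support) : Phi v x = 0 := by
  unfold Phi Finsupp.sum
  apply Finset.sum_eq_zero
  intro a ha
  beta_reduce
  rw [Finsupp.notMem_support_iff.1 (h a ha), mul_zero]

end H94.WH

end S_VB3

section S_VB4

/-!
# MODULE VB4: bounds for the pairing `Phi`
`abs_Phi_le` (2.1): first for `x = single l 1` by induction on a bound for the lengths of the paths in `v`: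
`Phi v e_l = v (l,[]) + ∑_s (m s)⁻¹ Phi (comp s v) e_l` (finite sum: `exists_bound`, `leaf_add_col`, `col_finset`, `Phi_col_single`),
`|..| ≤ nrm v + ∑_s (m s)⁻¹ * 2 * nrm v ≤ 2 nrm v` (`sum_inv_m_all`, `nrm_comp_le`).
`abs_Phi_tail_le`: `Phi (col {s | t ≤ s} v) x = ∑_{t ≤ s < Q} (m s)⁻¹ Phi (comp s v) x`, `sum_inv_m_tail`.
-/

set_option autoImplicit false

namespace H94.WH

open Finset

variable {𝕜 : Type} [RCLike 𝕜]

/-- splitting according to the root symbol -/
theorem Phi_split (q : ℕ) (hq : 1 ≤ q) (v : V) (x : X0 𝕜) : Phi v x = Phi (leaf v) x + Phi (col {0} v) x +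
    ∑ s ∈ Finset.Ico 1 q, Phi (col {s} v) x + Phi (col {q} v) x + Phi (col {s | q < s} v) x := by
  have h1 : col Set.univ v = col ((Finset.range (q + 1) : Finset ℕ) : Set ℕ) v + col {s | q < s} v := by
    rw [← col_union]
    · congr 1
      ext s
      simp only [Finset.coe_range, Set.mem_univ, Set.mem_union, Set.mem_Iio, Set.mem_ofPred_eq, true_iff]
      omega
    · rw [Set.disjoint_left]
      intro s hs hs'
      simp only [Finset.coe_range, Set.mem_Iio, Set.mem_ofPred_eq] at hs hs'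
      omega
  have h2 : Phi v x = Phi (leaf v) x + Phi (col Set.univ v) x := by
    rw [← Phi_add_left, leaf_add_col]
  rw [h2, h1, Phi_add_left, col_finset, Phi_sum_left, Finset.sum_range_succ,
    Finset.sum_range_eq_add_Ico _ (by omega)]
  ring

private theorem VB4_leaf (v : V) (l : ℕ) : ‖Phi (leaf v) (Finsupp.single l (1 : 𝕜))‖ ≤ nrm v := by
  have h1 : Phi (leaf v) (Finsupp.single l (1 : 𝕜)) = (((v (l, []) : ℚ) : ℝ) : 𝕜) := by
    unfold Phi Finsupp.sum
    rw [Finset.sum_eq_single (l, [])]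
    · dsimp only
      rw [leaf_apply, if_pos rfl, wt_nil]
      simp
    · intro b hb hne
      have h2 := (mem_leaf.1 hb).2
      have h3 : b.1 ≠ l := by
        intro h
        apply hne
        exact Prod.ext h h2
      dsimp only
      rw [Finsupp.single_eq_of_ne h3, mul_zero]
    · intro h
      rw [Finsupp.notMem_support_iff.1 h]
      simp
  rw [h1, RCLike.norm_ofReal]
  exact abs_apply_le v (l, [])

private theorem VB4_expand (v : V) (x : X0 𝕜) : ∃ Q : ℕ, ∀ S : Set ℕ, ∀ T : Finset ℕ,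
    S ∩ Set.Iio Q = T → Phi (col S v) x = ∑ s ∈ T, (((m s : ℝ)⁻¹ : ℝ) : 𝕜) * Phi (comp s v) x := by
  obtain ⟨Q, -, hQ⟩ := exists_bound v
  refine ⟨Q, fun S T h => ?_⟩
  rw [hQ S, h, col_finset, Phi_sum_left]
  exact Finset.sum_congr rfl fun s _ => Phi_col_single s v x

private theorem VB4_single (L : ℕ) : ∀ v : V, (∀ p ∈ v.support, p.2.length < L) → ∀ l : ℕ,
    ‖Phi v (Finsupp.single l (1 : 𝕜))‖ ≤ 2 * nrm v := by
  induction L with
  | zero =>
    intro v hv l
    have h0 : v = 0 := by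
      rw [← Finsupp.support_eq_empty, Finset.eq_empty_iff_forall_notMem]
      intro p hp
      exact absurd (hv p hp) (Nat.not_lt_zero _)
    rw [h0, Phi_zero_left, norm_zero, nrm_zero, mul_zero]
  | succ L ih =>
    intro v hv l
    obtain ⟨Q, hQ⟩ := VB4_expand v (Finsupp.single l (1 : 𝕜))
    have h2 : Phi v (Finsupp.single l (1 : 𝕜)) = Phi (leaf v) (Finsupp.single l (1 : 𝕜)) +
        Phi (col Set.univ v) (Finsupp.single l (1 : 𝕜)) := by
      rw [← Phi_add_left, leaf_add_col]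
    rw [h2, hQ Set.univ (Finset.range Q) (by simp)]
    have h3 : ∀ s ∈ Finset.range Q, ‖(((m s : ℝ)⁻¹ : ℝ) : 𝕜) * Phi (comp s v) (Finsupp.single l (1 : 𝕜))‖ ≤
        (m s : ℝ)⁻¹ * (2 * nrm v) := by
      intro s _
      rw [norm_mul, RCLike.norm_ofReal, abs_of_pos (inv_pos.2 (m_pos s))]
      refine mul_le_mul_of_nonneg_left ?_ (inv_pos.2 (m_pos s)).le
      refine (ih (comp s v) ?_ l).trans ?_
      · intro p hp
        have := hv _ (mem_comp.1 hp)
        simp only [List.length_cons] at this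
        omega
      · have := nrm_comp_le s v
        linarith
    calc ‖Phi (leaf v) (Finsupp.single l (1 : 𝕜)) +
          ∑ s ∈ Finset.range Q, (((m s : ℝ)⁻¹ : ℝ) : 𝕜) * Phi (comp s v) (Finsupp.single l (1 : 𝕜))‖
        ≤ ‖Phi (leaf v) (Finsupp.single l (1 : 𝕜))‖ +
          ‖∑ s ∈ Finset.range Q, (((m s : ℝ)⁻¹ : ℝ) : 𝕜) * Phi (comp s v) (Finsupp.single l (1 : 𝕜))‖ :=
          norm_add_le _ _
      _ ≤ nrm v + ∑ s ∈ Finset.range Q, (m s : ℝ)⁻¹ * (2 * nrm v) :=
          add_le_add (VB4_leaf v l) ((norm_sum_le _ _).trans (Finset.sum_le_sum h3))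
      _ = nrm v + (∑ s ∈ Finset.range Q, (m s : ℝ)⁻¹) * (2 * nrm v) := by rw [Finset.sum_mul]
      _ ≤ nrm v + 1 / 2 * (2 * nrm v) := by
          have := mul_le_mul_of_nonneg_right (sum_inv_m_le Q) (by linarith [nrm_nonneg v] : (0 : ℝ) ≤ 2 * nrm v)
          linarith
      _ = 2 * nrm v := by ring

/-- (2.1) -/
theorem abs_Phi_le (v : V) (x : X0 𝕜) : ‖Phi v x‖ ≤ 2 * nrm v * ∑ l ∈ x.support, ‖x l‖ := by
  have h1 : x = ∑ l ∈ x.support, x l • Finsupp.single l (1 : 𝕜) := by
    conv_lhs => rw [← Finsupp.sum_single x]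
    unfold Finsupp.sum
    refine Finset.sum_congr rfl fun l _ => ?_
    rw [Finsupp.smul_single, smul_eq_mul, mul_one]
  have h2 : Phi v x = ∑ l ∈ x.support, x l * Phi v (Finsupp.single l (1 : 𝕜)) := by
    conv_lhs => rw [h1]
    rw [Phi_sum_right]
    exact Finset.sum_congr rfl fun l _ => Phi_smul_right v _ _
  rw [h2, Finset.mul_sum]
  refine (norm_sum_le _ _).trans (Finset.sum_le_sum fun l _ => ?_)
  rw [norm_mul, mul_comm]
  refine mul_le_mul_of_nonneg_right ?_ (norm_nonneg _)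
  refine VB4_single (v.support.sup (fun p => p.2.length) + 1) v (fun p hp => ?_) l
  exact Nat.lt_succ_of_le (Finset.le_sup (f := fun p : Atom => p.2.length) hp)

theorem abs_Phi_tail_le (t : ℕ) (v : V) (x : X0 𝕜) :
    ‖Phi (col {s | t ≤ s} v) x‖ ≤ 4 / m t * nrm v * ∑ l ∈ x.support, ‖x l‖ := by
  obtain ⟨Q, hQ⟩ := VB4_expand v x
  rw [hQ {s | t ≤ s} (Finset.Ico t Q) (by ext s; simp)]
  set X : ℝ := ∑ l ∈ x.support, ‖x l‖ with hX
  have hX0 : 0 ≤ X := Finset.sum_nonneg fun _ _ => norm_nonneg _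
  have h3 : ∀ s ∈ Finset.Ico t Q, ‖(((m s : ℝ)⁻¹ : ℝ) : 𝕜) * Phi (comp s v) x‖ ≤
      (m s : ℝ)⁻¹ * (2 * nrm v * X) := by
    intro s _
    rw [norm_mul, RCLike.norm_ofReal, abs_of_pos (inv_pos.2 (m_pos s))]
    refine mul_le_mul_of_nonneg_left ?_ (inv_pos.2 (m_pos s)).le
    refine (abs_Phi_le (comp s v) x).trans ?_
    refine mul_le_mul_of_nonneg_right ?_ hX0
    have := nrm_comp_le s v
    linarith
  calc ‖∑ s ∈ Finset.Ico t Q, (((m s : ℝ)⁻¹ : ℝ) : 𝕜) * Phi (comp s v) x‖
      ≤ ∑ s ∈ Finset.Ico t Q, (m s : ℝ)⁻¹ * (2 * nrm v * X) :=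
        (norm_sum_le _ _).trans (Finset.sum_le_sum h3)
    _ = (∑ s ∈ Finset.Ico t Q, (m s : ℝ)⁻¹) * (2 * nrm v * X) := by rw [Finset.sum_mul]
    _ ≤ 2 / m t * (2 * nrm v * X) := by
        refine mul_le_mul_of_nonneg_right (sum_inv_m_tail _ t fun s hs => (Finset.mem_Ico.1 hs).1) ?_
        have := nrm_nonneg v
        positivity
    _ = 4 / m t * nrm v * X := by ring

/-- summing single-symbol bounds over `q < s < j` -/
theorem abs_Phi_range_le (q j : ℕ) (v : V) (x : X0 𝕜) (c : ℝ) (hc : 0 ≤ c)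
    (h : ∀ s, q < s → s < j → ‖Phi (col {s} v) x‖ ≤ c / m s * nrm v) :
    ‖Phi (col {s | q < s ∧ s < j} v) x‖ ≤ 2 * c / m (q + 1) * nrm v := by
  have h1 : {s | q < s ∧ s < j} = ((Finset.Ioo q j : Finset ℕ) : Set ℕ) := by
    ext s
    simp
  rw [h1, col_finset, Phi_sum_left]
  calc ‖∑ s ∈ Finset.Ioo q j, Phi (col {s} v) x‖
      ≤ ∑ s ∈ Finset.Ioo q j, c / m s * nrm v := by
        refine (norm_sum_le _ _).trans (Finset.sum_le_sum fun s hs => ?_)
        rw [Finset.mem_Ioo] at hs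
        exact h s hs.1 hs.2
    _ = (∑ s ∈ Finset.Ioo q j, (m s : ℝ)⁻¹) * (c * nrm v) := by
        rw [Finset.sum_mul]
        exact Finset.sum_congr rfl fun s _ => by ring
    _ ≤ 2 / m (q + 1) * (c * nrm v) := by
        refine mul_le_mul_of_nonneg_right (sum_inv_m_tail _ (q + 1) fun s hs => ?_) ?_
        · have := (Finset.mem_Ioo.1 hs).1
          omega
        · have := nrm_nonneg v
          positivity
    _ = 2 * c / m (q + 1) * nrm v := by ring

end H94.WH

end S_VB4

section S_CN1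

/-!
# MODULE CN1: the cone `C` (section 3)
* `C.smul`: cases/induction on `C v`: atom: `smul_single`; even: `c • pre j v = pre j (c • v)`, `res` commutes with `c •`; odd: `c' • (c • _)`; merge.
* `C.res`: induction: atom: result is the atom or `0 = single (0,[]) 0`; even: `res J (pre j v) = pre j (res J v)`, same `A`
  (`res (cell A a) (res J v) = res J (res (cell A a) v)`); odd: replace `I` by `J ∩ I`; merge: `res J (pre 0 (∑ u i)) = pre 0 (∑ res J (u i))`.
* `C.mono_root`: every element of the cone is a leaf atom or has a single root symbol.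
* `res_sep`: `J` separated from `A`: if `v` has a position `p.1 ∈ J`, let `a = max {a ∈ A | a ≤ p.1}`; then all positions of `v` in `J` are in
  `cell A a` (a smaller one `p'.1 < a` contradicts `Sep A J` because `a ∈ J` by order-convexity; for one above the next element `a'` of `A`: `a' ∈ J`
  and `p.1 < a'`), so `res J v = res J (res (cell A a) v)`.
-/

set_option autoImplicit false

namespace H94.WH

open Finset

theorem C.zero : C 0 := by
  have h := C.atom 0 0
  rwa [Finsupp.single_zero] at h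

theorem C.smul (c : ℚ) {v : V} (h : C v) : C (c • v) := by
  induction h with
  | atom l c' =>
    rw [Finsupp.smul_single]
    exact C.atom l _
  | even j hj hj2 v A hA hs hv ih =>
    rw [← pre_smul]
    refine C.even j hj hj2 (c • v) A hA ?_ ?_
    · intro p hp
      exact hs p (Finsupp.support_smul hp)
    · intro a ha
      rw [res_smul]
      exact ih a ha
  | odd q hq ws bs hsp hC I hI c' _ =>
    rw [smul_smul]
    exact C.odd q hq ws bs hsp hC I hI _
  | merge b N hN u hu hb ih =>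
    rw [← pre_smul, Finset.smul_sum]
    refine C.merge b N hN (fun i => c • u i) ih ?_
    intro i p hp
    exact hb i p (Finsupp.support_smul hp)

theorem C.res {v : V} (h : C v) {J : Set ℕ} (hJ : J.OrdConnected) : C (res J v) := by
  induction h with
  | atom l c' =>
    by_cases hl : l ∈ J
    · rw [res_eq_self]
      · exact C.atom l c'
      · intro p hp
        have h1 := Finsupp.support_single_subset hp
        rw [Finset.mem_singleton] at h1
        rw [h1]; exact hl
    · rw [res_eq_zero]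
      · exact C.zero
      · intro p hp
        have h1 := Finsupp.support_single_subset hp
        rw [Finset.mem_singleton] at h1
        rw [h1]; exact hl
  | even j hj hj2 v A hA hs hv ih =>
    rw [res_pre]
    refine C.even j hj hj2 _ A hA ?_ ?_
    · intro p hp
      exact hs p (mem_res.1 hp).1
    · intro a ha
      have h1 := ih a ha
      rw [res_res, Set.inter_comm, ← res_res] at h1
      exact h1
  | odd q hq ws bs hsp hC I hI c' _ =>
    rw [res_smul, res_pre, res_res]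
    exact C.odd q hq ws bs hsp hC (J ∩ I) (hJ.inter hI) _
  | merge b N hN u hu hb ih =>
    rw [res_pre, res_sum]
    refine C.merge b N hN (fun i => H94.WH.res J (u i)) ih ?_
    intro i p hp
    exact hb i p (mem_res.1 hp).1

theorem C.mono_root {v : V} (h : C v) :
    (∃ l c, v = Finsupp.single (l, []) c) ∨ ∃ s, v = pre s (comp s v) := by
  cases h with
  | atom l c' => exact Or.inl ⟨l, c', rfl⟩
  | even j hj hj2 v A hA hs hv =>
    refine Or.inr ⟨j, ?_⟩
    rw [comp_pre]
  | odd q hq ws bs hsp hC I hI c' =>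
    refine Or.inr ⟨q, ?_⟩
    rw [← pre_smul, comp_pre]
  | merge b N hN u hu hb =>
    refine Or.inr ⟨0, ?_⟩
    rw [comp_pre]

theorem C.col {v : V} (h : C v) (S : Set ℕ) : C (col S v) := by
  rcases C.mono_root h with ⟨l, c, rfl⟩ | ⟨s, hs⟩
  · rw [col_single]
    exact C.zero
  · by_cases hsS : s ∈ S
    · rw [hs, col_pre_mem hsS, ← hs]
      exact h
    · rw [hs, col_pre_not hsS]
      exact C.zero

theorem C.leaf {v : V} (h : C v) : C (leaf v) := by
  rcases C.mono_root h with ⟨l, c, rfl⟩ | ⟨s, hs⟩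
  · rw [leaf_single]
    exact h
  · rw [hs, leaf_pre]
    exact C.zero

/-- cells of order-convex sets -/
theorem ordConnected_cell (A : Finset ℕ) (a : ℕ) : (cell A a).OrdConnected := by
  refine ⟨?_⟩
  rintro x ⟨hx1, _⟩ y ⟨_, hy2⟩ z ⟨hz1, hz2⟩
  exact ⟨hx1.trans hz1, fun a' ha' h => lt_of_le_of_lt hz2 (hy2 a' ha' h)⟩

theorem sep_cell {A : Finset ℕ} {a : ℕ} (ha : a ∈ A) : Sep A (cell A a) := by
  rintro a' ha' ⟨h1, h2⟩ j ⟨hj1, _⟩
  have h3 : a' = a := by
    by_contra h
    exact lt_irrefl _ (h2 a' ha' (lt_of_le_of_ne h1 (Ne.symm h)))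
  rw [h3]
  exact hj1

theorem CN1_lt {A : Finset ℕ} {a a' : ℕ} (ha' : a' ∈ A) (h : a < a') {l : ℕ}
    (h1 : l ∈ cell A a) (h2 : l ∈ cell A a') : False := by
  have h3 := h1.2 a' ha' h
  have h4 := h2.1
  omega

theorem cell_disjoint {A : Finset ℕ} {a a' : ℕ} (ha : a ∈ A) (ha' : a' ∈ A) (h : a ≠ a') :
    Disjoint (cell A a) (cell A a') := by
  rw [Set.disjoint_left]
  intro l h1 h2
  rcases lt_or_gt_of_ne h with h3 | h3
  · exact CN1_lt ha' h3 h1 h2
  · exact CN1_lt ha h3 h2 h1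

/-- every position above some element of `A` is in a cell -/
theorem mem_some_cell {A : Finset ℕ} {l : ℕ} (h : ∃ a ∈ A, a ≤ l) : ∃ a ∈ A, l ∈ cell A a := by
  classical
  obtain ⟨a0, ha0, hl0⟩ := h
  have hne : (A.filter (fun a => a ≤ l)).Nonempty := ⟨a0, Finset.mem_filter.2 ⟨ha0, hl0⟩⟩
  have hm := Finset.max'_mem _ hne
  rw [Finset.mem_filter] at hm
  refine ⟨_, hm.1, hm.2, ?_⟩
  intro a' ha' h1
  by_contra h2
  have h3 := Finset.le_max' (A.filter (fun a => a ≤ l)) a'
    (Finset.mem_filter.2 ⟨ha', not_lt.1 h2⟩)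
  exact absurd h1 (not_lt.2 h3)

/-- separated restriction only sees one cell -/
theorem res_sep {A : Finset ℕ} {v : V} (hs : ∀ p ∈ v.support, ∃ a ∈ A, a ≤ p.1) {J : Set ℕ}
    (hJ : J.OrdConnected) (hsep : Sep A J) :
    res J v = 0 ∨ ∃ a ∈ A, res J v = res J (res (cell A a) v) := by
  by_cases h : ∃ p ∈ v.support, p.1 ∈ J
  · right
    obtain ⟨p, hp, hpJ⟩ := h
    obtain ⟨a, ha, hpa⟩ := mem_some_cell (hs p hp)
    refine ⟨a, ha, ?_⟩
    rw [res_res]
    refine res_congr fun p' hp' => ?_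
    constructor
    · intro hJ'
      refine ⟨hJ', ?_⟩
      obtain ⟨a', ha', hpa'⟩ := mem_some_cell (hs p' hp')
      rcases lt_trichotomy a a' with h1 | h1 | h1
      · exfalso
        have h2 := hpa.2 a' ha' h1
        have h3 := hpa'.1
        have h4 : a' ∈ J := hJ.out hpJ hJ' ⟨h2.le, h3⟩
        have h5 := hsep a' ha' h4 p.1 hpJ
        omega
      · rw [h1]; exact hpa'
      · exfalso
        have h2 := hpa'.2 a ha h1
        have h3 := hpa.1
        have h4 : a ∈ J := hJ.out hJ' hpJ ⟨h2.le, h3⟩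
        have h5 := hsep a ha h4 p'.1 hJ'
        omega
    · exact fun hJ' => hJ'.1
  · left
    push Not at h
    exact res_eq_zero h

end H94.WH

end S_CN1

section S_CN2

/-!
# MODULE CN2: structure of the elements of the cone according to the root symbol
Case analysis on `C v` (`cases h`), with `comp_single`, `comp_smul`, `comp_pre`, `comp_pre_ne`, `res_pre`.
* `C.cells`: even (root `j = s`): `comp s v` is the `v'` of the constructor; `res_sep` gives `res J v' = 0` or `= res J (res (cell A a) v')`, in `C` by `C.res`. odd (root `q = s`): `comp s v = c • res I ws.sum`,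
  `A = (range ws.length).image bs`; for `r < ws.length`: `res (cell A (bs r)) ws.sum = ws[r]` (the supports are in `[bs r, bs (r+1))`, `bs` strictly monotone), so the cells are in `C`; then again `res_sep`.
  Other roots: `comp s v = 0`, `A = ∅`.
* `C.comp_zero`: merge: the data of the constructor (`comp 0 (pre 0 _) = _`), otherwise `0` = empty sum.
* `C.comp_odd`: odd: the data of the constructor; even root (parity), atom, merge (root 0 is not odd): `comp q v = 0`.
-/

set_option autoImplicit false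

namespace H94.WH

open Finset

theorem CN2_list_sum (ws : List V) : ws.sum = ∑ i : Fin ws.length, ws[i] := by
  rw [← List.sum_ofFn]
  congr 1
  exact List.ofFn_getElem.symm

theorem CN2_mem_sum {ws : List V} {p : Atom} (h : p ∈ ws.sum.support) :
    ∃ r, ∃ hr : r < ws.length, p ∈ (ws[r]).support := by
  classical
  rw [CN2_list_sum] at h
  have h1 := Finsupp.support_finsetSum h
  rw [Finset.mem_biUnion] at h1
  obtain ⟨i, _, hi⟩ := h1
  exact ⟨i, i.2, hi⟩

theorem CN2_cell {ws : List V} {bs : ℕ → ℕ} {q : ℕ} (hsp : Special q ws bs) {r : ℕ}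
    (hr : r < ws.length) :
    res (cell ((Finset.range ws.length).image bs) (bs r)) ws.sum = ws[r] := by
  obtain ⟨hmono, -, hsupp, -⟩ := hsp
  rw [CN2_list_sum, res_sum, Finset.sum_eq_single (⟨r, hr⟩ : Fin ws.length)]
  · apply res_eq_self
    intro p hp
    obtain ⟨h1, h2⟩ := hsupp r hr p hp
    refine ⟨h1, fun a' ha' hlt => ?_⟩
    rw [Finset.mem_image] at ha'
    obtain ⟨r', _, rfl⟩ := ha'
    have h3 : r < r' := hmono.lt_iff_lt.mp hlt
    exact lt_of_lt_of_le h2 (hmono.monotone h3)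
  · intro i _ hi
    apply res_eq_zero
    rintro p hp ⟨h3, h4⟩
    obtain ⟨h1, h2⟩ := hsupp i i.2 p hp
    have hne : (i : ℕ) ≠ r := fun h => hi (Fin.ext h)
    rcases lt_or_gt_of_ne hne with h | h
    · have : bs (i + 1) ≤ bs r := hmono.monotone h
      omega
    · have h5 := h4 (bs i) (Finset.mem_image.mpr ⟨i, Finset.mem_range.mpr i.2, rfl⟩) (hmono h)
      omega
  · intro h
    exact absurd (Finset.mem_univ _) h

/-- the trivial case of `C.cells` -/
theorem CN2_triv {v : V} {s : ℕ} (h0 : comp s v = 0) : ∃ A, Kset (nn s) A ∧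
    (∀ p ∈ (comp s v).support, ∃ a ∈ A, a ≤ p.1) ∧
    ∀ J : Set ℕ, J.OrdConnected → Sep A J → C (H94.WH.res J (comp s v)) := by
  refine ⟨∅, Kset.empty _, ?_, ?_⟩
  · intro p hp
    rw [h0] at hp
    simp at hp
  · intro J _ _
    rw [h0, res_zero]
    exact C.zero

/-- structure of an element of the cone with root symbol `s ≥ 1` -/
theorem C.cells {v : V} (h : C v) {s : ℕ} (hs : 1 ≤ s) : ∃ A, Kset (nn s) A ∧
    (∀ p ∈ (comp s v).support, ∃ a ∈ A, a ≤ p.1) ∧
    ∀ J : Set ℕ, J.OrdConnected → Sep A J → C (H94.WH.res J (comp s v)) := by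
  classical
  cases h with
  | atom l c => exact CN2_triv (comp_single s l c)
  | even j hj hj2 v A hA hs' hv =>
    by_cases hsj : s = j
    · subst hsj
      rw [comp_pre]
      refine ⟨A, hA, hs', fun J hJ hsep => ?_⟩
      rcases res_sep hs' hJ hsep with h1 | ⟨a, ha, h1⟩
      · rw [h1]
        exact C.zero
      · rw [h1]
        exact (hv a ha).res hJ
    · exact CN2_triv (comp_pre_ne hsj v)
  | odd q hq ws bs hsp hC I hI c =>
    by_cases hsq : s = q
    · subst hsq
      rw [H94.WH.comp_smul, comp_pre]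
      set A : Finset ℕ := (Finset.range ws.length).image bs with hA
      have hs' : ∀ p ∈ (c • H94.WH.res I ws.sum).support, ∃ a ∈ A, a ≤ p.1 := by
        intro p hp
        have h1 : p ∈ (H94.WH.res I ws.sum).support := Finsupp.support_smul hp
        obtain ⟨r, hr, h2⟩ := CN2_mem_sum (mem_res.mp h1).1
        exact ⟨bs r, Finset.mem_image.mpr ⟨r, Finset.mem_range.mpr hr, rfl⟩,
          (hsp.2.2.1 r hr p h2).1⟩
      refine ⟨A, hsp.2.1, hs', fun J hJ hsep => ?_⟩
      rcases res_sep hs' hJ hsep with h1 | ⟨a, ha, h1⟩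
      · rw [h1]
        exact C.zero
      · rw [h1]
        rw [hA, Finset.mem_image] at ha
        obtain ⟨r, hr, rfl⟩ := ha
        have hr' := Finset.mem_range.mp hr
        have h2 : H94.WH.res (cell A (bs r)) (c • H94.WH.res I ws.sum) =
            c • H94.WH.res I ws[r] := by
          rw [H94.WH.res_smul, res_res, Set.inter_comm, ← res_res, hA, CN2_cell hsp hr']
        rw [h2]
        exact ((hC _ (List.getElem_mem hr')).res hI).smul c |>.res hJ
    · refine CN2_triv ?_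
      rw [H94.WH.comp_smul, comp_pre_ne hsq, smul_zero]
  | merge b N hN u hu hb =>
    exact CN2_triv (comp_pre_ne (by omega) _)

/-- structure of an element of the cone with root symbol `0` -/
theorem C.comp_zero {v : V} (h : C v) : ∃ (b N : ℕ) (u : Fin N → V), N ≤ g b ∧ (∀ i, C (u i)) ∧
    (∀ i, ∀ p ∈ (u i).support, b ≤ p.1) ∧ comp 0 v = ∑ i, u i := by
  classical
  have triv : comp 0 v = 0 → ∃ (b N : ℕ) (u : Fin N → V), N ≤ g b ∧ (∀ i, C (u i)) ∧
    (∀ i, ∀ p ∈ (u i).support, b ≤ p.1) ∧ comp 0 v = ∑ i, u i := by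
    intro h0
    refine ⟨0, 0, Fin.elim0, Nat.zero_le _, fun i => i.elim0, fun i => i.elim0, ?_⟩
    rw [h0]
    simp
  cases h with
  | atom l c => exact triv (comp_single 0 l c)
  | even j hj hj2 v A hA hs' hv => exact triv (comp_pre_ne (by omega) v)
  | odd q hq ws bs hsp hC I hI c =>
    refine triv ?_
    have : (0 : ℕ) ≠ q := by
      rintro rfl
      exact absurd hq (by decide)
    rw [H94.WH.comp_smul, comp_pre_ne this, smul_zero]
  | merge b N hN u hu hb =>
    exact ⟨b, N, u, hN, hu, hb, comp_pre 0 _⟩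

/-- structure of an element of the cone with odd root symbol `q` -/
theorem C.comp_odd {v : V} (h : C v) {q : ℕ} (hq : Odd q) : comp q v = 0 ∨
    ∃ (ws : List V) (bs : ℕ → ℕ) (I : Set ℕ) (c : ℚ), Special q ws bs ∧ (∀ w ∈ ws, C w) ∧
      I.OrdConnected ∧ comp q v = c • H94.WH.res I ws.sum := by
  cases h with
  | atom l c => exact Or.inl (comp_single q l c)
  | even j hj hj2 v A hA hs' hv =>
    left
    apply comp_pre_ne
    rintro rfl
    exact (Nat.not_even_iff_odd.mpr hq) hj2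
  | odd q' hq' ws bs hsp hC I hI c =>
    by_cases hqq : q = q'
    · subst hqq
      right
      refine ⟨ws, bs, I, c, hsp, hC, hI, ?_⟩
      rw [H94.WH.comp_smul, comp_pre]
    · left
      rw [H94.WH.comp_smul, comp_pre_ne hqq, smul_zero]
  | merge b N hN u hu hb =>
    left
    apply comp_pre_ne
    rintro rfl
    exact absurd hq (by decide)

end H94.WH

end S_CN2

section S_GS

/-!
# MODULE GS: basic closure properties of the classes `G d` (section 5, G1-G4, G6)
All by induction on `d` (`G (d+1) v ↔ ∃ b N u, ..`), the case `d = 0` is in CN.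
-/

set_option autoImplicit false

namespace H94.WH

open Finset

theorem G.zero (d : ℕ) : G d 0 := by
  cases d with
  | zero => exact C.zero
  | succ d =>
    exact ⟨0, 0, fun i => i.elim0, Nat.zero_le _, fun i => i.elim0, fun i => i.elim0, by simp⟩

theorem G.smul {d : ℕ} {v : V} (h : G d v) (c : ℚ) : G d (c • v) := by
  induction d generalizing v with
  | zero => exact C.smul c h
  | succ d ih =>
    obtain ⟨b, N, u, hN, hu, hb, rfl⟩ := h
    refine ⟨b, N, fun i => c • u i, hN, fun i => ih (hu i), ?_, Finset.smul_sum⟩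
    intro i p hp
    exact hb i p (Finsupp.support_smul hp)

theorem G.res {d : ℕ} {v : V} (h : G d v) {J : Set ℕ} (hJ : J.OrdConnected) : G d (res J v) := by
  induction d generalizing v with
  | zero => exact C.res h hJ
  | succ d ih =>
    obtain ⟨b, N, u, hN, hu, hb, rfl⟩ := h
    refine ⟨b, N, fun i => H94.WH.res J (u i), hN, fun i => ih (hu i), ?_, res_sum J _ u⟩
    intro i p hp
    exact hb i p (mem_res.1 hp).1

theorem G.col {d : ℕ} {v : V} (h : G d v) (S : Set ℕ) : G d (col S v) := by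
  induction d generalizing v with
  | zero => exact C.col h S
  | succ d ih =>
    obtain ⟨b, N, u, hN, hu, hb, rfl⟩ := h
    refine ⟨b, N, fun i => H94.WH.col S (u i), hN, fun i => ih (hu i), ?_, col_sum S _ u⟩
    intro i p hp
    exact hb i p (mem_col.1 hp).1

theorem G.leaf {d : ℕ} {v : V} (h : G d v) : G d (leaf v) := by
  induction d generalizing v with
  | zero => exact C.leaf h
  | succ d ih =>
    obtain ⟨b, N, u, hN, hu, hb, rfl⟩ := h
    refine ⟨b, N, fun i => H94.WH.leaf (u i), hN, fun i => ih (hu i), ?_, leaf_sum _ u⟩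
    intro i p hp
    exact hb i p (mem_leaf.1 hp).1

theorem GS_step {d : ℕ} {v : V} (h : G d v) : G (d + 1) v := by
  refine ⟨0, 1, fun _ => v, ?_, fun _ => h, fun _ p _ => Nat.zero_le _, by simp⟩
  have := five_le_g 0
  omega

theorem G.mono {d d' : ℕ} (hd : d ≤ d') {v : V} (h : G d v) : G d' v := by
  induction d', hd using Nat.le_induction with
  | base => exact h
  | succ k _ ih => exact GS_step ih

/-- sums over a finset -/
theorem G.sum_finset {ι : Type*} {d b : ℕ} (s : Finset ι) (u : ι → V) (hs : s.card ≤ g b)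
    (hu : ∀ i ∈ s, G d (u i)) (hb : ∀ i ∈ s, ∀ p ∈ (u i).support, b ≤ p.1) :
    G (d + 1) (∑ i ∈ s, u i) := by
  refine ⟨b, s.card, fun j => u (s.equivFin.symm j), hs, fun j => hu _ (s.equivFin.symm j).2,
    fun j => hb _ (s.equivFin.symm j).2, ?_⟩
  rw [← Finset.sum_coe_sort s u]
  exact (s.equivFin.symm.sum_comp (fun i : s => u i)).symm

/-- G3 -/
theorem G.leafset {d : ℕ} {v : V} (h : G d v) :
    Kset d ((H94.WH.leaf v).support.image Prod.fst) := by
  induction d generalizing v with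
  | zero =>
    change (((H94.WH.leaf v).support.image Prod.fst).card ≤ 1)
    rcases C.mono_root h with ⟨l, c, rfl⟩ | ⟨s, hs⟩
    · rw [leaf_single]
      refine Finset.card_image_le.trans ?_
      exact (Finset.card_le_card Finsupp.support_single_subset).trans (by simp)
    · rw [hs, leaf_pre]
      simp
  | succ d ih =>
    obtain ⟨b, N, u, hN, hu, hb, rfl⟩ := h
    refine Kset.sub (Kset.succ_fin (b := b) (fun i => (H94.WH.leaf (u i)).support.image Prod.fst) hN
      (fun i => ih (hu i)) ?_) ?_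
    · intro i a ha
      obtain ⟨p, hp, rfl⟩ := Finset.mem_image.1 ha
      exact hb i p (mem_leaf.1 hp).1
    · intro a ha
      obtain ⟨p, hp, rfl⟩ := Finset.mem_image.1 ha
      rw [leaf_sum] at hp
      by_contra hcon
      simp only [Finset.mem_biUnion, Finset.mem_univ, true_and, not_exists] at hcon
      rw [Finsupp.mem_support_iff, Finsupp.finsetSum_apply] at hp
      apply hp
      refine Finset.sum_eq_zero fun i _ => ?_
      by_contra h0
      exact hcon i (Finset.mem_image_of_mem Prod.fst (Finsupp.mem_support_iff.2 h0))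

/-- G4 -/
theorem G.comp_zero {d : ℕ} {v : V} (h : G d v) : G (d + 1) (comp 0 v) := by
  induction d generalizing v with
  | zero => exact C.comp_zero h
  | succ d ih =>
    obtain ⟨b, N, u, hN, hu, hb, rfl⟩ := h
    refine ⟨b, N, fun i => comp 0 (u i), hN, fun i => ih (hu i), ?_, comp_sum 0 _ u⟩
    intro i p hp
    exact hb i (p.1, 0 :: p.2) (mem_comp.1 hp)

/-- G6 -/
theorem G.pre_zero {d : ℕ} {v : V} (h : G (d + 1) v) : G d (pre 0 v) := by
  induction d generalizing v with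
  | zero =>
    obtain ⟨b, N, u, hN, hu, hb, rfl⟩ := h
    exact C.merge b N hN u hu hb
  | succ d ih =>
    obtain ⟨b, N, u, hN, hu, hb, rfl⟩ := h
    refine ⟨b, N, fun i => pre 0 (u i), hN, fun i => ih (hu i), ?_, H94.WH.pre_sum 0 _ u⟩
    intro i p hp
    obtain ⟨q, hq, rfl⟩ := mem_pre.1 hp
    exact hb i q hq

end H94.WH

end S_GS
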