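import Mathlib
import Pool.Agent.H94.WHM.M1

set_option autoImplicit false

/-! A hereditarily indecomposable weak Hilbert space, part M2: this file joins several modules. -/

section S_GC

/-!
# MODULE GC: cell structure of `comp s v`, `s ≥ 1`, `v ∈ G_d` (G5)

`G.cells`: induction on `d`. `d = 0`: `C.cells`. Step: `v = ∑_{i<N} v_i`, positions of `v_i` `≥ b`, `N ≤ g b`; `A_i` for `v_i`;
`A = ⋃ (A_i.image (max b))` (Kset.image, Kset.succ_fin). For `J` separated from `A` put `J' = J ∩ [b,∞)`; `J'` is separated from `A_i`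
(if `a ∈ A_i ∩ J'` then `max b a = a ∈ A`), and `res J (comp s v) = ∑ res J' (comp s v_i)`.
-/

set_option autoImplicit false

namespace H94.WH

open Finset

/-- G5 -/
theorem G.cells {d : ℕ} {v : V} (h : G d v) {s : ℕ} (hs : 1 ≤ s) : ∃ A, Kset (nn s + d) A ∧
    (∀ p ∈ (comp s v).support, ∃ a ∈ A, a ≤ p.1) ∧
    ∀ J : Set ℕ, J.OrdConnected → Sep A J → G d (H94.WH.res J (comp s v)) := by
  classical
  induction d generalizing v with
  | zero => exact C.cells h hs
  | succ d ih =>
    obtain ⟨b, N, u, hN, hu, hb, rfl⟩ := h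
    choose A hA h1 h2 using fun i => ih (hu i)
    have hpos : ∀ i, ∀ p ∈ (comp s (u i)).support, b ≤ p.1 := by
      intro i p hp
      exact hb i (p.1, s :: p.2) (mem_comp.1 hp)
    refine ⟨Finset.univ.biUnion (fun i => (A i).image (max b)), ?_, ?_, ?_⟩
    · apply Kset.succ_fin _ hN
      · intro i
        exact Kset.image (hA i) (max b) (fun a _ => le_max_right _ _)
      · intro i a ha
        obtain ⟨a', -, rfl⟩ := Finset.mem_image.1 ha
        exact le_max_left _ _
    · intro p hp
      rw [comp_sum] at hp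
      have : ∃ i, p ∈ (comp s (u i)).support := by
        by_contra hcon
        push Not at hcon
        rw [Finsupp.mem_support_iff] at hp
        apply hp
        rw [Finsupp.finsetSum_apply]
        apply Finset.sum_eq_zero
        intro i _
        exact Finsupp.notMem_support_iff.1 (hcon i)
      obtain ⟨i, hi⟩ := this
      obtain ⟨a, ha, hap⟩ := h1 i p hi
      exact ⟨max b a, Finset.mem_biUnion.2 ⟨i, Finset.mem_univ _,
        Finset.mem_image.2 ⟨a, ha, rfl⟩⟩, max_le (hpos i p hi) hap⟩
    · intro J hJ hsep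
      have e : H94.WH.res J (comp s (∑ i, u i))
          = ∑ i, H94.WH.res (J ∩ Set.Ici b) (comp s (u i)) := by
        rw [comp_sum, res_sum]
        apply Finset.sum_congr rfl
        intro i _
        apply res_congr
        intro p hp
        exact ⟨fun h => ⟨h, hpos i p hp⟩, fun h => h.1⟩
      rw [e]
      refine ⟨b, N, fun i => H94.WH.res (J ∩ Set.Ici b) (comp s (u i)), hN, ?_, ?_, rfl⟩
      · intro i
        apply h2 i _ (hJ.inter Set.ordConnected_Ici)
        intro a ha haJ j hj
        have hba : b ≤ a := haJ.2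
        apply hsep a _ haJ.1 j hj.1
        refine Finset.mem_biUnion.2 ⟨i, Finset.mem_univ _, Finset.mem_image.2 ⟨a, ha, ?_⟩⟩
        exact max_eq_right hba
      · intro i p hp
        exact (mem_res.1 hp).2.2

end H94.WH

end S_GC

section S_GF

/-!
# MODULE GF: families (G9), (G10)

`G.family`: induction on `n`. `n = 0`: at most one summand. Step: `A = ⋃_{i<N} F i`; choose for `a ∈ A` an index `i(a)` with `a ∈ F (i a)`;
`A_i = A.filter (i a = i) ⊆ F i`; `∑_{a ∈ A} = ∑_i ∑_{a ∈ A_i}` (`Finset.sum_fiberwise`), each inner sum in `G (n+d)` with positions `≥ b`.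

`G.comp_mem`: induction on `d`. `d = 0` (`G 0 v` is `C v`): `C.cells`, `comp s v = ∑_{a ∈ A} res (cell A a) (comp s v)` (`sum_res_eq`, `mem_some_cell`, `cell_disjoint`), then `G.family`
(`G (nn s + 0)`). Step: `comp s v = ∑ comp s v_i`, each in `G (nn s + d)` with positions `≥ b`.

`G.comp_odd`: induction on `d`; `d = 0`: `C.comp_odd`; every `w ∈ ws` satisfies `col {code ..} w = w` and `code q _ ≥ q + 2`.
-/

set_option autoImplicit false

namespace H94.WH

open Finset

theorem GF_mem_sum {ι : Type*} (s : Finset ι) (u : ι → V) {p : Atom}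
    (hp : p ∈ (∑ i ∈ s, u i).support) : ∃ i ∈ s, p ∈ (u i).support := by
  classical
  have h := Finsupp.support_finsetSum hp
  rw [Finset.mem_biUnion] at h
  exact h

/-- G9 -/
theorem G.family {n d : ℕ} {A : Finset ℕ} (hA : Kset n A) (u : ℕ → V) (hu : ∀ a ∈ A, G d (u a))
    (hb : ∀ a ∈ A, ∀ p ∈ (u a).support, a ≤ p.1) : G (n + d) (∑ a ∈ A, u a) := by
  classical
  induction n generalizing A with
  | zero =>
    rw [zero_add]
    have h1 : A.card ≤ 1 := hA
    rcases A.eq_empty_or_nonempty with rfl | ⟨a, ha⟩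
    · rw [Finset.sum_empty]
      exact G.zero d
    · have h2 : A = {a} := by
        rw [Finset.eq_singleton_iff_unique_mem]
        exact ⟨ha, fun x hx => Finset.card_le_one.1 h1 x hx a ha⟩
      rw [h2, Finset.sum_singleton]
      exact hu a ha
  | succ n ih =>
    obtain ⟨b, N, F, hN, hF, hbA, hAeq⟩ := hA
    rcases A.eq_empty_or_nonempty with h0 | ⟨a0, ha0⟩
    · rw [h0, Finset.sum_empty]
      exact G.zero _
    have hidx : ∀ a ∈ A, ∃ i, a ∈ F i := by
      intro a ha
      rw [hAeq, Finset.mem_biUnion] at ha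
      obtain ⟨i, -, hi⟩ := ha
      exact ⟨i, hi⟩
    obtain ⟨i0, -⟩ := hidx a0 ha0
    let idx : ℕ → Fin N := fun a => if h : ∃ i, a ∈ F i then Classical.choose h else i0
    have hidx2 : ∀ a ∈ A, a ∈ F (idx a) := by
      intro a ha
      have h1 := hidx a ha
      have h2 : idx a = Classical.choose h1 := dif_pos h1
      rw [h2]
      exact Classical.choose_spec h1
    rw [← Finset.sum_fiberwise A idx u]
    have hcast : n + 1 + d = (n + d) + 1 := by ring
    rw [hcast]
    refine G.sum_finset (b := b) Finset.univ (fun i => ∑ a ∈ A with idx a = i, u a) ?_ ?_ ?_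
    · rw [Finset.card_univ, Fintype.card_fin]
      exact hN
    · intro i _
      refine ih ?_ ?_ ?_
      · refine Kset.sub (hF i) ?_
        intro a ha
        rw [Finset.mem_filter] at ha
        have := hidx2 a ha.1
        rwa [ha.2] at this
      · intro a ha
        exact hu a (Finset.mem_filter.1 ha).1
      · intro a ha
        exact hb a (Finset.mem_filter.1 ha).1
    · intro i _ p hp
      obtain ⟨a, ha, hpa⟩ := GF_mem_sum _ _ hp
      have h1 := (Finset.mem_filter.1 ha).1
      exact (hbA a h1).trans (hb a h1 p hpa)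

theorem G.comp_mem {d : ℕ} {v : V} (h : G d v) {s : ℕ} (hs : 1 ≤ s) : G (nn s + d) (comp s v) := by
  induction d generalizing v with
  | zero =>
    obtain ⟨A, hA, hs', hJ⟩ := C.cells h hs
    have h1 : ∑ a ∈ A, H94.WH.res (cell A a) (comp s v) = comp s v := by
      refine sum_res_eq A (cell A) ?_ _ ?_
      · intro a ha a' ha' hne
        exact cell_disjoint ha ha' hne
      · intro p hp
        exact mem_some_cell (hs' p hp)
    rw [← h1]
    refine G.family hA (fun a => H94.WH.res (cell A a) (comp s v)) ?_ ?_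
    · intro a ha
      exact hJ (cell A a) (ordConnected_cell A a) (sep_cell ha)
    · intro a _ p hp
      exact (mem_res.1 hp).2.1
  | succ d ih =>
    obtain ⟨b, N, u, hN, hu, hb, rfl⟩ := h
    refine ⟨b, N, fun i => comp s (u i), hN, fun i => ih (hu i), ?_, ?_⟩
    · intro i p hp
      exact hb i (p.1, s :: p.2) (mem_comp.1 hp)
    · rw [comp_sum]

theorem GF_col_list (S : Set ℕ) (ws : List V) (h : ∀ w ∈ ws, H94.WH.col S w = w) :
    H94.WH.col S ws.sum = ws.sum := by
  induction ws with
  | nil => rw [List.sum_nil, col_zero]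
  | cons w ws ih =>
    rw [List.sum_cons, col_add, h w (by simp), ih (fun w' hw' => h w' (by simp [hw']))]

/-- G10 -/
theorem G.comp_odd {d : ℕ} {v : V} (h : G d v) {q : ℕ} (hq : Odd q) :
    H94.WH.col {s | q + 2 ≤ s} (comp q v) = comp q v := by
  induction d generalizing v with
  | zero =>
    rcases C.comp_odd h hq with h0 | ⟨ws, bs, I, c, hsp, -, -, h1⟩
    · rw [h0, col_zero]
    · rw [h1, col_smul, ← res_col, GF_col_list]
      intro w hw
      obtain ⟨r, hr, rfl⟩ := List.getElem_of_mem hw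
      have h2 := hsp.2.2.2 r hr
      conv_lhs => rw [← h2]
      rw [col_col]
      have h3 : {s | q + 2 ≤ s} ∩ {code q (ws.take r)} = {code q (ws.take r)} := by
        apply Set.inter_eq_right.2
        intro x hx
        rw [Set.mem_singleton_iff] at hx
        rw [hx]
        show q + 2 ≤ code q (ws.take r)
        unfold code
        omega
      rw [h3, h2]
  | succ d ih =>
    obtain ⟨b, N, u, hN, hu, hb, rfl⟩ := h
    rw [comp_sum, col_sum]
    exact Finset.sum_congr rfl fun i _ => ih (hu i)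

end H94.WH

end S_GF

section S_GT

/-!
# MODULE GT: starting points (G7)

`G.starts`: induction on `d`. `d = 0`: `S = ∅`, `N = 1`, `u 0 = res (Ico n1 n2) v`. Step: `v = ∑_{i<N} v_i`, positions of `v_i` `≥ b`, `N ≤ g b`,
`S_i` for `v_i`; `S = {b} ∪ ⋃ (S_i.filter (b ≤ ·))` (Kset.succ_fin, Kset.union; `2*(d+1) = 2*d+1+1`). Let `S ∩ [n1,n2) = ∅`. If `n1 < b` then `n2 ≤ b` and
`res (Ico n1 n2) v = 0` (take 0 summands). If `b ≤ n1` then `S_i ∩ [n1,n2) = ∅` and `N * (g n1)^d ≤ (g n1)^(d+1)`; concatenate the families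
(pad with zeros `C.zero` so that all have exactly `(g n1)^d` members and use `finProdFinEquiv`, or first prove a version with a list / finset of summands).
-/

set_option autoImplicit false

namespace H94.WH

open Finset

theorem GT_list (d : ℕ) : ∀ {v : V}, G d v → ∃ S, Kset (2 * d) S ∧
    ∀ n1 n2 : ℕ, n1 ≤ n2 → (∀ a ∈ S, ¬ (n1 ≤ a ∧ a < n2)) →
      ∃ L : List V, L.length ≤ (g n1) ^ d ∧ (∀ u ∈ L, C u) ∧
        H94.WH.res (Set.Ico n1 n2) v = L.sum := by
  induction d with
  | zero =>
    intro v h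
    refine ⟨∅, Kset.empty _, fun n1 n2 h12 _ =>
      ⟨[H94.WH.res (Set.Ico n1 n2) v], by simp, ?_, by simp⟩⟩
    intro u hu
    rw [List.mem_singleton] at hu
    subst hu
    exact C.res h Set.ordConnected_Ico
  | succ d ih =>
    rintro v ⟨b, N, u, hN, hu, hb, hv⟩
    choose S hS hS2 using fun i => ih (hu i)
    refine ⟨{b} ∪ (univ.biUnion fun i => (S i).filter (b ≤ ·)), ?_, ?_⟩
    · have h1 : Kset (2 * d + 1) (univ.biUnion fun i => (S i).filter (b ≤ ·)) :=
        Kset.succ_fin (b := b) _ hN (fun i => (hS i).sub (filter_subset _ _))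
          (fun i a ha => (mem_filter.1 ha).2)
      have h2 := Kset.union (Kset.single (2 * d + 1) b) h1
      have h3 : 2 * (d + 1) = 2 * d + 1 + 1 := by ring
      rw [h3]
      exact h2
    · intro n1 n2 h12 hS'
      by_cases hb1 : n1 < b
      · have hb2 : n2 ≤ b := by
          by_contra hc
          push Not at hc
          exact hS' b (mem_union_left _ (mem_singleton_self _)) ⟨hb1.le, hc⟩
        refine ⟨[], by simp, by simp, ?_⟩
        rw [hv, res_sum, List.sum_nil]
        apply Finset.sum_eq_zero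
        intro i _
        apply res_eq_zero
        intro p hp hp2
        have h1 := hb i p hp
        have h2 := hp2.2
        omega
      · push Not at hb1
        have hi : ∀ i, ∃ L : List V, L.length ≤ (g n1) ^ d ∧ (∀ w ∈ L, C w) ∧
            H94.WH.res (Set.Ico n1 n2) (u i) = L.sum := fun i => hS2 i n1 n2 h12
          (fun a ha h' => hS' a (mem_union_right _ (mem_biUnion.2 ⟨i, mem_univ _,
            mem_filter.2 ⟨ha, hb1.trans h'.1⟩⟩)) h')
        choose L hL1 hL2 hL3 using hi
        refine ⟨(List.ofFn L).flatten, ?_, ?_, ?_⟩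
        · rw [List.length_flatten, List.map_ofFn, List.sum_ofFn]
          calc ∑ i, (List.length ∘ L) i ≤ ∑ i : Fin N, g n1 ^ d :=
                Finset.sum_le_sum fun i _ => hL1 i
            _ = N * g n1 ^ d := by simp
            _ ≤ g n1 * g n1 ^ d := Nat.mul_le_mul_right _ (hN.trans (g_mono hb1))
            _ = g n1 ^ (d + 1) := by ring
        · intro w hw
          rw [List.mem_flatten] at hw
          obtain ⟨l, hl, hwl⟩ := hw
          rw [List.mem_ofFn] at hl
          obtain ⟨i, rfl⟩ := hl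
          exact hL2 i w hwl
        · rw [hv, res_sum, List.sum_flatten, List.map_ofFn, List.sum_ofFn]
          exact Finset.sum_congr rfl fun i _ => hL3 i

/-- G7 -/
theorem G.starts {d : ℕ} {v : V} (h : G d v) : ∃ S, Kset (2 * d) S ∧
    ∀ n1 n2 : ℕ, n1 ≤ n2 → (∀ a ∈ S, ¬ (n1 ≤ a ∧ a < n2)) →
      ∃ (N : ℕ) (u : Fin N → V), N ≤ (g n1) ^ d ∧ (∀ i, C (u i)) ∧
        H94.WH.res (Set.Ico n1 n2) v = ∑ i, u i := by
  obtain ⟨S, hS, hS2⟩ := GT_list d h
  refine ⟨S, hS, fun n1 n2 h12 hS' => ?_⟩
  obtain ⟨L, hL1, hL2, hL3⟩ := hS2 n1 n2 h12 hS'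
  refine ⟨L.length, fun i => L.get i, hL1, fun i => hL2 _ (List.get_mem _ _), ?_⟩
  rw [hL3, ← List.sum_ofFn, List.ofFn_get]

end H94.WH

end S_GT

section S_GR

/-!
# MODULE GR: critical sets (G8)

`G.crit`: `K_d`-smallness of the set of `k` for which the part of `v` with root symbols in `Crit k` is nonzero on `[lo k, hi k]`.
Induction on `d`. `d = 0`: `v ∈ C` has one root symbol (`C.mono_root`), which is in `Crit k` for at most one `k < M`. Step: the set is contained in the union of the
sets of the `v_i`; every member has `b ≤ hi k` (some position of the restricted `v` is in `[lo k, hi k]`). `Kset.succ_fin`, `Kset.sub`.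
-/

set_option autoImplicit false

namespace H94.WH

open Finset

open Classical in
/-- G8 -/
theorem G.crit {d : ℕ} {v : V} (h : G d v) {M : ℕ} {lo hi : ℕ → ℕ} (hI : Ivals M lo hi)
    (Crit : ℕ → Set ℕ) (hdis : ∀ i < M, ∀ j < M, i ≠ j → Disjoint (Crit i) (Crit j)) :
    Kset d (((Finset.range M).filter
      (fun k => H94.WH.res (Set.Icc (lo k) (hi k)) (H94.WH.col (Crit k) v) ≠ 0)).image hi) := by
  induction d generalizing v with
  | zero =>
    change ((((Finset.range M).filter
      (fun k => H94.WH.res (Set.Icc (lo k) (hi k)) (H94.WH.col (Crit k) v) ≠ 0)).image hi).card ≤ 1)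
    refine Finset.card_image_le.trans ?_
    rw [Finset.card_le_one]
    intro i hi' j hj'
    rw [Finset.mem_filter, Finset.mem_range] at hi' hj'
    rcases C.mono_root h with ⟨l, c, rfl⟩ | ⟨s, hs⟩
    · exfalso
      apply hi'.2
      rw [col_single]
      exact res_eq_zero (fun p hp => absurd hp (by simp))
    · have key : ∀ k, H94.WH.res (Set.Icc (lo k) (hi k)) (H94.WH.col (Crit k) v) ≠ 0 →
          s ∈ Crit k := by
        intro k hk
        by_contra hcon
        apply hk
        rw [hs, col_pre_not hcon]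
        exact res_eq_zero (fun p hp => absurd hp (by simp))
      by_contra hne
      exact Set.disjoint_left.1 (hdis i hi'.1 j hj'.1 hne) (key i hi'.2) (key j hj'.2)
  | succ d ih =>
    obtain ⟨b, N, u, hN, hu, hb, rfl⟩ := h
    refine Kset.sub (Kset.succ_fin (b := b) (fun i => ((Finset.range M).filter
      (fun k => H94.WH.res (Set.Icc (lo k) (hi k)) (H94.WH.col (Crit k) (u i)) ≠ 0)).image hi) hN
      (fun i => ih (hu i)) ?_) ?_
    · intro i a ha
      obtain ⟨k, hk, rfl⟩ := Finset.mem_image.1 ha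
      rw [Finset.mem_filter] at hk
      obtain ⟨p, hp⟩ := Finsupp.support_nonempty_iff.2 hk.2
      have h1 := mem_res.1 hp
      exact (hb i p (mem_col.1 h1.1).1).trans h1.2.2
    · intro a ha
      obtain ⟨k, hk, rfl⟩ := Finset.mem_image.1 ha
      rw [Finset.mem_filter] at hk
      by_contra hcon
      simp only [Finset.mem_biUnion, Finset.mem_univ, true_and, not_exists] at hcon
      apply hk.2
      rw [col_sum, res_sum]
      refine Finset.sum_eq_zero fun i _ => ?_
      by_contra h0
      exact hcon i (Finset.mem_image_of_mem hi (Finset.mem_filter.2 ⟨hk.1, h0⟩))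

end H94.WH

end S_GR

section S_GQ0

/-!
# MODULE GQ0: the q-lemma (G11) for elements of the cone

Write `p k = code q ((List.range k).map w)` (injective in the list, so also in `k`: the lists have different lengths).

`qlemma0` (v in the cone). If `comp q v = 0` take `Ch = ∅`, `γ = 0`. Otherwise (`C.comp_odd`) `comp q v = c • res I ws.sum`; replace `I` by `I ∩ [b,∞)` (`comp q v` has
positions `≥ b`). Let `ρ` = the length of the longest common prefix of `ws` and `(w 0, .., w (M-1))`: `ρ ≤ M`, `ρ ≤ ws.length`, `ws[r] = w r` for `r < ρ`, and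
(`ρ = M` or `ρ = ws.length` or `ws[ρ] ≠ w ρ`). For `k < M`:
`col {p k} (comp q v) = c • ∑_r res I (col {p k} ws[r])`, and `col {p k} ws[r] = ws[r]` if `ws.take r = (List.range k).map w`, else `0` (since
`ws[r] = col {code q (ws.take r)} ws[r]` and `code` is injective); equality of the lists means `r = k ≤ ρ`. Hence
 * `k < ρ`: `res [lo k, hi k] (col {p k} (comp q v)) = c • res I (w k)`: equal to `c • w k` if `[lo k, hi k] ⊆ I`, to `0` if disjoint from `I`;
 * `k > ρ`: `= 0`;  `k = ρ`: supported in `I ∩ [lo k, hi k]`, so `= 0` if `hi k < b`.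
`γ k = c` if `k < ρ ∧ [lo k, hi k] ⊆ I`, else `0`. `Ch = {k < M : b ≤ hi k ∧ (k = ρ ∨ ([lo k,hi k] meets I and is not contained in I) ∨ (k ∈ Q ∧ k-1 ∉ Q) ∨ (k ∉ Q ∧ k ≥ 1 ∧ k-1 ∈ Q))}`
with `Q = {k < ρ : [lo k, hi k] ⊆ I}` (an interval of indices). It has at most `5 ≤ g b` elements (`Kset.of_card`): 1 + 2 + 1 + 1.
-/

set_option autoImplicit false

namespace H94.WH

open Finset

theorem code_inj {q : ℕ} {ws ws' : List V} (h : code q ws = code q ws') : ws = ws' := by
  unfold code at h
  apply Classical.choose_spec exists_code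
  omega

theorem code_even (q : ℕ) (ws : List V) : Even (code q ws) := by
  unfold code
  exact even_two_mul _

theorem code_ge (q : ℕ) (ws : List V) : q + 2 ≤ code q ws := by
  unfold code
  omega

theorem GQ0_card2 (S : Finset ℕ) (h : ∀ a ∈ S, ∀ b ∈ S, ∀ c ∈ S, a < b → b < c → False) :
    S.card ≤ 2 := by
  by_contra hcon
  push Not at hcon
  obtain ⟨a, ha, b, hb, c, hc, hab, hac, hbc⟩ := Finset.two_lt_card.1 hcon
  rcases lt_or_gt_of_ne hab with h1 | h1 <;> rcases lt_or_gt_of_ne hac with h2 | h2 <;>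
    rcases lt_or_gt_of_ne hbc with h3 | h3
  · exact h a ha b hb c hc h1 h3
  · exact h a ha c hc b hb h2 h3
  · omega
  · exact h c hc a ha b hb h2 h1
  · exact h b hb a ha c hc h1 h2
  · omega
  · exact h b hb c hc a ha h3 h2
  · exact h c hc b hb a ha h3 h1

theorem GQ0_take_le {w : ℕ → V} {ws : List V} {j k : ℕ} (hjk : j ≤ k)
    (h : ws.take k = (List.range k).map w) : ws.take j = (List.range j).map w := by
  have h1 : (ws.take k).take j = ((List.range k).map w).take j := by rw [h]
  rw [List.take_take, min_eq_left hjk, ← List.map_take, List.take_range, min_eq_left hjk] at h1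
  exact h1

theorem GQ0_get {w : ℕ → V} {ws : List V} {j k : ℕ} (hjk : j < k)
    (h : ws.take k = (List.range k).map w) : ws.getD j 0 = w j := by
  have h1 : (ws.take k)[j]? = ((List.range k).map w)[j]? := by rw [h]
  rw [List.getElem?_take_of_lt hjk, List.getElem?_map, List.getElem?_range hjk] at h1
  simp only [Option.map_some] at h1
  rw [List.getD_eq_getElem?_getD, h1]
  rfl

theorem GQ0_sum {q : ℕ} {w : ℕ → V} {ws : List V}
    (hcol : ∀ r (hr : r < ws.length), H94.WH.col {code q (ws.take r)} ws[r] = ws[r]) (k : ℕ) :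
    (¬ (k < ws.length ∧ ws.take k = (List.range k).map w) →
      H94.WH.col {code q ((List.range k).map w)} ws.sum = 0) ∧
    ((k < ws.length ∧ ws.take k = (List.range k).map w) →
      H94.WH.col {code q ((List.range k).map w)} ws.sum = ws.getD k 0) := by
  have hs : ws.sum = ∑ r : Fin ws.length, ws[(r : ℕ)] := (Fin.sum_univ_getElem ws).symm
  have hz : ∀ r : Fin ws.length, ws.take r ≠ (List.range k).map w →
      H94.WH.col {code q ((List.range k).map w)} ws[(r : ℕ)] = 0 := by
    intro r hr
    rw [← hcol r r.2, col_col]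
    have h1 : ({code q ((List.range k).map w)} ∩ {code q (ws.take r)} : Set ℕ) = ∅ := by
      rw [Set.eq_empty_iff_forall_notMem]
      rintro x ⟨hx1, hx2⟩
      rw [Set.mem_singleton_iff] at hx1 hx2
      exact hr (code_inj (hx2.symm.trans hx1))
    rw [h1]
    ext ⟨l, π⟩
    rcases π with _ | ⟨s, π⟩
    · rw [col_apply_nil]
      simp
    · rw [col_apply_cons]
      simp
  have hlen : ∀ r : Fin ws.length, ws.take r = (List.range k).map w → (r : ℕ) = k := by
    intro r hr
    have h1 := congrArg List.length hr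
    rw [List.length_take, List.length_map, List.length_range] at h1
    have := r.2
    omega
  constructor
  · intro hk
    rw [hs, col_sum]
    refine Finset.sum_eq_zero fun r _ => hz r fun hr => hk ?_
    have := hlen r hr
    rw [← this]
    refine ⟨r.2, ?_⟩
    rw [this]
    rw [this] at hr
    exact hr
  · rintro ⟨hk, htake⟩
    rw [hs, col_sum, Finset.sum_eq_single (⟨k, hk⟩ : Fin ws.length)]
    · have h1 := hcol k hk
      rw [← htake]
      have h2 : ws.getD k 0 = ws[k] := by
        rw [List.getD_eq_getElem?_getD, List.getElem?_eq_getElem hk]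
        rfl
      rw [h2]
      exact h1
    · intro r _ hr
      refine hz r fun h1 => hr ?_
      exact Fin.ext (hlen r h1)
    · intro h1
      exact absurd (Finset.mem_univ _) h1

/-- `code q ws ≥ 2 (q+1)`, so `q + 2 ≤ code q ws` for `q ≥ 0` -/
theorem qlemma0 {q : ℕ} (hq : Odd q) {M : ℕ} {w : ℕ → V} {lo hi : ℕ → ℕ} (hI : Ivals M lo hi)
    (hw : ∀ k < M, ∀ p ∈ (w k).support, lo k ≤ p.1 ∧ p.1 ≤ hi k)
    (hc : ∀ k < M, H94.WH.col {code q ((List.range k).map w)} (w k) = w k)
    {v : V} (h : C v) (b : ℕ) (hb : ∀ p ∈ v.support, b ≤ p.1) :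
    ∃ (Ch : Finset ℕ) (γ : ℕ → ℚ), Ch ⊆ Finset.range M ∧ Kset 1 (Ch.image hi) ∧ (∀ k ∈ Ch, b ≤ hi k) ∧
      (∀ k < M, k ∉ Ch → H94.WH.res (Set.Icc (lo k) (hi k))
        (H94.WH.col {code q ((List.range k).map w)} (comp q v)) = γ k • w k) ∧
      ∀ k, k + 1 < M → k ∉ Ch → k + 1 ∉ Ch → γ k = γ (k + 1) := by
  classical
  rcases h.comp_odd hq with h0 | ⟨ws, bs, I, c, hsp, hC, hIo, hcomp⟩
  · refine ⟨∅, 0, by simp, by simpa using Kset.empty 1, by simp, ?_, by simp⟩
    intro k hk _
    rw [h0, col_zero, res_zero]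
    simp
  -- intervals
  have hlohi : ∀ k < M, lo k ≤ hi k := hI.1
  have hsucc : ∀ j k, j < k → k < M → hi j < lo k := by
    intro j k hjk
    induction k, hjk using Nat.le_induction with
    | base => intro hk; exact hI.2 j hk
    | succ k hk ih =>
      intro hk2
      have h1 := ih (by omega)
      have h2 := hlohi k (by omega)
      have h3 := hI.2 k hk2
      omega
  -- the interval I'
  set I' : Set ℕ := Set.Ici b ∩ I with hI'
  have hI'o : I'.OrdConnected := Set.ordConnected_Ici.inter hIo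
  have hcomp' : comp q v = c • H94.WH.res I' ws.sum := by
    have h1 : H94.WH.res (Set.Ici b) (comp q v) = comp q v := by
      apply res_eq_self
      intro p hp
      rw [mem_comp] at hp
      exact hb (p.1, q :: p.2) hp
    rw [← h1, hcomp, res_smul, res_res]
  have hX := GQ0_sum (w := w) hsp.2.2.2
  set Pre : ℕ → Prop := fun k => k < ws.length ∧ ws.take k = (List.range k).map w with hPre
  have hPre_lt : ∀ j k, j ≤ k → Pre k → Pre j := by
    rintro j k hjk ⟨h1, h2⟩
    exact ⟨by omega, GQ0_take_le hjk h2⟩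
  have hPre_get : ∀ j k, j < k → Pre k → ws.getD j 0 = w j := by
    rintro j k hjk ⟨h1, h2⟩
    exact GQ0_get hjk h2
  set Q : ℕ → Prop := fun k => k < M ∧ Pre k ∧ ws.getD k 0 = w k ∧ Set.Icc (lo k) (hi k) ⊆ I' with hQ
  have hQconv : ∀ i j k, i < j → j < k → Q i → Q k → Q j := by
    rintro i j k hij hjk ⟨hi1, hi2, hi3, hi4⟩ ⟨hk1, hk2, hk3, hk4⟩
    refine ⟨by omega, hPre_lt j k hjk.le hk2, hPre_get j k hjk hk2, ?_⟩
    have a1 : hi i ∈ I' := hi4 ⟨hlohi i hi1, le_rfl⟩
    have a2 : lo k ∈ I' := hk4 ⟨le_rfl, hlohi k hk1⟩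
    have a3 := hsucc i j hij (by omega)
    have a4 := hsucc j k hjk hk1
    intro x hx
    exact hI'o.out a1 a2 ⟨by have := hx.1; omega, by have := hx.2; omega⟩
  have hQb : ∀ k, Q k → b ≤ lo k := by
    rintro k ⟨h1, h2, h3, h4⟩
    exact (h4 ⟨le_rfl, hlohi k h1⟩).1
  -- the four parts of Ch
  set S1 := (Finset.range M).filter (fun k => b ≤ hi k ∧ Pre k ∧ ws.getD k 0 ≠ w k) with hS1
  set S2 := (Finset.range M).filter (fun k => (∃ x ∈ Set.Icc (lo k) (hi k), x ∈ I') ∧
    ¬ Set.Icc (lo k) (hi k) ⊆ I') with hS2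
  set S3 := (Finset.range M).filter (fun k => 1 ≤ k ∧ Q (k - 1) ∧ ¬ Q k) with hS3
  set S4 := (Finset.range M).filter (fun k => 1 ≤ k ∧ ¬ Q (k - 1) ∧ Q k) with hS4
  have c1 : S1.card ≤ 1 := by
    rw [Finset.card_le_one]
    intro x hx y hy
    rw [hS1, Finset.mem_filter] at hx hy
    rcases lt_trichotomy x y with h1 | h1 | h1
    · exact absurd (hPre_get x y h1 hy.2.2.1) hx.2.2.2
    · exact h1
    · exact absurd (hPre_get y x h1 hx.2.2.1) hy.2.2.2
  have c2 : S2.card ≤ 2 := by
    apply GQ0_card2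
    intro x hx y hy z hz hxy hyz
    rw [hS2, Finset.mem_filter, Finset.mem_range] at hx hy hz
    obtain ⟨hx1, ⟨x', hx2, hx3⟩, hx4⟩ := hx
    obtain ⟨hy1, _, hy4⟩ := hy
    obtain ⟨hz1, ⟨z', hz2, hz3⟩, hz4⟩ := hz
    apply hy4
    intro t ht
    have a3 := hsucc x y hxy hy1
    have a4 := hsucc y z hyz hz1
    exact hI'o.out hx3 hz3 ⟨by have := hx2.2; have := ht.1; omega, by
      have := hz2.1; have := ht.2; omega⟩
  have c3 : S3.card ≤ 1 := by
    rw [Finset.card_le_one]
    intro x hx y hy
    rw [hS3, Finset.mem_filter] at hx hy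
    rcases lt_trichotomy x y with h1 | h1 | h1
    · exfalso
      rcases (show x = y - 1 ∨ x < y - 1 by omega) with h2 | h2
      · exact hx.2.2.2 (h2 ▸ hy.2.2.1)
      · exact hx.2.2.2 (hQconv (x - 1) x (y - 1) (by omega) h2 hx.2.2.1 hy.2.2.1)
    · exact h1
    · exfalso
      rcases (show y = x - 1 ∨ y < x - 1 by omega) with h2 | h2
      · exact hy.2.2.2 (h2 ▸ hx.2.2.1)
      · exact hy.2.2.2 (hQconv (y - 1) y (x - 1) (by omega) h2 hy.2.2.1 hx.2.2.1)
  have c4 : S4.card ≤ 1 := by
    rw [Finset.card_le_one]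
    intro x hx y hy
    rw [hS4, Finset.mem_filter] at hx hy
    rcases lt_trichotomy x y with h1 | h1 | h1
    · exfalso
      rcases (show x = y - 1 ∨ x < y - 1 by omega) with h2 | h2
      · exact hy.2.2.1 (h2 ▸ hx.2.2.2)
      · exact hy.2.2.1 (hQconv x (y - 1) y h2 (by omega) hx.2.2.2 hy.2.2.2)
    · exact h1
    · exfalso
      rcases (show y = x - 1 ∨ y < x - 1 by omega) with h2 | h2
      · exact hx.2.2.1 (h2 ▸ hy.2.2.2)
      · exact hx.2.2.1 (hQconv y (x - 1) x h2 (by omega) hy.2.2.2 hx.2.2.2)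
  have hbCh : ∀ k ∈ S1 ∪ S2 ∪ S3 ∪ S4, b ≤ hi k := by
    intro k hk
    rw [Finset.mem_union, Finset.mem_union, Finset.mem_union] at hk
    rcases hk with ((hk | hk) | hk) | hk
    · rw [hS1, Finset.mem_filter] at hk
      exact hk.2.1
    · rw [hS2, Finset.mem_filter] at hk
      obtain ⟨_, ⟨x, hx1, hx2⟩, _⟩ := hk
      exact le_trans hx2.1 hx1.2
    · rw [hS3, Finset.mem_filter, Finset.mem_range] at hk
      have a1 := hQb _ hk.2.2.1
      have a2 := hsucc (k - 1) k (by omega) hk.1
      have a3 := hlohi (k - 1) (by omega)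
      have a4 := hlohi k hk.1
      omega
    · rw [hS4, Finset.mem_filter, Finset.mem_range] at hk
      have a1 := hQb _ hk.2.2.2
      have a4 := hlohi k hk.1
      omega
  refine ⟨S1 ∪ S2 ∪ S3 ∪ S4, fun k => if Q k then c else 0, ?_, ?_, hbCh, ?_, ?_⟩
  · refine Finset.union_subset (Finset.union_subset (Finset.union_subset ?_ ?_) ?_) ?_ <;>
      exact Finset.filter_subset _ _
  · refine Kset.of_card (b := b) ?_ ?_
    · have h5 := five_le_g b
      have h1 := Finset.card_image_le (s := S1 ∪ S2 ∪ S3 ∪ S4) (f := hi)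
      have h2 := Finset.card_union_le (S1 ∪ S2 ∪ S3) S4
      have h3 := Finset.card_union_le (S1 ∪ S2) S3
      have h4 := Finset.card_union_le S1 S2
      omega
    · intro a ha
      rw [Finset.mem_image] at ha
      obtain ⟨k, hk, rfl⟩ := ha
      exact hbCh k hk
  · intro k hk hkCh
    simp only [Finset.mem_union, not_or] at hkCh
    obtain ⟨⟨⟨n1, n2⟩, n3⟩, n4⟩ := hkCh
    have e1 : H94.WH.col {code q ((List.range k).map w)} (comp q v) =
        c • H94.WH.res I' (H94.WH.col {code q ((List.range k).map w)} ws.sum) := by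
      rw [hcomp', col_smul, res_col]
    rw [e1, res_smul, res_res]
    beta_reduce
    by_cases hP : Pre k
    · rw [(hX k).2 hP]
      by_cases hW : ws.getD k 0 = w k
      · by_cases hsub : Set.Icc (lo k) (hi k) ⊆ I'
        · have hQk : Q k := ⟨hk, hP, hW, hsub⟩
          rw [if_pos hQk, hW, res_eq_self]
          intro p hp
          have := hw k hk p hp
          exact ⟨this, hsub this⟩
        · have hQk : ¬ Q k := fun h => hsub h.2.2.2
          rw [if_neg hQk, hW, res_eq_zero]
          · simp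
          · intro p hp hp2
            apply n2
            rw [hS2, Finset.mem_filter, Finset.mem_range]
            exact ⟨hk, ⟨p.1, hp2.1, hp2.2⟩, hsub⟩
      · have hQk : ¬ Q k := fun h => hW h.2.2.1
        have hlt : hi k < b := by
          by_contra hcon
          apply n1
          rw [hS1, Finset.mem_filter, Finset.mem_range]
          exact ⟨hk, by omega, hP, hW⟩
        rw [if_neg hQk, res_eq_zero]
        · simp
        · intro p hp hp2
          have a1 := hp2.1.2
          have a2 : b ≤ p.1 := hp2.2.1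
          omega
    · have hQk : ¬ Q k := fun h => hP h.2.1
      rw [(hX k).1 hP, if_neg hQk, res_zero]
      simp
  · intro k hk hkCh hkCh'
    simp only [Finset.mem_union, not_or] at hkCh'
    obtain ⟨⟨⟨n1, n2⟩, n3⟩, n4⟩ := hkCh'
    beta_reduce
    by_cases h1 : Q k
    · by_cases h2 : Q (k + 1)
      · rw [if_pos h1, if_pos h2]
      · exfalso
        apply n3
        rw [hS3, Finset.mem_filter, Finset.mem_range]
        exact ⟨hk, by omega, h1, h2⟩
    · by_cases h2 : Q (k + 1)
      · exfalso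
        apply n4
        rw [hS4, Finset.mem_filter, Finset.mem_range]
        exact ⟨hk, by omega, h1, h2⟩
      · rw [if_neg h1, if_neg h2]

end H94.WH

end S_GQ0

section S_GQ

/-!
# MODULE GQ: the q-lemma (G11)
`qlemma`: induction on `d` (for all `v`, `b`), everything is additive: if `v = ∑_{i<N} v_i`, positions of `v_i` `≥ b0`, `N ≤ g b0`, and positions of `v` `≥ b`: with `b' = max b b0`, `v = ∑ res (Ici b') (v_i)`
(positions `≥ b'`, in `G d`, `N ≤ g b'`); take `Ch_i, γ_i` for these and `b'`; `Ch = ⋃ Ch_i` (`Kset.succ_fin`: all `hi k ≥ b'`), `γ = ∑ γ_i`. `d = 0`: `qlemma0`.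
-/

set_option autoImplicit false

namespace H94.WH

open Finset

/-- G11 -/
theorem qlemma {q : ℕ} (hq : Odd q) {M : ℕ} {w : ℕ → V} {lo hi : ℕ → ℕ} (hI : Ivals M lo hi)
    (hw : ∀ k < M, ∀ p ∈ (w k).support, lo k ≤ p.1 ∧ p.1 ≤ hi k)
    (hc : ∀ k < M, H94.WH.col {code q ((List.range k).map w)} (w k) = w k)
    {d : ℕ} {v : V} (h : G d v) (b : ℕ) (hb : ∀ p ∈ v.support, b ≤ p.1) :
    ∃ (Ch : Finset ℕ) (γ : ℕ → ℚ), Ch ⊆ Finset.range M ∧ Kset (d + 1) (Ch.image hi) ∧ (∀ k ∈ Ch, b ≤ hi k) ∧
      (∀ k < M, k ∉ Ch → H94.WH.res (Set.Icc (lo k) (hi k))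
        (H94.WH.col {code q ((List.range k).map w)} (comp q v)) = γ k • w k) ∧
      ∀ k, k + 1 < M → k ∉ Ch → k + 1 ∉ Ch → γ k = γ (k + 1) := by
  classical
  induction d generalizing v b with
  | zero => exact qlemma0 hq hI hw hc h b hb
  | succ d ih =>
    obtain ⟨b0, N, u, hN, hu, hub, hv⟩ := h
    set b' := max b b0 with hb'
    have hv' : v = ∑ i, H94.WH.res (Set.Ici b') (u i) := by
      rw [← res_sum, ← hv, eq_comm]
      apply res_eq_self
      intro p hp
      have h1 := hb p hp
      have h2 : b0 ≤ p.1 := by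
        rw [hv] at hp
        obtain ⟨i, _, hi⟩ := Finset.mem_biUnion.1 (Finsupp.support_finsetSum hp)
        exact hub i p hi
      show b' ≤ p.1
      exact max_le h1 h2
    have key := fun i => ih (G.res (hu i) (Set.ordConnected_Ici (a := b'))) b' (fun p hp => by
      rw [mem_res] at hp
      exact hp.2)
    choose Ch γ hCh hK hb1 hcol hγ using key
    refine ⟨Finset.univ.biUnion Ch, fun k => ∑ i, γ i k, ?_, ?_, ?_, ?_, ?_⟩
    · exact Finset.biUnion_subset.2 fun i _ => hCh i
    · rw [Finset.biUnion_image]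
      refine Kset.succ_fin (b := b') _ (hN.trans (g_mono (le_max_right _ _))) hK ?_
      intro i a ha
      obtain ⟨k, hk, rfl⟩ := Finset.mem_image.1 ha
      exact hb1 i k hk
    · intro k hk
      obtain ⟨i, _, hi⟩ := Finset.mem_biUnion.1 hk
      exact (le_max_left _ _).trans (hb1 i k hi)
    · intro k hk hkCh
      rw [hv', comp_sum, col_sum, res_sum, Finset.sum_smul]
      refine Finset.sum_congr rfl fun i _ => hcol i k hk fun hki => hkCh ?_
      exact Finset.mem_biUnion.2 ⟨i, Finset.mem_univ i, hki⟩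
    · intro k hk h1 h2
      refine Finset.sum_congr rfl fun i _ => hγ i k hk (fun hki => h1 ?_) (fun hki => h2 ?_)
      · exact Finset.mem_biUnion.2 ⟨i, Finset.mem_univ i, hki⟩
      · exact Finset.mem_biUnion.2 ⟨i, Finset.mem_univ i, hki⟩

end H94.WH

end S_GQ
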