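import Mathlib
import Pool.Agent.H94.WHM.M1

set_option autoImplicit false

/-! A hereditarily indecomposable weak Hilbert space, part M3: this file joins several modules. -/

section S_AV

/-!
# MODULE AV: online averages (Lemma A, section 6)

`averages_aux` (list form) by induction on `n`, for all `h0`, `lam`, `δ`, `N`: a nonempty list `e` of pairs (item, weight), valid after the history `h0`.
`n = 0`: choose `k ≥ 1` with `1/k^2 ≤ δ`, `b ≥ N` with `k^2 ≤ g b`; choose successively `k^2` items with weight `lam/k`, `lo > b`, `lo >` previous `hi` (`hR`).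
`n → n+1`: `k^2 ≥ 2/δ`, `b ≥ N` with `k^2 ≤ g b`; apply the case `n` successively `k^2` times with weight `lam/k`, history `h0 ++ (everything so far)`, bound = max b (largest hi so far) and
`δ_i = δ / (2 * g Mx)`, `Mx` = largest `hi` so far (0 at the beginning). (Inner induction on the number of runs, with the invariant below.)
For a set `B` with `Kset (n+1) B`, `B = ⋃_{t<NB} B_t ⊆ [bB,∞)`, `NB ≤ g bB`: let `i0` be the first run with an item with `hi ∈ B`; runs before it have mass `0`, the run `i0` has mass `≤ (lam/k)^2`,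
each later run `i` has mass `≤ NB δ_i (lam/k)^2 ≤ (δ/2) (lam/k)^2` because `bB ≤` that `hi ≤ Mx_i`. Total `≤ lam^2/k^2 + δ/2 lam^2 ≤ δ lam^2`.
Convenient invariant for the inner induction (number of runs `i`): for every `B` with `Kset (n+1) B`: mass ≤ `(lam/k)^2 + i (δ/2) (lam/k)^2`, and if no item so far has `hi ∈ B`, mass `= 0`.
`averages` (function form): `h0 = []`, `lam = 1`; `x k`, `c k` = entries of the list (default for `k ≥ length`); `take k` of the list = `(List.range k).map (fun i => (x i, c i))`.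
-/

set_option autoImplicit false

namespace H94.WH

open Finset

section AV
variable {T : Type} (lo hi : T → ℕ) (R : List (T × ℚ) → ℚ → T → Prop)

/-- validity of a list after a history -/
private def AV_Val : List (T × ℚ) → List (T × ℚ) → Prop
  | _, [] => True
  | h, p :: e => 0 < p.2 ∧ R h p.2 p.1 ∧ AV_Val (h ++ [p]) e

/-- successive items beyond `b` -/
private def AV_Succ : ℕ → List (T × ℚ) → Prop
  | _, [] => True
  | b, p :: e => b < lo p.1 ∧ AV_Succ (hi p.1) e

/-- largest `hi` -/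
private def AV_top : ℕ → List (T × ℚ) → ℕ
  | b, [] => b
  | _, p :: e => AV_top (hi p.1) e

open Classical in
/-- mass on `B` -/
private noncomputable def AV_mass (B : Finset ℕ) (e : List (T × ℚ)) : ℝ :=
  (e.map (fun p => if hi p.1 ∈ B then ((p.2 : ℚ) : ℝ) ^ 2 else 0)).sum

private noncomputable def AV_tot (e : List (T × ℚ)) : ℚ := (e.map (fun p => p.2 ^ 2)).sum

private def AV_set (f : T → ℕ) (e : List (T × ℚ)) : Finset ℕ := (e.map (fun p => f p.1)).toFinset

private theorem AV_Val_append (h e e' : List (T × ℚ)) :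
    AV_Val R h (e ++ e') ↔ AV_Val R h e ∧ AV_Val R (h ++ e) e' := by
  induction e generalizing h with
  | nil => simp [AV_Val]
  | cons p e ih =>
    simp only [List.cons_append, AV_Val, ih, List.append_assoc, List.nil_append]
    tauto

private theorem AV_Succ_append (b : ℕ) (e e' : List (T × ℚ)) :
    AV_Succ lo hi b (e ++ e') ↔ AV_Succ lo hi b e ∧ AV_Succ lo hi (AV_top hi b e) e' := by
  induction e generalizing b with
  | nil => simp [AV_Succ, AV_top]
  | cons p e ih =>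
    simp only [List.cons_append, AV_Succ, ih, AV_top]
    tauto

private theorem AV_mass_append (B : Finset ℕ) (e e' : List (T × ℚ)) :
    AV_mass hi B (e ++ e') = AV_mass hi B e + AV_mass hi B e' := by
  simp [AV_mass]

private theorem AV_tot_append (e e' : List (T × ℚ)) : AV_tot (e ++ e') = AV_tot e + AV_tot e' := by
  simp [AV_tot]

private theorem AV_set_append (f : T → ℕ) (e e' : List (T × ℚ)) :
    AV_set f (e ++ e') = AV_set f e ∪ AV_set f e' := by
  simp [AV_set]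

private theorem AV_top_ge {b : ℕ} {e : List (T × ℚ)} (hlh : ∀ x, lo x ≤ hi x)
    (h : AV_Succ lo hi b e) : b ≤ AV_top hi b e ∧ ∀ p ∈ e, b < lo p.1 ∧ hi p.1 ≤ AV_top hi b e := by
  induction e generalizing b with
  | nil => simp [AV_top]
  | cons p e ih =>
    obtain ⟨h1, h2⟩ := h
    obtain ⟨h3, h4⟩ := ih h2
    have h5 := hlh p.1
    refine ⟨by simp only [AV_top]; omega, ?_⟩
    intro q hq
    simp only [AV_top]
    rcases List.mem_cons.1 hq with rfl | hq
    · exact ⟨h1, h3⟩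
    · have := h4 q hq
      exact ⟨by omega, this.2⟩

private theorem AV_mass_nonneg (B : Finset ℕ) (e : List (T × ℚ)) : 0 ≤ AV_mass hi B e := by
  unfold AV_mass
  apply List.sum_nonneg
  intro x hx
  rw [List.mem_map] at hx
  obtain ⟨p, _, rfl⟩ := hx
  split_ifs <;> positivity

private theorem AV_mass_le_tot (B : Finset ℕ) (e : List (T × ℚ)) :
    AV_mass hi B e ≤ ((AV_tot e : ℚ) : ℝ) := by
  induction e with
  | nil => simp [AV_mass, AV_tot]
  | cons p e ih =>
    simp only [AV_mass, AV_tot, List.map_cons, List.sum_cons, Rat.cast_add, Rat.cast_pow] at ih ⊢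
    have : (if hi p.1 ∈ B then ((p.2 : ℚ) : ℝ) ^ 2 else 0) ≤ ((p.2 : ℚ) : ℝ) ^ 2 := by
      split_ifs
      · exact le_rfl
      · positivity
    linarith

private theorem AV_mass_zero {B : Finset ℕ} {e : List (T × ℚ)} (h : ∀ p ∈ e, hi p.1 ∉ B) :
    AV_mass hi B e = 0 := by
  induction e with
  | nil => simp [AV_mass]
  | cons p e ih =>
    have h1 := h p List.mem_cons_self
    have h2 := ih fun q hq => h q (List.mem_cons_of_mem _ hq)
    simp only [AV_mass, List.map_cons, List.sum_cons, if_neg h1, zero_add] at h2 ⊢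
    exact h2

private theorem AV_mass_union {M : ℕ} (F : Fin M → Finset ℕ) (e : List (T × ℚ)) :
    AV_mass hi (Finset.univ.biUnion F) e ≤ ∑ t, AV_mass hi (F t) e := by
  induction e with
  | nil => simp [AV_mass]
  | cons p e ih =>
    have h1 : ∀ B : Finset ℕ, AV_mass hi B (p :: e)
        = (if hi p.1 ∈ B then ((p.2 : ℚ) : ℝ) ^ 2 else 0) + AV_mass hi B e := by
      intro B
      simp only [AV_mass, List.map_cons, List.sum_cons]
    simp only [h1, Finset.sum_add_distrib]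
    refine add_le_add ?_ ih
    split_ifs with h
    · rw [Finset.mem_biUnion] at h
      obtain ⟨t, _, ht⟩ := h
      refine le_trans ?_ (Finset.single_le_sum (f := fun t => if hi p.1 ∈ F t then
        ((p.2 : ℚ) : ℝ) ^ 2 else 0) (fun t _ => by split_ifs <;> positivity) (Finset.mem_univ t))
      rw [if_pos ht]
    · exact Finset.sum_nonneg fun t _ => by split_ifs <;> positivity

/-- inner induction, single items -/
private theorem AV_items (hlh : ∀ x, lo x ≤ hi x)
    (hR : ∀ h c N, 0 < c → ∃ x, R h c x ∧ N < lo x) (h0 : List (T × ℚ)) {μ : ℚ} (hμ : 0 < μ)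
    (b : ℕ) (i : ℕ) :
    ∃ e : List (T × ℚ), e.length = i ∧ AV_Val R h0 e ∧ AV_Succ lo hi b e ∧ AV_tot e = i * μ ^ 2 ∧
      ∀ B : Finset ℕ, B.card ≤ 1 → AV_mass hi B e ≤ (μ : ℝ) ^ 2 := by
  induction i with
  | zero =>
    refine ⟨[], rfl, trivial, trivial, by simp [AV_tot], fun B _ => ?_⟩
    simp only [AV_mass, List.map_nil, List.sum_nil]
    positivity
  | succ i ih =>
    obtain ⟨e, h1, h2, h3, h4, h5⟩ := ih
    obtain ⟨x, hx1, hx2⟩ := hR (h0 ++ e) μ (AV_top hi b e) hμ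
    obtain ⟨h6, h7⟩ := AV_top_ge lo hi hlh h3
    refine ⟨e ++ [(x, μ)], by simp [h1], ?_, ?_, ?_, ?_⟩
    · rw [AV_Val_append]
      exact ⟨h2, hμ, hx1, trivial⟩
    · rw [AV_Succ_append]
      exact ⟨h3, hx2, trivial⟩
    · rw [AV_tot_append, h4]
      simp [AV_tot]
      ring
    · intro B hB
      rw [AV_mass_append]
      by_cases hcase : ∃ p ∈ e, hi p.1 ∈ B
      · obtain ⟨p, hp, hpB⟩ := hcase
        have h8 : AV_mass hi B [(x, μ)] = 0 := by
          apply AV_mass_zero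
          intro q hq
          rw [List.mem_singleton] at hq
          subst hq
          intro hxB
          have h9 := Finset.card_le_one.1 hB _ hpB _ hxB
          have h10 := (h7 p hp).2
          have h11 := hlh x
          simp only at h9
          omega
        rw [h8, add_zero]
        exact h5 B hB
      · push Not at hcase
        rw [AV_mass_zero hi hcase, zero_add]
        refine (AV_mass_le_tot hi B _).trans (le_of_eq ?_)
        simp [AV_tot]

/-- inner induction, runs -/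
private theorem AV_runs (hlh : ∀ x, lo x ≤ hi x) (n : ℕ)
    (IH : ∀ (h0 : List (T × ℚ)) (lam : ℚ), 0 < lam → ∀ (δ : ℝ), 0 < δ → ∀ N : ℕ,
      ∃ e : List (T × ℚ), e ≠ [] ∧ AV_Val R h0 e ∧ AV_Succ lo hi N e ∧ AV_tot e = lam ^ 2 ∧
        Kset (n + 1) (AV_set hi e) ∧ Kset (n + 1) (AV_set lo e) ∧
        ∀ B : Finset ℕ, Kset n B → AV_mass hi B e ≤ δ * (lam : ℝ) ^ 2)
    (h0 : List (T × ℚ)) {μ : ℚ} (hμ : 0 < μ) {δ : ℝ} (hδ : 0 < δ) (b : ℕ) (i : ℕ) :
    ∃ e : List (T × ℚ), (0 < i → e ≠ []) ∧ AV_Val R h0 e ∧ AV_Succ lo hi b e ∧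
      AV_tot e = i * μ ^ 2 ∧
      (∃ F : ℕ → Finset ℕ, (∀ j < i, Kset (n + 1) (F j)) ∧ AV_set hi e = (Finset.range i).biUnion F) ∧
      (∃ F : ℕ → Finset ℕ, (∀ j < i, Kset (n + 1) (F j)) ∧ AV_set lo e = (Finset.range i).biUnion F) ∧
      ∀ B : Finset ℕ, Kset (n + 1) B → AV_mass hi B e ≤ (μ : ℝ) ^ 2 * (1 + i * (δ / 2)) := by
  induction i with
  | zero =>
    refine ⟨[], by simp, trivial, trivial, by simp [AV_tot], ⟨fun _ => ∅, by simp, by simp [AV_set]⟩,
      ⟨fun _ => ∅, by simp, by simp [AV_set]⟩, fun B _ => ?_⟩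
    simp only [AV_mass, List.map_nil, List.sum_nil]
    positivity
  | succ i ih =>
    obtain ⟨e, -, h2, h3, h4, ⟨F, hF1, hF2⟩, ⟨F', hF1', hF2'⟩, h5⟩ := ih
    obtain ⟨h6, h7⟩ := AV_top_ge lo hi hlh h3
    set Mx := AV_top hi b e with hMx
    have hg : (0 : ℝ) < g Mx := by
      have := five_le_g Mx
      have : 0 < g Mx := by omega
      exact_mod_cast this
    obtain ⟨e', k1, k2, k3, k4, k5, k6, k7⟩ := IH (h0 ++ e) μ hμ (δ / (2 * g Mx)) (by positivity) Mx
    have union_aux : ∀ (f : T → ℕ) (F : ℕ → Finset ℕ), (∀ j < i, Kset (n + 1) (F j)) →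
        AV_set f e = (Finset.range i).biUnion F → Kset (n + 1) (AV_set f e') →
        ∃ F : ℕ → Finset ℕ, (∀ j < i + 1, Kset (n + 1) (F j)) ∧
          AV_set f (e ++ e') = (Finset.range (i + 1)).biUnion F := by
      intro f F hF1 hF2 hK
      refine ⟨fun j => if j < i then F j else AV_set f e', ?_, ?_⟩
      · intro j hj
        by_cases hji : j < i
        · simp only [if_pos hji]; exact hF1 j hji
        · simp only [if_neg hji]; exact hK
      · rw [AV_set_append, hF2, Finset.range_add_one, Finset.biUnion_insert]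
        simp only [lt_irrefl, if_false]
        rw [Finset.union_comm]
        congr 1
        apply Finset.biUnion_congr rfl
        intro j hj
        rw [if_pos (Finset.mem_range.1 hj)]
    refine ⟨e ++ e', fun _ => by simp [k1], ?_, ?_, ?_, union_aux hi F hF1 hF2 k5,
      union_aux lo F' hF1' hF2' k6, ?_⟩
    · rw [AV_Val_append]; exact ⟨h2, k2⟩
    · rw [AV_Succ_append]; exact ⟨h3, k3⟩
    · rw [AV_tot_append, h4, k4]; push_cast; ring
    · intro B hB
      rw [AV_mass_append]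
      have hμ2 : (0 : ℝ) < (μ : ℝ) ^ 2 := by
        have : (0 : ℝ) < (μ : ℝ) := by exact_mod_cast hμ
        positivity
      by_cases hcase : ∃ p ∈ e, hi p.1 ∈ B
      · obtain ⟨p, hp, hpB⟩ := hcase
        have h8 := h5 B hB
        obtain ⟨bB, NB, F2, hNB, hF3, hbB, rfl⟩ := hB
        have h9 : bB ≤ Mx := (hbB _ hpB).trans (h7 p hp).2
        have h10 : (NB : ℝ) ≤ g Mx := by exact_mod_cast hNB.trans (g_mono h9)
        have h11 : AV_mass hi (Finset.univ.biUnion F2) e' ≤ (μ : ℝ) ^ 2 * (δ / 2) := by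
          refine (AV_mass_union hi F2 e').trans ?_
          refine (Finset.sum_le_sum fun t _ => k7 (F2 t) (hF3 t)).trans ?_
          rw [Finset.sum_const, Finset.card_univ, Fintype.card_fin, nsmul_eq_mul]
          calc (NB : ℝ) * (δ / (2 * g Mx) * (μ : ℝ) ^ 2)
              ≤ (g Mx : ℝ) * (δ / (2 * g Mx) * (μ : ℝ) ^ 2) :=
                mul_le_mul_of_nonneg_right h10 (by positivity)
            _ = (μ : ℝ) ^ 2 * (δ / 2) := by field_simp
        push_cast
        linarith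
      · push Not at hcase
        rw [AV_mass_zero hi hcase, zero_add]
        refine (AV_mass_le_tot hi B _).trans ?_
        rw [k4]
        push_cast
        have : 0 ≤ ((i : ℝ) + 1) * (δ / 2) := by positivity
        nlinarith

private theorem AV_aux (hlh : ∀ x, lo x ≤ hi x)
    (hR : ∀ h c N, 0 < c → ∃ x, R h c x ∧ N < lo x) (n : ℕ) :
    ∀ (h0 : List (T × ℚ)) (lam : ℚ), 0 < lam → ∀ (δ : ℝ), 0 < δ → ∀ N : ℕ,
      ∃ e : List (T × ℚ), e ≠ [] ∧ AV_Val R h0 e ∧ AV_Succ lo hi N e ∧ AV_tot e = lam ^ 2 ∧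
        Kset (n + 1) (AV_set hi e) ∧ Kset (n + 1) (AV_set lo e) ∧
        ∀ B : Finset ℕ, Kset n B → AV_mass hi B e ≤ δ * (lam : ℝ) ^ 2 := by
  have hmem : ∀ (f : T → ℕ) (e : List (T × ℚ)) (b : ℕ), (∀ p ∈ e, b ≤ f p.1) →
      ∀ a ∈ AV_set f e, b ≤ a := by
    intro f e b h a ha
    simp only [AV_set, List.mem_toFinset, List.mem_map] at ha
    obtain ⟨p, hp, rfl⟩ := ha
    exact h p hp
  have hSuccW : ∀ (b N : ℕ) (e : List (T × ℚ)), N ≤ b → AV_Succ lo hi b e → AV_Succ lo hi N e := by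
    intro b N e hN h
    cases e with
    | nil => trivial
    | cons p e => exact ⟨lt_of_le_of_lt hN h.1, h.2⟩
  have hlo : ∀ (b : ℕ) (e : List (T × ℚ)), AV_Succ lo hi b e →
      (∀ p ∈ e, b ≤ lo p.1) ∧ ∀ p ∈ e, b ≤ hi p.1 := by
    intro b e h
    obtain ⟨_, h7⟩ := AV_top_ge lo hi hlh h
    exact ⟨fun p hp => (h7 p hp).1.le, fun p hp => (h7 p hp).1.le.trans (hlh _)⟩
  induction n with
  | zero =>
    intro h0 lam hlam δ hδ N
    obtain ⟨k, hk⟩ := exists_nat_gt (max 1 (1 / δ))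
    have hk1 : (1 : ℝ) < k := (le_max_left _ _).trans_lt hk
    have hk0 : 0 < k := by
      have : (0 : ℝ) < k := by linarith
      exact_mod_cast this
    have hkq : (0 : ℚ) < k := by exact_mod_cast hk0
    have hkr : (0 : ℝ) < k := by exact_mod_cast hk0
    have hkδ : 1 / (k : ℝ) ^ 2 ≤ δ := by
      have h1 : 1 / δ < k := (le_max_right _ _).trans_lt hk
      rw [div_lt_iff₀ hδ] at h1
      rw [div_le_iff₀ (by positivity)]
      nlinarith
    obtain ⟨b0, hb0⟩ := exists_le_g (k ^ 2)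
    set b := max b0 N with hb
    have hgb : k ^ 2 ≤ g b := hb0.trans (g_mono (le_max_left _ _))
    obtain ⟨e, h1, h2, h3, h4, h5⟩ := AV_items lo hi R hlh hR h0 (μ := lam / k) (by positivity) b (k ^ 2)
    obtain ⟨hl1, hl2⟩ := hlo b e h3
    have hcard : ∀ f : T → ℕ, (AV_set f e).card ≤ g b := by
      intro f
      refine (List.toFinset_card_le _).trans ?_
      rw [List.length_map, h1]
      exact hgb
    refine ⟨e, ?_, h2, hSuccW b N e (le_max_right _ _) h3, ?_, Kset.of_card (hcard hi) (hmem hi e b hl2),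
      Kset.of_card (hcard lo) (hmem lo e b hl1), ?_⟩
    · intro he
      rw [he] at h1
      simp only [List.length_nil] at h1
      have : 0 < k ^ 2 := by positivity
      omega
    · rw [h4]; push_cast; field_simp
    · intro B hB
      refine (h5 B hB).trans ?_
      push_cast
      rw [div_pow]
      have : (lam : ℝ) ^ 2 / (k : ℝ) ^ 2 = 1 / (k : ℝ) ^ 2 * (lam : ℝ) ^ 2 := by ring
      rw [this]
      exact mul_le_mul_of_nonneg_right hkδ (by positivity)
  | succ n ih =>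
    intro h0 lam hlam δ hδ N
    obtain ⟨k, hk⟩ := exists_nat_gt (max 1 (2 / δ))
    have hk1 : (1 : ℝ) < k := (le_max_left _ _).trans_lt hk
    have hk0 : 0 < k := by
      have : (0 : ℝ) < k := by linarith
      exact_mod_cast this
    have hkq : (0 : ℚ) < k := by exact_mod_cast hk0
    have hkr : (0 : ℝ) < k := by exact_mod_cast hk0
    have hkδ : 1 / (k : ℝ) ^ 2 ≤ δ / 2 := by
      have h1 : 2 / δ < k := (le_max_right _ _).trans_lt hk
      rw [div_lt_iff₀ hδ] at h1
      rw [div_le_iff₀ (by positivity)]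
      nlinarith
    obtain ⟨b0, hb0⟩ := exists_le_g (k ^ 2)
    set b := max b0 N with hb
    have hgb : k ^ 2 ≤ g b := hb0.trans (g_mono (le_max_left _ _))
    obtain ⟨e, h1, h2, h3, h4, ⟨F, hF1, hF2⟩, ⟨F', hF1', hF2'⟩, h5⟩ :=
      AV_runs lo hi R hlh n ih h0 (μ := lam / k) (by positivity) hδ b (k ^ 2)
    obtain ⟨hl1, hl2⟩ := hlo b e h3
    have hK : ∀ (f : T → ℕ) (F : ℕ → Finset ℕ), (∀ j < k ^ 2, Kset (n + 1) (F j)) →
        AV_set f e = (Finset.range (k ^ 2)).biUnion F → (∀ p ∈ e, b ≤ f p.1) →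
        Kset (n + 1 + 1) (AV_set f e) := by
      intro f F hF1 hF2 hbf
      have h6 := hmem f e b hbf
      rw [hF2] at h6 ⊢
      refine Kset.succ_finset (b := b) _ _ (by simpa using hgb) (fun i hi => hF1 i (Finset.mem_range.1 hi)) ?_
      intro i hi a ha
      exact h6 a (Finset.mem_biUnion.2 ⟨i, hi, ha⟩)
    refine ⟨e, h1 (by positivity), h2, hSuccW b N e (le_max_right _ _) h3, ?_,
      hK hi F hF1 hF2 hl2, hK lo F' hF1' hF2' hl1, ?_⟩
    · rw [h4]; push_cast; field_simp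
    · intro B hB
      refine (h5 B hB).trans ?_
      push_cast
      have hl : (0 : ℝ) ≤ (lam : ℝ) ^ 2 := by positivity
      calc ((lam : ℝ) / k) ^ 2 * (1 + (k : ℝ) ^ 2 * (δ / 2))
          = 1 / (k : ℝ) ^ 2 * (lam : ℝ) ^ 2 + δ / 2 * (lam : ℝ) ^ 2 := by field_simp
        _ ≤ δ / 2 * (lam : ℝ) ^ 2 + δ / 2 * (lam : ℝ) ^ 2 :=
            add_le_add (mul_le_mul_of_nonneg_right hkδ hl) le_rfl
        _ = δ * (lam : ℝ) ^ 2 := by ring

private theorem AV_sum_getD {α M : Type} [AddCommMonoid M] (f : α → M) (d : α) (e : List α) :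
    (e.map f).sum = ∑ k ∈ Finset.range e.length, f (e.getD k d) := by
  induction e with
  | nil => simp
  | cons p e ih =>
    rw [List.map_cons, List.sum_cons, ih, List.length_cons, Finset.sum_range_succ']
    simp [add_comm]

private theorem AV_take {α : Type} (d : α) (e : List α) {k : ℕ} (hk : k ≤ e.length) :
    e.take k = (List.range k).map (fun i => e.getD i d) := by
  apply List.ext_getElem
  · simp [hk]
  · intro i h1 h2
    simp only [List.length_take] at h1
    have : i < e.length := by omega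
    rw [List.getElem_take, List.getElem_map, List.getElem_range, List.getD_eq_getElem _ _ this]

private theorem AV_Val_get (h e : List (T × ℚ)) (d : T × ℚ) (hv : AV_Val R h e) :
    ∀ k < e.length, 0 < (e.getD k d).2 ∧ R (h ++ e.take k) (e.getD k d).2 (e.getD k d).1 := by
  induction e generalizing h with
  | nil => simp
  | cons p e ih =>
    intro k hk
    cases k with
    | zero => simpa using ⟨hv.1, hv.2.1⟩
    | succ k =>
      have := ih (h ++ [p]) hv.2.2 k (by simpa using hk)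
      simpa using this

private theorem AV_Succ_get (b : ℕ) (e : List (T × ℚ)) (d : T × ℚ) (hv : AV_Succ lo hi b e) :
    (0 < e.length → b < lo (e.getD 0 d).1) ∧
      ∀ k, k + 1 < e.length → hi (e.getD k d).1 < lo (e.getD (k + 1) d).1 := by
  induction e generalizing b with
  | nil => simp
  | cons p e ih =>
    have h1 := ih (hi p.1) hv.2
    refine ⟨fun _ => by simpa using hv.1, ?_⟩
    intro k hk
    cases k with
    | zero =>
      have := h1.1 (by simpa using hk)
      simpa using this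
    | succ k =>
      have := h1.2 k (by simpa using hk)
      simpa using this

private theorem AV_set_get (f : T → ℕ) (e : List (T × ℚ)) (d : T × ℚ) :
    (Finset.range e.length).image (fun k => f (e.getD k d).1) = AV_set f e := by
  ext a
  simp only [AV_set, Finset.mem_image, Finset.mem_range, List.mem_toFinset, List.mem_map]
  constructor
  · rintro ⟨k, hk, rfl⟩
    refine ⟨e.getD k d, ?_, rfl⟩
    rw [List.getD_eq_getElem _ _ hk]
    exact List.getElem_mem hk
  · rintro ⟨p, hp, rfl⟩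
    obtain ⟨k, hk, rfl⟩ := List.getElem_of_mem hp
    exact ⟨k, hk, by rw [List.getD_eq_getElem _ _ hk]⟩

end AV

theorem averages {T : Type} [Inhabited T] (lo hi : T → ℕ) (hlh : ∀ x, lo x ≤ hi x)
    (R : List (T × ℚ) → ℚ → T → Prop) (hR : ∀ h c N, 0 < c → ∃ x, R h c x ∧ N < lo x)
    (n : ℕ) (δ : ℝ) (hδ : 0 < δ) (N : ℕ) :
    ∃ (M : ℕ) (x : ℕ → T) (c : ℕ → ℚ), 0 < M ∧ (∀ k < M, 0 < c k) ∧
      (∀ k < M, R ((List.range k).map (fun i => (x i, c i))) (c k) (x k)) ∧ N < lo (x 0) ∧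
      (∀ k, k + 1 < M → hi (x k) < lo (x (k + 1))) ∧ ∑ k ∈ Finset.range M, (c k) ^ 2 = 1 ∧
      Kset (n + 1) ((Finset.range M).image (fun k => hi (x k))) ∧
      Kset (n + 1) ((Finset.range M).image (fun k => lo (x k))) ∧
      ∀ B ⊆ Finset.range M, Kset n (B.image (fun k => hi (x k))) → ∑ k ∈ B, (c k : ℝ) ^ 2 ≤ δ := by
  obtain ⟨e, h1, h2, h3, h4, h5, h6, h7⟩ := AV_aux lo hi R hlh hR n [] 1 one_pos δ hδ N
  set d : T × ℚ := default with hd
  have hM : 0 < e.length := List.length_pos_iff.2 h1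
  have hV := AV_Val_get R [] e d h2
  have hS := AV_Succ_get lo hi N e d h3
  refine ⟨e.length, fun k => (e.getD k d).1, fun k => (e.getD k d).2, hM, fun k hk => (hV k hk).1,
    ?_, hS.1 hM, hS.2, ?_, ?_, ?_, ?_⟩
  · intro k hk
    have := (hV k hk).2
    rw [AV_take d e hk.le, List.nil_append] at this
    exact this
  · rw [← AV_sum_getD (fun p : T × ℚ => p.2 ^ 2) d e]
    simpa [AV_tot] using h4
  · rw [AV_set_get hi e d]; exact h5
  · rw [AV_set_get lo e d]; exact h6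
  · intro B hB hK
    have h8 := h7 _ hK
    rw [Rat.cast_one, one_pow, mul_one] at h8
    refine le_trans ?_ h8
    unfold AV_mass
    rw [AV_sum_getD _ d e]
    have h9 : ∑ k ∈ B, (((e.getD k d).2 : ℚ) : ℝ) ^ 2
        = ∑ k ∈ B, (if hi (e.getD k d).1 ∈ B.image (fun k => hi (e.getD k d).1) then
          (((e.getD k d).2 : ℚ) : ℝ) ^ 2 else 0) := by
      refine Finset.sum_congr rfl fun k hk => ?_
      rw [if_pos (Finset.mem_image_of_mem _ hk)]
    rw [h9]
    refine Finset.sum_le_sum_of_subset_of_nonneg hB fun k _ _ => ?_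
    split_ifs <;> positivity

end H94.WH

end S_AV

section S_WH1

/-!
# MODULE WH1: nets in spheres of finite-dimensional spaces
Real dimension `n' = finrank ℝ F = finrank ℝ 𝕜 * finrank 𝕜 F ≤ 2 * finrank 𝕜 F` (use `NormedSpace.restrictScalars ℝ 𝕜 F` / `Module.complexToReal`-like instances locally).
A `1/2`-separated finite subset of the unit sphere has at most `5^n'` elements: `Besicovitch.card_le_of_separated` applied to `2 • s`; take a finset `s` of unit vectors, pairwise at distance `≥ 1/2`, of maximal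
cardinality (bounded by `5^n' ≤ 25^(finrank 𝕜 F)`); every unit vector is within `1/2` of an element of `s`.
-/

set_option autoImplicit false

namespace H94.WH

open Module

theorem WH1_two (𝕜 : Type) [RCLike 𝕜] : finrank ℝ 𝕜 ≤ 2 := by
  classical
  have h1 : Submodule.span ℝ (({1, RCLike.I} : Finset 𝕜) : Set 𝕜) = ⊤ := by
    rw [eq_top_iff]
    intro z _
    have h2 : z = (RCLike.re z) • (1 : 𝕜) + (RCLike.im z) • (RCLike.I : 𝕜) := by
      rw [RCLike.real_smul_eq_coe_mul, RCLike.real_smul_eq_coe_mul, mul_one]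
      exact (RCLike.re_add_im z).symm
    rw [h2]
    apply Submodule.add_mem
    · exact Submodule.smul_mem _ _ (Submodule.subset_span (by simp))
    · exact Submodule.smul_mem _ _ (Submodule.subset_span (by simp))
  have h3 := finrank_span_finset_le_card (R := ℝ) ({1, RCLike.I} : Finset 𝕜)
  rw [Set.finrank, h1, finrank_top] at h3
  exact h3.trans Finset.card_le_two

theorem WH1_bound (𝕜 : Type) [RCLike 𝕜] {F : Type*} [NormedAddCommGroup F] [NormedSpace 𝕜 F]
    [FiniteDimensional 𝕜 F] (s : Finset F) (h1 : ∀ y ∈ s, ‖y‖ = 1)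
    (h2 : ∀ y ∈ s, ∀ z ∈ s, y ≠ z → 1 / 2 ≤ ‖y - z‖) : s.card ≤ 25 ^ finrank 𝕜 F := by
  classical
  letI : NormedSpace ℝ F := NormedSpace.restrictScalars ℝ 𝕜 F
  haveI : IsScalarTower ℝ 𝕜 F := RestrictScalars.isScalarTower ℝ 𝕜 F
  haveI : FiniteDimensional ℝ F := Module.Finite.trans (R := ℝ) 𝕜 F
  have hinj : Function.Injective (fun y : F => (2 : ℝ) • y) := fun y z h => by
    simpa using h
  have h3 : (s.image (fun y : F => (2 : ℝ) • y)).card ≤ 5 ^ finrank ℝ F := by
    apply Besicovitch.card_le_of_separated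
    · intro c hc
      obtain ⟨y, hy, rfl⟩ := Finset.mem_image.mp hc
      rw [norm_smul, h1 y hy]
      norm_num
    · intro c hc d hd hcd
      obtain ⟨y, hy, rfl⟩ := Finset.mem_image.mp hc
      obtain ⟨z, hz, rfl⟩ := Finset.mem_image.mp hd
      have hne : y ≠ z := fun h => hcd (by rw [h])
      have := h2 y hy z hz hne
      rw [← smul_sub, norm_smul, Real.norm_ofNat]
      linarith
  rw [Finset.card_image_of_injective _ hinj] at h3
  have h4 : finrank ℝ F ≤ 2 * finrank 𝕜 F := by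
    rw [← Module.finrank_mul_finrank ℝ 𝕜 F]
    exact Nat.mul_le_mul_right _ (WH1_two 𝕜)
  calc s.card ≤ 5 ^ finrank ℝ F := h3
    _ ≤ 5 ^ (2 * finrank 𝕜 F) := Nat.pow_le_pow_right (by norm_num) h4
    _ = 25 ^ finrank 𝕜 F := by rw [pow_mul]; norm_num

theorem exists_net (𝕜 : Type) [RCLike 𝕜] {F : Type*} [NormedAddCommGroup F] [NormedSpace 𝕜 F] [FiniteDimensional 𝕜 F] :
    ∃ s : Finset F, s.card ≤ 25 ^ finrank 𝕜 F ∧ (∀ y ∈ s, ‖y‖ = 1) ∧
      ∀ x : F, ‖x‖ = 1 → ∃ y ∈ s, ‖x - y‖ ≤ 1 / 2 := by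
  classical
  set P : ℕ → Prop := fun n => ∃ s : Finset F, s.card = n ∧ (∀ y ∈ s, ‖y‖ = 1) ∧
    (∀ y ∈ s, ∀ z ∈ s, y ≠ z → 1 / 2 ≤ ‖y - z‖) with hP
  have hP0 : P 0 := ⟨∅, by simp, by simp, by simp⟩
  have hbd : ∀ n, P n → n ≤ 25 ^ finrank 𝕜 F := by
    rintro n ⟨s, rfl, h1, h2⟩
    exact WH1_bound 𝕜 s h1 h2
  set n := Nat.findGreatest P (25 ^ finrank 𝕜 F) with hn
  have hPn : P n := Nat.findGreatest_spec (P := P) (Nat.zero_le _) hP0
  have hmax : ∀ k, P k → k ≤ n := fun k hk => Nat.le_findGreatest (hbd k hk) hk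
  obtain ⟨s, hs, h1, h2⟩ := hPn
  refine ⟨s, hs ▸ Nat.findGreatest_le _, h1, ?_⟩
  intro x hx
  by_contra hcon
  push Not at hcon
  have hxs : x ∉ s := by
    intro h
    have := hcon x h
    rw [sub_self, norm_zero] at this
    linarith
  have h3 : P (n + 1) := by
    refine ⟨insert x s, by rw [Finset.card_insert_of_notMem hxs, hs], ?_, ?_⟩
    · intro y hy
      rcases Finset.mem_insert.mp hy with rfl | hy
      · exact hx
      · exact h1 y hy
    · intro y hy z hz hyz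
      rcases Finset.mem_insert.mp hy with h | hy
      · rcases Finset.mem_insert.mp hz with h' | hz
        · exact absurd (h.trans h'.symm) hyz
        · rw [h]; exact (hcon z hz).le
      · rcases Finset.mem_insert.mp hz with h' | hz
        · rw [h', norm_sub_rev]; exact (hcon y hy).le
        · exact h2 y hy z hz hyz
  have := hmax _ h3
  omega

end H94.WH

end S_WH1

section S_WH3

/-!
# MODULE WH3: abstract Hilbert space argument
`U = span 𝕜 (range u) ⊆ H = EuclideanSpace 𝕜 S`, `T = orthogonal projection onto U after θ : X → H` (`U.starProjection`), `⟪∑ t_i u_i, T x⟫ = ⟪∑ t_i u_i, θ x⟫`. `T x ∈ U` is itself of the form `∑ t_i u_i`, so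
`‖T x‖^2 = |⟪T x, θ x⟫| ≤ 8 ‖T x‖ ‖x‖`. For `x ∈ F`, `‖x‖ = 1`: `1/4 ≤ |⟪u_i, θ x⟫| = |⟪u_i, T x⟫| ≤ ‖T x‖`; by homogeneity `‖x‖ ≤ 4 ‖T x‖` on `F`.
Let `W = T(F)`, a subspace of `H` of dimension `finrank F`; `W ≃ₗᵢ EuclideanSpace 𝕜 (Fin (finrank W))` (`stdOrthonormalBasis`). Isomorphism: `F → W → EuclideanSpace`, norm `≤ 8`, inverse norm `≤ 4`.
Projection: `P = (T|F)⁻¹ ∘ proj_W ∘ T`, `‖P‖ ≤ 4 * 8`.
-/

set_option autoImplicit false

namespace H94.WH

open Module

theorem hilbert_part {𝕜 : Type} [RCLike 𝕜] {X : Type} [NormedAddCommGroup X] [NormedSpace 𝕜 X] (F : Submodule 𝕜 X)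
    [FiniteDimensional 𝕜 F] {ι S : Type} [Fintype ι] [Fintype S] (u : ι → EuclideanSpace 𝕜 S)
    (θ : X →L[𝕜] EuclideanSpace 𝕜 S)
    (hb : ∀ (t : ι → 𝕜) (x : X), ‖(inner 𝕜 (∑ i, t i • u i) (θ x) : 𝕜)‖ ≤ 8 * ‖∑ i, t i • u i‖ * ‖x‖)
    (hl : ∀ x ∈ F, ‖x‖ = 1 → ∃ i, ‖u i‖ ≤ 1 ∧ 1 / 4 ≤ ‖(inner 𝕜 (u i) (θ x) : 𝕜)‖) :
    (∃ T : F ≃L[𝕜] EuclideanSpace 𝕜 (Fin (finrank 𝕜 F)),
      ‖(T : F →L[𝕜] EuclideanSpace 𝕜 (Fin (finrank 𝕜 F)))‖ *
        ‖(T.symm : EuclideanSpace 𝕜 (Fin (finrank 𝕜 F)) →L[𝕜] F)‖ ≤ 32) ∧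
    ∃ P : X →L[𝕜] X, (∀ x, P x ∈ F) ∧ (∀ x ∈ F, P x = x) ∧ ‖P‖ ≤ 32 := by
  classical
  set U : Submodule 𝕜 (EuclideanSpace 𝕜 S) := Submodule.span 𝕜 (Set.range u) with hU
  let T : X →L[𝕜] EuclideanSpace 𝕜 S := U.starProjection.comp θ
  have hTU : ∀ x, T x ∈ U := fun x => U.starProjection_apply_mem (θ x)
  have hinner : ∀ w ∈ U, ∀ x, (inner 𝕜 w (T x) : 𝕜) = inner 𝕜 w (θ x) := by
    intro w hw x
    have h1 : (inner 𝕜 w (θ x - U.starProjection (θ x)) : 𝕜) = 0 :=
      Submodule.inner_right_of_mem_orthogonal hw (U.sub_starProjection_mem_orthogonal (θ x))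
    rw [inner_sub_right, sub_eq_zero] at h1
    exact h1.symm
  have hup : ∀ x, ‖T x‖ ≤ 8 * ‖x‖ := by
    intro x
    obtain ⟨t, ht⟩ := (Submodule.mem_span_range_iff_exists_fun 𝕜).mp (hTU x)
    have h1 := hb t x
    rw [ht, ← hinner _ (hTU x) x, inner_self_eq_norm_sq_to_K] at h1
    rw [norm_pow, RCLike.norm_ofReal, abs_of_nonneg (norm_nonneg _)] at h1
    rcases eq_or_lt_of_le (norm_nonneg (T x)) with h2 | h2
    · rw [← h2]; positivity
    · have h3 : ‖T x‖ * ‖T x‖ ≤ (8 * ‖x‖) * ‖T x‖ := by nlinarith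
      exact le_of_mul_le_mul_right h3 h2
  have hlow : ∀ x ∈ F, ‖x‖ ≤ 4 * ‖T x‖ := by
    intro x hx
    rcases eq_or_lt_of_le (norm_nonneg x) with h0 | h0
    · rw [← h0]; positivity
    · have hx0 : x ≠ 0 := norm_pos_iff.mp h0
      set y : X := ((‖x‖ : 𝕜)⁻¹) • x with hy
      have hyF : y ∈ F := F.smul_mem _ hx
      have hy1 : ‖y‖ = 1 := norm_smul_inv_norm hx0
      obtain ⟨i, hi1, hi2⟩ := hl y hyF hy1
      have h1 : 1 / 4 ≤ ‖T y‖ := by
        have h2 := hinner (u i) (Submodule.subset_span ⟨i, rfl⟩) y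
        rw [← h2] at hi2
        have h3 := norm_inner_le_norm (𝕜 := 𝕜) (u i) (T y)
        have h4 : ‖u i‖ * ‖T y‖ ≤ 1 * ‖T y‖ := mul_le_mul_of_nonneg_right hi1 (norm_nonneg _)
        linarith
      rw [hy, map_smul, norm_smul, norm_inv, RCLike.norm_ofReal, abs_of_nonneg h0.le] at h1
      have h5 : ‖x‖ * (‖x‖⁻¹ * ‖T x‖) = ‖T x‖ := by field_simp
      nlinarith [mul_le_mul_of_nonneg_left h1 h0.le]
  -- restriction to `F`
  let TF : F →ₗ[𝕜] EuclideanSpace 𝕜 S := T.toLinearMap.comp F.subtype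
  have hTF : ∀ x : F, TF x = T (x : X) := fun x => rfl
  have hinj : Function.Injective TF := by
    rw [injective_iff_map_eq_zero]
    intro x hx
    have h1 := hlow x x.2
    rw [← hTF, hx, norm_zero, mul_zero] at h1
    exact Subtype.ext (norm_le_zero_iff.mp h1)
  let W : Submodule 𝕜 (EuclideanSpace 𝕜 S) := LinearMap.range TF
  let e1 : F ≃ₗ[𝕜] W := LinearEquiv.ofInjective TF hinj
  have he1 : ∀ x : F, ((e1 x : W) : EuclideanSpace 𝕜 S) = T (x : X) := fun x => rfl
  have hfr : finrank 𝕜 W = finrank 𝕜 F := e1.symm.finrank_eq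
  have he1s : ∀ w : W, ‖e1.symm w‖ ≤ 4 * ‖w‖ := by
    intro w
    have h1 := hlow (e1.symm w) (e1.symm w).2
    rw [← he1, e1.apply_symm_apply] at h1
    exact h1
  constructor
  · let b : OrthonormalBasis (Fin (finrank 𝕜 F)) 𝕜 W :=
      (stdOrthonormalBasis 𝕜 W).reindex (finCongr hfr)
    let e : F ≃ₗ[𝕜] EuclideanSpace 𝕜 (Fin (finrank 𝕜 F)) := e1.trans b.repr.toLinearEquiv
    refine ⟨e.toContinuousLinearEquiv, ?_⟩
    have h1 : ‖(e.toContinuousLinearEquiv : F →L[𝕜] EuclideanSpace 𝕜 (Fin (finrank 𝕜 F)))‖ ≤ 8 := by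
      apply ContinuousLinearMap.opNorm_le_bound _ (by norm_num)
      intro x
      have h2 : ‖e x‖ = ‖T (x : X)‖ := by
        change ‖b.repr (e1 x)‖ = _
        rw [b.repr.norm_map]
        rfl
      change ‖e x‖ ≤ _
      rw [h2]
      exact hup x
    have h3 : ‖(e.toContinuousLinearEquiv.symm : EuclideanSpace 𝕜 (Fin (finrank 𝕜 F)) →L[𝕜] F)‖
        ≤ 4 := by
      apply ContinuousLinearMap.opNorm_le_bound _ (by norm_num)
      intro y
      change ‖e1.symm (b.repr.symm y)‖ ≤ _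
      refine (he1s _).trans (le_of_eq ?_)
      rw [b.repr.symm.norm_map]
    calc _ ≤ (8 : ℝ) * 4 := mul_le_mul h1 h3 (norm_nonneg _) (by norm_num)
      _ = 32 := by norm_num
  · let P0 : X →ₗ[𝕜] X := F.subtype.comp (e1.symm.toLinearMap.comp
      ((W.orthogonalProjectionOnto).toLinearMap.comp T.toLinearMap))
    have hP0 : ∀ x, P0 x = ((e1.symm (W.orthogonalProjectionOnto (T x)) : F) : X) := fun x => rfl
    have hbd : ∀ x, ‖P0 x‖ ≤ 32 * ‖x‖ := by
      intro x
      rw [hP0]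
      have h1 := he1s (W.orthogonalProjectionOnto (T x))
      have h2 : ‖W.orthogonalProjectionOnto (T x)‖ ≤ ‖T x‖ := W.norm_orthogonalProjectionOnto_apply_le (T x)
      have h3 := hup x
      calc ‖((e1.symm (W.orthogonalProjectionOnto (T x)) : F) : X)‖ ≤ _ := h1
        _ ≤ 4 * (8 * ‖x‖) := by gcongr; exact h2.trans h3
        _ = 32 * ‖x‖ := by ring
    refine ⟨P0.mkContinuous 32 hbd, ?_, ?_, ?_⟩
    · intro x
      rw [LinearMap.mkContinuous_apply, hP0]
      exact (e1.symm (W.orthogonalProjectionOnto (T x))).2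
    · intro x hx
      rw [LinearMap.mkContinuous_apply, hP0]
      have h1 : T x = ((e1 ⟨x, hx⟩ : W) : EuclideanSpace 𝕜 S) := (he1 ⟨x, hx⟩).symm
      rw [h1, Submodule.orthogonalProjectionOnto_mem_subspace_eq_self, e1.symm_apply_apply]
    · exact LinearMap.mkContinuous_norm_le _ (by norm_num) _

end H94.WH

end S_WH3

section S_HI2

/-!
# MODULE HI2: closed direct sums in Banach spaces
The continuous linear bijection `Y₀ × Y₁ → Y₀ ⊔ Y₁`, `(y₀,y₁) ↦ y₀ + y₁`, between Banach spaces is an isomorphism (`ContinuousLinearEquiv.ofBijective`, or `Submodule.ClosedComplemented` tools).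
-/

set_option autoImplicit false

namespace H94.WH

theorem exists_proj_bound {𝕜 : Type} [RCLike 𝕜] {X : Type} [NormedAddCommGroup X] [NormedSpace 𝕜 X] [CompleteSpace X]
    {Y₀ Y₁ : Submodule 𝕜 X} (h0 : IsClosed (Y₀ : Set X)) (h1 : IsClosed (Y₁ : Set X))
    (hd : Y₀ ⊓ Y₁ = ⊥) (hc : IsClosed ((Y₀ ⊔ Y₁ : Submodule 𝕜 X) : Set X)) :
    ∃ K : ℝ, 0 < K ∧ ∀ y₀ ∈ Y₀, ∀ y₁ ∈ Y₁, ‖y₀‖ ≤ K * ‖y₀ + y₁‖ ∧ ‖y₁‖ ≤ K * ‖y₀ + y₁‖ := by
  have : CompleteSpace Y₀ := h0.completeSpace_coe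
  have : CompleteSpace Y₁ := h1.completeSpace_coe
  set f : (Y₀ × Y₁) →L[𝕜] X := Y₀.subtypeL.coprod Y₁.subtypeL with hf
  have hfa : ∀ p : Y₀ × Y₁, f p = (p.1 : X) + p.2 := fun p => by simp [hf]
  have hinj : Function.Injective f := by
    rw [injective_iff_map_eq_zero]
    intro p hp
    rw [hfa] at hp
    have h2 : (p.1 : X) = -(p.2 : X) := eq_neg_of_add_eq_zero_left hp
    have h3 : (p.1 : X) ∈ Y₀ ⊓ Y₁ := ⟨p.1.2, by rw [h2]; exact Y₁.neg_mem p.2.2⟩
    rw [hd, Submodule.mem_bot] at h3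
    have h4 : (p.2 : X) = 0 := by
      rw [h3, zero_add] at hp
      exact hp
    exact Prod.ext (Subtype.ext h3) (Subtype.ext h4)
  have hrange : Set.range f = ((Y₀ ⊔ Y₁ : Submodule 𝕜 X) : Set X) := by
    ext x
    rw [SetLike.mem_coe, Submodule.mem_sup]
    constructor
    · rintro ⟨p, rfl⟩
      exact ⟨p.1, p.1.2, p.2, p.2.2, (hfa p).symm⟩
    · rintro ⟨y, hy, z, hz, rfl⟩
      exact ⟨(⟨y, hy⟩, ⟨z, hz⟩), hfa _⟩
  obtain ⟨K, hK⟩ := f.antilipschitz_of_injective_of_isClosed_range hinj (by rw [hrange]; exact hc)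
  refine ⟨(K : ℝ) + 1, by positivity, fun y hy z hz => ?_⟩
  have h2 := hK.le_mul_dist (⟨y, hy⟩, ⟨z, hz⟩) 0
  rw [dist_zero_right, map_zero, dist_zero_right, hfa] at h2
  have h3 : ‖y‖ ≤ ‖((⟨y, hy⟩, ⟨z, hz⟩) : Y₀ × Y₁)‖ := norm_fst_le ((⟨y, hy⟩, ⟨z, hz⟩) : Y₀ × Y₁)
  have h4 : ‖z‖ ≤ ‖((⟨y, hy⟩, ⟨z, hz⟩) : Y₀ × Y₁)‖ := norm_snd_le ((⟨y, hy⟩, ⟨z, hz⟩) : Y₀ × Y₁)
  have h5 : 0 ≤ ‖y + z‖ := norm_nonneg _
  have h6 : ‖((⟨y, hy⟩, ⟨z, hz⟩) : Y₀ × Y₁)‖ ≤ (K : ℝ) * ‖y + z‖ := h2
  constructor <;> nlinarith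

end H94.WH

end S_HI2
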