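import Mathlib
import Pool.Agent.H94.WHM.M1
import Pool.Agent.H94.WHM.M2

set_option autoImplicit false

/-! A hereditarily indecomposable weak Hilbert space, part M4: this file joins several modules. -/

section S_NO

/-!
# MODULE NO: the norm `nor` on `c_00` (section 3)

`nor x = sSup {‖Phi v x‖ : C v, nrm v ≤ 1}`; the set is nonempty (`v = 0`) and bounded above by `2 * ∑ |x l|` (`abs_Phi_le`).
* `abs_Phi_le_nor`: for `nrm v > 0` take rational `c` with `0 < c ≤ 1/nrm v` arbitrarily close to `1/nrm v` (density of `ℚ`): `C (c • v)`, `nrm (c • v) ≤ 1`.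
* `abs_Phi_le_nor_G`: `G.pre_zero` iterated: `Phi v x = (m 0)^d * Phi (pre 0 (.. v)) x`; induction on `d`.
* `nor_resX_le`: `Phi v (resX J x) = Phi (res J v) x` and `C.res`.
* `exists_norming`: from the definition of `sSup`, and restrict `v` to `J` (`Phi_res`).
-/

set_option autoImplicit false

namespace H94.WH

open Finset

variable {𝕜 : Type} [RCLike 𝕜]

theorem resX_apply_mem {J : Set ℕ} {x : X0 𝕜} {l : ℕ} (h : l ∈ J) : resX J x l = x l := by
  classical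
  unfold resX
  exact Finsupp.filter_apply_pos _ _ h
theorem resX_apply_not {J : Set ℕ} {x : X0 𝕜} {l : ℕ} (h : l ∉ J) : resX J x l = 0 := by
  classical
  unfold resX
  exact Finsupp.filter_apply_neg _ _ h
theorem mem_resX_support {J : Set ℕ} {x : X0 𝕜} {l : ℕ} : l ∈ (resX J x).support ↔ l ∈ x.support ∧ l ∈ J := by
  rw [Finsupp.mem_support_iff, Finsupp.mem_support_iff]
  by_cases h : l ∈ J
  · rw [resX_apply_mem h]
    simp [h]
  · rw [resX_apply_not h]
    simp [h]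

theorem NO_zero_mem (x : X0 𝕜) : (0 : ℝ) ∈ {t : ℝ | ∃ v, C v ∧ nrm v ≤ 1 ∧ t = ‖Phi v x‖} :=
  ⟨0, C.zero, by rw [nrm_zero]; norm_num, by rw [Phi_zero_left, norm_zero]⟩

theorem NO_le_l1 {v : V} (hv : nrm v ≤ 1) (x : X0 𝕜) : ‖Phi v x‖ ≤ 2 * ∑ l ∈ x.support, ‖x l‖ := by
  have h := abs_Phi_le v x
  have h0 : 0 ≤ ∑ l ∈ x.support, ‖x l‖ := sum_nonneg fun l _ => norm_nonneg _
  calc ‖Phi v x‖ ≤ 2 * nrm v * ∑ l ∈ x.support, ‖x l‖ := h
    _ = nrm v * (2 * ∑ l ∈ x.support, ‖x l‖) := by ring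
    _ ≤ 1 * (2 * ∑ l ∈ x.support, ‖x l‖) := mul_le_mul_of_nonneg_right hv (by linarith)
    _ = _ := by ring

theorem NO_bdd (x : X0 𝕜) : BddAbove {t : ℝ | ∃ v, C v ∧ nrm v ≤ 1 ∧ t = ‖Phi v x‖} := by
  refine ⟨2 * ∑ l ∈ x.support, ‖x l‖, ?_⟩
  rintro t ⟨v, -, hv, rfl⟩
  exact NO_le_l1 hv x

theorem NO_le {v : V} (hC : C v) (hv : nrm v ≤ 1) (x : X0 𝕜) : ‖Phi v x‖ ≤ nor x :=
  le_csSup (NO_bdd x) ⟨v, hC, hv, rfl⟩

theorem nor_nonneg (x : X0 𝕜) : 0 ≤ nor x := le_csSup (NO_bdd x) (NO_zero_mem x)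
theorem nor_le_of {x : X0 𝕜} {c : ℝ} (hc : 0 ≤ c) (h : ∀ v, C v → nrm v ≤ 1 → ‖Phi v x‖ ≤ c) : nor x ≤ c := by
  apply csSup_le ⟨0, NO_zero_mem x⟩
  rintro t ⟨v, hC, hv, rfl⟩
  exact h v hC hv
theorem nor_le_l1 (x : X0 𝕜) : nor x ≤ 2 * ∑ l ∈ x.support, ‖x l‖ := by
  apply csSup_le ⟨0, NO_zero_mem x⟩
  rintro t ⟨v, hC, hv, rfl⟩
  exact NO_le_l1 hv x
theorem abs_Phi_le_nor {v : V} (hv : C v) (x : X0 𝕜) : ‖Phi v x‖ ≤ nrm v * nor x := by
  rcases (nrm_nonneg v).eq_or_lt with h0 | h0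
  · have : v = 0 := nrm_eq_zero h0.symm
    rw [this, Phi_zero_left, norm_zero, nrm_zero, zero_mul]
  · by_contra hcon
    push Not at hcon
    have hn := nor_nonneg x
    have hP : 0 < ‖Phi v x‖ := lt_of_le_of_lt (mul_nonneg h0.le hn) hcon
    have h1 : nor x / ‖Phi v x‖ < 1 / nrm v := by
      rw [div_lt_div_iff₀ hP h0]
      linarith
    obtain ⟨c, hc1, hc2⟩ := exists_rat_btwn h1
    have hc0 : (0 : ℝ) < (c : ℝ) := lt_of_le_of_lt (div_nonneg hn hP.le) hc1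
    have h2 : nrm (c • v) ≤ 1 := by
      rw [nrm_smul, abs_of_pos hc0]
      rw [lt_div_iff₀ h0] at hc2
      exact hc2.le
    have h3 := NO_le (C.smul c hv) h2 x
    rw [norm_Phi_smul_left, abs_of_pos hc0] at h3
    rw [div_lt_iff₀ hP] at hc1
    linarith
theorem abs_Phi_le_nor_G {d : ℕ} {v : V} (hv : G d v) (x : X0 𝕜) : ‖Phi v x‖ ≤ 4 ^ d * nrm v * nor x := by
  induction d generalizing v with
  | zero =>
    have h : C v := hv
    have := abs_Phi_le_nor h x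
    rw [pow_zero, one_mul]
    exact this
  | succ d ih =>
    have h := ih (G.pre_zero hv)
    rw [norm_Phi_pre, nrm_pre] at h
    have hm : (m 0 : ℝ) = 4 := by
      unfold m; norm_num
    rw [hm] at h
    have h2 : ‖Phi v x‖ = 4 * ((4 : ℝ)⁻¹ * ‖Phi v x‖) := by ring
    rw [h2, pow_succ]
    linarith
theorem abs_coord_le (x : X0 𝕜) (l : ℕ) : ‖x l‖ ≤ nor x := by
  have h := NO_le (C.atom l 1) (by rw [nrm_single]; norm_num) x
  rw [Phi_single] at h
  simpa using h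
theorem nor_zero : nor (0 : X0 𝕜) = 0 := by
  apply le_antisymm _ (nor_nonneg _)
  apply nor_le_of le_rfl
  intro v _ _
  rw [Phi_zero_right, norm_zero]
theorem eq_zero_of_nor {x : X0 𝕜} (h : nor x = 0) : x = 0 := by
  ext l
  have := abs_coord_le x l
  rw [h] at this
  simpa using this
theorem NO_smul_le (c : 𝕜) (x : X0 𝕜) : nor (c • x) ≤ ‖c‖ * nor x := by
  apply nor_le_of (mul_nonneg (norm_nonneg _) (nor_nonneg _))
  intro v hC hv
  rw [Phi_smul_right, norm_mul]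
  exact mul_le_mul_of_nonneg_left (NO_le hC hv x) (norm_nonneg _)
theorem nor_smul (c : 𝕜) (x : X0 𝕜) : nor (c • x) = ‖c‖ * nor x := by
  apply le_antisymm (NO_smul_le c x)
  by_cases hc : c = 0
  · rw [hc, zero_smul, norm_zero, zero_mul, nor_zero]
  · have h := NO_smul_le c⁻¹ (c • x)
    rw [smul_smul, inv_mul_cancel₀ hc, one_smul, norm_inv] at h
    have hpos : 0 < ‖c‖ := norm_pos_iff.2 hc
    calc ‖c‖ * nor x ≤ ‖c‖ * (‖c‖⁻¹ * nor (c • x)) := mul_le_mul_of_nonneg_left h hpos.le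
      _ = nor (c • x) := by rw [← mul_assoc, mul_inv_cancel₀ hpos.ne', one_mul]
theorem nor_smul_real (c : ℝ) (x : X0 𝕜) : nor (c • x) = |c| * nor x := by
  have h : c • x = (c : 𝕜) • x := by
    ext l
    rw [Finsupp.smul_apply, Finsupp.smul_apply, RCLike.real_smul_eq_coe_mul, smul_eq_mul]
  rw [h, nor_smul, RCLike.norm_ofReal]
theorem nor_add_le (x y : X0 𝕜) : nor (x + y) ≤ nor x + nor y := by
  apply nor_le_of (add_nonneg (nor_nonneg _) (nor_nonneg _))
  intro v hC hv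
  rw [Phi_add_right]
  exact (norm_add_le _ _).trans (add_le_add (NO_le hC hv x) (NO_le hC hv y))
theorem nor_neg (x : X0 𝕜) : nor (-x) = nor x := by
  unfold nor
  simp only [Phi_neg_right, norm_neg]
theorem nor_resX_le {J : Set ℕ} (hJ : J.OrdConnected) (x : X0 𝕜) : nor (resX J x) ≤ nor x := by
  apply nor_le_of (nor_nonneg _)
  intro v hC hv
  rw [← Phi_res_eq]
  exact NO_le (C.res hC hJ) ((nrm_res_le J v).trans hv) x
/-- norming functionals supported where `x` lives -/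
theorem exists_norming {x : X0 𝕜} {J : Set ℕ} (hJ : J.OrdConnected) (hx : ∀ l ∈ x.support, l ∈ J)
    {c : ℝ} (hc : c < nor x) : ∃ u, C u ∧ nrm u ≤ 1 ∧ (∀ p ∈ u.support, p.1 ∈ J) ∧ c < ‖Phi u x‖ := by
  obtain ⟨t, ⟨v, hC, hv, rfl⟩, hct⟩ := exists_lt_of_lt_csSup ⟨0, NO_zero_mem x⟩ hc
  refine ⟨res J v, C.res hC hJ, (nrm_res_le J v).trans hv, ?_, ?_⟩
  · intro p hp
    exact (mem_res.1 hp).2
  · rw [Phi_res v x hx]
    exact hct

end H94.WH

end S_NO

section S_LD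

/-!
# MODULE LD: the descent lemma (Lemma D, section 7)

Take `A0` from `G.cells` for `v, s`. For `k ∈ Ico α β`: `Phi (col {s} v) (x k) = (m s)⁻¹ Phi (comp s v) (x k)`, and it only depends on the restriction
of `v` to `[lo k, hi k]` (`Phi_res`).
Call `k` cut if some `a ∈ A0` has `lo k < a ∧ a ≤ hi k`. `Cut.image hi` is in `K_{nn s + d}` (`Kset.of_inj` with `ψ (hi k) = a`, the intervals are disjoint). Cut part:
`∑_{cut} |a_k| ‖Phi (res [lo k,hi k] (col {s} v)) (x k)‖ ≤ C1 ∑ |a_k| nrm (..) ≤ C1 * nrm v * l2 a Cut` (`G.col`, `G.res`, `sum_abs_mul_nrm_le`).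
Non-cut `k`: if no `a ∈ A0` is `≤ lo k` then `comp s v` vanishes on `[lo k, hi k]` (no contribution); otherwise let `a(k)` be the largest element of `A0` with `a(k) ≤ lo k`;
`[lo k, hi k] ⊆ cell A0 (a k)`. For `a ∈ A0` the set `I_a = {k ∈ Ico α β non-cut, a(k) = a}` is an interval `Ico (α_a) (β_a)` of indices (if `k < k' < k''`, `k, k'' ∈ I_a`, then no
point of `A0` is in `(lo k', hi k'']`..), disjoint for different `a`. Apply `hrec` to `v_a = res (cell A0 a) (comp s v) ∈ G d` and `Ico α_a β_a`: `B_a`.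
`∑_a (m s)⁻¹ nrm v_a (X l2 a I_a + Y l2 a B_a) ≤ (m s)⁻¹ nrm v (X l2 a (Ico α β) + Y l2 a (⋃ B_a))` (`sum_nrm_mul_l2_le`, `nrm_comp_le`).
`B = Cut ∪ ⋃ B_a`; `(⋃ B_a).image hi = A0.biUnion (fun a => (B_a).image hi) ∈ K_{(nn s + d) + c}` by `Kset.comp` (`hi k ≥ lo k ≥ a`), then `Kset.union`.
Suggested sub-lemma: the grouping lemma (purely combinatorial) in a separate theorem.
-/

set_option autoImplicit false

namespace H94.WH

open Finset

variable {𝕜 : Type} [RCLike 𝕜]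

theorem LD_lt {M : ℕ} {lo hi : ℕ → ℕ} (hI : Ivals M lo hi) :
    ∀ k' k, k < k' → k' < M → hi k < lo k' := by
  intro k'
  induction k' with
  | zero => intro k hk; omega
  | succ n ih =>
    intro k hk hM
    have h1 := hI.2 n hM
    rcases Nat.lt_succ_iff_lt_or_eq.1 hk with h | h
    · have h2 := ih k h (by omega)
      have h3 := hI.1 n (by omega)
      omega
    · subst h; exact h1

theorem LD_ico {M : ℕ} (I : Finset ℕ) (hM : ∀ k ∈ I, k < M)
    (hc : ∀ k ∈ I, ∀ k'' ∈ I, ∀ k', k ≤ k' → k' ≤ k'' → k' ∈ I) :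
    ∃ α β, β ≤ M ∧ I = Finset.Ico α β := by
  rcases I.eq_empty_or_nonempty with h | h
  · exact ⟨0, 0, by omega, by simp [h]⟩
  · refine ⟨I.min' h, I.max' h + 1, hM _ (I.max'_mem h), ?_⟩
    ext k
    rw [mem_Ico]
    constructor
    · intro hk
      exact ⟨I.min'_le k hk, Nat.lt_succ_of_le (I.le_max' k hk)⟩
    · rintro ⟨h1, h2⟩
      exact hc _ (I.min'_mem h) _ (I.max'_mem h) k h1 (Nat.lt_succ_iff.1 h2)

open Classical in
/-- the indices in `[α, β)` whose interval is in the cell of `a` -/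
noncomputable def LD_I (lo hi : ℕ → ℕ) (A : Finset ℕ) (α β a : ℕ) : Finset ℕ :=
  (Finset.Ico α β).filter (fun k => lo k ∈ cell A a ∧ hi k ∈ cell A a)

theorem LD_mem_I {lo hi : ℕ → ℕ} {A : Finset ℕ} {α β a k : ℕ} : k ∈ LD_I lo hi A α β a ↔
    k ∈ Finset.Ico α β ∧ lo k ∈ cell A a ∧ hi k ∈ cell A a := by
  classical
  unfold LD_I
  rw [mem_filter]

theorem LD_I_ico {M : ℕ} {lo hi : ℕ → ℕ} (hI : Ivals M lo hi) (A : Finset ℕ) {α β : ℕ} (hβ : β ≤ M) (a : ℕ) :
    ∃ α' β', β' ≤ M ∧ LD_I lo hi A α β a = Finset.Ico α' β' := by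
  apply LD_ico
  · intro k hk
    have := (mem_Ico.1 (LD_mem_I.1 hk).1).2
    omega
  · intro k hk k'' hk'' k' h1 h2
    obtain ⟨hk1, hk2, hk3⟩ := LD_mem_I.1 hk
    obtain ⟨hm1, hm2, hm3⟩ := LD_mem_I.1 hk''
    rw [mem_Ico] at hk1 hm1
    rcases h1.eq_or_lt with rfl | h1
    · exact hk
    rcases h2.eq_or_lt with rfl | h2
    · exact hk''
    have h3 := LD_lt hI k' k h1 (by omega)
    have h4 := LD_lt hI k'' k' h2 (by omega)
    have h5 := hI.1 k (by omega)
    have h6 := hI.1 k' (by omega)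
    rw [LD_mem_I, mem_Ico]
    refine ⟨⟨by omega, by omega⟩, ?_, ?_⟩
    · exact (ordConnected_cell A a).out hk2 hm2 ⟨by omega, by omega⟩
    · exact (ordConnected_cell A a).out hk2 hm2 ⟨by omega, by omega⟩

theorem LD_I_disj {lo hi : ℕ → ℕ} {A : Finset ℕ} {α β a a' : ℕ} (ha : a ∈ A) (ha' : a' ∈ A) (h : a ≠ a') :
    Disjoint (LD_I lo hi A α β a) (LD_I lo hi A α β a') := by
  rw [Finset.disjoint_left]
  intro k hk hk'
  exact Set.disjoint_left.1 (cell_disjoint ha ha' h) (LD_mem_I.1 hk).2.1 (LD_mem_I.1 hk').2.1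

/-- an index outside all groups on whose interval `w` does not vanish is cut by `A` -/
theorem LD_cut {lo hi : ℕ → ℕ} {A : Finset ℕ} {α β k : ℕ} (hk : k ∈ Finset.Ico α β)
    (hU : k ∉ A.biUnion (LD_I lo hi A α β)) {w : V} (hw : ∀ p ∈ w.support, ∃ a ∈ A, a ≤ p.1)
    (hne : res (Set.Icc (lo k) (hi k)) w ≠ 0) : ∃ a ∈ A, lo k < a ∧ a ≤ hi k := by
  obtain ⟨p, hp⟩ : ∃ p, p ∈ (res (Set.Icc (lo k) (hi k)) w).support := by
    by_contra hcon
    push Not at hcon
    apply hne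
    rw [← Finsupp.support_eq_empty]
    exact Finset.eq_empty_of_forall_notMem hcon
  rw [mem_res] at hp
  obtain ⟨hp1, hp2, hp3⟩ := hp
  obtain ⟨a, ha, hpa⟩ := mem_some_cell (hw p hp1)
  by_cases h1 : lo k ∈ cell A a
  · by_cases h2 : hi k ∈ cell A a
    · exact absurd (mem_biUnion.2 ⟨a, ha, LD_mem_I.2 ⟨hk, h1, h2⟩⟩) hU
    · have h3 : ∃ a' ∈ A, a < a' ∧ a' ≤ hi k := by
        by_contra hcon
        push Not at hcon
        exact h2 ⟨hpa.1.trans hp3, fun a' ha' haa' => hcon a' ha' haa'⟩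
      obtain ⟨a', ha', haa', h4⟩ := h3
      exact ⟨a', ha', hp2.trans_lt (hpa.2 a' ha' haa'), h4⟩
  · refine ⟨a, ha, ?_, hpa.1.trans hp3⟩
    by_contra hcon
    exact h1 ⟨not_lt.1 hcon, fun a' ha' haa' => hp2.trans_lt (hpa.2 a' ha' haa')⟩

/-- the set of cut indices is small -/
theorem LD_cut_K {M : ℕ} {lo hi : ℕ → ℕ} (hI : Ivals M lo hi) {n : ℕ} {A : Finset ℕ} (hA : Kset n A)
    (B : Finset ℕ) (hM : ∀ k ∈ B, k < M) (hB : ∀ k ∈ B, ∃ a ∈ A, lo k < a ∧ a ≤ hi k) :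
    Kset n (B.image hi) := by
  have h1 : ∀ b ∈ B.image hi, ∃ a ∈ A, ∃ k ∈ B, hi k = b ∧ lo k < a ∧ a ≤ hi k := by
    intro b hb
    obtain ⟨k, hk, rfl⟩ := mem_image.1 hb
    obtain ⟨a, ha, h2, h3⟩ := hB k hk
    exact ⟨a, ha, k, hk, rfl, h2, h3⟩
  choose! ψ hψA κ hκB hκ using h1
  refine Kset.of_inj hA ψ (fun b hb => ⟨hψA b hb, ?_⟩) ?_
  · have := hκ b hb
    omega
  · intro b hb b' hb' hbb
    have h2 := hκ b hb
    have h3 := hκ b' hb'
    rw [← hbb] at h3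
    rcases lt_trichotomy (κ b) (κ b') with h | h | h
    · have := LD_lt hI _ _ h (hM _ (hκB b' hb'))
      omega
    · rw [← h2.1, ← h3.1, h]
    · have := LD_lt hI _ _ h (hM _ (hκB b hb))
      omega

theorem LD_J_disj {M : ℕ} {lo hi : ℕ → ℕ} (hI : Ivals M lo hi) {i j : ℕ} (hi' : i < M) (hj : j < M)
    (h : i ≠ j) : Disjoint (Set.Icc (lo i) (hi i)) (Set.Icc (lo j) (hi j)) := by
  rw [Set.disjoint_left]
  intro l hl hl'
  rw [Set.mem_Icc] at hl hl'
  rcases lt_or_gt_of_ne h with h1 | h1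
  · have := LD_lt hI _ _ h1 hj
    omega
  · have := LD_lt hI _ _ h1 hi'
    omega

theorem descend {M : ℕ} {lo hi : ℕ → ℕ} (hI : Ivals M lo hi) {x : ℕ → X0 𝕜} (a : ℕ → ℝ)
    (hx : ∀ k < M, ∀ l ∈ (x k).support, lo k ≤ l ∧ l ≤ hi k) {s : ℕ} (hs : 1 ≤ s) {d c : ℕ} {X Y C1 : ℝ}
    (hX : 0 ≤ X) (hY : 0 ≤ Y) (hC1 : 0 ≤ C1)
    (h1 : ∀ k < M, ∀ v, G d v → ‖Phi v (x k)‖ ≤ C1 * nrm v)
    (hrec : ∀ v, G d v → ∀ α β, β ≤ M → ∃ B ⊆ Finset.Ico α β, Kset c (B.image hi) ∧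
      ‖Phi v (∑ k ∈ Finset.Ico α β, a k • x k)‖ ≤ nrm v * (X * l2 a (Finset.Ico α β) + Y * l2 a B)) :
    ∀ v, G d v → ∀ α β, β ≤ M → ∃ B ⊆ Finset.Ico α β, Kset (nn s + d + c + 1) (B.image hi) ∧
      ‖Phi (col {s} v) (∑ k ∈ Finset.Ico α β, a k • x k)‖ ≤
        nrm v * (X / m s * l2 a (Finset.Ico α β) + (Y / m s + C1) * l2 a B) := by
  classical
  intro v hv α β hβ
  obtain ⟨A, hA, hcov, hcell⟩ := G.cells hv hs
  set w := comp s v with hw
  have hms : (0 : ℝ) < m s := m_pos s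
  set T := Finset.Ico α β with hT
  set U := A.biUnion (LD_I lo hi A α β) with hU
  have hTM : ∀ k ∈ T, k < M := by
    intro k hk
    have := (mem_Ico.1 hk).2
    omega
  have hUT : U ⊆ T := by
    intro k hk
    obtain ⟨b, _, hk2⟩ := mem_biUnion.1 hk
    exact (LD_mem_I.1 hk2).1
  -- the groups
  have hgroup : ∀ b ∈ A, ∃ B ⊆ LD_I lo hi A α β b, Kset c (B.image hi) ∧
      ‖Phi (col {s} v) (∑ k ∈ LD_I lo hi A α β b, a k • x k)‖ ≤
        (m s : ℝ)⁻¹ * (nrm (res (cell A b) w) * (X * l2 a (LD_I lo hi A α β b) + Y * l2 a B)) := by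
    intro b hb
    obtain ⟨α', β', hβ', hIco⟩ := LD_I_ico hI A hβ b
    obtain ⟨B, hB1, hB2, hB3⟩ := hrec (res (cell A b) w)
      (hcell (cell A b) (ordConnected_cell A b) (sep_cell hb)) α' β' hβ'
    rw [← hIco] at hB1 hB3
    refine ⟨B, hB1, hB2, ?_⟩
    rw [norm_Phi_col_single]
    apply mul_le_mul_of_nonneg_left _ (by positivity)
    refine le_trans (le_of_eq ?_) hB3
    congr 1
    symm
    apply Phi_res
    intro l hl
    have h2 := Finsupp.support_finsetSum hl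
    obtain ⟨k, hk, hl2⟩ := mem_biUnion.1 h2
    have h3 : l ∈ (x k).support := Finsupp.support_smul hl2
    obtain ⟨hk1, hk2, hk3⟩ := LD_mem_I.1 hk
    have h4 := hx k (hTM k hk1) l h3
    exact (ordConnected_cell A b).out hk2 hk3 h4
  choose! B hBI hBK hBn using hgroup
  -- the cut indices
  set Q := (T \ U).filter (fun k => res (Set.Icc (lo k) (hi k)) w ≠ 0) with hQ
  have hQT : Q ⊆ T := (filter_subset _ _).trans sdiff_subset
  have hQcut : ∀ k ∈ Q, ∃ b ∈ A, lo k < b ∧ b ≤ hi k := by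
    intro k hk
    rw [hQ, mem_filter, mem_sdiff] at hk
    exact LD_cut hk.1.1 hk.1.2 hcov hk.2
  have hQK : Kset (nn s + d) (Q.image hi) :=
    LD_cut_K hI hA Q (fun k hk => hTM k (hQT hk)) hQcut
  set R := A.biUnion B with hR
  have hRK : Kset (nn s + d + c) (R.image hi) := by
    have h2 : R.image hi = A.biUnion (fun b => (B b).image hi) := by
      rw [hR, Finset.biUnion_image]
    rw [h2]
    refine Kset.comp hA _ hBK ?_
    intro b hb l hl
    obtain ⟨k, hk, rfl⟩ := mem_image.1 hl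
    exact (LD_mem_I.1 (hBI b hb hk)).2.2.1
  have hRU : R ⊆ U := by
    intro k hk
    obtain ⟨b, hb, hk2⟩ := mem_biUnion.1 hk
    exact mem_biUnion.2 ⟨b, hb, hBI b hb hk2⟩
  refine ⟨Q ∪ R, union_subset hQT (hRU.trans hUT), ?_, ?_⟩
  · rw [image_union]
    exact Kset.union (Kset.mono (by omega) hQK) hRK
  -- the estimate
  have hsum : Phi (col {s} v) (∑ k ∈ T, a k • x k) =
      (∑ b ∈ A, Phi (col {s} v) (∑ k ∈ LD_I lo hi A α β b, a k • x k)) +
      ∑ k ∈ Q, ((a k : ℝ) : 𝕜) * Phi (col {s} v) (x k) := by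
    have h2 : Phi (col {s} v) (∑ k ∈ T, a k • x k) =
        ∑ k ∈ T, ((a k : ℝ) : 𝕜) * Phi (col {s} v) (x k) := by
      rw [Phi_sum_right]
      exact sum_congr rfl (fun k _ => Phi_smul_real _ _ _)
    have h3 : ∀ b, Phi (col {s} v) (∑ k ∈ LD_I lo hi A α β b, a k • x k) =
        ∑ k ∈ LD_I lo hi A α β b, ((a k : ℝ) : 𝕜) * Phi (col {s} v) (x k) := by
      intro b
      rw [Phi_sum_right]
      exact sum_congr rfl (fun k _ => Phi_smul_real _ _ _)
    rw [h2, sum_congr rfl (fun b _ => h3 b), ← sum_biUnion, ← sum_sdiff hUT, add_comm]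
    · congr 1
      symm
      apply sum_subset (filter_subset _ _)
      intro k hk hkQ
      have h4 : res (Set.Icc (lo k) (hi k)) w = 0 := by
        by_contra hcon
        exact hkQ (mem_filter.2 ⟨hk, hcon⟩)
      have h5 : Phi (comp s v) (x k) = 0 := by
        rw [← hw, ← Phi_res (J := Set.Icc (lo k) (hi k)) w (x k), h4, Phi_zero_left]
        intro l hl
        exact hx k (hTM k (mem_sdiff.1 hk).1) l hl
      rw [Phi_col_single, h5, mul_zero, mul_zero]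
    · intro b hb b' hb' hbb
      exact LD_I_disj hb hb' hbb
  rw [hsum]
  refine (norm_add_le _ _).trans ?_
  have hpart1 : ‖∑ b ∈ A, Phi (col {s} v) (∑ k ∈ LD_I lo hi A α β b, a k • x k)‖ ≤
      (m s : ℝ)⁻¹ * (X * (nrm v * l2 a T) + Y * (nrm v * l2 a (Q ∪ R))) := by
    refine (norm_sum_le _ _).trans ((sum_le_sum hBn).trans ?_)
    rw [← mul_sum]
    apply mul_le_mul_of_nonneg_left _ (by positivity)
    have h2 : ∑ b ∈ A, nrm (res (cell A b) w) * (X * l2 a (LD_I lo hi A α β b) + Y * l2 a (B b)) =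
        X * ∑ b ∈ A, nrm (res (cell A b) w) * l2 a (LD_I lo hi A α β b) +
        Y * ∑ b ∈ A, nrm (res (cell A b) w) * l2 a (B b) := by
      rw [mul_sum, mul_sum, ← sum_add_distrib]
      exact sum_congr rfl (fun b _ => by ring)
    rw [h2]
    have h3 : ∑ b ∈ A, nrm (res (cell A b) w) * l2 a (LD_I lo hi A α β b) ≤ nrm w * l2 a U :=
      sum_nrm_mul_l2_le A (cell A) (fun i hi' j hj hij => cell_disjoint hi' hj hij) w a _
        (fun i hi' j hj hij => LD_I_disj hi' hj hij)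
    have h4 : ∑ b ∈ A, nrm (res (cell A b) w) * l2 a (B b) ≤ nrm w * l2 a R :=
      sum_nrm_mul_l2_le A (cell A) (fun i hi' j hj hij => cell_disjoint hi' hj hij) w a _
        (fun i hi' j hj hij => Finset.disjoint_of_subset_left (hBI i hi')
          (Finset.disjoint_of_subset_right (hBI j hj) (LD_I_disj hi' hj hij)))
    have h5 : nrm w ≤ nrm v := nrm_comp_le s v
    have h6 : nrm w * l2 a U ≤ nrm v * l2 a T :=
      mul_le_mul h5 (l2_mono a hUT) (l2_nonneg _ _) (nrm_nonneg _)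
    have h7 : nrm w * l2 a R ≤ nrm v * l2 a (Q ∪ R) :=
      mul_le_mul h5 (l2_mono a subset_union_right) (l2_nonneg _ _) (nrm_nonneg _)
    exact add_le_add (mul_le_mul_of_nonneg_left (h3.trans h6) hX)
      (mul_le_mul_of_nonneg_left (h4.trans h7) hY)
  have hpart2 : ‖∑ k ∈ Q, ((a k : ℝ) : 𝕜) * Phi (col {s} v) (x k)‖ ≤ C1 * (nrm v * l2 a (Q ∪ R)) := by
    refine (norm_sum_le _ _).trans ?_
    have h2 : ∀ k ∈ Q, ‖((a k : ℝ) : 𝕜) * Phi (col {s} v) (x k)‖ ≤
        C1 * (|a k| * nrm (res (Set.Icc (lo k) (hi k)) (col {s} v))) := by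
      intro k hk
      have hkM := hTM k (hQT hk)
      rw [norm_mul, RCLike.norm_ofReal]
      have h3 := h1 k hkM (res (Set.Icc (lo k) (hi k)) (col {s} v)) ((hv.col _).res Set.ordConnected_Icc)
      rw [Phi_res (J := Set.Icc (lo k) (hi k)) _ _ (fun l hl => hx k hkM l hl)] at h3
      calc |a k| * ‖Phi (col {s} v) (x k)‖
          ≤ |a k| * (C1 * nrm (res (Set.Icc (lo k) (hi k)) (col {s} v))) :=
            mul_le_mul_of_nonneg_left h3 (abs_nonneg _)
        _ = _ := by ring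
    refine (sum_le_sum h2).trans ?_
    rw [← mul_sum]
    apply mul_le_mul_of_nonneg_left _ hC1
    refine (sum_abs_mul_nrm_le Q (fun k => Set.Icc (lo k) (hi k))
      (fun i hi' j hj hij => LD_J_disj hI (hTM i (hQT hi')) (hTM j (hQT hj)) hij) (col {s} v) a).trans ?_
    exact mul_le_mul (nrm_col_le _ _) (l2_mono a subset_union_left) (l2_nonneg _ _) (nrm_nonneg _)
  refine (add_le_add hpart1 hpart2).trans (le_of_eq ?_)
  rw [div_eq_mul_inv, div_eq_mul_inv]
  ring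

end H94.WH

end S_LD

section S_IS0

/-!
# MODULE IS0: the leaf term and the tail term of the main estimate
`leaf_term`: `B = {k ∈ Ico α β : res [lo k,hi k] (leaf v) ≠ 0}`; `B.image hi ∈ K_d` by `G.leafset` and `Kset.of_inj` (`ψ (hi k)` = a leaf position in `[lo k, hi k]`); term by term
`‖Phi (leaf v) (x k)‖ = ‖Phi (res (Icc (lo k) (hi k)) (leaf v)) (x k)‖ ≤ Cc nrm (..)` (`Phi_res`, `G.leaf`, `G.res`), then `sum_abs_mul_nrm_le` over `B`.
`tail_term`: for each `k`: `col {s | q < s} v = col {s | q < s ∧ s ∈ Crit k} v + col {s | q < s ∧ s ∉ Crit k} v`; second part: `h3` applied to `res (Icc (lo k) (hi k)) v`; first part: nonzero on `[lo k, hi k]`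
only for `k ∈ B`, `B.image hi ∈ K_d` (`G.crit` for `col {s | q < s} v`), `≤ Cc nrm (res .. v)`.
-/

set_option autoImplicit false

namespace H94.WH

open Finset

variable {𝕜 : Type} [RCLike 𝕜]

private theorem IS0_lt {M : ℕ} {lo hi : ℕ → ℕ} (hI : Ivals M lo hi) {i j : ℕ} (hij : i < j)
    (hj : j < M) : hi i < lo j := by
  induction j with
  | zero => omega
  | succ j ih =>
    rcases Nat.lt_succ_iff_lt_or_eq.1 hij with h | h
    · have h1 := ih h (by omega)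
      have h2 := hI.1 j (by omega)
      have h3 := hI.2 j hj
      omega
    · subst h
      exact hI.2 i hj

private theorem IS0_disj {M : ℕ} {lo hi : ℕ → ℕ} (hI : Ivals M lo hi) {i j : ℕ} (hi' : i < M)
    (hj : j < M) (hij : i ≠ j) : Disjoint (Set.Icc (lo i) (hi i)) (Set.Icc (lo j) (hi j)) := by
  rw [Set.disjoint_left]
  rintro p ⟨h1, h2⟩ ⟨h3, h4⟩
  rcases lt_or_gt_of_ne hij with h | h
  · have := IS0_lt hI h hj
    omega
  · have := IS0_lt hI h hi'
    omega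

private theorem IS0_kset {M d : ℕ} {lo hi : ℕ → ℕ} (hI : Ivals M lo hi) {A : Finset ℕ}
    (hA : Kset d A) (B : Finset ℕ) (hB : ∀ k ∈ B, k < M)
    (h : ∀ k ∈ B, ∃ p ∈ A, lo k ≤ p ∧ p ≤ hi k) : Kset d (B.image hi) := by
  classical
  have h1 : ∀ b ∈ B.image hi, ∃ p ∈ A, ∃ k ∈ B, hi k = b ∧ lo k ≤ p ∧ p ≤ hi k := by
    intro b hb
    obtain ⟨k, hk, rfl⟩ := Finset.mem_image.1 hb
    obtain ⟨p, hp, h2⟩ := h k hk
    exact ⟨p, hp, k, hk, rfl, h2⟩
  choose! ψ hψA κ hκB hκ1 hκ2 hκ3 using h1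
  refine hA.of_inj ψ (fun b hb => ⟨hψA b hb, ?_⟩) ?_
  · exact (hκ3 b hb).trans (hκ1 b hb).le
  · intro b hb b' hb' he
    have hkk : κ b = κ b' := by
      by_contra hne
      have hd := IS0_disj hI (hB _ (hκB b hb)) (hB _ (hκB b' hb')) hne
      rw [Set.disjoint_left] at hd
      refine hd (a := ψ b) ⟨hκ2 b hb, hκ3 b hb⟩ ?_
      rw [he]
      exact ⟨hκ2 b' hb', hκ3 b' hb'⟩
    rw [← hκ1 b hb, ← hκ1 b' hb', hkk]

private theorem IS0_sum (w : V) (s : Finset ℕ) (a : ℕ → ℝ) (x : ℕ → X0 𝕜) :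
    ‖Phi w (∑ k ∈ s, a k • x k)‖ ≤ ∑ k ∈ s, |a k| * ‖Phi w (x k)‖ := by
  rw [Phi_sum_right]
  refine (norm_sum_le _ _).trans (Finset.sum_le_sum fun k _ => ?_)
  rw [Phi_smul_real, norm_mul, RCLike.norm_ofReal]

theorem leaf_term {M : ℕ} {lo hi : ℕ → ℕ} (hI : Ivals M lo hi) {x : ℕ → X0 𝕜} (a : ℕ → ℝ)
    (hx : ∀ k < M, ∀ l ∈ (x k).support, lo k ≤ l ∧ l ≤ hi k) {d : ℕ} {Cc : ℝ} (hCc : 0 ≤ Cc)
    (h1 : ∀ k < M, ∀ v, G d v → ‖Phi v (x k)‖ ≤ Cc * nrm v)
    {v : V} (hv : G d v) {α β : ℕ} (hβ : β ≤ M) :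
    ∃ B ⊆ Finset.Ico α β, Kset d (B.image hi) ∧
      ‖Phi (leaf v) (∑ k ∈ Finset.Ico α β, a k • x k)‖ ≤ nrm v * (Cc * l2 a B) := by
  classical
  set J : ℕ → Set ℕ := fun k => Set.Icc (lo k) (hi k) with hJ
  set B : Finset ℕ := (Finset.Ico α β).filter (fun k => res (J k) (leaf v) ≠ 0) with hB
  have hBsub : B ⊆ Finset.Ico α β := Finset.filter_subset _ _
  have hlt : ∀ k ∈ Finset.Ico α β, k < M := fun k hk => (Finset.mem_Ico.1 hk).2.trans_le hβ
  have hBM : ∀ k ∈ B, k < M := fun k hk => hlt k (hBsub hk)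
  refine ⟨B, hBsub, ?_, ?_⟩
  · refine IS0_kset hI hv.leafset B hBM fun k hk => ?_
    have hne : res (J k) (leaf v) ≠ 0 := (Finset.mem_filter.1 hk).2
    obtain ⟨p, hp⟩ := Finsupp.support_nonempty_iff.2 hne
    obtain ⟨hp1, hp2⟩ := mem_res.1 hp
    exact ⟨p.1, Finset.mem_image_of_mem _ hp1, hp2.1, hp2.2⟩
  · refine (IS0_sum _ _ _ _).trans ?_
    have hterm : ∀ k ∈ Finset.Ico α β, Phi (leaf v) (x k) = Phi (res (J k) (leaf v)) (x k) :=
      fun k hk => (Phi_res (leaf v) (x k) (fun l hl => hx k (hlt k hk) l hl)).symm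
    have hzero : ∀ k ∈ Finset.Ico α β, k ∉ B → |a k| * ‖Phi (leaf v) (x k)‖ = 0 := by
      intro k hk hkB
      have h0 : res (J k) (leaf v) = 0 := by
        by_contra hne
        exact hkB (Finset.mem_filter.2 ⟨hk, hne⟩)
      rw [hterm k hk, h0, Phi_zero_left, norm_zero, mul_zero]
    rw [← Finset.sum_subset hBsub hzero]
    have hle : ∀ k ∈ B, |a k| * ‖Phi (leaf v) (x k)‖ ≤ Cc * (|a k| * nrm (res (J k) v)) := by
      intro k hk
      rw [hterm k (hBsub hk)]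
      have hG : G d (res (J k) (leaf v)) := hv.leaf.res Set.ordConnected_Icc
      have h2 := h1 k (hBM k hk) _ hG
      have h3 : nrm (res (J k) (leaf v)) ≤ nrm (res (J k) v) := by
        rw [res_leaf]; exact nrm_leaf_le _
      calc |a k| * ‖Phi (res (J k) (leaf v)) (x k)‖ ≤ |a k| * (Cc * nrm (res (J k) v)) :=
            mul_le_mul_of_nonneg_left (h2.trans (mul_le_mul_of_nonneg_left h3 hCc)) (abs_nonneg _)
        _ = Cc * (|a k| * nrm (res (J k) v)) := by ring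
    refine (Finset.sum_le_sum hle).trans ?_
    rw [← Finset.mul_sum]
    have h4 := sum_abs_mul_nrm_le B J
      (fun i hi' j hj hij => IS0_disj hI (hBM i hi') (hBM j hj) hij) v a
    calc Cc * ∑ k ∈ B, |a k| * nrm (res (J k) v) ≤ Cc * (nrm v * l2 a B) :=
          mul_le_mul_of_nonneg_left h4 hCc
      _ = nrm v * (Cc * l2 a B) := by ring

theorem tail_term {q : ℕ} {M : ℕ} {lo hi : ℕ → ℕ} (hI : Ivals M lo hi) {x : ℕ → X0 𝕜} (a : ℕ → ℝ)
    (hx : ∀ k < M, ∀ l ∈ (x k).support, lo k ≤ l ∧ l ≤ hi k) {d : ℕ} {Cc xt : ℝ} (hCc : 0 ≤ Cc) (hxt : 0 ≤ xt)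
    (h1 : ∀ k < M, ∀ v, G d v → ‖Phi v (x k)‖ ≤ Cc * nrm v)
    (Crit : ℕ → Set ℕ) (hdis : ∀ i < M, ∀ j < M, i ≠ j → Disjoint (Crit i) (Crit j))
    (h3 : ∀ k < M, ∀ v, G d v → ‖Phi (col {s | q < s ∧ s ∉ Crit k} v) (x k)‖ ≤ xt * nrm v)
    {v : V} (hv : G d v) {α β : ℕ} (hβ : β ≤ M) :
    ∃ B ⊆ Finset.Ico α β, Kset d (B.image hi) ∧
      ‖Phi (col {s | q < s} v) (∑ k ∈ Finset.Ico α β, a k • x k)‖ ≤
        nrm v * (xt * l2 a (Finset.Ico α β) + Cc * l2 a B) := by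
  classical
  set J : ℕ → Set ℕ := fun k => Set.Icc (lo k) (hi k) with hJ
  set B : Finset ℕ := (Finset.Ico α β).filter
    (fun k => res (J k) (col (Crit k) (col {s | q < s} v)) ≠ 0) with hB
  have hBsub : B ⊆ Finset.Ico α β := Finset.filter_subset _ _
  have hlt : ∀ k ∈ Finset.Ico α β, k < M := fun k hk => (Finset.mem_Ico.1 hk).2.trans_le hβ
  have hBM : ∀ k ∈ B, k < M := fun k hk => hlt k (hBsub hk)
  have hcc : ∀ k, col (Crit k) (col {s | q < s} v) = col {s | q < s ∧ s ∈ Crit k} v := by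
    intro k
    rw [col_col]
    congr 1
    ext s
    exact and_comm
  refine ⟨B, hBsub, ?_, ?_⟩
  · have h5 := (hv.col {s | q < s}).crit hI Crit hdis
    refine h5.sub (Finset.image_subset_image fun k hk => ?_)
    exact Finset.mem_filter.2 ⟨Finset.mem_range.2 (hBM k hk), (Finset.mem_filter.1 hk).2⟩
  · refine (IS0_sum _ _ _ _).trans ?_
    -- split every term
    have hsplit : ∀ k ∈ Finset.Ico α β, |a k| * ‖Phi (col {s | q < s} v) (x k)‖ ≤
        xt * (|a k| * nrm (res (J k) v)) +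
          |a k| * ‖Phi (col {s | q < s ∧ s ∈ Crit k} v) (x k)‖ := by
      intro k hk
      have hset : ({s | q < s} : Set ℕ) = {s | q < s ∧ s ∈ Crit k} ∪ {s | q < s ∧ s ∉ Crit k} := by
        ext s
        simp only [Set.mem_ofPred_eq, Set.mem_union]
        tauto
      have hdj : Disjoint ({s | q < s ∧ s ∈ Crit k} : Set ℕ) {s | q < s ∧ s ∉ Crit k} := by
        rw [Set.disjoint_left]
        rintro s ⟨_, hs⟩ ⟨_, hs'⟩
        exact hs' hs
      have e1 : Phi (col {s | q < s} v) (x k) = Phi (col {s | q < s ∧ s ∈ Crit k} v) (x k) +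
          Phi (col {s | q < s ∧ s ∉ Crit k} v) (x k) := by
        conv_lhs => rw [hset, col_union hdj, Phi_add_left]
      have e2 : Phi (col {s | q < s ∧ s ∉ Crit k} v) (x k) =
          Phi (col {s | q < s ∧ s ∉ Crit k} (res (J k) v)) (x k) := by
        rw [← res_col, Phi_res (J := J k) _ (x k) (fun l hl => hx k (hlt k hk) l hl)]
      have e3 := h3 k (hlt k hk) (res (J k) v) (hv.res Set.ordConnected_Icc)
      rw [← e2] at e3
      rw [e1]
      calc |a k| * ‖Phi (col {s | q < s ∧ s ∈ Crit k} v) (x k) +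
            Phi (col {s | q < s ∧ s ∉ Crit k} v) (x k)‖
          ≤ |a k| * (‖Phi (col {s | q < s ∧ s ∈ Crit k} v) (x k)‖ + xt * nrm (res (J k) v)) :=
            mul_le_mul_of_nonneg_left ((norm_add_le _ _).trans (by linarith)) (abs_nonneg _)
        _ = _ := by ring
    refine (Finset.sum_le_sum hsplit).trans ?_
    rw [Finset.sum_add_distrib, ← Finset.mul_sum]
    have hzero : ∀ k ∈ Finset.Ico α β, k ∉ B →
        |a k| * ‖Phi (col {s | q < s ∧ s ∈ Crit k} v) (x k)‖ = 0 := by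
      intro k hk hkB
      have h0 : res (J k) (col (Crit k) (col {s | q < s} v)) = 0 := by
        by_contra hne
        exact hkB (Finset.mem_filter.2 ⟨hk, hne⟩)
      rw [← Phi_res (J := J k) _ (x k) (fun l hl => hx k (hlt k hk) l hl), ← hcc k, h0,
        Phi_zero_left, norm_zero, mul_zero]
    rw [← Finset.sum_subset hBsub hzero]
    have hle : ∀ k ∈ B, |a k| * ‖Phi (col {s | q < s ∧ s ∈ Crit k} v) (x k)‖ ≤
        Cc * (|a k| * nrm (res (J k) v)) := by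
      intro k hk
      rw [← Phi_res (J := J k) _ (x k) (fun l hl => hx k (hBM k hk) l hl), res_col]
      have hG : G d (col {s | q < s ∧ s ∈ Crit k} (res (J k) v)) :=
        (hv.res Set.ordConnected_Icc).col _
      have h2 := h1 k (hBM k hk) _ hG
      calc |a k| * ‖Phi (col {s | q < s ∧ s ∈ Crit k} (res (J k) v)) (x k)‖
          ≤ |a k| * (Cc * nrm (res (J k) v)) :=
            mul_le_mul_of_nonneg_left (h2.trans (mul_le_mul_of_nonneg_left (nrm_col_le _ _) hCc))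
              (abs_nonneg _)
        _ = Cc * (|a k| * nrm (res (J k) v)) := by ring
    have h4 := sum_abs_mul_nrm_le B J
      (fun i hi' j hj hij => IS0_disj hI (hBM i hi') (hBM j hj) hij) v a
    have h5 := sum_abs_mul_nrm_le (Finset.Ico α β) J
      (fun i hi' j hj hij => IS0_disj hI (hlt i hi') (hlt j hj) hij) v a
    have h6 : ∑ k ∈ B, |a k| * ‖Phi (col {s | q < s ∧ s ∈ Crit k} v) (x k)‖ ≤
        Cc * (nrm v * l2 a B) := by
      refine (Finset.sum_le_sum hle).trans ?_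
      rw [← Finset.mul_sum]
      exact mul_le_mul_of_nonneg_left h4 hCc
    have h7 := mul_le_mul_of_nonneg_left h5 hxt
    calc xt * ∑ k ∈ Finset.Ico α β, |a k| * nrm (res (J k) v) +
          ∑ k ∈ B, |a k| * ‖Phi (col {s | q < s ∧ s ∈ Crit k} v) (x k)‖
        ≤ xt * (nrm v * l2 a (Finset.Ico α β)) + Cc * (nrm v * l2 a B) := add_le_add h7 h6
      _ = nrm v * (xt * l2 a (Finset.Ico α β) + Cc * l2 a B) := by ring

end H94.WH

end S_IS0

section S_IS

/-!
# MODULE IS: the main estimate (Lemma IS, section 7)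

`XX r = Cc * (1/2)^r + 2 (xq + xt)`, `YY = 2 ((q+2) Cc + yq)`. Induction on `r` (for all `d`, `v`, `α β`).
`r = 0`: `B = ∅`; term by term: `‖Phi v (x k)‖ = ‖Phi (res [lo k,hi k] v) (x k)‖ ≤ Cc nrm (res ..)`, `sum_abs_mul_nrm_le`. `cc q 0 d = 0`.
Step `r → r+1`: `Phi_split q`:
 * leaf: `leaf_term`;
 * `col {0} v`: `Phi (col {0} v) x = (m 0)⁻¹ Phi (comp 0 v) x`, `comp 0 v ∈ G (d+1)` (`G.comp_zero`), induction hypothesis with `d+1` (`(d+1)+r ≤ D`), `cc q r (d+1)`;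
 * `col {s} v`, `1 ≤ s < q`: `descend` with `X = XX r`, `Y = YY`, `C1 = Cc`, `c = cc q r d`: `B_s.image hi ∈ K_{nn s + d + cc q r d + 1}`, `nn s ≤ nn (q-1)`;
 * `col {q} v`: `hq`;
 * `col {s | q < s} v`: `tail_term`.
`B` = union of the at most `q + 3 ≤ g (lo 0)` sets; all `hi k ≥ lo 0`; `Kset.succ_finset`, `cc_step0`, `cc_stepS`, `cc_stepQ`.
Coefficients: `l2 a (Ico α β)`: `XX r * ∑_{s<q} 1/m_s + xq + xt ≤ XX r / 2 + xq + xt = XX (r+1)`; `l2 a B`: `Cc + YY ∑_{s<q} 1/m_s + (q-1) Cc + yq + Cc ≤ YY`.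
-/

set_option autoImplicit false

namespace H94.WH

open Finset

variable {𝕜 : Type} [RCLike 𝕜]

/-- coefficient of the main term -/
noncomputable def XX (Cc xq xt : ℝ) (r : ℕ) : ℝ := Cc * (2 : ℝ)⁻¹ ^ r + 2 * (xq + xt)
/-- coefficient of the small set -/
noncomputable def YY (q : ℕ) (Cc yq : ℝ) : ℝ := 2 * (((q : ℝ) + 2) * Cc + yq)

private theorem IS_ivals_lt {M : ℕ} {lo hi : ℕ → ℕ} (hI : Ivals M lo hi) {i j : ℕ} (hij : i < j) (hj : j < M) :
    hi i < lo j := by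
  induction j with
  | zero => omega
  | succ j ihj =>
    rcases Nat.lt_succ_iff_lt_or_eq.mp hij with h | h
    · have h1 := ihj h (by omega)
      have h2 := hI.1 j (by omega)
      have h3 := hI.2 j hj
      omega
    · subst h; exact hI.2 i hj

private theorem IS_lo0_le {M : ℕ} {lo hi : ℕ → ℕ} (hI : Ivals M lo hi) {k : ℕ} (hk : k < M) :
    lo 0 ≤ hi k := by
  rcases Nat.eq_zero_or_pos k with h | h
  · subst h; exact hI.1 0 hk
  · have h1 := IS_ivals_lt hI h hk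
    have h2 := hI.1 0 (by omega)
    have h3 := hI.1 k hk
    omega

private theorem IS_XX_nonneg {Cc xq xt : ℝ} (hCc : 0 ≤ Cc) (hxq : 0 ≤ xq) (hxt : 0 ≤ xt) (r : ℕ) :
    0 ≤ XX Cc xq xt r := by
  unfold XX
  have : (0:ℝ) ≤ (2 : ℝ)⁻¹ ^ r := by positivity
  nlinarith [mul_nonneg hCc this]

private theorem IS_YY_nonneg {q : ℕ} {Cc yq : ℝ} (hCc : 0 ≤ Cc) (hyq : 0 ≤ yq) : 0 ≤ YY q Cc yq := by
  unfold YY
  positivity

private theorem IS_base {M : ℕ} {lo hi : ℕ → ℕ} (hI : Ivals M lo hi) {x : ℕ → X0 𝕜} (a : ℕ → ℝ)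
    (hx : ∀ k < M, ∀ l ∈ (x k).support, lo k ≤ l ∧ l ≤ hi k) {d : ℕ} {Cc : ℝ} (hCc : 0 ≤ Cc)
    (h1 : ∀ k < M, ∀ v, G d v → ‖Phi v (x k)‖ ≤ Cc * nrm v)
    {v : V} (hv : G d v) {α β : ℕ} (hβ : β ≤ M) :
    ‖Phi v (∑ k ∈ Finset.Ico α β, a k • x k)‖ ≤ nrm v * (Cc * l2 a (Finset.Ico α β)) := by
  have hM : ∀ k ∈ Finset.Ico α β, k < M := fun k hk => lt_of_lt_of_le (Finset.mem_Ico.mp hk).2 hβ
  rw [Phi_sum_right]
  refine (norm_sum_le _ _).trans ?_
  have hterm : ∀ k ∈ Finset.Ico α β, ‖Phi v (a k • x k)‖ ≤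
      Cc * (|a k| * nrm (res (Set.Icc (lo k) (hi k)) v)) := by
    intro k hk
    rw [Phi_smul_real, norm_mul]
    have hr : Phi (res (Set.Icc (lo k) (hi k)) v) (x k) = Phi v (x k) :=
      Phi_res v (x k) (fun l hl => ⟨(hx k (hM k hk) l hl).1, (hx k (hM k hk) l hl).2⟩)
    rw [← hr]
    have h := h1 k (hM k hk) _ (G.res hv (J := Set.Icc (lo k) (hi k)) Set.ordConnected_Icc)
    have hn : ‖((a k : ℝ) : 𝕜)‖ = |a k| := RCLike.norm_ofReal _
    rw [hn]
    calc |a k| * ‖Phi (res (Set.Icc (lo k) (hi k)) v) (x k)‖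
        ≤ |a k| * (Cc * nrm (res (Set.Icc (lo k) (hi k)) v)) :=
          mul_le_mul_of_nonneg_left h (abs_nonneg _)
      _ = _ := by ring
  refine (Finset.sum_le_sum hterm).trans ?_
  rw [← Finset.mul_sum]
  have hd : ∀ i ∈ Finset.Ico α β, ∀ j ∈ Finset.Ico α β, i ≠ j →
      Disjoint (Set.Icc (lo i) (hi i)) (Set.Icc (lo j) (hi j)) := by
    intro i hi' j hj' hij
    rw [Set.disjoint_left]
    intro l hl1 hl2
    rcases lt_or_gt_of_ne hij with h | h
    · have := IS_ivals_lt hI h (hM j hj')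
      have h1 := hl1.2
      have h2 := hl2.1
      omega
    · have := IS_ivals_lt hI h (hM i hi')
      have h1 := hl2.2
      have h2 := hl1.1
      omega
  have h2 := sum_abs_mul_nrm_le (Finset.Ico α β) (fun k => Set.Icc (lo k) (hi k)) hd v a
  calc Cc * ∑ k ∈ Finset.Ico α β, |a k| * nrm (res (Set.Icc (lo k) (hi k)) v)
      ≤ Cc * (nrm v * l2 a (Finset.Ico α β)) := mul_le_mul_of_nonneg_left h2 hCc
    _ = _ := by ring

/-- arithmetic of the step -/
private theorem IS_arith {q : ℕ} (hq1 : 1 ≤ q) {Cc xq yq xt N L Lb : ℝ} (hCc : 0 ≤ Cc) (hyq : 0 ≤ yq)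
    (hxq : 0 ≤ xq) (hxt : 0 ≤ xt) (hN : 0 ≤ N) (hL : 0 ≤ L) (hLb : 0 ≤ Lb) (r : ℕ) :
    N * (Cc * Lb) + (m 0 : ℝ)⁻¹ * (N * (XX Cc xq xt r * L + YY q Cc yq * Lb)) +
      ∑ s ∈ Finset.Ico 1 q, N * (XX Cc xq xt r / m s * L + (YY q Cc yq / m s + Cc) * Lb) +
      N * (xq * L + yq * Lb) + N * (xt * L + Cc * Lb) ≤
    N * (XX Cc xq xt (r + 1) * L + YY q Cc yq * Lb) := by
  have hX := IS_XX_nonneg hCc hxq hxt r
  have hY := IS_YY_nonneg (q := q) hCc hyq
  set X := XX Cc xq xt r with hXdef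
  set Y := YY q Cc yq with hYdef
  set T : ℝ := ∑ s ∈ Finset.Ico 1 q, ((m s : ℝ))⁻¹ with hT
  have hsum : ∑ s ∈ Finset.Ico 1 q, N * (X / m s * L + (Y / m s + Cc) * Lb) =
      N * ((X * L + Y * Lb) * T + ((q : ℝ) - 1) * (Cc * Lb)) := by
    have : ∀ s ∈ Finset.Ico 1 q, N * (X / m s * L + (Y / m s + Cc) * Lb) =
        N * (X * L + Y * Lb) * ((m s : ℝ))⁻¹ + N * (Cc * Lb) := by
      intro s _
      rw [div_eq_mul_inv, div_eq_mul_inv]; ring
    rw [Finset.sum_congr rfl this, Finset.sum_add_distrib, ← Finset.mul_sum, Finset.sum_const,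
      Nat.card_Ico, nsmul_eq_mul, Nat.cast_sub hq1]
    push_cast
    ring
  have hS : (m 0 : ℝ)⁻¹ + T ≤ 1 / 2 := by
    have h := sum_inv_m_le q
    rw [Finset.range_eq_Ico, Finset.sum_eq_sum_Ico_succ_bot (by omega : 0 < q)] at h
    simpa using h
  rw [hsum]
  have hXX : XX Cc xq xt (r + 1) = X / 2 + xq + xt := by
    rw [hXdef]; unfold XX; rw [pow_succ]; ring
  have hYY : Y = 2 * (((q : ℝ) + 2) * Cc + yq) := rfl
  rw [hXX]
  have e1 : N * (Cc * Lb) + (m 0 : ℝ)⁻¹ * (N * (X * L + Y * Lb)) +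
      N * ((X * L + Y * Lb) * T + ((q : ℝ) - 1) * (Cc * Lb)) +
      N * (xq * L + yq * Lb) + N * (xt * L + Cc * Lb) =
      N * ((X * L + Y * Lb) * ((m 0 : ℝ)⁻¹ + T) + (xq + xt) * L +
        ((((q : ℝ) + 1) * Cc) + yq) * Lb) := by ring
  rw [e1]
  apply mul_le_mul_of_nonneg_left _ hN
  have h2 : (X * L + Y * Lb) * ((m 0 : ℝ)⁻¹ + T) ≤ (X * L + Y * Lb) * (1 / 2) :=
    mul_le_mul_of_nonneg_left hS (by positivity)
  have h3 : ((((q : ℝ) + 1) * Cc) + yq) * Lb ≤ (Y / 2) * Lb := by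
    apply mul_le_mul_of_nonneg_right _ hLb
    rw [hYY]
    nlinarith
  nlinarith

theorem main_estimate {q : ℕ} (hq1 : 1 ≤ q) {M : ℕ} {lo hi : ℕ → ℕ} (hI : Ivals M lo hi) {x : ℕ → X0 𝕜} (a : ℕ → ℝ)
    (hx : ∀ k < M, ∀ l ∈ (x k).support, lo k ≤ l ∧ l ≤ hi k) (D : ℕ) {Cc xq yq xt : ℝ} (hCc : 0 ≤ Cc)
    (hxq : 0 ≤ xq) (hyq : 0 ≤ yq) (hxt : 0 ≤ xt)
    (h1 : ∀ k < M, ∀ d ≤ D, ∀ v, G d v → ‖Phi v (x k)‖ ≤ Cc * nrm v)
    (Crit : ℕ → Set ℕ) (hdis : ∀ i < M, ∀ j < M, i ≠ j → Disjoint (Crit i) (Crit j))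
    (h3 : ∀ k < M, ∀ d ≤ D, ∀ v, G d v → ‖Phi (col {s | q < s ∧ s ∉ Crit k} v) (x k)‖ ≤ xt * nrm v)
    (hq : ∀ d ≤ D, ∀ v, G d v → ∀ α β, β ≤ M → ∃ B ⊆ Finset.Ico α β, Kset (d + 3) (B.image hi) ∧
      ‖Phi (col {q} v) (∑ k ∈ Finset.Ico α β, a k • x k)‖ ≤ nrm v * (xq * l2 a (Finset.Ico α β) + yq * l2 a B))
    (hg : q + 5 ≤ g (lo 0)) :
    ∀ r d, d + r ≤ D → ∀ v, G d v → ∀ α β, β ≤ M → ∃ B ⊆ Finset.Ico α β, Kset (cc q r d) (B.image hi) ∧
      ‖Phi v (∑ k ∈ Finset.Ico α β, a k • x k)‖ ≤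
        nrm v * (XX Cc xq xt r * l2 a (Finset.Ico α β) + YY q Cc yq * l2 a B) := by
  intro r
  induction r with
  | zero =>
    intro d hd v hv α β hβ
    refine ⟨∅, Finset.empty_subset _, ?_, ?_⟩
    · rw [Finset.image_empty]; exact Kset.empty _
    · have h := IS_base hI a hx hCc (fun k hk w hw => h1 k hk d (by omega) w hw) hv (α := α) hβ
      refine h.trans ?_
      apply mul_le_mul_of_nonneg_left _ (nrm_nonneg v)
      rw [l2_empty, mul_zero, add_zero]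
      apply mul_le_mul_of_nonneg_right _ (l2_nonneg _ _)
      unfold XX
      rw [pow_zero, mul_one]
      linarith
  | succ r ih =>
    intro d hd v hv α β hβ
    have hX := IS_XX_nonneg hCc hxq hxt r
    have hY := IS_YY_nonneg (q := q) hCc hyq
    set Z : X0 𝕜 := ∑ k ∈ Finset.Ico α β, a k • x k with hZ
    -- leaf
    obtain ⟨Bl, hBl1, hBl2, hBl3⟩ := leaf_term hI a hx hCc (fun k hk w hw => h1 k hk d (by omega) w hw) hv (α := α) hβ
    -- tail
    obtain ⟨Bt, hBt1, hBt2, hBt3⟩ := tail_term (q := q) hI a hx hCc hxt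
      (fun k hk w hw => h1 k hk d (by omega) w hw) Crit hdis
      (fun k hk w hw => h3 k hk d (by omega) w hw) hv (α := α) hβ
    -- q
    obtain ⟨Bq, hBq1, hBq2, hBq3⟩ := hq d (by omega) v hv α β hβ
    -- 0
    obtain ⟨B0, hB01, hB02, hB03⟩ := ih (d + 1) (by omega) (comp 0 v) (G.comp_zero hv) α β hβ
    -- s
    have hs : ∀ s, 1 ≤ s ∧ s < q → ∃ B ⊆ Finset.Ico α β, Kset (nn s + d + cc q r d + 1) (B.image hi) ∧
      ‖Phi (col {s} v) Z‖ ≤
        nrm v * (XX Cc xq xt r / m s * l2 a (Finset.Ico α β) + (YY q Cc yq / m s + Cc) * l2 a B) := by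
      intro s hs
      exact descend hI a hx hs.1 hX hY hCc (fun k hk w hw => h1 k hk d (by omega) w hw)
        (fun w hw α β hβ => ih d (by omega) w hw α β hβ) v hv α β hβ
    choose! Bs hBs1 hBs2 hBs3 using hs
    -- the union
    let F : ℕ → Finset ℕ := fun i => if i = 0 then B0 else if i < q then Bs i else if i = q then Bq else
      if i = q + 1 then Bl else Bt
    have hF0 : F 0 = B0 := if_pos rfl
    have hFs : ∀ s, 1 ≤ s ∧ s < q → F s = Bs s := by
      intro s hs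
      have h : s ≠ 0 := by omega
      show (if s = 0 then B0 else if s < q then Bs s else _) = Bs s
      rw [if_neg h, if_pos hs.2]
    have hFq : F q = Bq := by
      show (if q = 0 then B0 else if q < q then Bs q else if q = q then Bq else _) = Bq
      rw [if_neg (by omega), if_neg (lt_irrefl q), if_pos rfl]
    have hFl : F (q + 1) = Bl := by
      show (if q + 1 = 0 then B0 else if q + 1 < q then Bs (q + 1) else if q + 1 = q then Bq else
        if q + 1 = q + 1 then Bl else Bt) = Bl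
      rw [if_neg (by omega), if_neg (by omega), if_neg (by omega), if_pos rfl]
    have hFt : F (q + 2) = Bt := by
      show (if q + 2 = 0 then B0 else if q + 2 < q then Bs (q + 2) else if q + 2 = q then Bq else
        if q + 2 = q + 1 then Bl else Bt) = Bt
      rw [if_neg (by omega), if_neg (by omega), if_neg (by omega), if_neg (by omega)]
    have hcases : ∀ i ∈ Finset.range (q + 3), i = 0 ∨ (1 ≤ i ∧ i < q) ∨ i = q ∨ i = q + 1 ∨ i = q + 2 := by
      intro i hi'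
      have := Finset.mem_range.mp hi'
      omega
    have hFsub : ∀ i ∈ Finset.range (q + 3), F i ⊆ Finset.Ico α β := by
      intro i hi'
      rcases hcases i hi' with h | h | h | h | h
      · subst h; rw [hF0]; exact hB01
      · rw [hFs i h]; exact hBs1 i h
      · subst h; rw [hFq]; exact hBq1
      · subst h; rw [hFl]; exact hBl1
      · subst h; rw [hFt]; exact hBt1
    have hc0 := cc_step0 q r d
    have hcS := cc_stepS q r d
    have hcQ := cc_stepQ q r d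
    obtain ⟨c, hc⟩ : ∃ c, cc q (r + 1) d = c + 1 := ⟨cc q (r + 1) d - 1, by omega⟩
    have hFK : ∀ i ∈ Finset.range (q + 3), Kset c ((F i).image hi) := by
      intro i hi'
      rcases hcases i hi' with h | h | h | h | h
      · subst h; rw [hF0]; exact Kset.mono (by omega) hB02
      · rw [hFs i h]
        have : nn i ≤ nn (q - 1) := nn_mono (by omega)
        exact Kset.mono (by omega) (hBs2 i h)
      · subst h; rw [hFq]; exact Kset.mono (by omega) hBq2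
      · subst h; rw [hFl]; exact Kset.mono (by omega) hBl2
      · subst h; rw [hFt]; exact Kset.mono (by omega) hBt2
    let B : Finset ℕ := (Finset.range (q + 3)).biUnion F
    have hFB : ∀ i, i < q + 3 → F i ⊆ B := fun i hi' =>
      Finset.subset_biUnion_of_mem F (Finset.mem_range.mpr hi')
    have hBsub : B ⊆ Finset.Ico α β := Finset.biUnion_subset.mpr hFsub
    refine ⟨B, hBsub, ?_, ?_⟩
    · rw [hc]
      have himg : B.image hi = (Finset.range (q + 3)).biUnion (fun i => (F i).image hi) :=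
        Finset.biUnion_image
      rw [himg]
      refine Kset.succ_finset (b := lo 0) (Finset.range (q + 3)) (fun i => (F i).image hi) ?_ hFK ?_
      · rw [Finset.card_range]; omega
      · intro i hi' y hy
        obtain ⟨k, hk, rfl⟩ := Finset.mem_image.mp hy
        exact IS_lo0_le hI (lt_of_lt_of_le (Finset.mem_Ico.mp (hFsub i hi' hk)).2 hβ)
    · have hLb : 0 ≤ l2 a B := l2_nonneg _ _
      have hL : 0 ≤ l2 a (Finset.Ico α β) := l2_nonneg _ _
      have hN := nrm_nonneg v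
      have e1 : ‖Phi (leaf v) Z‖ ≤ nrm v * (Cc * l2 a B) := by
        refine hBl3.trans (mul_le_mul_of_nonneg_left (mul_le_mul_of_nonneg_left (l2_mono a ?_) hCc) hN)
        rw [← hFl]; exact hFB _ (by omega)
      have e2 : ‖Phi (col {0} v) Z‖ ≤
          (m 0 : ℝ)⁻¹ * (nrm v * (XX Cc xq xt r * l2 a (Finset.Ico α β) + YY q Cc yq * l2 a B)) := by
        rw [norm_Phi_col_single]
        apply mul_le_mul_of_nonneg_left _ (by have := m_pos 0; positivity)
        refine hB03.trans ?_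
        have hl : l2 a B0 ≤ l2 a B := l2_mono a (by rw [← hF0]; exact hFB _ (by omega))
        have hin : XX Cc xq xt r * l2 a (Finset.Ico α β) + YY q Cc yq * l2 a B0 ≤
            XX Cc xq xt r * l2 a (Finset.Ico α β) + YY q Cc yq * l2 a B := by
          have := mul_le_mul_of_nonneg_left hl hY
          linarith
        have hB0n : 0 ≤ XX Cc xq xt r * l2 a (Finset.Ico α β) + YY q Cc yq * l2 a B := by positivity
        calc nrm (comp 0 v) * (XX Cc xq xt r * l2 a (Finset.Ico α β) + YY q Cc yq * l2 a B0)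
            ≤ nrm (comp 0 v) * (XX Cc xq xt r * l2 a (Finset.Ico α β) + YY q Cc yq * l2 a B) :=
              mul_le_mul_of_nonneg_left hin (nrm_nonneg _)
          _ ≤ _ := mul_le_mul_of_nonneg_right (nrm_comp_le 0 v) hB0n
      have e3 : ∀ s ∈ Finset.Ico 1 q, ‖Phi (col {s} v) Z‖ ≤
          nrm v * (XX Cc xq xt r / m s * l2 a (Finset.Ico α β) + (YY q Cc yq / m s + Cc) * l2 a B) := by
        intro s hs
        have hs' : 1 ≤ s ∧ s < q := ⟨(Finset.mem_Ico.mp hs).1, (Finset.mem_Ico.mp hs).2⟩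
        refine (hBs3 s hs').trans (mul_le_mul_of_nonneg_left ?_ hN)
        have hl : l2 a (Bs s) ≤ l2 a B := l2_mono a (by rw [← hFs s hs']; exact hFB _ (by omega))
        have hco : 0 ≤ YY q Cc yq / m s + Cc := by
          have := m_pos s
          positivity
        have := mul_le_mul_of_nonneg_left hl hco
        linarith
      have e4 : ‖Phi (col {q} v) Z‖ ≤ nrm v * (xq * l2 a (Finset.Ico α β) + yq * l2 a B) := by
        refine hBq3.trans (mul_le_mul_of_nonneg_left ?_ hN)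
        have hl : l2 a Bq ≤ l2 a B := l2_mono a (by rw [← hFq]; exact hFB _ (by omega))
        have := mul_le_mul_of_nonneg_left hl hyq
        linarith
      have e5 : ‖Phi (col {s | q < s} v) Z‖ ≤ nrm v * (xt * l2 a (Finset.Ico α β) + Cc * l2 a B) := by
        refine hBt3.trans (mul_le_mul_of_nonneg_left ?_ hN)
        have hl : l2 a Bt ≤ l2 a B := l2_mono a (by rw [← hFt]; exact hFB _ (by omega))
        have := mul_le_mul_of_nonneg_left hl hCc
        linarith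
      rw [Phi_split q hq1 v Z]
      have hnorm : ‖Phi (leaf v) Z + Phi (col {0} v) Z + ∑ s ∈ Finset.Ico 1 q, Phi (col {s} v) Z +
          Phi (col {q} v) Z + Phi (col {s | q < s} v) Z‖ ≤
          ‖Phi (leaf v) Z‖ + ‖Phi (col {0} v) Z‖ + ∑ s ∈ Finset.Ico 1 q, ‖Phi (col {s} v) Z‖ +
          ‖Phi (col {q} v) Z‖ + ‖Phi (col {s | q < s} v) Z‖ := by
        have n1 := norm_add_le (Phi (leaf v) Z + Phi (col {0} v) Z + ∑ s ∈ Finset.Ico 1 q, Phi (col {s} v) Z +
          Phi (col {q} v) Z) (Phi (col {s | q < s} v) Z)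
        have n2 := norm_add_le (Phi (leaf v) Z + Phi (col {0} v) Z + ∑ s ∈ Finset.Ico 1 q, Phi (col {s} v) Z)
          (Phi (col {q} v) Z)
        have n3 := norm_add_le (Phi (leaf v) Z + Phi (col {0} v) Z) (∑ s ∈ Finset.Ico 1 q, Phi (col {s} v) Z)
        have n4 := norm_add_le (Phi (leaf v) Z) (Phi (col {0} v) Z)
        have n5 := norm_sum_le (Finset.Ico 1 q) (fun s => Phi (col {s} v) Z)
        linarith
      refine hnorm.trans ?_
      have hsum := Finset.sum_le_sum e3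
      have harith := IS_arith (q := q) hq1 hCc hyq hxq hxt hN hL hLb r
      linarith

end H94.WH

end S_IS
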