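import Mathlib
import Pool.Agent.H94.WHM.M3
import Pool.Agent.H94.WHM.M4
import Pool.Agent.H94.WHM.Stmt

set_option autoImplicit false

/-! A hereditarily indecomposable weak Hilbert space, part M6: this file joins several modules. -/

section S_SP

/-!
# MODULE SP: the Banach space (completion of `(c_00, nor)`)

`E0 𝕜` is a type synonym of `X0 𝕜` with the norm `nor`; `XB 𝕜 = UniformSpace.Completion (E0 𝕜)`; `toE : X0 𝕜 → E0 𝕜`, `ofE : E0 𝕜 → X0 𝕜` are the identity maps.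
`exists_PhiE_bound`: `Phi v x = ∑_{a ∈ supp v} v a * wt a.2 * x a.1` and `abs_coord_le`. `PhiX v : XB 𝕜 →L[𝕜] 𝕜` is the continuous extension of `PhiE v` (definitions given).
All the statements for `XB` follow from those for `E0` by density (`UniformSpace.Completion.induction_on`, closedness) or by uniqueness of continuous extensions.
`PhiX_res`: by `PhiX_eq_sum` both sides are finite combinations of coordinates; the coordinates `< h` vanish.
-/

set_option autoImplicit false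

namespace H94.WH

open Finset

/-- type synonym of `c_00` for the norm `nor` -/
def E0 (𝕜 : Type) [RCLike 𝕜] : Type := X0 𝕜

variable {𝕜 : Type} [RCLike 𝕜]

noncomputable instance : AddCommGroup (E0 𝕜) := inferInstanceAs (AddCommGroup (X0 𝕜))
noncomputable instance : Module 𝕜 (E0 𝕜) := inferInstanceAs (Module 𝕜 (X0 𝕜))

/-- identity maps -/
def toE (x : X0 𝕜) : E0 𝕜 := x
def ofE (x : E0 𝕜) : X0 𝕜 := x

/-- the norm -/
noncomputable def norE : AddGroupNorm (E0 𝕜) where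
  toFun := fun x => nor (ofE x)
  map_zero' := nor_zero
  add_le' := fun x y => nor_add_le (ofE x) (ofE y)
  neg' := fun x => nor_neg (ofE x)
  eq_zero_of_map_eq_zero' := fun x h => eq_zero_of_nor (x := ofE x) h

noncomputable instance : NormedAddCommGroup (E0 𝕜) := norE.toNormedAddCommGroup

theorem norm_E0 (x : E0 𝕜) : ‖x‖ = nor (ofE x) := rfl

noncomputable instance : NormedSpace 𝕜 (E0 𝕜) where
  norm_smul_le := fun c x => le_of_eq (nor_smul c (ofE x))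

/-- the Banach space -/
abbrev XB (𝕜 : Type) [RCLike 𝕜] : Type := UniformSpace.Completion (E0 𝕜)

/-- embedding of `c_00` -/
noncomputable def emb (x : X0 𝕜) : XB 𝕜 := ((toE x : E0 𝕜) : XB 𝕜)

theorem exists_PhiE_bound (v : V) : ∃ K : ℝ, ∀ x : E0 𝕜, ‖Phi v (ofE x)‖ ≤ K * ‖x‖ := by
  refine ⟨∑ a ∈ v.support, ‖((((v a : ℚ) : ℝ) * wt a.2 : ℝ) : 𝕜)‖, fun x => ?_⟩
  rw [norm_E0, Finset.sum_mul]
  unfold Phi Finsupp.sum
  refine (norm_sum_le _ _).trans (Finset.sum_le_sum fun a _ => ?_)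
  rw [norm_mul]
  exact mul_le_mul_of_nonneg_left (abs_coord_le (ofE x) a.1) (norm_nonneg _)

/-- `Phi v` as a continuous linear functional on `E0` -/
noncomputable def PhiE (v : V) : E0 𝕜 →L[𝕜] 𝕜 :=
  LinearMap.mkContinuousOfExistsBound
    { toFun := fun x => Phi v (ofE x)
      map_add' := fun x y => Phi_add_right v (ofE x) (ofE y)
      map_smul' := fun c x => Phi_smul_right v c (ofE x) } (exists_PhiE_bound v)

theorem PhiE_apply (v : V) (x : E0 𝕜) : PhiE v x = Phi v (ofE x) := rfl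

/-- extension of `Phi v` to the Banach space -/
noncomputable def PhiX (v : V) : XB 𝕜 →L[𝕜] 𝕜 :=
  (PhiE v).extend (UniformSpace.Completion.toComplL : E0 𝕜 →L[𝕜] XB 𝕜)

theorem norm_emb (x : X0 𝕜) : ‖emb x‖ = nor x := UniformSpace.Completion.norm_coe (toE x)
theorem emb_add (x y : X0 𝕜) : emb (x + y) = emb x + emb y :=
  UniformSpace.Completion.coe_add (toE x) (toE y)
theorem emb_sub (x y : X0 𝕜) : emb (x - y) = emb x - emb y :=
  UniformSpace.Completion.coe_sub (toE x) (toE y)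
theorem emb_smul (c : 𝕜) (x : X0 𝕜) : emb (c • x) = c • emb x :=
  UniformSpace.Completion.coe_smul c (toE x)

/-- `emb` as a linear map -/
noncomputable def SP_emb : X0 𝕜 →ₗ[𝕜] XB 𝕜 where
  toFun := emb
  map_add' := emb_add
  map_smul' := emb_smul

theorem emb_sum {ι : Type*} (s : Finset ι) (x : ι → X0 𝕜) : emb (∑ i ∈ s, x i) = ∑ i ∈ s, emb (x i) :=
  map_sum (SP_emb : X0 𝕜 →ₗ[𝕜] XB 𝕜) x s
theorem SP_dr : DenseRange (⇑(UniformSpace.Completion.toComplL : E0 𝕜 →L[𝕜] XB 𝕜)) :=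
  UniformSpace.Completion.denseRange_coe
theorem SP_ui : IsUniformInducing (⇑(UniformSpace.Completion.toComplL : E0 𝕜 →L[𝕜] XB 𝕜)) :=
  UniformSpace.Completion.isUniformInducing_coe (E0 𝕜)
theorem SP_eq1 (v : V) (x : E0 𝕜) :
    (PhiE v).extend (UniformSpace.Completion.toComplL : E0 𝕜 →L[𝕜] XB 𝕜)
      ((UniformSpace.Completion.toComplL : E0 𝕜 →L[𝕜] XB 𝕜) x) = PhiE v x := by
  refine @ContinuousLinearMap.extend_eq _ _ _ _ _ _ _ _ _ _ _ _ _ _ _ _ _ _ _ _ _ _ _ _ _ _ ?_ ?_ x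
  · exact SP_dr
  · exact SP_ui
theorem PhiX_emb (v : V) (x : X0 𝕜) : PhiX v (emb x) = Phi v x :=
  SP_eq1 v (toE x)

theorem SP_ind {P : XB 𝕜 → Prop} (hc : IsClosed {x | P x}) (h : ∀ z : X0 𝕜, P (emb z)) (x : XB 𝕜) :
    P x := UniformSpace.Completion.induction_on x hc (fun a => h (ofE a))

/-- density -/
theorem dense_emb (x : XB 𝕜) {ε : ℝ} (hε : 0 < ε) : ∃ z : X0 𝕜, ‖x - emb z‖ < ε := by
  have h := (UniformSpace.Completion.denseRange_coe (α := E0 𝕜)).exists_dist_lt x hε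
  obtain ⟨z, hz⟩ := h
  exact ⟨ofE z, by rw [← dist_eq_norm]; exact hz⟩
theorem PhiX_add (v w : V) (x : XB 𝕜) : PhiX (v + w) x = PhiX v x + PhiX w x := by
  refine SP_ind (P := fun x => PhiX (v + w) x = PhiX v x + PhiX w x)
    (isClosed_eq (by fun_prop) (by fun_prop)) (fun z => ?_) x
  rw [PhiX_emb, PhiX_emb, PhiX_emb, Phi_add_left]
theorem PhiX_smul (c : ℚ) (v : V) (x : XB 𝕜) : PhiX (c • v) x = ((c : ℝ) : 𝕜) * PhiX v x := by
  refine SP_ind (P := fun x => PhiX (c • v) x = ((c : ℝ) : 𝕜) * PhiX v x)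
    (isClosed_eq (by fun_prop) (by fun_prop)) (fun z => ?_) x
  rw [PhiX_emb, PhiX_emb, Phi_smul_left]
theorem PhiX_sum {ι : Type*} (s : Finset ι) (u : ι → V) (x : XB 𝕜) : PhiX (∑ i ∈ s, u i) x = ∑ i ∈ s, PhiX (u i) x := by
  refine SP_ind (P := fun x => PhiX (∑ i ∈ s, u i) x = ∑ i ∈ s, PhiX (u i) x)
    (isClosed_eq (by fun_prop) (by fun_prop)) (fun z => ?_) x
  simp only [PhiX_emb, Phi_sum_left]
theorem PhiX_pre (s : ℕ) (v : V) (x : XB 𝕜) : PhiX (pre s v) x = (((m s : ℝ)⁻¹ : ℝ) : 𝕜) * PhiX v x := by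
  refine SP_ind (P := fun x => PhiX (pre s v) x = (((m s : ℝ)⁻¹ : ℝ) : 𝕜) * PhiX v x)
    (isClosed_eq (by fun_prop) (by fun_prop)) (fun z => ?_) x
  rw [PhiX_emb, PhiX_emb, Phi_pre]
theorem PhiX_le {v : V} (hv : C v) (x : XB 𝕜) : ‖PhiX v x‖ ≤ nrm v * ‖x‖ := by
  refine SP_ind (P := fun x => ‖PhiX v x‖ ≤ nrm v * ‖x‖)
    (isClosed_le (by fun_prop) (by fun_prop)) (fun z => ?_) x
  rw [PhiX_emb, norm_emb]
  exact abs_Phi_le_nor hv z
/-- coordinate functionals -/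
noncomputable def coordX (l : ℕ) : XB 𝕜 →L[𝕜] 𝕜 := PhiX (Finsupp.single (l, []) 1)
theorem coordX_emb (l : ℕ) (x : X0 𝕜) : coordX l (emb x) = x l := by
  unfold coordX
  rw [PhiX_emb, Phi_single]
  simp
theorem coordX_le (l : ℕ) (x : XB 𝕜) : ‖coordX l x‖ ≤ ‖x‖ := by
  refine SP_ind (P := fun x => ‖coordX l x‖ ≤ ‖x‖)
    (isClosed_le (by fun_prop) (by fun_prop)) (fun z => ?_) x
  rw [coordX_emb, norm_emb]
  exact abs_coord_le z l
/-- `PhiX` as a finite combination of coordinates -/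
theorem PhiX_eq_sum (v : V) (x : XB 𝕜) :
    PhiX v x = ∑ a ∈ v.support, ((((v a : ℚ) : ℝ) * wt a.2 : ℝ) : 𝕜) * coordX a.1 x := by
  refine SP_ind (P := fun x => PhiX v x =
      ∑ a ∈ v.support, ((((v a : ℚ) : ℝ) * wt a.2 : ℝ) : 𝕜) * coordX a.1 x)
    (isClosed_eq (by fun_prop) (by fun_prop)) (fun z => ?_) x
  rw [PhiX_emb]
  simp only [coordX_emb]
  rfl
theorem PhiX_res (h : ℕ) (v : V) (x : XB 𝕜) (hx : ∀ l < h, coordX l x = 0) :
    PhiX (res (Set.Ici h) v) x = PhiX v x := by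
  rw [PhiX_eq_sum, PhiX_eq_sum v]
  have hsub : (res (Set.Ici h) v).support ⊆ v.support := fun p hp => (mem_res.1 hp).1
  rw [← Finset.sum_subset hsub]
  · apply Finset.sum_congr rfl
    intro a ha
    have h1 := (mem_res.1 ha).2
    rw [res_apply, if_pos h1]
  · intro a ha hna
    have h1 : a.1 < h := by
      by_contra hc
      exact hna (mem_res.2 ⟨ha, not_lt.1 hc⟩)
    rw [hx _ h1, mul_zero]
/-- approximation with vanishing first coordinates: take `z = resX (Ici h) z0`, `‖x - emb z0‖ < δ` with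
`(1 + 2 h) δ ≤ ε`; `nor (resX (Iio h) z0) ≤ 2 ∑_{l < h} ‖z0 l‖ ≤ 2 h δ` since `z0 l = coordX l (emb z0 - x)`. -/
theorem exists_approx (h : ℕ) (x : XB 𝕜) (hx : ∀ l < h, coordX l x = 0) {ε : ℝ} (hε : 0 < ε) :
    ∃ z : X0 𝕜, (∀ l ∈ z.support, h ≤ l) ∧ ‖x - emb z‖ < ε := by
  set δ : ℝ := ε / (1 + 2 * h) with hδ
  have hh : (0 : ℝ) < 1 + 2 * h := by positivity
  have hδ0 : 0 < δ := by positivity
  obtain ⟨z0, hz0⟩ := dense_emb x hδ0
  have hcoord : ∀ l < h, ‖z0 l‖ ≤ δ := by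
    intro l hl
    have h1 : z0 l = coordX l (emb z0 - x) := by
      rw [map_sub, hx l hl, sub_zero, coordX_emb]
    rw [h1]
    refine (coordX_le l _).trans ?_
    rw [norm_sub_rev]
    exact hz0.le
  have hlow : nor (resX (Set.Iio h) z0) ≤ 2 * h * δ := by
    refine (nor_le_l1 _).trans ?_
    have h1 : ∑ l ∈ (resX (Set.Iio h) z0).support, ‖resX (Set.Iio h) z0 l‖ ≤
        ∑ l ∈ Finset.range h, δ := by
      have hs : (resX (Set.Iio h) z0).support ⊆ Finset.range h := fun l hl =>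
        Finset.mem_range.2 (mem_resX_support.1 hl).2
      calc ∑ l ∈ (resX (Set.Iio h) z0).support, ‖resX (Set.Iio h) z0 l‖ ≤
          ∑ l ∈ Finset.range h, ‖resX (Set.Iio h) z0 l‖ :=
            Finset.sum_le_sum_of_subset_of_nonneg hs (fun _ _ _ => norm_nonneg _)
        _ ≤ _ := Finset.sum_le_sum fun l hl => by
            have hl' : l < h := Finset.mem_range.1 hl
            rw [resX_apply_mem (show l ∈ Set.Iio h from hl')]
            exact hcoord l hl'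
    rw [Finset.sum_const, Finset.card_range, nsmul_eq_mul] at h1
    linarith
  refine ⟨resX (Set.Ici h) z0, fun l hl => (mem_resX_support.1 hl).2, ?_⟩
  have hsplit : z0 = resX (Set.Ici h) z0 + resX (Set.Iio h) z0 := by
    ext l
    rw [Finsupp.add_apply]
    by_cases hl : l < h
    · rw [resX_apply_not (show l ∉ Set.Ici h from fun h' => absurd hl (not_lt.2 h')),
        resX_apply_mem (show l ∈ Set.Iio h from hl), zero_add]
    · rw [resX_apply_mem (show l ∈ Set.Ici h from not_lt.1 hl),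
        resX_apply_not (show l ∉ Set.Iio h from hl), add_zero]
  have h2 : x - emb (resX (Set.Ici h) z0) = (x - emb z0) + emb (resX (Set.Iio h) z0) := by
    conv_rhs => rw [hsplit]
    rw [← hsplit, show emb z0 = emb (resX (Set.Ici h) z0) + emb (resX (Set.Iio h) z0) from by
      rw [← emb_add, ← hsplit]]
    abel
  rw [h2]
  calc ‖(x - emb z0) + emb (resX (Set.Iio h) z0)‖ ≤ ‖x - emb z0‖ + ‖emb (resX (Set.Iio h) z0)‖ :=
        norm_add_le _ _
    _ < δ + 2 * h * δ := by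
        rw [norm_emb]
        linarith
    _ = ε := by rw [hδ]; field_simp
/-- norming functionals -/
theorem exists_normingX (h : ℕ) (x : XB 𝕜) (hx : ∀ l < h, coordX l x = 0) {c : ℝ} (hc : c < ‖x‖) :
    ∃ u, C u ∧ nrm u ≤ 1 ∧ (∀ p ∈ u.support, h ≤ p.1) ∧ c < ‖PhiX u x‖ := by
  set ε : ℝ := (‖x‖ - c) / 2 with hε
  have hε0 : 0 < ε := by rw [hε]; linarith
  obtain ⟨z, hz, hzx⟩ := exists_approx h x hx hε0
  have h1 : ‖x‖ - ε < nor z := by
    rw [← norm_emb]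
    have := norm_sub_norm_le x (emb z)
    linarith
  obtain ⟨u, hu, hun, hus, hul⟩ := exists_norming (J := Set.Ici h) Set.ordConnected_Ici hz h1
  refine ⟨u, hu, hun, hus, ?_⟩
  have h2 : ‖PhiX u (x - emb z)‖ ≤ ‖x - emb z‖ := by
    refine (PhiX_le hu _).trans ?_
    exact mul_le_of_le_one_left (norm_nonneg _) hun
  rw [map_sub, PhiX_emb] at h2
  have h3 : ‖Phi u z‖ ≤ ‖PhiX u x‖ + ‖PhiX u x - Phi u z‖ := by
    have := norm_sub_norm_le (Phi u z) (PhiX u x)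
    rw [norm_sub_rev] at this
    linarith
  linarith
/-- finite-dimensional subspaces are proper: linear independence of the `emb (single l 1)` (coordinates) -/
theorem not_finiteDimensional_XB : ¬ FiniteDimensional 𝕜 (XB 𝕜) := by
  intro hfd
  have hinj : Function.Injective (SP_emb : X0 𝕜 →ₗ[𝕜] XB 𝕜) := by
    intro x y hxy
    ext l
    have h1 : emb x = emb y := hxy
    rw [← coordX_emb, h1, coordX_emb]
  have hfin : Module.Finite 𝕜 (X0 𝕜) := Module.Finite.of_injective _ hinj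
  rcases Module.finite_finsupp_self_iff.1 hfin with h | h
  · exact not_subsingleton 𝕜 h
  · exact not_finite ℕ

end H94.WH

end S_SP

section S_WH2

/-!
# MODULE WH2: the merge bound
For rational `t`: `w = ∑ t_i • u_i` is such that `pre 0 w ∈ C` (constructor `merge` with `t_i • u_i`), so `‖PhiX w x‖ = 4 ‖PhiX (pre 0 w) x‖ ≤ 4 nrm w ‖x‖` (`m_zero`), and `nrm w = √(∑_{a ∈ S} (w a)^2)` for every finset `S` containing the supports.
For real `t`: both sides are continuous in `t` and the rational points are dense (`Rat.denseRange_cast`, `DenseRange.piMap`, or a sequence of rational points).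
For `t : Fin N → 𝕜` split `t = re t + I im t`: `≤ 4 (‖∑ re t_i u_i‖ + ‖∑ im t_i u_i‖) ‖x‖ ≤ 8 ‖∑ t_i u_i‖ ‖x‖`.
-/

set_option autoImplicit false

namespace H94.WH

open Finset

variable {𝕜 : Type} [RCLike 𝕜]

theorem WH2_rat {b N : ℕ} (hN : N ≤ g b) (u : Fin N → V) (hu : ∀ i, C (u i))
    (hb : ∀ i, ∀ p ∈ (u i).support, b ≤ p.1) (S : Finset Atom) (hS : ∀ i, (u i).support ⊆ S)
    (t : Fin N → ℚ) (x : XB 𝕜) :
    ‖∑ i, (((t i : ℝ)) : 𝕜) * PhiX (u i) x‖ ≤
      4 * Real.sqrt (∑ a ∈ S, (∑ i, (t i : ℝ) * (((u i) a : ℚ) : ℝ)) ^ 2) * ‖x‖ := by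
  set w : V := ∑ i, t i • u i with hw
  have hC : C (pre 0 w) := by
    refine C.merge b N hN (fun i => t i • u i) (fun i => C.smul (t i) (hu i)) ?_
    intro i p hp
    exact hb i p (Finsupp.support_smul hp)
  have h1 := PhiX_le hC x
  rw [nrm_pre, PhiX_pre] at h1
  have hm : (m 0 : ℝ) = 4 := by norm_num [m]
  rw [hm, norm_mul, RCLike.norm_ofReal] at h1
  have h2 : PhiX w x = ∑ i, (((t i : ℝ)) : 𝕜) * PhiX (u i) x := by
    rw [hw, PhiX_sum]
    exact Finset.sum_congr rfl (fun i _ => PhiX_smul _ _ _)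
  have hwS : w.support ⊆ S := by
    rw [hw]
    refine (Finsupp.support_finsetSum).trans ?_
    intro p hp
    obtain ⟨i, _, hi⟩ := Finset.mem_biUnion.1 hp
    exact hS i (Finsupp.support_smul hi)
  have h3 : nrm w = Real.sqrt (∑ a ∈ S, (∑ i, (t i : ℝ) * (((u i) a : ℚ) : ℝ)) ^ 2) := by
    rw [← Real.sqrt_sq (nrm_nonneg w), nrm_sq_of_subset w S hwS]
    congr 1
    refine Finset.sum_congr rfl (fun a _ => ?_)
    congr 1
    rw [hw, Finsupp.finsetSum_apply]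
    push_cast
    refine Finset.sum_congr rfl (fun i _ => ?_)
    rw [Pi.smul_apply, smul_eq_mul]
    push_cast
    ring
  rw [← h2, ← h3]
  have h4 : |((4 : ℝ))⁻¹| = 1 / 4 := by norm_num
  rw [h4] at h1
  linarith

theorem WH2_real {b N : ℕ} (hN : N ≤ g b) (u : Fin N → V) (hu : ∀ i, C (u i))
    (hb : ∀ i, ∀ p ∈ (u i).support, b ≤ p.1) (S : Finset Atom) (hS : ∀ i, (u i).support ⊆ S)
    (t : Fin N → ℝ) (x : XB 𝕜) :
    ‖∑ i, ((t i : ℝ) : 𝕜) * PhiX (u i) x‖ ≤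
      4 * Real.sqrt (∑ a ∈ S, (∑ i, (t i) * (((u i) a : ℚ) : ℝ)) ^ 2) * ‖x‖ := by
  have hd : DenseRange (Pi.map (fun (_ : Fin N) (q : ℚ) => (q : ℝ))) :=
    DenseRange.piMap (fun _ => Rat.denseRange_cast)
  refine hd.induction_on (p := fun t : Fin N → ℝ => ‖∑ i, ((t i : ℝ) : 𝕜) * PhiX (u i) x‖ ≤
      4 * Real.sqrt (∑ a ∈ S, (∑ i, (t i) * (((u i) a : ℚ) : ℝ)) ^ 2) * ‖x‖) t ?_ ?_
  · refine isClosed_le ?_ ?_
    · refine Continuous.norm ?_
      refine continuous_finsetSum _ (fun i _ => ?_)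
      exact (RCLike.continuous_ofReal.comp (continuous_apply i)).mul continuous_const
    · refine Continuous.mul ?_ continuous_const
      refine Continuous.mul continuous_const ?_
      refine Real.continuous_sqrt.comp ?_
      refine continuous_finsetSum _ (fun a _ => ?_)
      refine Continuous.pow ?_ 2
      refine continuous_finsetSum _ (fun i _ => ?_)
      exact (continuous_apply i).mul continuous_const
  · intro q
    exact WH2_rat hN u hu hb S hS q x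

theorem merge_bound {b N : ℕ} (hN : N ≤ g b) (u : Fin N → V) (hu : ∀ i, C (u i))
    (hb : ∀ i, ∀ p ∈ (u i).support, b ≤ p.1) (S : Finset Atom) (hS : ∀ i, (u i).support ⊆ S)
    (t : Fin N → 𝕜) (x : XB 𝕜) :
    ‖∑ i, t i * PhiX (u i) x‖ ≤ 8 * Real.sqrt (∑ a ∈ S, ‖∑ i, t i * ((((u i) a : ℚ) : ℝ) : 𝕜)‖ ^ 2) * ‖x‖ := by
  have h1 := WH2_real hN u hu hb S hS (fun i => RCLike.re (t i)) x
  have h2 := WH2_real hN u hu hb S hS (fun i => RCLike.im (t i)) x
  have e1 : ∑ a ∈ S, (∑ i, RCLike.re (t i) * (((u i) a : ℚ) : ℝ)) ^ 2 ≤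
      ∑ a ∈ S, ‖∑ i, t i * ((((u i) a : ℚ) : ℝ) : 𝕜)‖ ^ 2 := by
    refine Finset.sum_le_sum (fun a _ => ?_)
    have : ∑ i, RCLike.re (t i) * (((u i) a : ℚ) : ℝ) = RCLike.re (∑ i, t i * ((((u i) a : ℚ) : ℝ) : 𝕜)) := by
      rw [map_sum]
      exact Finset.sum_congr rfl (fun i _ => (RCLike.re_mul_ofReal _ _).symm)
    rw [this, ← sq_abs]
    exact pow_le_pow_left₀ (abs_nonneg _) (RCLike.abs_re_le_norm _) 2
  have e2 : ∑ a ∈ S, (∑ i, RCLike.im (t i) * (((u i) a : ℚ) : ℝ)) ^ 2 ≤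
      ∑ a ∈ S, ‖∑ i, t i * ((((u i) a : ℚ) : ℝ) : 𝕜)‖ ^ 2 := by
    refine Finset.sum_le_sum (fun a _ => ?_)
    have : ∑ i, RCLike.im (t i) * (((u i) a : ℚ) : ℝ) = RCLike.im (∑ i, t i * ((((u i) a : ℚ) : ℝ) : 𝕜)) := by
      rw [map_sum]
      exact Finset.sum_congr rfl (fun i _ => (RCLike.im_mul_ofReal _ _).symm)
    rw [this, ← sq_abs]
    exact pow_le_pow_left₀ (abs_nonneg _) (RCLike.abs_im_le_norm _) 2
  have e3 : ∑ i, t i * PhiX (u i) x = ∑ i, ((RCLike.re (t i) : ℝ) : 𝕜) * PhiX (u i) x +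
      (∑ i, ((RCLike.im (t i) : ℝ) : 𝕜) * PhiX (u i) x) * (RCLike.I : 𝕜) := by
    rw [Finset.sum_mul, ← Finset.sum_add_distrib]
    refine Finset.sum_congr rfl (fun i _ => ?_)
    conv_lhs => rw [← RCLike.re_add_im (t i)]
    ring
  have hI : ‖(RCLike.I : 𝕜)‖ ≤ 1 := by
    by_cases h0 : (RCLike.I : 𝕜) = 0
    · rw [h0]; simp
    · exact (RCLike.norm_I_of_ne_zero h0).le
  have s1 := Real.sqrt_le_sqrt e1
  have s2 := Real.sqrt_le_sqrt e2
  have hx := norm_nonneg x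
  rw [e3]
  refine (norm_add_le _ _).trans ?_
  rw [norm_mul]
  have h3 : ‖∑ i, ((RCLike.im (t i) : ℝ) : 𝕜) * PhiX (u i) x‖ * ‖(RCLike.I : 𝕜)‖ ≤
      ‖∑ i, ((RCLike.im (t i) : ℝ) : 𝕜) * PhiX (u i) x‖ := mul_le_of_le_one_right (norm_nonneg _) hI
  have k1 := mul_le_mul_of_nonneg_right (mul_le_mul_of_nonneg_left s1 (by norm_num : (0:ℝ) ≤ 4)) hx
  have k2 := mul_le_mul_of_nonneg_right (mul_le_mul_of_nonneg_left s2 (by norm_num : (0:ℝ) ≤ 4)) hx
  linarith

end H94.WH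

end S_WH2

section S_WHP

/-!
# MODULE WHP: the completion is a weak Hilbert space (section 4), `δ = 1/2`, `C = 32`

Let `E` be finite-dimensional, `n = finrank E`, `h = n / 2`, `F = E ⊓ ⋂_{l<h} ker (coordX l)`: `finrank F ≥ n - h` (rank-nullity for the map `E → (Fin h → 𝕜)`), so `n/2 ≤ finrank F ≤ n ≤ 2h+1`.
`exists_net` for `F`: `s.card ≤ 25^(finrank F) ≤ 25^(2h+1) = g h`. For every net point `x_i` choose (`exists_normingX` with `c = 3/4 < 1 = ‖x_i‖`) `u_i ∈ C`, `nrm u_i ≤ 1`, positions `≥ h`, `‖PhiX u_i x_i‖ ≥ 3/4`.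
`S` = union of the supports (type `↥S`), `û_i a = u_i a`, `θ x a = wt a.2 * coordX a.1 x`; `inner (û_i) (θ x) = PhiX u_i x` (`PhiX_eq_sum`; `inner (∑ t_i û_i) (θ x) = ∑ conj t_i * PhiX u_i x`, the `u_i` are real);
`hb` = `merge_bound` with `conj t`; `hl`: `‖PhiX u_i x‖ ≥ 3/4 - ‖x - x_i‖ ≥ 1/4` (`PhiX_le`).
-/

set_option autoImplicit false

namespace H94.WH

open Finset Module

theorem WHP_sub (𝕜 : Type) [RCLike 𝕜] (E : Submodule 𝕜 (XB 𝕜)) [FiniteDimensional 𝕜 E] (h : ℕ) :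
    ∃ F : Submodule 𝕜 (XB 𝕜), F ≤ E ∧ finrank 𝕜 E ≤ finrank 𝕜 F + h ∧
      (∀ x ∈ F, ∀ l < h, coordX l x = 0) := by
  let φ : E →ₗ[𝕜] (Fin h → 𝕜) := LinearMap.pi (fun l =>
    ((coordX (𝕜 := 𝕜) l : XB 𝕜 →L[𝕜] 𝕜) : XB 𝕜 →ₗ[𝕜] 𝕜).comp E.subtype)
  refine ⟨(LinearMap.ker φ).map E.subtype, ?_, ?_, ?_⟩
  · exact Submodule.map_subtype_le _ _
  · have h1 := LinearMap.finrank_range_add_finrank_ker φ
    have h2 : finrank 𝕜 (LinearMap.range φ) ≤ h := by
      have := Submodule.finrank_le (LinearMap.range φ)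
      simpa using this
    have h3 : finrank 𝕜 ((LinearMap.ker φ).map E.subtype) = finrank 𝕜 (LinearMap.ker φ) :=
      Submodule.finrank_map_subtype_eq _ _
    omega
  · rintro x ⟨y, hy, rfl⟩ l hl
    exact congrFun (LinearMap.mem_ker.1 hy) ⟨l, hl⟩

theorem WHP_main (𝕜 : Type) [RCLike 𝕜] (F : Submodule 𝕜 (XB 𝕜)) [FiniteDimensional 𝕜 F] (h : ℕ)
    (hF : finrank 𝕜 F ≤ 2 * h + 1) (hco : ∀ x ∈ F, ∀ l < h, coordX l x = 0) :
    (∃ T : F ≃L[𝕜] EuclideanSpace 𝕜 (Fin (finrank 𝕜 F)),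
      ‖(T : F →L[𝕜] EuclideanSpace 𝕜 (Fin (finrank 𝕜 F)))‖ *
        ‖(T.symm : EuclideanSpace 𝕜 (Fin (finrank 𝕜 F)) →L[𝕜] F)‖ ≤ 32) ∧
    ∃ P : XB 𝕜 →L[𝕜] XB 𝕜, (∀ x, P x ∈ F) ∧ (∀ x ∈ F, P x = x) ∧ ‖P‖ ≤ 32 := by
  classical
  obtain ⟨s, hs1, hs2, hs3⟩ := exists_net 𝕜 (F := F)
  have hN : s.card ≤ g h := by
    calc s.card ≤ 25 ^ finrank 𝕜 F := hs1
      _ ≤ 25 ^ (2 * h + 1) := Nat.pow_le_pow_right (by norm_num) hF
      _ = g h := by
        unfold g
        rw [show 4 * h + 2 = 2 * (2 * h + 1) by ring, pow_mul]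
        norm_num
  let e := s.equivFin
  have hu : ∀ i : Fin s.card, ∃ u, C u ∧ nrm u ≤ 1 ∧ (∀ p ∈ u.support, h ≤ p.1) ∧
      (3 / 4 : ℝ) < ‖PhiX u (((e.symm i : s) : F) : XB 𝕜)‖ := by
    intro i
    apply exists_normingX h _ (hco _ ((e.symm i : s) : F).2)
    have h1 : ‖(((e.symm i : s) : F) : XB 𝕜)‖ = 1 := hs2 _ (e.symm i).2
    rw [h1]
    norm_num
  choose u hC hnr hpos hnorm using hu
  let S : Finset Atom := Finset.univ.biUnion (fun i => (u i).support)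
  have hS : ∀ i, (u i).support ⊆ S := fun i =>
    Finset.subset_biUnion_of_mem (fun i => (u i).support) (Finset.mem_univ i)
  let uh : Fin s.card → EuclideanSpace 𝕜 S := fun i =>
    WithLp.toLp 2 (fun a : S => (((u i (a : Atom) : ℚ) : ℝ) : 𝕜))
  let θ : XB 𝕜 →L[𝕜] EuclideanSpace 𝕜 S :=
    ((EuclideanSpace.equiv S 𝕜).symm : (S → 𝕜) →L[𝕜] EuclideanSpace 𝕜 S).comp
      (ContinuousLinearMap.pi (fun a : S => ((wt (a : Atom).2 : ℝ) : 𝕜) • coordX (a : Atom).1))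
  have hθ : ∀ x (a : S), θ x a = ((wt (a : Atom).2 : ℝ) : 𝕜) * coordX (a : Atom).1 x :=
    fun x a => rfl
  have huh : ∀ i (a : S), uh i a = (((u i (a : Atom) : ℚ) : ℝ) : 𝕜) := fun i a => rfl
  have hinner : ∀ (i : Fin s.card) (x : XB 𝕜), (inner 𝕜 (uh i) (θ x) : 𝕜) = PhiX (u i) x := by
    intro i x
    rw [PiLp.inner_apply, PhiX_eq_sum]
    have h1 : ∀ a : S, (inner 𝕜 (uh i a) (θ x a) : 𝕜)
        = ((((u i (a : Atom) : ℚ) : ℝ) * wt (a : Atom).2 : ℝ) : 𝕜) * coordX (a : Atom).1 x := by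
      intro a
      rw [hθ, huh, RCLike.inner_apply, RCLike.conj_ofReal]
      push_cast
      ring
    rw [Finset.sum_congr rfl (fun a _ => h1 a)]
    rw [Finset.sum_coe_sort S (fun a : Atom =>
      ((((u i a : ℚ) : ℝ) * wt a.2 : ℝ) : 𝕜) * coordX a.1 x)]
    symm
    apply Finset.sum_subset (hS i)
    intro a _ ha
    rw [Finsupp.notMem_support_iff.1 ha]
    simp
  refine hilbert_part F uh θ ?_ ?_
  · intro t x
    have h1 : (inner 𝕜 (∑ i, t i • uh i) (θ x) : 𝕜) = ∑ i, (starRingEnd 𝕜) (t i) * PhiX (u i) x := by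
      rw [sum_inner]
      refine Finset.sum_congr rfl fun i _ => ?_
      rw [inner_smul_left, hinner]
    rw [h1]
    refine (merge_bound hN u hC hpos S hS (fun i => (starRingEnd 𝕜) (t i)) x).trans ?_
    have h2 : Real.sqrt (∑ a ∈ S, ‖∑ i, (starRingEnd 𝕜) (t i) * ((((u i) a : ℚ) : ℝ) : 𝕜)‖ ^ 2)
        = ‖∑ i, t i • uh i‖ := by
      rw [EuclideanSpace.norm_eq]
      congr 1
      rw [← Finset.sum_coe_sort S (fun a : Atom =>
        ‖∑ i, (starRingEnd 𝕜) (t i) * ((((u i) a : ℚ) : ℝ) : 𝕜)‖ ^ 2)]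
      refine Finset.sum_congr rfl fun a _ => ?_
      congr 1
      have h3 : (∑ i, t i • uh i : EuclideanSpace 𝕜 S) a
          = ∑ i, t i * ((((u i) (a : Atom) : ℚ) : ℝ) : 𝕜) := by
        have h4 : (∑ i, t i • uh i : EuclideanSpace 𝕜 S) a = ∑ i, (t i • uh i : EuclideanSpace 𝕜 S) a := by
          simp
        rw [h4]
        rfl
      rw [h3, ← RCLike.norm_conj, map_sum]
      congr 1
      refine Finset.sum_congr rfl fun i _ => ?_
      rw [map_mul, RCLike.conj_conj, RCLike.conj_ofReal]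
    rw [h2]
  · intro x hx hx1
    obtain ⟨y, hy, hxy⟩ := hs3 ⟨x, hx⟩ (by simpa using hx1)
    refine ⟨e ⟨y, hy⟩, ?_, ?_⟩
    · have h5 : ‖uh (e ⟨y, hy⟩)‖ = nrm (u (e ⟨y, hy⟩)) := by
        rw [EuclideanSpace.norm_eq]
        unfold nrm
        congr 1
        have h6 : ∀ a : S, ‖uh (e ⟨y, hy⟩) a‖ ^ 2 = ((u (e ⟨y, hy⟩) (a : Atom) : ℚ) : ℝ) ^ 2 := by
          intro a
          rw [huh, RCLike.norm_ofReal, sq_abs]
        rw [Finset.sum_congr rfl (fun a _ => h6 a)]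
        rw [Finset.sum_coe_sort S (fun a : Atom => ((u (e ⟨y, hy⟩) a : ℚ) : ℝ) ^ 2)]
        symm
        apply Finset.sum_subset (hS _)
        intro a _ ha
        rw [Finsupp.notMem_support_iff.1 ha]
        simp
      rw [h5]
      exact hnr _
    · rw [hinner]
      have h7 := hnorm (e ⟨y, hy⟩)
      rw [Equiv.symm_apply_apply] at h7
      have h8 : ‖PhiX (u (e ⟨y, hy⟩)) (x - (y : XB 𝕜))‖ ≤ 1 / 2 := by
        refine (PhiX_le (hC _) _).trans ?_
        have h9 : ‖x - (y : XB 𝕜)‖ ≤ 1 / 2 := hxy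
        have h10 := hnr (e ⟨y, hy⟩)
        calc nrm (u (e ⟨y, hy⟩)) * ‖x - (y : XB 𝕜)‖ ≤ 1 * ‖x - (y : XB 𝕜)‖ :=
              mul_le_mul_of_nonneg_right h10 (norm_nonneg _)
          _ ≤ 1 / 2 := by rw [one_mul]; exact h9
      rw [map_sub] at h8
      have h11 := norm_sub_norm_le (PhiX (u (e ⟨y, hy⟩)) (y : XB 𝕜)) (PhiX (u (e ⟨y, hy⟩)) x)
      rw [norm_sub_rev] at h11
      linarith

theorem weakHilbert_XB (𝕜 : Type) [RCLike 𝕜] : IsWeakHilbert 𝕜 (XB 𝕜) := by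
  refine ⟨not_finiteDimensional_XB, 1 / 2, 32, by norm_num, by norm_num, by norm_num, ?_⟩
  intro E hE
  obtain ⟨F, hFE, hrk, hco⟩ := WHP_sub 𝕜 E (finrank 𝕜 E / 2)
  have : FiniteDimensional 𝕜 F := Submodule.finiteDimensional_of_le hFE
  have hFn : finrank 𝕜 F ≤ finrank 𝕜 E := Submodule.finrank_mono hFE
  refine ⟨F, hFE, ?_, ?_⟩
  · have h1 : finrank 𝕜 E ≤ 2 * finrank 𝕜 F := by omega
    have h2 : (finrank 𝕜 E : ℝ) ≤ 2 * (finrank 𝕜 F : ℝ) := by exact_mod_cast h1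
    linarith
  · exact WHP_main 𝕜 F (finrank 𝕜 E / 2) (by omega) hco

end H94.WH

end S_WHP

section S_HI1

/-!
# MODULE HI1: gliding hump (section 11)

`exists_far_near`: for an infinite-dimensional subspace `Y` of `XB` and `ε > 0` there is a far subspace `Z` of `c_00` such that every `z ∈ Z` has `y ∈ Y` with `‖y - z‖ ≤ ε ‖z‖` (WLOG `ε ≤ 1`):
choose successively `y_k ∈ Y`, `‖y_k‖ = 1`, `coordX l y_k = 0` for `l < h_k` (a finite-codimensional subspace of `Y` is nonzero), `z_k` finitely supported in `[h_k,∞)` with `‖y_k - z_k‖ < ε 2^{-k-3}` (`exists_approx`),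
`h_{k+1}` > `h_k` and > the support of `z_k`; `Z = span {z_k}`. For `z = ∑ t_k z_k`: `|t_k| ‖z_k‖ = ‖z|[h_k, h_{k+1})‖ ≤ ‖z‖` (`nor_resX_le`) and `‖z_k‖ ≥ 1/2`, so `‖∑ t_k (y_k - z_k)‖ ≤ ∑ 2 ‖z‖ ε 2^{-k-3} ≤ ε ‖z‖`.
-/

set_option autoImplicit false

namespace H94.WH

open Finset

variable {𝕜 : Type} [RCLike 𝕜]

theorem HI1_step (Y : Submodule 𝕜 (XB 𝕜)) (hY : ¬ FiniteDimensional 𝕜 Y) (h : ℕ) {η : ℝ}
    (hη : 0 < η) :
    ∃ y ∈ Y, ∃ z : X0 𝕜, ‖y‖ = 1 ∧ (∀ l ∈ z.support, h ≤ l) ∧ ‖y - emb z‖ < η := by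
  obtain ⟨y0, hy0, hne, hc⟩ : ∃ y ∈ Y, y ≠ 0 ∧ ∀ l < h, coordX l y = 0 := by
    by_contra hcon
    push Not at hcon
    apply hY
    let L : Y →ₗ[𝕜] (Fin h → 𝕜) :=
      LinearMap.pi fun l => (coordX (𝕜 := 𝕜) l.1).toLinearMap.comp Y.subtype
    refine Module.Finite.of_injective L ?_
    rw [← LinearMap.ker_eq_bot, eq_bot_iff]
    intro y hy
    rw [LinearMap.mem_ker] at hy
    by_contra hne
    have hne' : (y : XB 𝕜) ≠ 0 := fun h0 => hne (by
      rw [Submodule.mem_bot]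
      exact Subtype.ext h0)
    obtain ⟨l, hl, hl2⟩ := hcon y.1 y.2 hne'
    apply hl2
    have := congrFun hy ⟨l, hl⟩
    simpa [L] using this
  have hn : ‖y0‖ ≠ 0 := norm_ne_zero_iff.2 hne
  have hcv : ∀ l < h, coordX l ((((‖y0‖⁻¹ : ℝ)) : 𝕜) • y0) = 0 := by
    intro l hl
    rw [map_smul, hc l hl, smul_zero]
  obtain ⟨z, hz, hz2⟩ := exists_approx h _ hcv hη
  refine ⟨_, Y.smul_mem _ hy0, z, ?_, hz, hz2⟩
  rw [norm_smul, RCLike.norm_ofReal, abs_of_nonneg (by positivity), inv_mul_cancel₀ hn]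

theorem HI1_sum (n : Finset ℕ) : ∑ k ∈ n, (1 / 2 : ℝ) ^ (k + 3) ≤ 1 / 4 := by
  have h1 : Summable fun k : ℕ => (1 / 2 : ℝ) ^ (k + 3) := by
    simp_rw [pow_add]
    exact (summable_geometric_two).mul_right _
  refine (h1.sum_le_tsum n fun k _ => by positivity).trans ?_
  simp_rw [pow_add]
  rw [tsum_mul_right, tsum_geometric_two]
  norm_num

theorem exists_far_near (Y : Submodule 𝕜 (XB 𝕜)) (hY : ¬ FiniteDimensional 𝕜 Y) {ε : ℝ} (hε : 0 < ε) :
    ∃ Z : Submodule 𝕜 (X0 𝕜), Far Z ∧ ∀ z ∈ Z, ∃ y ∈ Y, ‖y - emb z‖ ≤ ε * nor z := by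
  set ε' := min ε 1 with hε'
  have hε'0 : 0 < ε' := lt_min hε one_pos
  have hε'1 : ε' ≤ 1 := min_le_right _ _
  have hε'2 : ε' ≤ ε := min_le_left _ _
  have hη : ∀ k : ℕ, 0 < ε' * (1 / 2 : ℝ) ^ (k + 3) := fun k => by positivity
  choose Yf hYf Zf hY1 hZs hYZ using fun (h k : ℕ) => HI1_step Y hY h (hη k)
  let hs : ℕ → ℕ := fun n => Nat.rec 0 (fun k h => max (h + 1) ((Zf h k).support.sup id + 1)) n
  have hs_succ : ∀ k, hs (k + 1) = max (hs k + 1) ((Zf (hs k) k).support.sup id + 1) := fun k => rfl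
  have hs_lt : ∀ k, hs k < hs (k + 1) := fun k => by
    rw [hs_succ]
    exact lt_of_lt_of_le (Nat.lt_succ_self _) (le_max_left _ _)
  have hs_mono : StrictMono hs := strictMono_nat_of_lt_succ hs_lt
  set y : ℕ → XB 𝕜 := fun k => Yf (hs k) k with hy
  set z : ℕ → X0 𝕜 := fun k => Zf (hs k) k with hz
  have hzlo : ∀ k, ∀ l ∈ (z k).support, hs k ≤ l := fun k l hl => hZs (hs k) k l hl
  have hzhi : ∀ k, ∀ l ∈ (z k).support, l < hs (k + 1) := by
    intro k l hl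
    rw [hs_succ]
    have h1 : l ≤ (Zf (hs k) k).support.sup id := Finset.le_sup (f := id) hl
    exact lt_of_lt_of_le (Nat.lt_succ_of_le h1) (le_max_right _ _)
  have hyz : ∀ k, ‖y k - emb (z k)‖ ≤ ε' * (1 / 2 : ℝ) ^ (k + 3) := fun k => (hYZ (hs k) k).le
  have hη2 : ∀ k : ℕ, ε' * (1 / 2 : ℝ) ^ (k + 3) ≤ 1 / 2 := by
    intro k
    have h1 : (1 / 2 : ℝ) ^ (k + 3) ≤ (1 / 2) ^ 1 :=
      pow_le_pow_of_le_one (by norm_num) (by norm_num) (by omega)
    calc ε' * (1 / 2 : ℝ) ^ (k + 3) ≤ 1 * (1 / 2) ^ 1 :=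
          mul_le_mul hε'1 h1 (by positivity) zero_le_one
      _ = 1 / 2 := by norm_num
  have hnz : ∀ k, 1 / 2 ≤ nor (z k) := by
    intro k
    have h1 : ‖y k‖ = 1 := hY1 (hs k) k
    have h2 : ‖y k‖ ≤ ‖y k - emb (z k)‖ + ‖emb (z k)‖ := by
      have := norm_add_le (y k - emb (z k)) (emb (z k))
      rwa [sub_add_cancel] at this
    rw [norm_emb] at h2
    have h3 := hyz k
    have h4 := hη2 k
    linarith
  refine ⟨Submodule.span 𝕜 (Set.range z), ?_, ?_⟩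
  · intro N
    refine ⟨z (N + 1), Submodule.subset_span ⟨N + 1, rfl⟩, ?_, ?_⟩
    · intro h0
      have h1 := hnz (N + 1)
      rw [h0, nor_zero] at h1
      norm_num at h1
    · intro l hl
      have h1 := hzlo (N + 1) l hl
      have h2 : N + 1 ≤ hs (N + 1) := hs_mono.le_apply
      omega
  · intro w hw
    obtain ⟨c, hc⟩ := Finsupp.mem_span_range_iff_exists_finsupp.1 hw
    have hcoef : ∀ i, ‖c i‖ ≤ 2 * nor w := by
      intro i
      have h1 : resX (Set.Ico (hs i) (hs (i + 1))) w = c i • z i := by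
        refine Finsupp.ext fun l => ?_
        obtain hl | hl := Classical.em (l ∈ Set.Ico (hs i) (hs (i + 1)))
        · rw [resX_apply_mem hl, ← hc, Finsupp.sum_apply, Finsupp.sum, Finset.sum_eq_single i]
          · intro j _ hji
            rw [Finsupp.smul_apply]
            have h2 : z j l = 0 := by
              by_contra hne
              have h3 := hzlo j l (Finsupp.mem_support_iff.2 hne)
              have h4 := hzhi j l (Finsupp.mem_support_iff.2 hne)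
              rcases lt_or_gt_of_ne hji with h | h
              · have := hs_mono.monotone (show j + 1 ≤ i from h)
                have := hl.1
                omega
              · have := hs_mono.monotone (show i + 1 ≤ j from h)
                have := hl.2
                omega
            rw [h2, smul_zero]
          · intro hi
            rw [Finsupp.notMem_support_iff.1 hi, zero_smul, Finsupp.zero_apply]
        · rw [resX_apply_not hl, Finsupp.smul_apply]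
          have h2 : z i l = 0 := by
            by_contra hne
            exact hl ⟨hzlo i l (Finsupp.mem_support_iff.2 hne),
              hzhi i l (Finsupp.mem_support_iff.2 hne)⟩
          rw [h2, smul_zero]
      have h2 := nor_resX_le (J := Set.Ico (hs i) (hs (i + 1))) Set.ordConnected_Ico w
      rw [h1, nor_smul] at h2
      have h3 := hnz i
      have h4 := norm_nonneg (c i)
      nlinarith
    refine ⟨c.sum fun i a => a • y i, ?_, ?_⟩
    · refine Submodule.sum_mem _ fun i _ => ?_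
      exact Y.smul_mem _ (hYf (hs i) i)
    · have h1 : (c.sum fun i a => a • y i) - emb w = ∑ i ∈ c.support, c i • (y i - emb (z i)) := by
        rw [← hc, Finsupp.sum, Finsupp.sum, emb_sum, ← Finset.sum_sub_distrib]
        refine Finset.sum_congr rfl fun i _ => ?_
        rw [emb_smul, smul_sub]
      rw [h1]
      have hw0 : 0 ≤ nor w := nor_nonneg w
      calc ‖∑ i ∈ c.support, c i • (y i - emb (z i))‖
          ≤ ∑ i ∈ c.support, ‖c i • (y i - emb (z i))‖ := norm_sum_le _ _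
        _ ≤ ∑ i ∈ c.support, (2 * nor w * ε') * (1 / 2 : ℝ) ^ (i + 3) := by
            refine Finset.sum_le_sum fun i _ => ?_
            rw [norm_smul]
            calc ‖c i‖ * ‖y i - emb (z i)‖ ≤ (2 * nor w) * (ε' * (1 / 2 : ℝ) ^ (i + 3)) :=
                  mul_le_mul (hcoef i) (hyz i) (norm_nonneg _) (by positivity)
              _ = (2 * nor w * ε') * (1 / 2 : ℝ) ^ (i + 3) := by ring
        _ = (2 * nor w * ε') * ∑ i ∈ c.support, (1 / 2 : ℝ) ^ (i + 3) := by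
            rw [Finset.mul_sum]
        _ ≤ (2 * nor w * ε') * (1 / 4) :=
            mul_le_mul_of_nonneg_left (HI1_sum _) (by positivity)
        _ ≤ ε * nor w := by nlinarith

end H94.WH

end S_HI1
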