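import Mathlib
import Pool.Agent.H94.WHM.M2
import Pool.Agent.H94.WHM.M3
import Pool.Agent.H94.WHM.M4

set_option autoImplicit false

/-! A hereditarily indecomposable weak Hilbert space, part M5: this file joins several modules. -/

section S_JA0

/-!
# MODULE JA0: admissible sums

`adm n v`: `v` is a sum of elements of the cone over the cells of a set of `K_n`.
`adm_sum` (concatenation): `v = ∑_{k<M} b_k • v_k`, `v_k` supported in `[lo k, hi k]`, `adm n v_k`, `{lo k} ∈ K_{n'}` ⟹ `adm (n'+n) v`: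
take `A_k ⊆ [lo k, hi k]` (replace `A_k` by the image under `max (lo k)` and drop the elements `> hi k`; the conditions are preserved), `A = ⋃ A_k` (`Kset.comp` over the set `{lo k}`: for `a = lo k` the set `A_k`; `lo` is injective on `k < M`);
for `a ∈ A_k`, `res (cell A a) v = b_k • res (cell A_k a) v_k` (the next element of `A` after `a` is in `A_k` or `> hi k`, and `v_{k+1}` vanishes before the first element of `A_{k+1}`), in `C` by `C.smul`.
`adm_even`: constructor `even` and `Kset.mono`.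
-/

set_option autoImplicit false

namespace H94.WH

open Finset

/-- sum of elements of the cone over the cells of a member of `K_n` -/
def adm (n : ℕ) (v : V) : Prop := ∃ A, Kset n A ∧ (∀ p ∈ v.support, ∃ a ∈ A, a ≤ p.1) ∧
  ∀ a ∈ A, C (res (cell A a) v)

private theorem JA0_lt {M : ℕ} {lo hi : ℕ → ℕ} (hI : Ivals M lo hi) {j k : ℕ} (hjk : j < k)
    (hk : k < M) : hi j < lo k := by
  obtain ⟨h1, h2⟩ := hI
  induction k, hjk using Nat.le_induction with
  | base => exact h2 j hk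
  | succ k hk' ih =>
    have h3 := ih (by omega)
    have h4 := h1 k (by omega)
    have h5 := h2 k hk
    omega

/-- normalised cells -/
private theorem JA0_norm {n l h : ℕ} {v : V} (hv : ∀ p ∈ v.support, l ≤ p.1 ∧ p.1 ≤ h)
    (ha : adm n v) : ∃ A, Kset n A ∧ (∀ a ∈ A, l ≤ a ∧ a ≤ h) ∧ (∀ p ∈ v.support, ∃ a ∈ A, a ≤ p.1) ∧
      ∀ a ∈ A, C (res (cell A a) v) := by
  obtain ⟨A', hK, hs, hC⟩ := ha
  refine ⟨(A'.image (fun a => max l a)).filter (· ≤ h), ?_, ?_, ?_, ?_⟩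
  · exact (Kset.image hK _ fun a _ => le_max_right _ _).sub (Finset.filter_subset _ _)
  · intro a ha
    obtain ⟨h1, h2⟩ := Finset.mem_filter.1 ha
    obtain ⟨a', _, rfl⟩ := Finset.mem_image.1 h1
    exact ⟨le_max_left _ _, h2⟩
  · intro p hp
    obtain ⟨a', ha', hle⟩ := hs p hp
    obtain ⟨h1, h2⟩ := hv p hp
    have h3 : max l a' ≤ p.1 := max_le h1 hle
    exact ⟨max l a', Finset.mem_filter.2 ⟨Finset.mem_image_of_mem _ ha', h3.trans h2⟩, h3⟩
  · intro a ha
    obtain ⟨h1, h2⟩ := Finset.mem_filter.1 ha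
    obtain ⟨a', ha', ha2⟩ := Finset.mem_image.1 h1
    have hla : l ≤ a := by rw [← ha2]; exact le_max_left _ _
    have haa : a' ≤ a := by rw [← ha2]; exact le_max_right _ _
    have hne : (A'.filter (· ≤ a)).Nonempty := ⟨a', Finset.mem_filter.2 ⟨ha', haa⟩⟩
    obtain ⟨as, has, hmax⟩ := Finset.exists_max_image (A'.filter (· ≤ a)) id hne
    obtain ⟨has1, has2⟩ := Finset.mem_filter.1 has
    have hmax' : ∀ x ∈ A', as < x → a < x := by
      intro x hx hlt
      by_contra hcon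
      push Not at hcon
      have := hmax x (Finset.mem_filter.2 ⟨hx, hcon⟩)
      simp only [id] at this
      omega
    have hcase : a = as ∨ a = l := by
      rcases le_total l a' with h3 | h3
      · left
        rw [max_eq_right h3] at ha2
        have := hmax a' (Finset.mem_filter.2 ⟨ha', haa⟩)
        simp only [id] at this
        omega
      · right
        rw [max_eq_left h3] at ha2
        exact ha2.symm
    have hres : res (cell ((A'.image (fun a => max l a)).filter (· ≤ h)) a) v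
        = res (cell A' as) v := by
      apply res_congr
      intro p hp
      obtain ⟨h3, h4⟩ := hv p hp
      constructor
      · rintro ⟨h5, h6⟩
        refine ⟨by omega, fun x hx hlt => ?_⟩
        have h7 := hmax' x hx hlt
        rcases le_or_gt x h with h8 | h8
        · apply h6 x _ h7
          refine Finset.mem_filter.2 ⟨Finset.mem_image.2 ⟨x, hx, ?_⟩, h8⟩
          exact max_eq_right (by omega)
        · omega
      · rintro ⟨h5, h6⟩
        refine ⟨?_, fun x hx hlt => ?_⟩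
        · rcases hcase with h7 | h7 <;> omega
        · obtain ⟨h7, _⟩ := Finset.mem_filter.1 hx
          obtain ⟨y, hy, hyx⟩ := Finset.mem_image.1 h7
          have hxy : x = y := by
            rcases le_total l y with h8 | h8
            · rw [max_eq_right h8] at hyx; exact hyx.symm
            · rw [max_eq_left h8] at hyx; omega
          subst hxy
          exact h6 x hy (by omega)
    rw [hres]
    exact hC as has1

theorem adm_sum {n n' M : ℕ} {lo hi : ℕ → ℕ} (hI : Ivals M lo hi) (v : ℕ → V) (b : ℕ → ℚ)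
    (hv : ∀ k < M, ∀ p ∈ (v k).support, lo k ≤ p.1 ∧ p.1 ≤ hi k) (ha : ∀ k < M, adm n (v k))
    (hK : Kset n' ((Finset.range M).image lo)) : adm (n' + n) (∑ k ∈ Finset.range M, b k • v k) := by
  have hex : ∀ k, ∃ A, k < M → Kset n A ∧ (∀ a ∈ A, lo k ≤ a ∧ a ≤ hi k) ∧
      (∀ p ∈ (v k).support, ∃ a ∈ A, a ≤ p.1) ∧ ∀ a ∈ A, C (res (cell A a) (v k)) := by
    intro k
    by_cases hk : k < M
    · obtain ⟨A, hA⟩ := JA0_norm (hv k hk) (ha k hk)
      exact ⟨A, fun _ => hA⟩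
    · exact ⟨∅, fun h => absurd h hk⟩
  choose A hA using hex
  have hinj : Set.InjOn lo (Set.Iio M) := by
    intro j hj k hk hjk
    by_contra hne
    rcases lt_or_gt_of_ne hne with h | h
    · have h1 := JA0_lt hI h hk
      have h2 := hI.1 j hj
      omega
    · have h1 := JA0_lt hI h hj
      have h2 := hI.1 k hk
      omega
  have hinv : ∀ k < M, Function.invFunOn lo (Set.Iio M) (lo k) = k := fun k hk =>
    hinj.leftInvOn_invFunOn hk
  have hU : ((Finset.range M).image lo).biUnion (fun a => A (Function.invFunOn lo (Set.Iio M) a))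
      = (Finset.range M).biUnion A := by
    rw [Finset.image_biUnion]
    refine Finset.biUnion_congr rfl fun k hk => ?_
    rw [hinv k (Finset.mem_range.1 hk)]
  set AA := (Finset.range M).biUnion A with hAA
  have hmem : ∀ {a : ℕ}, a ∈ AA ↔ ∃ k < M, a ∈ A k := by
    intro a
    rw [hAA, Finset.mem_biUnion]
    simp only [Finset.mem_range]
  refine ⟨AA, ?_, ?_, ?_⟩
  · rw [← hU]
    refine Kset.comp hK _ ?_ ?_
    · intro a ha
      obtain ⟨k, hk, rfl⟩ := Finset.mem_image.1 ha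
      rw [hinv k (Finset.mem_range.1 hk)]
      exact (hA k (Finset.mem_range.1 hk)).1
    · intro a ha x hx
      obtain ⟨k, hk, rfl⟩ := Finset.mem_image.1 ha
      rw [hinv k (Finset.mem_range.1 hk)] at hx
      exact ((hA k (Finset.mem_range.1 hk)).2.1 x hx).1
  · intro p hp
    by_contra hcon
    push Not at hcon
    rw [Finsupp.mem_support_iff, Finsupp.finsetSum_apply] at hp
    apply hp
    refine Finset.sum_eq_zero fun k hk => ?_
    by_contra h0
    have hk' := Finset.mem_range.1 hk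
    have hps : p ∈ (v k).support := by
      rw [Finsupp.mem_support_iff]
      intro h1
      apply h0
      rw [Finsupp.smul_apply, h1, smul_zero]
    obtain ⟨a, ha, hle⟩ := (hA k hk').2.2.1 p hps
    have := hcon a (hmem.2 ⟨k, hk', ha⟩)
    omega
  · intro a haA
    obtain ⟨k, hk, hak⟩ := hmem.1 haA
    obtain ⟨hk1, hk2, hk3, hk4⟩ := hA k hk
    obtain ⟨hlo, hhi⟩ := hk2 a hak
    have hzero : ∀ j ∈ Finset.range M, j ≠ k → res (cell AA a) (b j • v j) = 0 := by
      intro j hj hne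
      have hj' := Finset.mem_range.1 hj
      rw [res_smul]
      have : res (cell AA a) (v j) = 0 := by
        apply res_eq_zero
        intro p hp hcell
        obtain ⟨h1, h2⟩ := hv j hj' p hp
        rcases lt_or_gt_of_ne hne with h | h
        · have h3 := JA0_lt hI h hk
          have h4 := hcell.1
          omega
        · have h3 := JA0_lt hI h hj'
          obtain ⟨c, hc, hle⟩ := (hA j hj').2.2.1 p hp
          have h4 := ((hA j hj').2.1 c hc).1
          have h5 := hcell.2 c (hmem.2 ⟨j, hj', hc⟩) (by omega)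
          omega
      rw [this, smul_zero]
    rw [res_sum, Finset.sum_eq_single_of_mem k (Finset.mem_range.2 hk) hzero, res_smul]
    apply C.smul
    have hcongr : res (cell AA a) (v k) = res (cell (A k) a) (v k) := by
      apply res_congr
      intro p hp
      obtain ⟨h1, h2⟩ := hv k hk p hp
      constructor
      · rintro ⟨h3, h4⟩
        exact ⟨h3, fun x hx hlt => h4 x (hmem.2 ⟨k, hk, hx⟩) hlt⟩
      · rintro ⟨h3, h4⟩
        refine ⟨h3, fun x hx hlt => ?_⟩
        obtain ⟨j, hj, hxj⟩ := hmem.1 hx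
        obtain ⟨h5, h6⟩ := (hA j hj).2.1 x hxj
        rcases lt_trichotomy j k with h | h | h
        · have := JA0_lt hI h hk
          omega
        · subst h
          exact h4 x hxj hlt
        · have := JA0_lt hI h hj
          omega
    rw [hcongr]
    exact hk4 a hak

theorem adm_even {n j : ℕ} (hj : 1 ≤ j) (hj2 : Even j) (hn : n ≤ nn j) {v : V} (h : adm n v) :
    C (pre j v) := by
  obtain ⟨A, hA, hs, hC⟩ := h
  exact C.even j hj hj2 v A (hA.mono hn) hs hC

theorem adm_of_C {v : V} (h : C v) : adm 0 v := by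
  refine ⟨{0}, Kset.single 0 0, fun p _ => ⟨0, Finset.mem_singleton_self 0, Nat.zero_le _⟩, ?_⟩
  intro a ha
  rw [Finset.mem_singleton] at ha
  subst ha
  have : res (cell {0} 0) v = v := by
    apply res_eq_self
    intro p _
    refine ⟨Nat.zero_le _, fun x hx hlt => ?_⟩
    rw [Finset.mem_singleton] at hx
    omega
  rw [this]
  exact h

end H94.WH

end S_JA0

section S_JA

/-!
# MODULE JA: James' argument (Lemma J, section 8)

`P t`: `∀ N, ∃ z ∈ Z, ∃ lo hi v, ∃ ρ : ℝ, N < lo, lo ≤ hi, supports of z and v in [lo,hi], nor z = 1, nrm v ≤ 1, adm ((n+1)*t) v, Phi v z = (ρ : 𝕜), 2^t/2 ≤ ρ`.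
`P 0`: normalise a far vector, `exists_norming` (c = 1/2), multiply `z` by a scalar of absolute value 1 so that `Phi v z` is a positive real number (`Z` is a `𝕜`-subspace), `adm_of_C`.
`P t → P (t+1)`, assuming that every average as in the statement has `nor < 1/2`: apply `averages` with items `T = X0 × V × ℕ × ℕ` and
`R h c (z,v,lo,hi)`: the `P t`-properties, and `(g 0)^D ≤ g lo` if `h = []`, `(g (hi' + 1))^D ≤ g lo` if the last item of `h` has upper end `hi'`
(the condition is monotone in `lo` and `g` is unbounded, so `hR` holds; items with `hi < lo` should be excluded by replacing `hi` by `max lo hi`). Then `y = ∑ b_k z_k`, `v = ∑ b_k v_k`, `nrm v ^2 = ∑ b_k^2 nrm v_k^2 ≤ 1`,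
`Phi v y = ∑ b_k^2 Phi v_k z_k ≥ 2^t/2`, `0 < nor y < 1/2`, `z = (nor y)⁻¹ • y ∈ Z`; `adm_sum` with `n' = n+1`: `(n+1) + (n+1) t = (n+1)(t+1)`.
End: `par4 n` gives `j` even with `(n+1)(2^(j+1)+2) ≤ nn j`; `t = 2^(j+1)+2`: `pre j v ∈ C` (`adm_even`), `1 = nor z ≥ ‖Phi (pre j v) z| ≥ 2^t/2/m_j = 2`. Contradiction.
-/

set_option autoImplicit false

namespace H94.WH

open Finset

variable {𝕜 : Type} [RCLike 𝕜]

theorem JA_lt {M : ℕ} {lo hi : ℕ → ℕ} (hI : Ivals M lo hi) {i j : ℕ} (hij : i < j) (hj : j < M) :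
    hi i < lo j := by
  induction j with
  | zero => omega
  | succ j ih =>
    rcases Nat.lt_succ_iff_lt_or_eq.1 hij with h | h
    · have h1 := ih h (by omega)
      have h2 := hI.1 j (by omega)
      have h3 := hI.2 j hj
      omega
    · subst h
      exact hI.2 i hj

/-- the items of the induction -/
def JA_P (Z : Submodule 𝕜 (X0 𝕜)) (n t : ℕ) (z : X0 𝕜) (v : V) (lo hi : ℕ) : Prop :=
  z ∈ Z ∧ lo ≤ hi ∧ (∀ l ∈ z.support, lo ≤ l ∧ l ≤ hi) ∧ (∀ p ∈ v.support, lo ≤ p.1 ∧ p.1 ≤ hi) ∧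
    nor z = 1 ∧ nrm v ≤ 1 ∧ adm ((n + 1) * t) v ∧ ∃ ρ : ℝ, Phi v z = (ρ : 𝕜) ∧ 2 ^ t / 2 ≤ ρ

theorem JA_support_smul (c : 𝕜) (z : X0 𝕜) {l : ℕ} (h : l ∈ (c • z).support) : l ∈ z.support := by
  rw [Finsupp.mem_support_iff, Finsupp.smul_apply] at h
  rw [Finsupp.mem_support_iff]
  intro h0
  rw [h0, smul_zero] at h
  exact h rfl

theorem JA_real_smul (c : ℝ) (z : X0 𝕜) : c • z = (c : 𝕜) • z := by
  ext l
  simp [RCLike.real_smul_eq_coe_mul]

theorem JA_zero {Z : Submodule 𝕜 (X0 𝕜)} (hZ : Far Z) (n N : ℕ) :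
    ∃ (z : X0 𝕜) (v : V) (lo hi : ℕ), JA_P Z n 0 z v lo hi ∧ N < lo := by
  obtain ⟨z0, hz0, hne, hsupp⟩ := hZ N
  have hpos : 0 < nor z0 := lt_of_le_of_ne (nor_nonneg z0) fun h => hne (eq_zero_of_nor h.symm)
  set hi := max (N + 1) (z0.support.sup id) with hhi
  have hz0b : ∀ l ∈ z0.support, N + 1 ≤ l ∧ l ≤ hi := fun l hl =>
    ⟨hsupp l hl, (Finset.le_sup (f := id) hl).trans (le_max_right _ _)⟩
  set z1 : X0 𝕜 := (((nor z0)⁻¹ : ℝ) : 𝕜) • z0 with hz1
  have hz1n : nor z1 = 1 := by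
    rw [hz1, nor_smul, RCLike.norm_ofReal, abs_of_pos (inv_pos.2 hpos), inv_mul_cancel₀ hpos.ne']
  have hz1b : ∀ l ∈ z1.support, N + 1 ≤ l ∧ l ≤ hi := fun l hl => hz0b l (JA_support_smul _ _ hl)
  obtain ⟨u, hu, hu1, hub, hu2⟩ := exists_norming (x := z1) (J := Set.Icc (N + 1) hi)
    Set.ordConnected_Icc (fun l hl => hz1b l hl) (c := 1 / 2) (by rw [hz1n]; norm_num)
  set w : 𝕜 := Phi u z1 with hw
  have hw0 : w ≠ 0 := by
    intro h
    rw [h, norm_zero] at hu2
    norm_num at hu2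
  have hwn : (‖w‖ : 𝕜) ≠ 0 := by
    rw [Ne, RCLike.ofReal_eq_zero, norm_eq_zero]
    exact hw0
  refine ⟨((‖w‖ : 𝕜) / w) • z1, u, N + 1, hi, ⟨?_, le_max_left _ _, ?_, ?_, ?_, hu1, ?_, ‖w‖, ?_, ?_⟩,
    Nat.lt_succ_self N⟩
  · exact Z.smul_mem _ (Z.smul_mem _ hz0)
  · exact fun l hl => hz1b l (JA_support_smul _ _ hl)
  · exact fun p hp => hub p hp
  · rw [nor_smul, hz1n, mul_one, norm_div, RCLike.norm_ofReal, abs_norm, div_self (norm_ne_zero_iff.2 hw0)]
  · rw [mul_zero]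
    exact adm_of_C hu
  · rw [Phi_smul_right, ← hw, div_mul_cancel₀ _ hw0]
  · rw [pow_zero]
    exact hu2.le

theorem JA_step {Z : Submodule 𝕜 (X0 𝕜)} (n D N0 : ℕ) {δ : ℝ} (hδ : 0 < δ)
    (hno : ¬ ∃ (M : ℕ) (z : ℕ → X0 𝕜) (lo hi : ℕ → ℕ) (b : ℕ → ℚ), 0 < M ∧ Ivals M lo hi ∧ N0 < lo 0 ∧
      (g 0) ^ D ≤ g (lo 0) ∧ (∀ k, k + 1 < M → (g (hi k + 1)) ^ D ≤ g (lo (k + 1))) ∧
      (∀ k < M, z k ∈ Z ∧ nor (z k) = 1 ∧ ∀ l ∈ (z k).support, lo k ≤ l ∧ l ≤ hi k) ∧
      (∀ k < M, 0 < b k) ∧ ∑ k ∈ Finset.range M, (b k) ^ 2 = 1 ∧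
      (∀ B ⊆ Finset.range M, Kset n (B.image hi) → ∑ k ∈ B, (b k : ℝ) ^ 2 ≤ δ) ∧
      1 / 2 ≤ nor (∑ k ∈ Finset.range M, (b k : ℝ) • z k)) (t : ℕ)
    (ih : ∀ N, ∃ (z : X0 𝕜) (v : V) (lo hi : ℕ), JA_P Z n t z v lo hi ∧ N < lo) (N : ℕ) :
    ∃ (z : X0 𝕜) (v : V) (lo hi : ℕ), JA_P Z n (t + 1) z v lo hi ∧ N < lo := by
  have : Inhabited (X0 𝕜 × V × ℕ × ℕ) := ⟨(0, 0, 0, 0)⟩
  obtain ⟨M, x, c, hM, hc, hR, hN, hlt, hsum, hK1, hK2, hmass⟩ := averages
    (T := X0 𝕜 × V × ℕ × ℕ) (fun x => x.2.2.1) (fun x => max x.2.2.1 x.2.2.2)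
    (fun x => le_max_left _ _)
    (fun h _ x => JA_P Z n t x.1 x.2.1 x.2.2.1 x.2.2.2 ∧ (g 0) ^ D ≤ g x.2.2.1 ∧
      ∀ p ∈ h, (g (max p.1.2.2.1 p.1.2.2.2 + 1)) ^ D ≤ g x.2.2.1) (by
      intro h _ N' _
      obtain ⟨b, hb⟩ := exists_le_g ((g 0) ^ D +
        (h.map (fun p => (g (max p.1.2.2.1 p.1.2.2.2 + 1)) ^ D)).sum)
      obtain ⟨z, v, lo, hi, hP, hlo⟩ := ih (max N' b)
      have hblo : g b ≤ g lo := g_mono (by omega)
      refine ⟨(z, v, lo, hi), ⟨hP, ?_, fun p hp => ?_⟩, ?_⟩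
      · show (g 0) ^ D ≤ g lo
        omega
      rotate_left
      · show N' < lo
        omega
      have h1 : (g (max p.1.2.2.1 p.1.2.2.2 + 1)) ^ D ≤
          (h.map (fun p => (g (max p.1.2.2.1 p.1.2.2.2 + 1)) ^ D)).sum :=
        List.single_le_sum (fun _ _ => Nat.zero_le _) _ (List.mem_map.2 ⟨p, hp, rfl⟩)
      show (g (max p.1.2.2.1 p.1.2.2.2 + 1)) ^ D ≤ g lo
      omega) n δ hδ (max N N0)
  have hP : ∀ k < M, JA_P Z n t (x k).1 (x k).2.1 (x k).2.2.1 (x k).2.2.2 := fun k hk => (hR k hk).1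
  set z : ℕ → X0 𝕜 := fun k => (x k).1 with hz
  set v : ℕ → V := fun k => (x k).2.1 with hv
  set lo : ℕ → ℕ := fun k => (x k).2.2.1 with hlo
  set hi : ℕ → ℕ := fun k => max (x k).2.2.1 (x k).2.2.2 with hhi
  have hhi' : ∀ k < M, hi k = (x k).2.2.2 := fun k hk => max_eq_right (hP k hk).2.1
  have hI : Ivals M lo hi := ⟨fun k _ => le_max_left _ _, hlt⟩
  have hzb : ∀ k < M, ∀ l ∈ (z k).support, lo k ≤ l ∧ l ≤ hi k := by
    intro k hk l hl
    rw [hhi' k hk]
    exact (hP k hk).2.2.1 l hl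
  have hvb : ∀ k < M, ∀ p ∈ (v k).support, lo k ≤ p.1 ∧ p.1 ≤ hi k := by
    intro k hk p hp
    rw [hhi' k hk]
    exact (hP k hk).2.2.2.1 p hp
  have hnor : nor (∑ k ∈ Finset.range M, (c k : ℝ) • z k) < 1 / 2 := by
    by_contra hcon
    push Not at hcon
    refine hno ⟨M, z, lo, hi, c, hM, hI, by simp only [hlo]; omega, (hR 0 hM).2.1, ?_, ?_, hc, hsum, ?_, hcon⟩
    · intro k hk
      exact (hR (k + 1) hk).2.2 (x k, c k) (List.mem_map.2 ⟨k, List.mem_range.2 (Nat.lt_succ_self k), rfl⟩)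
    · intro k hk
      exact ⟨(hP k hk).1, (hP k hk).2.2.2.2.1, hzb k hk⟩
    · exact hmass
  set y : X0 𝕜 := ∑ k ∈ Finset.range M, (c k : ℝ) • z k with hy
  set v' : V := ∑ k ∈ Finset.range M, c k • v k with hv'
  choose! ρ hρ1 hρ2 using fun k (hk : k < M) => (hP k hk).2.2.2.2.2.2.2
  have hsumR : ∑ k ∈ Finset.range M, (c k : ℝ) ^ 2 = 1 := by
    exact_mod_cast congrArg (fun q : ℚ => (q : ℝ)) hsum
  -- the norm of `v'`
  have hdisj : ∀ i ∈ Finset.range M, ∀ j ∈ Finset.range M, i ≠ j →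
      Disjoint (Set.Icc (lo i) (hi i)) (Set.Icc (lo j) (hi j)) := by
    intro i hi1 j hj1 hij
    rw [Finset.mem_range] at hi1 hj1
    rw [Set.disjoint_left]
    rintro a ⟨a1, a2⟩ ⟨a3, a4⟩
    rcases lt_or_gt_of_ne hij with h | h
    · have := JA_lt hI h hj1
      omega
    · have := JA_lt hI h hi1
      omega
  have hnv : nrm v' ≤ 1 := by
    have h1 : nrm v' ^ 2 = ∑ k ∈ Finset.range M, nrm (c k • v k) ^ 2 := by
      refine nrm_sum_sq (Finset.range M) (fun k => Set.Icc (lo k) (hi k)) hdisj _ ?_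
      intro k hk p hp
      rw [Finset.mem_range] at hk
      exact hvb k hk p (Finsupp.support_smul hp)
    have h2 : nrm v' ^ 2 ≤ 1 := by
      rw [h1, ← hsumR]
      refine Finset.sum_le_sum fun k hk => ?_
      rw [Finset.mem_range] at hk
      rw [nrm_smul, mul_pow, sq_abs]
      have h3 := (hP k hk).2.2.2.2.2.1
      have h4 := nrm_nonneg (v k)
      have h5 : nrm (v k) ^ 2 ≤ 1 := by
        have : nrm (v k) ≤ 1 := h3
        nlinarith
      nlinarith [sq_nonneg (c k : ℝ)]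
    nlinarith [nrm_nonneg v']
  -- the value
  have hval : Phi v' y = ((∑ k ∈ Finset.range M, (c k : ℝ) ^ 2 * ρ k : ℝ) : 𝕜) := by
    rw [hv', Phi_sum_left, RCLike.ofReal_sum]
    refine Finset.sum_congr rfl fun k hk => ?_
    rw [Phi_smul_left, hy, Phi_sum_right, Finset.sum_eq_single k]
    · rw [Phi_smul_real]
      have hk' := Finset.mem_range.1 hk
      have : Phi (v k) (z k) = (ρ k : 𝕜) := hρ1 k hk'
      rw [this, RCLike.ofReal_mul, RCLike.ofReal_pow]
      ring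
    · intro j hj hjk
      rw [Phi_smul_real]
      have : Phi (v k) (z j) = 0 := by
        refine Phi_eq_zero_of_disj _ _ fun p hp hp' => ?_
        have h1 := hvb k (Finset.mem_range.1 hk) p hp
        have h2 := hzb j (Finset.mem_range.1 hj) p.1 hp'
        exact Set.disjoint_left.1 (hdisj k hk j hj (Ne.symm hjk)) ⟨h1.1, h1.2⟩ ⟨h2.1, h2.2⟩
      rw [this, mul_zero]
    · intro h
      exact absurd hk h
  set ρ' : ℝ := ∑ k ∈ Finset.range M, (c k : ℝ) ^ 2 * ρ k with hρ'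
  have hρge : 2 ^ t / 2 ≤ ρ' := by
    calc (2 : ℝ) ^ t / 2 = ∑ k ∈ Finset.range M, (c k : ℝ) ^ 2 * (2 ^ t / 2) := by
          rw [← Finset.sum_mul, hsumR, one_mul]
      _ ≤ ρ' := by
          refine Finset.sum_le_sum fun k hk => ?_
          exact mul_le_mul_of_nonneg_left (hρ2 k (Finset.mem_range.1 hk)) (sq_nonneg _)
  have hρpos : 0 < ρ' := lt_of_lt_of_le (by positivity) hρge
  have hy0 : y ≠ 0 := by
    intro h
    rw [h, Phi_zero_right] at hval
    have := (RCLike.ofReal_eq_zero (K := 𝕜)).1 hval.symm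
    linarith
  have hynpos : 0 < nor y := lt_of_le_of_ne (nor_nonneg y) fun h => hy0 (eq_zero_of_nor h.symm)
  have hyZ : y ∈ Z := by
    refine Z.sum_mem fun k hk => ?_
    rw [JA_real_smul]
    exact Z.smul_mem _ (hP k (Finset.mem_range.1 hk)).1
  have hlo0 : ∀ k < M, lo 0 ≤ lo k := by
    intro k hk
    rcases Nat.eq_zero_or_pos k with h | h
    · rw [h]
    · have h1 := JA_lt hI h hk
      have h2 := hI.1 0 hM
      omega
  have hhiM : ∀ k < M, hi k ≤ hi (M - 1) := by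
    intro k hk
    rcases Nat.lt_or_ge k (M - 1) with h | h
    · have h1 := JA_lt hI h (by omega)
      have h2 := hI.1 (M - 1) (by omega)
      omega
    · have : k = M - 1 := by omega
      rw [this]
  have hysupp : ∀ l ∈ y.support, lo 0 ≤ l ∧ l ≤ hi (M - 1) := by
    intro l hl
    have h1 : ∃ k ∈ Finset.range M, l ∈ (z k).support := by
      by_contra hcon
      push Not at hcon
      rw [Finsupp.mem_support_iff] at hl
      apply hl
      rw [hy, Finsupp.finsetSum_apply]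
      refine Finset.sum_eq_zero fun k hk => ?_
      have := hcon k hk
      rw [Finsupp.mem_support_iff, not_not] at this
      rw [Finsupp.smul_apply, this, smul_zero]
    obtain ⟨k, hk, hk2⟩ := h1
    have hk' := Finset.mem_range.1 hk
    have h2 := hzb k hk' l hk2
    exact ⟨(hlo0 k hk').trans h2.1, h2.2.trans (hhiM k hk')⟩
  have hv'supp : ∀ p ∈ v'.support, lo 0 ≤ p.1 ∧ p.1 ≤ hi (M - 1) := by
    intro p hp
    have h1 : ∃ k ∈ Finset.range M, p ∈ (v k).support := by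
      by_contra hcon
      push Not at hcon
      rw [Finsupp.mem_support_iff] at hp
      apply hp
      rw [hv', Finsupp.finsetSum_apply]
      refine Finset.sum_eq_zero fun k hk => ?_
      have := hcon k hk
      rw [Finsupp.mem_support_iff, not_not] at this
      rw [Finsupp.smul_apply, this, smul_zero]
    obtain ⟨k, hk, hk2⟩ := h1
    have hk' := Finset.mem_range.1 hk
    have h2 := hvb k hk' p hk2
    exact ⟨(hlo0 k hk').trans h2.1, h2.2.trans (hhiM k hk')⟩
  refine ⟨(((nor y)⁻¹ : ℝ) : 𝕜) • y, v', lo 0, hi (M - 1), ⟨Z.smul_mem _ hyZ, ?_, ?_, hv'supp, ?_, hnv, ?_,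
    (nor y)⁻¹ * ρ', ?_, ?_⟩, by simp only [hlo]; omega⟩
  · exact (hI.1 0 hM).trans (hhiM 0 hM)
  · exact fun l hl => hysupp l (JA_support_smul _ _ hl)
  · rw [nor_smul, RCLike.norm_ofReal, abs_of_pos (inv_pos.2 hynpos), inv_mul_cancel₀ hynpos.ne']
  · have h1 := adm_sum hI v c hvb (fun k hk => (hP k hk).2.2.2.2.2.2.1) hK2
    have h2 : (n + 1) + (n + 1) * t = (n + 1) * (t + 1) := by ring
    rw [h2] at h1
    exact h1
  · rw [Phi_smul_right, hval]
    push_cast
    ring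
  · have h1 : 2 ≤ (nor y)⁻¹ := by
      rw [le_inv_comm₀ (by norm_num) hynpos]
      linarith
    calc (2 : ℝ) ^ (t + 1) / 2 = 2 * (2 ^ t / 2) := by ring
      _ ≤ (nor y)⁻¹ * ρ' := mul_le_mul h1 hρge (by positivity) (by positivity)

theorem james {Z : Submodule 𝕜 (X0 𝕜)} (hZ : Far Z) (n D N : ℕ) {δ : ℝ} (hδ : 0 < δ) :
    ∃ (M : ℕ) (z : ℕ → X0 𝕜) (lo hi : ℕ → ℕ) (b : ℕ → ℚ), 0 < M ∧ Ivals M lo hi ∧ N < lo 0 ∧
      (g 0) ^ D ≤ g (lo 0) ∧ (∀ k, k + 1 < M → (g (hi k + 1)) ^ D ≤ g (lo (k + 1))) ∧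
      (∀ k < M, z k ∈ Z ∧ nor (z k) = 1 ∧ ∀ l ∈ (z k).support, lo k ≤ l ∧ l ≤ hi k) ∧
      (∀ k < M, 0 < b k) ∧ ∑ k ∈ Finset.range M, (b k) ^ 2 = 1 ∧
      (∀ B ⊆ Finset.range M, Kset n (B.image hi) → ∑ k ∈ B, (b k : ℝ) ^ 2 ≤ δ) ∧
      1 / 2 ≤ nor (∑ k ∈ Finset.range M, (b k : ℝ) • z k) := by
  by_contra hno
  have hP : ∀ t N, ∃ (z : X0 𝕜) (v : V) (lo hi : ℕ), JA_P Z n t z v lo hi ∧ N < lo := by
    intro t
    induction t with
    | zero => exact fun N => JA_zero hZ n N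
    | succ t ih => exact fun N => JA_step n D _ hδ hno t ih N
  obtain ⟨j, hj, hj2, hjn⟩ := par4 n
  obtain ⟨z, v, lo, hi, ⟨h1, h2, h3, h4, h5, h6, h7, ρ, h8, h9⟩, -⟩ := hP (2 ^ (j + 1) + 2) 0
  have hC : C (pre j v) := adm_even hj hj2 hjn h7
  have h10 := abs_Phi_le_nor hC z
  rw [nrm_pre, h5, mul_one, norm_Phi_pre, h8, RCLike.norm_ofReal] at h10
  have hmj : (2 : ℝ) ^ (2 ^ (j + 1) + 2) = 4 * m j := by
    rw [pow_add, m]
    push_cast
    ring
  rw [hmj] at h9
  have hmpos := m_pos j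
  have h11 : 2 ≤ (m j : ℝ)⁻¹ * |ρ| := by
    rw [inv_mul_eq_div, le_div_iff₀ hmpos]
    linarith [le_abs_self ρ]
  linarith

end H94.WH

end S_JA

section S_LB0

/-!
# MODULE LB0: term by term estimate for sparse normalised blocks (section 8, (*))

`termwise`: `v ∈ G_d`, `d ≤ D`, sparse normalised blocks `z_k`. Let `S` be as in `G.starts`, `n1 k = 0` for `k = 0` and `hi (k-1) + 1` otherwise; `T = {k ∈ Ico α β : S ∩ [n1 k, hi k + 1) ≠ ∅}`,
`T.image hi ∈ K_{2d}` (`Kset.of_inj`; the intervals `[n1 k, hi k + 1)` are disjoint). `k ∈ T`: `‖Phi (res [lo k,hi k] v) (z k)‖ ≤ 4^D nrm (..)` (`abs_Phi_le_nor_G`). `k ∉ T`: `res [lo k, hi k] v` is a sum of at most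
`(g (n1 k))^d ≤ g (lo k)` elements of `C` with positions `≥ lo k` (restrict the elements `u i`), so it is in `G 1`: `≤ 4 nrm (..)`. Then `sum_abs_mul_nrm_le`. (If `d = 0` or `0 < d ≤ D`, `(g n)^d ≤ (g n)^D`.)
-/

set_option autoImplicit false

namespace H94.WH

open Finset

variable {𝕜 : Type} [RCLike 𝕜]

/-- left end of the zone of the block `k` -/
private def LB0_n (hi : ℕ → ℕ) (k : ℕ) : ℕ := if k = 0 then 0 else hi (k - 1) + 1

private theorem LB0_succ {M : ℕ} {lo hi : ℕ → ℕ} (hI : Ivals M lo hi) :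
    ∀ j k, j < k → k < M → hi j < lo k := by
  intro j k hjk
  induction k, hjk using Nat.le_induction with
  | base => intro hk; exact hI.2 j hk
  | succ k hk ih =>
    intro hk2
    have h1 := ih (by omega)
    have h2 := hI.1 k (by omega)
    have h3 := hI.2 k hk2
    omega

private theorem LB0_zone {M : ℕ} {lo hi : ℕ → ℕ} (hI : Ivals M lo hi) {j k a : ℕ} (hj : j < M)
    (hk : k < M) (h1 : LB0_n hi j ≤ a) (h2 : a ≤ hi j) (h3 : LB0_n hi k ≤ a) (h4 : a ≤ hi k) :
    j = k := by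
  have key : ∀ x y, x < y → y < M → LB0_n hi y ≤ a → a ≤ hi x → False := by
    intro x y hxy hy h5 h6
    unfold LB0_n at h5
    rw [if_neg (by omega)] at h5
    rcases (show x = y - 1 ∨ x < y - 1 by omega) with h7 | h7
    · subst h7
      omega
    · have h8 := LB0_succ hI x (y - 1) h7 (by omega)
      have h9 := hI.1 (y - 1) (by omega)
      omega
  rcases lt_trichotomy j k with h | h | h
  · exact absurd (key j k h hk h3 h2) id
  · exact h
  · exact absurd (key k j h hj h1 h4) id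

private theorem LB0_G1 {M : ℕ} {lo hi : ℕ → ℕ} (hI : Ivals M lo hi)
    (D : ℕ) (h0 : (g 0) ^ D ≤ g (lo 0)) (hsp : ∀ k, k + 1 < M → (g (hi k + 1)) ^ D ≤ g (lo (k + 1)))
    {d : ℕ} (hd : d ≤ D) {v : V} {S : Finset ℕ}
    (hS : ∀ n1 n2 : ℕ, n1 ≤ n2 → (∀ a ∈ S, ¬ (n1 ≤ a ∧ a < n2)) →
      ∃ (N : ℕ) (u : Fin N → V), N ≤ (g n1) ^ d ∧ (∀ i, C (u i)) ∧
        H94.WH.res (Set.Ico n1 n2) v = ∑ i, u i)
    {k : ℕ} (hk : k < M) (hno : ∀ a ∈ S, ¬ (LB0_n hi k ≤ a ∧ a < hi k + 1)) :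
    G 1 (res (Set.Icc (lo k) (hi k)) v) := by
  have hn : LB0_n hi k ≤ lo k := by
    unfold LB0_n
    split_ifs with h
    · omega
    · have h1 := hI.2 (k - 1) (by omega)
      rw [Nat.sub_add_cancel (by omega)] at h1
      omega
  have hlh := hI.1 k hk
  obtain ⟨N, u, hN, hu, hsum⟩ := hS (LB0_n hi k) (hi k + 1) (by omega) hno
  have hg : (g (LB0_n hi k)) ^ d ≤ g (lo k) := by
    have hgp : 0 < g (LB0_n hi k) := by
      have := five_le_g (LB0_n hi k)
      omega
    refine (Nat.pow_le_pow_right hgp hd).trans ?_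
    unfold LB0_n
    split_ifs with h
    · subst h
      exact h0
    · have h1 := hsp (k - 1) (by omega)
      rw [Nat.sub_add_cancel (by omega)] at h1
      exact h1
  refine ⟨lo k, N, fun i => res (Set.Icc (lo k) (hi k)) (u i), hN.trans hg, ?_, ?_, ?_⟩
  · intro i
    exact (hu i).res Set.ordConnected_Icc
  · intro i p hp
    rw [mem_res] at hp
    exact hp.2.1
  · rw [← res_sum, ← hsum, res_res]
    congr 1
    ext x
    simp only [Set.mem_inter_iff, Set.mem_Icc, Set.mem_Ico]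
    omega

theorem termwise {M : ℕ} {lo hi : ℕ → ℕ} (hI : Ivals M lo hi) {z : ℕ → X0 𝕜} (b : ℕ → ℝ)
    (hz : ∀ k < M, ∀ l ∈ (z k).support, lo k ≤ l ∧ l ≤ hi k) (hz1 : ∀ k < M, nor (z k) ≤ 1)
    (D : ℕ) (h0 : (g 0) ^ D ≤ g (lo 0)) (hsp : ∀ k, k + 1 < M → (g (hi k + 1)) ^ D ≤ g (lo (k + 1)))
    {d : ℕ} (hd : d ≤ D) {v : V} (hv : G d v) {α β : ℕ} (hβ : β ≤ M) :
    ∃ T ⊆ Finset.Ico α β, Kset (2 * d) (T.image hi) ∧
      ‖Phi v (∑ k ∈ Finset.Ico α β, b k • z k)‖ ≤
        nrm v * (4 * l2 b (Finset.Ico α β) + 4 ^ D * l2 b T) := by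
  classical
  obtain ⟨S, hSK, hS⟩ := hv.starts
  set T := (Finset.Ico α β).filter (fun k => ∃ a ∈ S, LB0_n hi k ≤ a ∧ a ≤ hi k) with hT
  have hTM : ∀ k ∈ T, k < M := by
    intro k hk
    rw [hT, Finset.mem_filter, Finset.mem_Ico] at hk
    omega
  refine ⟨T, Finset.filter_subset _ _, ?_, ?_⟩
  · have hex : ∀ x ∈ T.image hi, ∃ a, a ∈ S ∧ a ≤ x ∧ ∃ k ∈ T, hi k = x ∧ LB0_n hi k ≤ a := by
      intro x hx
      rw [Finset.mem_image] at hx
      obtain ⟨k, hk, rfl⟩ := hx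
      have hk' := hk
      rw [hT, Finset.mem_filter] at hk'
      obtain ⟨_, a, ha, ha1, ha2⟩ := hk'
      exact ⟨a, ha, ha2, k, hk, rfl, ha1⟩
    choose! ψ hψ1 hψ2 hψ3 using hex
    refine Kset.of_inj hSK ψ (fun x hx => ⟨hψ1 x hx, hψ2 x hx⟩) ?_
    intro x hx y hy hxy
    obtain ⟨k, hk, hk1, hk2⟩ := hψ3 x hx
    obtain ⟨j, hj, hj1, hj2⟩ := hψ3 y hy
    have h1 := hψ2 x hx
    have h2 := hψ2 y hy
    have h3 : k = j := LB0_zone hI (a := ψ x) (hTM k hk) (hTM j hj) hk2 (by omega) (by omega)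
      (by omega)
    rw [← hk1, ← hj1, h3]
  · have hdisj : ∀ i ∈ Finset.Ico α β, ∀ j ∈ Finset.Ico α β, i ≠ j →
        Disjoint (Set.Icc (lo i) (hi i)) (Set.Icc (lo j) (hi j)) := by
      intro i hi' j hj' hij
      rw [Finset.mem_Ico] at hi' hj'
      rw [Set.disjoint_left]
      rintro x ⟨hx1, hx2⟩ ⟨hx3, hx4⟩
      rcases lt_or_gt_of_ne hij with h | h
      · have := LB0_succ hI i j h (by omega)
        omega
      · have := LB0_succ hI j i h (by omega)
        omega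
    have hterm : ∀ k ∈ Finset.Ico α β, ‖Phi v (b k • z k)‖ ≤
        4 * (|b k| * nrm (res (Set.Icc (lo k) (hi k)) v)) +
          (if k ∈ T then 4 ^ D * (|b k| * nrm (res (Set.Icc (lo k) (hi k)) v)) else 0) := by
      intro k hk
      have hk' := Finset.mem_Ico.1 hk
      have hkM : k < M := by omega
      have hnn := nrm_nonneg (res (Set.Icc (lo k) (hi k)) v)
      have hbn : 0 ≤ |b k| * nrm (res (Set.Icc (lo k) (hi k)) v) := mul_nonneg (abs_nonneg _) hnn
      have hP : Phi v (z k) = Phi (res (Set.Icc (lo k) (hi k)) v) (z k) :=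
        (Phi_res v (z k) (fun l hl => hz k hkM l hl)).symm
      rw [Phi_smul_real, norm_mul, RCLike.norm_ofReal, hP]
      by_cases hkT : k ∈ T
      · rw [if_pos hkT]
        have h1 := abs_Phi_le_nor_G (hv.res (J := Set.Icc (lo k) (hi k)) Set.ordConnected_Icc) (z k)
        have h2 : (4 : ℝ) ^ d ≤ 4 ^ D := pow_le_pow_right₀ (by norm_num) hd
        have h3 : ‖Phi (res (Set.Icc (lo k) (hi k)) v) (z k)‖ ≤
            4 ^ D * nrm (res (Set.Icc (lo k) (hi k)) v) := by
          calc ‖Phi (res (Set.Icc (lo k) (hi k)) v) (z k)‖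
              ≤ 4 ^ d * nrm (res (Set.Icc (lo k) (hi k)) v) * nor (z k) := h1
            _ ≤ 4 ^ D * nrm (res (Set.Icc (lo k) (hi k)) v) * 1 := by
                exact mul_le_mul (by gcongr) (hz1 k hkM) (nor_nonneg _) (by positivity)
            _ = _ := mul_one _
        calc |b k| * ‖Phi (res (Set.Icc (lo k) (hi k)) v) (z k)‖
            ≤ |b k| * (4 ^ D * nrm (res (Set.Icc (lo k) (hi k)) v)) := by gcongr
          _ = 4 ^ D * (|b k| * nrm (res (Set.Icc (lo k) (hi k)) v)) := by ring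
          _ ≤ _ := by linarith
      · rw [if_neg hkT, add_zero]
        have hG1 : G 1 (res (Set.Icc (lo k) (hi k)) v) := by
          refine LB0_G1 hI D h0 hsp hd hS hkM ?_
          rintro a ha ⟨h1, h2⟩
          apply hkT
          rw [hT, Finset.mem_filter]
          exact ⟨hk, a, ha, h1, by omega⟩
        have h1 := abs_Phi_le_nor_G hG1 (z k)
        have h3 : ‖Phi (res (Set.Icc (lo k) (hi k)) v) (z k)‖ ≤
            4 * nrm (res (Set.Icc (lo k) (hi k)) v) := by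
          calc ‖Phi (res (Set.Icc (lo k) (hi k)) v) (z k)‖
              ≤ 4 ^ 1 * nrm (res (Set.Icc (lo k) (hi k)) v) * nor (z k) := h1
            _ ≤ 4 ^ 1 * nrm (res (Set.Icc (lo k) (hi k)) v) * 1 := by
                gcongr
                exact hz1 k hkM
            _ = _ := by ring
        calc |b k| * ‖Phi (res (Set.Icc (lo k) (hi k)) v) (z k)‖
            ≤ |b k| * (4 * nrm (res (Set.Icc (lo k) (hi k)) v)) := by gcongr
          _ = _ := by ring
    have hs1 := sum_abs_mul_nrm_le (Finset.Ico α β) (fun k => Set.Icc (lo k) (hi k)) hdisj v b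
    have hs2 := sum_abs_mul_nrm_le T (fun k => Set.Icc (lo k) (hi k))
      (fun i hi' j hj' => hdisj i (Finset.filter_subset _ _ hi') j (Finset.filter_subset _ _ hj')) v b
    have hsT : ∑ k ∈ Finset.Ico α β,
        (if k ∈ T then 4 ^ D * (|b k| * nrm (res (Set.Icc (lo k) (hi k)) v)) else 0) =
        4 ^ D * ∑ k ∈ T, |b k| * nrm (res (Set.Icc (lo k) (hi k)) v) := by
      rw [← Finset.sum_filter, Finset.mul_sum]
      congr 1
      ext k
      simp only [Finset.mem_filter]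
      exact ⟨fun h => h.2, fun h => ⟨Finset.filter_subset _ _ h, h⟩⟩
    calc ‖Phi v (∑ k ∈ Finset.Ico α β, b k • z k)‖
        = ‖∑ k ∈ Finset.Ico α β, Phi v (b k • z k)‖ := by rw [Phi_sum_right]
      _ ≤ ∑ k ∈ Finset.Ico α β, ‖Phi v (b k • z k)‖ := norm_sum_le _ _
      _ ≤ ∑ k ∈ Finset.Ico α β, (4 * (|b k| * nrm (res (Set.Icc (lo k) (hi k)) v)) +
          (if k ∈ T then 4 ^ D * (|b k| * nrm (res (Set.Icc (lo k) (hi k)) v)) else 0)) :=
          Finset.sum_le_sum hterm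
      _ = 4 * ∑ k ∈ Finset.Ico α β, |b k| * nrm (res (Set.Icc (lo k) (hi k)) v) +
          4 ^ D * ∑ k ∈ T, |b k| * nrm (res (Set.Icc (lo k) (hi k)) v) := by
          rw [Finset.sum_add_distrib, hsT, ← Finset.mul_sum]
      _ ≤ 4 * (nrm v * l2 b (Finset.Ico α β)) + 4 ^ D * (nrm v * l2 b T) := by gcongr
      _ = _ := by ring

end H94.WH

end S_LB0

section S_LB

/-!
# MODULE LB: base vectors (Lemma B, section 8)

`base`: apply `james` with `n = nn j + 3*D + 2` (or larger), `δ` so small that all estimates below hold. `y = ∑ b_k z_k`.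
First property: `termwise` with `α = 0, β = M`: `≤ nrm v (4 + 4^D √δ) ≤ 5 nrm v`. Second: `descend` with `X = 4`, `Y = 4^D`, `C1 = 4^D`, `c = 2D` (Kset.mono from `2d`): `≤ nrm v (4/m_s + (4^D/m_s + 4^D) √δ) ≤ 5/m_s nrm v`
for `s < j` (`1/m_s ≥ 1/m_j`).
-/

set_option autoImplicit false

namespace H94.WH

open Finset

variable {𝕜 : Type} [RCLike 𝕜]

/-- `(C, D, j)`-good vectors -/
def Good (Cc : ℝ) (D j : ℕ) (y : X0 𝕜) : Prop := ∀ d ≤ D, ∀ v, G d v →
  ‖Phi v y‖ ≤ Cc * nrm v ∧ ∀ s, 1 ≤ s → s < j → ‖Phi (col {s} v) y‖ ≤ Cc / m s * nrm v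

theorem LB_nrm_nonneg (v : V) : 0 ≤ nrm v := Real.sqrt_nonneg _

theorem LB_m_pos (s : ℕ) : (0 : ℝ) < m s := by
  unfold m; positivity

theorem LB_m_le {s j : ℕ} (h : s ≤ j) : (m s : ℝ) ≤ m j := by
  have : m s ≤ m j := by
    unfold m
    exact Nat.pow_le_pow_right (by norm_num) (Nat.pow_le_pow_right (by norm_num) (by omega))
  exact_mod_cast this

theorem LB_nn_le {s j : ℕ} (h : s ≤ j) : nn s ≤ nn j := by
  unfold nn
  exact Nat.pow_le_pow_right (by norm_num) (Nat.pow_le_pow_left (by omega) 2)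

theorem LB_lo {M : ℕ} {lo hi : ℕ → ℕ} (hI : Ivals M lo hi) : ∀ k, k < M → lo 0 ≤ lo k := by
  intro k
  induction k with
  | zero => intro _; exact le_rfl
  | succ k ih =>
    intro hk
    have h1 := ih (by omega)
    have h2 := hI.1 k (by omega)
    have h3 := hI.2 k hk
    omega

theorem base {Z : Submodule 𝕜 (X0 𝕜)} (hZ : Far Z) (D j N : ℕ) :
    ∃ y ∈ Z, Good 5 D j y ∧ 1 / 2 ≤ nor y ∧ ∀ l ∈ y.support, N < l := by
  set σ : ℝ := 1 / (4 ^ D * (1 + m j)) with hσ
  have hσ0 : 0 < σ := by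
    have := LB_m_pos j
    positivity
  obtain ⟨M, z, lo, hi, b, hM, hI, hN, h0, hsp, hz, hb, hsum, hsmall, hnor⟩ :=
    james hZ (nn j + 3 * D + 2) D N (δ := σ ^ 2) (by positivity)
  have hsupp : ∀ k < M, ∀ l ∈ (z k).support, lo k ≤ l ∧ l ≤ hi k := fun k hk => (hz k hk).2.2
  have hz1 : ∀ k < M, nor (z k) ≤ 1 := fun k hk => (hz k hk).2.1.le
  have hIco : Finset.Ico 0 M = Finset.range M := by
    rw [Finset.range_eq_Ico]
  have hl2M : l2 (fun k => (b k : ℝ)) (Finset.range M) = 1 := by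
    unfold l2
    have : ∑ k ∈ Finset.range M, ((b k : ℝ)) ^ 2 = 1 := by exact_mod_cast hsum
    rw [this, Real.sqrt_one]
  have hl2B : ∀ B ⊆ Finset.range M, Kset (nn j + 3 * D + 2) (B.image hi) →
      l2 (fun k => (b k : ℝ)) B ≤ σ := by
    intro B hB hK
    unfold l2
    rw [Real.sqrt_le_left hσ0.le]
    exact hsmall B hB hK
  have hmj := LB_m_pos j
  have hterm : ∀ d ≤ D, ∀ v, G d v → ∀ α β, β ≤ M → ∃ T ⊆ Finset.Ico α β,
      Kset (2 * d) (T.image hi) ∧ ‖Phi v (∑ k ∈ Finset.Ico α β, (b k : ℝ) • z k)‖ ≤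
        nrm v * (4 * l2 (fun k => (b k : ℝ)) (Finset.Ico α β)
          + 4 ^ D * l2 (fun k => (b k : ℝ)) T) := by
    intro d hd v hv α β hβ
    exact termwise hI (fun k => (b k : ℝ)) hsupp hz1 D h0 hsp hd hv hβ
  refine ⟨∑ k ∈ Finset.range M, (b k : ℝ) • z k, ?_, ?_, hnor, ?_⟩
  · apply Submodule.sum_mem
    intro k hk
    rw [RCLike.real_smul_eq_coe_smul (K := 𝕜)]
    exact Z.smul_mem _ (hz k (Finset.mem_range.1 hk)).1
  · intro d hd v hv
    constructor
    · obtain ⟨T, hT, hTK, hle⟩ := hterm d hd v hv 0 M le_rfl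
      rw [hIco] at hT hle
      rw [hl2M] at hle
      have h1 := hl2B T hT (Kset.mono (by omega) hTK)
      refine hle.trans ?_
      rw [mul_comm (5 : ℝ)]
      apply mul_le_mul_of_nonneg_left _ (LB_nrm_nonneg v)
      have h2 : (4 : ℝ) ^ D * l2 (fun k => (b k : ℝ)) T ≤ 4 ^ D * σ :=
        mul_le_mul_of_nonneg_left h1 (by positivity)
      have h3 : (4 : ℝ) ^ D * σ ≤ 1 := by
        rw [hσ, mul_one_div, div_le_one (by positivity)]
        have : (0 : ℝ) < 4 ^ D := by positivity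
        nlinarith
      linarith
    · intro s hs1 hsj
      have hms := LB_m_pos s
      obtain ⟨B, hB, hBK, hle⟩ := descend hI (fun k => (b k : ℝ)) hsupp hs1 (d := d) (c := 2 * D)
        (X := 4) (Y := 4 ^ D) (C1 := 4 ^ D) (by norm_num) (by positivity) (by positivity)
        (by
          intro k hk v hv
          have h1 := abs_Phi_le_nor_G hv (z k)
          rw [(hz k hk).2.1, mul_one] at h1
          refine h1.trans (mul_le_mul_of_nonneg_right ?_ (LB_nrm_nonneg v))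
          exact pow_le_pow_right₀ (by norm_num) hd)
        (by
          intro v hv α β hβ
          obtain ⟨T, hT, hTK, hle⟩ := hterm d hd v hv α β hβ
          exact ⟨T, hT, Kset.mono (by omega) hTK, hle⟩) v hv 0 M le_rfl
      rw [hIco] at hB hle
      rw [hl2M, mul_one] at hle
      have hnn := LB_nn_le hsj.le
      have h1 := hl2B B hB (Kset.mono (by omega) hBK)
      refine hle.trans ?_
      rw [mul_comm (5 / (m s : ℝ))]
      apply mul_le_mul_of_nonneg_left _ (LB_nrm_nonneg v)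
      have h2 : ((4 : ℝ) ^ D / m s + 4 ^ D) * l2 (fun k => (b k : ℝ)) B
          ≤ (4 ^ D / m s + 4 ^ D) * σ := mul_le_mul_of_nonneg_left h1 (by positivity)
      have h3 : ((4 : ℝ) ^ D / m s + 4 ^ D) * σ ≤ 1 / m s := by
        have h4 := LB_m_le hsj.le
        have h5 : ((4 : ℝ) ^ D / m s + 4 ^ D) * σ = (1 + m s) / (1 + m j) * (1 / m s) := by
          rw [hσ]
          field_simp
        rw [h5]
        have h6 : (1 + (m s : ℝ)) / (1 + m j) ≤ 1 := by
          rw [div_le_one (by positivity)]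
          linarith
        calc (1 + (m s : ℝ)) / (1 + m j) * (1 / m s) ≤ 1 * (1 / m s) :=
              mul_le_mul_of_nonneg_right h6 (by positivity)
          _ = 1 / m s := one_mul _
      have h7 : (5 : ℝ) / m s = 4 / m s + 1 / m s := by ring
      rw [h7]
      linarith
  · intro l hl
    have hex : ∃ k ∈ Finset.range M, l ∈ (z k).support := by
      by_contra hcon
      push Not at hcon
      rw [Finsupp.mem_support_iff] at hl
      apply hl
      rw [Finsupp.finset_sum_apply]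
      apply Finset.sum_eq_zero
      intro k hk
      have := Finsupp.notMem_support_iff.1 (hcon k hk)
      rw [Finsupp.smul_apply, this, smul_zero]
    obtain ⟨k, hk, hlk⟩ := hex
    have hkM := Finset.mem_range.1 hk
    have h1 := (hsupp k hkM l hlk).1
    have h2 := LB_lo hI k hkM
    omega

end H94.WH

end S_LB
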