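import Mathlib
import Pool.Agent.H94.WHM.M1
import Pool.Agent.H94.WHM.M2
import Pool.Agent.H94.WHM.M4
import Pool.Agent.H94.WHM.M5

set_option autoImplicit false

/-! A hereditarily indecomposable weak Hilbert space, part M7: this file joins several modules. -/

section S_EX0

/-!
# MODULE EX0: estimates for exact vectors (Lemma X, section 9)

`ris_estimates` (the analytic part): `y_k` (k < M) with rational weights `c_k`, `y_k` `(5, D + r, J k)`-good, `r = 2^(p+1)`, `p + 1 < J 0`, `J k < J (k+1)`, and `∑ |y_k| ≤ m (J (k+1)) / (4 m (p+1))`.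
`Crit k = {s | J k ≤ s ∧ s < J (k+1)}` (pairwise disjoint). Hypotheses of `main_estimate` with `q := p`, `D := D + r`, `Cc = 5`, `xq = 5/m_p`, `yq = 0`, `xt = 11/m_{p+1}`:
 h3: `{s | p < s ∧ s ∉ Crit k} = {s | p < s ∧ s < J k} ∪ {s | p < s ∧ J (k+1) ≤ s}`: `abs_Phi_range_le` (c = 5): `10/m_{p+1}`; `abs_Phi_tail_le`: `4/m(J(k+1)) * ∑|y_k| ≤ 1/m_{p+1}`;
 hq: term by term with goodness (`p < J k`): `‖Phi (col {p} v) (y k)| ≤ 5/m_p nrm v`, `B = ∅`.
 `XX 5 (5/m_p) (11/m_{p+1}) r = 5/m_p + 10/m_p + 22/m_{p+1} ≤ 16/m_p` (`two_pow_inv`, `m_{p+1} = m_p^2`, `m_p ≥ 22`).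
 With masses of `K_n`-sets `≤ δ` (`n = nn p - 1`, `par1` for the complexities) and `x' = m_p • ∑ c_k y_k`:
 e1: `≤ nrm v (16 + m_p YY √δ) ≤ 17 nrm v`. e2: `descend` with `X = 16/m_p`, `Y = YY p 5 0`, `C1 = 5`: `≤ nrm v (16/m_s + m_p (YY/m_s + 5) √δ) ≤ 17/m_s nrm v`.
 e3: `tail_term`: `≤ m_p (11/m_{p+1} + 5 √δ) nrm v ≤ 12/m_p nrm v`.
-/

set_option autoImplicit false

namespace H94.WH

open Finset

variable {𝕜 : Type} [RCLike 𝕜]

/-- `m p ≥ 256` for `p ≥ 2` -/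
theorem EX0_m_ge {p : ℕ} (hp : 2 ≤ p) : (256 : ℝ) ≤ m p := by
  have h : m 2 ≤ m p := m_strictMono.monotone hp
  have h2 : m 2 = 256 := by norm_num [m]
  rw [h2] at h
  exact_mod_cast h

theorem EX0_lt {M : ℕ} {lo hi : ℕ → ℕ} (hI : Ivals M lo hi) {i j : ℕ} (hij : i < j) (hj : j < M) :
    hi i < lo j := by
  induction j, hij using Nat.le_induction with
  | base => exact hI.2 i hj
  | succ j hj' ih =>
    have h1 := ih (by omega)
    have h2 := hI.1 j (by omega)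
    have h3 := hI.2 j hj
    omega

theorem EX0_disj {M : ℕ} {lo hi : ℕ → ℕ} (hI : Ivals M lo hi) {i j : ℕ} (hi' : i < M) (hj : j < M) (hij : i ≠ j) :
    Disjoint (Set.Icc (lo i) (hi i)) (Set.Icc (lo j) (hi j)) := by
  rw [Set.disjoint_left]
  intro l h1 h2
  rcases lt_or_gt_of_ne hij with h | h
  · have := EX0_lt hI h hj
    have a1 := h1.2
    have a2 := h2.1
    omega
  · have := EX0_lt hI h hi'
    have a1 := h1.1
    have a2 := h2.2
    omega

theorem EX0_h3 {p D' j1 j2 : ℕ} {y : X0 𝕜} (hg : Good 5 D' j1 y) (hj : p + 1 < j1) (hj2 : j1 < j2)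
    (hJ2 : 4 * (m (p + 1) : ℝ) * ∑ l ∈ y.support, ‖y l‖ ≤ m j2) {d : ℕ} (hd : d ≤ D') {v : V} (hv : G d v) :
    ‖Phi (col {s | p < s ∧ s ∉ {s | j1 ≤ s ∧ s < j2}} v) y‖ ≤ 11 / m (p + 1) * nrm v := by
  have hset : {s | p < s ∧ s ∉ {s | j1 ≤ s ∧ s < j2}} = {s | p < s ∧ s < j1} ∪ {s | j2 ≤ s} := by
    ext s
    simp only [Set.mem_ofPred_eq, Set.mem_union]
    constructor
    · rintro ⟨h1, h2⟩
      by_cases h : s < j1
      · exact Or.inl ⟨h1, h⟩
      · right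
        by_contra h3
        exact h2 ⟨by omega, by omega⟩
    · rintro (⟨h1, h2⟩ | h)
      · exact ⟨h1, fun h3 => by omega⟩
      · exact ⟨by omega, fun h3 => by omega⟩
  have hdis : Disjoint {s | p < s ∧ s < j1} {s | j2 ≤ s} := by
    rw [Set.disjoint_left]
    rintro s ⟨h1, h2⟩ h3
    simp only [Set.mem_ofPred_eq] at h3
    omega
  rw [hset, col_union hdis, Phi_add_left]
  have e1 := abs_Phi_range_le p j1 v y 5 (by norm_num)
    (fun s h1 h2 => (hg d hd v hv).2 s (by omega) h2)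
  have e2 := abs_Phi_tail_le j2 v y
  have hm1 := m_pos (p + 1)
  have hm2 := m_pos j2
  have e3 : 4 / (m j2 : ℝ) * nrm v * ∑ l ∈ y.support, ‖y l‖ ≤ 1 / m (p + 1) * nrm v := by
    have h4 : 4 / (m j2 : ℝ) * ∑ l ∈ y.support, ‖y l‖ ≤ 1 / m (p + 1) := by
      rw [div_mul_eq_mul_div, div_le_div_iff₀ hm2 hm1]
      linarith
    calc 4 / (m j2 : ℝ) * nrm v * ∑ l ∈ y.support, ‖y l‖
        = (4 / (m j2 : ℝ) * ∑ l ∈ y.support, ‖y l‖) * nrm v := by ring
      _ ≤ 1 / m (p + 1) * nrm v := mul_le_mul_of_nonneg_right h4 (nrm_nonneg v)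
  calc ‖Phi (col {s | p < s ∧ s < j1} v) y + Phi (col {s | j2 ≤ s} v) y‖
      ≤ ‖Phi (col {s | p < s ∧ s < j1} v) y‖ + ‖Phi (col {s | j2 ≤ s} v) y‖ := norm_add_le _ _
    _ ≤ 2 * 5 / m (p + 1) * nrm v + 1 / m (p + 1) * nrm v := add_le_add e1 (e2.trans e3)
    _ = 11 / m (p + 1) * nrm v := by ring

theorem EX0_hq {p D' M : ℕ} (hp : 1 ≤ p) {lo hi : ℕ → ℕ} (hI : Ivals M lo hi) {y : ℕ → X0 𝕜} (c : ℕ → ℝ) (J : ℕ → ℕ)
    (hy : ∀ k < M, ∀ l ∈ (y k).support, lo k ≤ l ∧ l ≤ hi k)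
    (hgood : ∀ k < M, Good 5 D' (J k) (y k)) (hJ : ∀ k < M, p < J k)
    {d : ℕ} (hd : d ≤ D') {v : V} (hv : G d v) {α β : ℕ} (hβ : β ≤ M) :
    ‖Phi (col {p} v) (∑ k ∈ Finset.Ico α β, c k • y k)‖ ≤ nrm v * (5 / m p * l2 c (Finset.Ico α β)) := by
  rw [Phi_sum_right]
  have e1 : ∀ k ∈ Finset.Ico α β, ‖Phi (col {p} v) (c k • y k)‖ ≤
      5 / m p * (|c k| * nrm (res (Set.Icc (lo k) (hi k)) v)) := by
    intro k hk
    have hkM : k < M := by
      have := (Finset.mem_Ico.1 hk).2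
      omega
    rw [Phi_smul_real, norm_mul, RCLike.norm_ofReal]
    have e2 : Phi (col {p} v) (y k) = Phi (col {p} (res (Set.Icc (lo k) (hi k)) v)) (y k) := by
      rw [← res_col, Phi_res]
      intro l hl
      exact Set.mem_Icc.2 (hy k hkM l hl)
    rw [e2]
    have e3 := (hgood k hkM d hd _ (hv.res (J := Set.Icc (lo k) (hi k)) Set.ordConnected_Icc)).2 p hp (hJ k hkM)
    calc |c k| * ‖Phi (col {p} (res (Set.Icc (lo k) (hi k)) v)) (y k)‖
        ≤ |c k| * (5 / m p * nrm (res (Set.Icc (lo k) (hi k)) v)) :=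
          mul_le_mul_of_nonneg_left e3 (abs_nonneg _)
      _ = _ := by ring
  have e4 := sum_abs_mul_nrm_le (Finset.Ico α β) (fun k => Set.Icc (lo k) (hi k))
    (fun i h1 j h2 h3 => by
      have a1 := (Finset.mem_Ico.1 h1).2
      have a2 := (Finset.mem_Ico.1 h2).2
      exact EX0_disj hI (by omega) (by omega) h3) v c
  have hm := m_pos p
  calc ‖∑ k ∈ Finset.Ico α β, Phi (col {p} v) (c k • y k)‖
      ≤ ∑ k ∈ Finset.Ico α β, ‖Phi (col {p} v) (c k • y k)‖ := norm_sum_le _ _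
    _ ≤ ∑ k ∈ Finset.Ico α β, 5 / m p * (|c k| * nrm (res (Set.Icc (lo k) (hi k)) v)) :=
        Finset.sum_le_sum e1
    _ = 5 / m p * ∑ k ∈ Finset.Ico α β, (|c k| * nrm (res (Set.Icc (lo k) (hi k)) v)) := by
        rw [Finset.mul_sum]
    _ ≤ 5 / m p * (nrm v * l2 c (Finset.Ico α β)) :=
        mul_le_mul_of_nonneg_left e4 (by positivity)
    _ = _ := by ring

theorem EX0_XX {p : ℕ} (hp : 2 ≤ p) : XX 5 (5 / m p) (11 / m (p + 1)) (2 ^ (p + 1)) ≤ 16 / m p := by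
  unfold XX
  rw [two_pow_inv]
  have hm := m_pos p
  have h2 := EX0_m_ge hp
  have h3 : (m (p + 1) : ℝ) = (m p : ℝ) ^ 2 := by rw [m_succ]; push_cast; rfl
  rw [h3]
  have h4 : 5 * ((m p : ℝ))⁻¹ + 2 * (5 / m p + 11 / (m p : ℝ) ^ 2) = (15 + 22 / m p) / m p := by
    field_simp
    ring
  rw [h4]
  apply div_le_div_of_nonneg_right _ hm.le
  have h5 : (22 : ℝ) / m p ≤ 1 := by
    rw [div_le_one hm]
    linarith
  linarith

theorem EX0_YY (p : ℕ) : 0 ≤ YY p 5 0 := by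
  unfold YY
  positivity

/-- scaling by `m p` -/
theorem EX0_scale (p : ℕ) (v : V) (x : X0 𝕜) : ‖Phi v ((m p : ℝ) • x)‖ = m p * ‖Phi v x‖ := by
  rw [Phi_smul_real, norm_mul, RCLike.norm_ofReal, abs_of_pos (m_pos p)]

theorem ris_estimates {p : ℕ} (hp : 2 ≤ p) {D : ℕ} (hD : D ≤ nn (p - 1)) {M : ℕ} (hM : 0 < M) {lo hi : ℕ → ℕ}
    (hI : Ivals M lo hi) {y : ℕ → X0 𝕜} (c : ℕ → ℝ) (J : ℕ → ℕ)
    (hy : ∀ k < M, ∀ l ∈ (y k).support, lo k ≤ l ∧ l ≤ hi k)
    (hgood : ∀ k < M, Good 5 (D + 2 ^ (p + 1)) (J k) (y k)) (hJ0 : p + 1 < J 0)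
    (hJ : ∀ k, J k < J (k + 1)) (hJ2 : ∀ k < M, 4 * (m (p + 1) : ℝ) * ∑ l ∈ (y k).support, ‖y k l‖ ≤ m (J (k + 1)))
    (hg : p + 5 ≤ g (lo 0)) {δ : ℝ} (hδ : 0 < δ) (hδ2 : (m p : ℝ) ^ 2 * (YY p 5 0 + 5) * Real.sqrt δ ≤ 1)
    (hc : ∑ k ∈ Finset.range M, (c k) ^ 2 = 1)
    (hsm : ∀ B ⊆ Finset.range M, Kset (nn p - 1) (B.image hi) → ∑ k ∈ B, (c k) ^ 2 ≤ δ)
    {d : ℕ} (hd : d ≤ D) {v : V} (hv : G d v) :
    ‖Phi v ((m p : ℝ) • ∑ k ∈ Finset.range M, c k • y k)‖ ≤ 17 * nrm v ∧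
    (∀ s, 1 ≤ s → s < p → ‖Phi (col {s} v) ((m p : ℝ) • ∑ k ∈ Finset.range M, c k • y k)‖ ≤ 17 / m s * nrm v) ∧
    ‖Phi (col {s | p < s} v) ((m p : ℝ) • ∑ k ∈ Finset.range M, c k • y k)‖ ≤ 12 / m p * nrm v := by
  set r : ℕ := 2 ^ (p + 1) with hr
  have hmp := m_pos p
  have hmge := EX0_m_ge hp
  have hJm : StrictMono J := strictMono_nat_of_lt_succ hJ
  have hJk : ∀ k, p + 1 < J k := fun k => lt_of_lt_of_le hJ0 (hJm.monotone (Nat.zero_le k))
  have hYY := EX0_YY p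
  have hsq : 0 ≤ Real.sqrt δ := Real.sqrt_nonneg δ
  have hdD : ∀ {d' : ℕ}, d' ≤ D → d' ≤ D + r := fun h => h.trans (Nat.le_add_right _ _)
  -- hypotheses of the main estimate
  have h1 : ∀ k < M, ∀ d' ≤ D + r, ∀ w, G d' w → ‖Phi w (y k)‖ ≤ 5 * nrm w :=
    fun k hk d' hd' w hw => (hgood k hk d' hd' w hw).1
  have hdis : ∀ i < M, ∀ j < M, i ≠ j →
      Disjoint {s | J i ≤ s ∧ s < J (i + 1)} {s | J j ≤ s ∧ s < J (j + 1)} := by
    intro i _ j _ hij
    rw [Set.disjoint_left]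
    rintro s ⟨a1, a2⟩ ⟨b1, b2⟩
    rcases lt_or_gt_of_ne hij with h | h
    · have := hJm.monotone (show i + 1 ≤ j from h)
      omega
    · have := hJm.monotone (show j + 1 ≤ i from h)
      omega
  have h3 : ∀ k < M, ∀ d' ≤ D + r, ∀ w, G d' w →
      ‖Phi (col {s | p < s ∧ s ∉ {s | J k ≤ s ∧ s < J (k + 1)}} w) (y k)‖ ≤ 11 / m (p + 1) * nrm w :=
    fun k hk d' hd' w hw => EX0_h3 (hgood k hk) (hJk k) (hJ k) (hJ2 k hk) hd' hw
  have hq : ∀ d' ≤ D + r, ∀ w, G d' w → ∀ α β, β ≤ M → ∃ B ⊆ Finset.Ico α β, Kset (d' + 3) (B.image hi) ∧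
      ‖Phi (col {p} w) (∑ k ∈ Finset.Ico α β, c k • y k)‖ ≤
        nrm w * (5 / m p * l2 c (Finset.Ico α β) + 0 * l2 c B) := by
    intro d' hd' w hw α β hβ
    refine ⟨∅, Finset.empty_subset _, ?_, ?_⟩
    · rw [Finset.image_empty]
      exact Kset.empty _
    · rw [zero_mul, add_zero]
      exact EX0_hq (by omega) hI c J hy hgood (fun k _ => by have := hJk k; omega) hd' hw hβ
  have H := main_estimate (q := p) (by omega) hI c hy (D + r) (Cc := 5) (xq := 5 / m p) (yq := 0)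
    (xt := 11 / m (p + 1)) (by norm_num) (by positivity) le_rfl (div_nonneg (by norm_num) (m_pos _).le) h1
    (fun k => {s | J k ≤ s ∧ s < J (k + 1)}) hdis h3 hq hg
  have hX : XX 5 (5 / m p) (11 / m (p + 1)) r ≤ 16 / m p := EX0_XX hp
  have hrec : ∀ d' ≤ D, ∀ w, G d' w → ∀ α β, β ≤ M → ∃ B ⊆ Finset.Ico α β, Kset (cc p r d') (B.image hi) ∧
      ‖Phi w (∑ k ∈ Finset.Ico α β, c k • y k)‖ ≤
        nrm w * (16 / m p * l2 c (Finset.Ico α β) + YY p 5 0 * l2 c B) := by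
    intro d' hd' w hw α β hβ
    obtain ⟨B, hB, hK, hle⟩ := H r d' (Nat.add_le_add_right hd' r) w hw α β hβ
    refine ⟨B, hB, hK, hle.trans ?_⟩
    apply mul_le_mul_of_nonneg_left _ (nrm_nonneg w)
    exact add_le_add (mul_le_mul_of_nonneg_right hX (l2_nonneg _ _)) le_rfl
  -- complexities
  have hpar := par1 p (by omega)
  rw [← hr] at hpar
  have hcc : ∀ d' ≤ D, cc p r d' ≤ cc p r (nn (p - 1)) := fun d' hd' => cc_mono (hd'.trans hD)
  have hl1 : l2 c (Finset.range M) = 1 := by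
    unfold l2
    rw [hc, Real.sqrt_one]
  have hIco : Finset.Ico 0 M = Finset.range M := by
    rw [Finset.range_eq_Ico]
  have hl2 : ∀ B ⊆ Finset.range M, ∀ n' ≤ nn p - 1, Kset n' (B.image hi) → l2 c B ≤ Real.sqrt δ :=
    fun B hB n' hn' hK => l2_le_sqrt (hsm B hB (hK.mono hn'))
  refine ⟨?_, ?_, ?_⟩
  · -- e1
    obtain ⟨B, hB, hK, hle⟩ := hrec d hd v hv 0 M le_rfl
    rw [hIco] at hB hle
    have hccd := hcc d hd
    have hs := hl2 B hB _ (by omega) hK
    rw [EX0_scale]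
    rw [hl1, mul_one] at hle
    have e0 : m p * (YY p 5 0 * l2 c B) ≤ 1 := by
      calc (m p : ℝ) * (YY p 5 0 * l2 c B) ≤ m p * (YY p 5 0 * Real.sqrt δ) := by gcongr
        _ = 1 * (m p * (YY p 5 0 * Real.sqrt δ)) := by ring
        _ ≤ m p * (m p * ((YY p 5 0 + 5) * Real.sqrt δ)) := by
            apply mul_le_mul (by linarith) _ (by positivity) hmp.le
            gcongr
            linarith
        _ = (m p : ℝ) ^ 2 * (YY p 5 0 + 5) * Real.sqrt δ := by ring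
        _ ≤ 1 := hδ2
    calc (m p : ℝ) * ‖Phi v (∑ k ∈ Finset.range M, c k • y k)‖
        ≤ m p * (nrm v * (16 / m p + YY p 5 0 * l2 c B)) := mul_le_mul_of_nonneg_left hle hmp.le
      _ = nrm v * (16 + m p * (YY p 5 0 * l2 c B)) := by
          field_simp
      _ ≤ nrm v * (16 + 1) := by
          apply mul_le_mul_of_nonneg_left _ (nrm_nonneg v)
          linarith
      _ = 17 * nrm v := by ring
  · -- e2
    intro s hs1 hsp
    obtain ⟨B, hB, hK, hle⟩ := descend hI c hy hs1 (d := d) (c := cc p r d) (X := 16 / m p) (Y := YY p 5 0)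
      (C1 := 5) (by positivity) hYY (by norm_num) (fun k hk w hw => h1 k hk d (hdD hd) w hw)
      (hrec d hd) v hv 0 M le_rfl
    rw [hIco] at hB hle
    have hccd := hcc d hd
    have hnn : nn s ≤ nn (p - 1) := nn_mono (by omega)
    have hs := hl2 B hB _ (by omega) hK
    rw [EX0_scale]
    rw [hl1, mul_one] at hle
    have hms := m_pos s
    have hmsp : (m s : ℝ) ≤ m p := by exact_mod_cast (m_strictMono hsp).le
    have hms1 : (1 : ℝ) ≤ m s := by
      have := four_le_m s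
      have h4 : (4 : ℝ) ≤ m s := by exact_mod_cast this
      linarith
    have e0 : m p * ((YY p 5 0 / m s + 5) * l2 c B) ≤ 1 / m s := by
      rw [le_div_iff₀ hms]
      calc (m p : ℝ) * ((YY p 5 0 / m s + 5) * l2 c B) * m s
          ≤ m p * ((YY p 5 0 / m s + 5) * Real.sqrt δ) * m s := by
            have : 0 ≤ YY p 5 0 / m s := div_nonneg hYY hms.le
            gcongr
        _ = m p * ((YY p 5 0 + 5 * m s) * Real.sqrt δ) := by
            field_simp
        _ ≤ m p * ((m p * (YY p 5 0 + 5)) * Real.sqrt δ) := by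
            have h5 : YY p 5 0 + 5 * m s ≤ m p * (YY p 5 0 + 5) := by
              have : 1 * YY p 5 0 ≤ m p * YY p 5 0 := mul_le_mul_of_nonneg_right (by linarith) hYY
              nlinarith
            gcongr
        _ = (m p : ℝ) ^ 2 * (YY p 5 0 + 5) * Real.sqrt δ := by ring
        _ ≤ 1 := hδ2
    calc (m p : ℝ) * ‖Phi (col {s} v) (∑ k ∈ Finset.range M, c k • y k)‖
        ≤ m p * (nrm v * (16 / m p / m s + (YY p 5 0 / m s + 5) * l2 c B)) :=
          mul_le_mul_of_nonneg_left hle hmp.le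
      _ = nrm v * (16 / m s + m p * ((YY p 5 0 / m s + 5) * l2 c B)) := by
          field_simp
      _ ≤ nrm v * (16 / m s + 1 / m s) := by
          apply mul_le_mul_of_nonneg_left _ (nrm_nonneg v)
          linarith
      _ = 17 / m s * nrm v := by ring
  · -- e3
    obtain ⟨B, hB, hK, hle⟩ := tail_term (q := p) hI c hy (d := d) (Cc := 5) (xt := 11 / m (p + 1)) (by norm_num)
      (div_nonneg (by norm_num) (m_pos _).le) (fun k hk w hw => h1 k hk d (hdD hd) w hw)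
      (fun k => {s | J k ≤ s ∧ s < J (k + 1)}) hdis (fun k hk w hw => h3 k hk d (hdD hd) w hw) hv
      (α := 0) (β := M) le_rfl
    rw [hIco] at hB hle
    have hccd := hcc d hd
    have hs := hl2 B hB _ (by omega) hK
    rw [EX0_scale]
    rw [hl1, mul_one] at hle
    have h6 : (m (p + 1) : ℝ) = (m p : ℝ) ^ 2 := by rw [m_succ]; push_cast; rfl
    have e0 : m p * (5 * l2 c B) ≤ 1 / m p := by
      rw [le_div_iff₀ hmp]
      calc (m p : ℝ) * (5 * l2 c B) * m p ≤ m p * (5 * Real.sqrt δ) * m p := by gcongr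
        _ = (m p : ℝ) ^ 2 * (0 + 5) * Real.sqrt δ := by ring
        _ ≤ (m p : ℝ) ^ 2 * (YY p 5 0 + 5) * Real.sqrt δ := by gcongr
        _ ≤ 1 := hδ2
    calc (m p : ℝ) * ‖Phi (col {s | p < s} v) (∑ k ∈ Finset.range M, c k • y k)‖
        ≤ m p * (nrm v * (11 / m (p + 1) + 5 * l2 c B)) :=
          mul_le_mul_of_nonneg_left hle hmp.le
      _ = nrm v * (11 / m p + m p * (5 * l2 c B)) := by
          rw [h6]
          field_simp
      _ ≤ nrm v * (11 / m p + 1 / m p) := by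
          apply mul_le_mul_of_nonneg_left _ (nrm_nonneg v)
          linarith
      _ = 12 / m p * nrm v := by ring

end H94.WH

end S_EX0

section S_ED

/-!
# definition of exact pairs (no proof needed)
-/

set_option autoImplicit false

namespace H94.WH

open Finset

variable {𝕜 : Type} [RCLike 𝕜]

/-- exact pair of weight `p` -/
structure Exact (p D : ℕ) (x : X0 𝕜) (u : V) (lo hi : ℕ) : Prop where
  hlh : lo ≤ hi
  hx : ∀ l ∈ x.support, lo ≤ l ∧ l ≤ hi
  hu : ∀ a ∈ u.support, lo ≤ a.1 ∧ a.1 ≤ hi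
  hC : C u
  hn : nrm u ≤ 1
  hcol : col {p} u = u
  hPhi : Phi u x = 1
  e1 : ∀ d ≤ D, ∀ v, G d v → ‖Phi v x‖ ≤ 100 * nrm v
  e2 : ∀ d ≤ D, ∀ v, G d v → ∀ s, 1 ≤ s → s < p → ‖Phi (col {s} v) x‖ ≤ 100 / m s * nrm v
  e3 : ∀ d ≤ D, ∀ v, G d v → ‖Phi (col {s | p < s} v) x‖ ≤ 100 / m p * nrm v

end H94.WH

end S_ED

section S_EX

/-!
# MODULE EX: existence of exact vectors (Lemma X, section 9)

`exists_exact`: `averages` at level `n = nn p - 1` (so `{lo} ∈ K_{nn p}`), `δ` small (depending on `p` only), items `(y, u, lo, hi, J)` : X0 × V × ℕ × ℕ × ℕ with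
`R h c (y,u,lo,hi,J)`: `y ∈ Z`, supports of `y` and `u` in `[lo,hi]`, `lo ≤ hi`, `Good 5 (D+r) J' y` where J' is... NOTE: the window `[J k, J (k+1))` of `y_k` starts at `J k`, `y_k` is good for `J k`, and
`J (k+1)` is chosen after `y_k`; so the item carries its own `J` (with `Good 5 (D+r) J y`), `J` is a function of the history: `J > p+1`, `J >` previous `J`, `m J ≥ 4 m_{p+1} ∑|y_prev|`.
`u`: `exists_norming` with `c = 1/4 < 1/2 ≤ nor y`, and multiply `y` by a scalar of absolute value 1 so that `Phi u y` is a real number `≥ 1/4` (`Good` and `nor` do not change). `hR` from `base` (choose `J` first, then `y`). `u_total = pre p (∑ c_k • u_k) ∈ C` (constructor `even` with `A = {lo k}`), `nrm ≤ 1`,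
`Phi u_total x' = ∑ c_k^2 Phi u_k y_k ≥ 1/4`; `x = x' / Phi u_total x'`.
-/

set_option autoImplicit false

namespace H94.WH

open Finset

variable {𝕜 : Type} [RCLike 𝕜]

/-- items -/
structure EX_Item (𝕜 : Type) [RCLike 𝕜] where
  y : X0 𝕜
  u : V
  lo : ℕ
  hi : ℕ
  J : ℕ
  hlh : lo ≤ hi

instance : Inhabited (EX_Item 𝕜) := ⟨⟨0, 0, 0, 0, 0, le_rfl⟩⟩

/-- the rule -/
def EX_R (p D : ℕ) (Z : Submodule 𝕜 (X0 𝕜)) (h : List (EX_Item 𝕜 × ℚ)) (_c : ℚ) (t : EX_Item 𝕜) : Prop :=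
  t.y ∈ Z ∧ (∀ l ∈ t.y.support, t.lo ≤ l ∧ l ≤ t.hi) ∧ (∀ a ∈ t.u.support, t.lo ≤ a.1 ∧ a.1 ≤ t.hi) ∧
  C t.u ∧ nrm t.u ≤ 1 ∧ (∃ ρ : ℝ, 1 / 4 ≤ ρ ∧ Phi t.u t.y = (ρ : 𝕜)) ∧ Good 5 (D + 2 ^ (p + 1)) t.J t.y ∧
  p + 1 < t.J ∧ ∀ e ∈ h, e.1.J < t.J ∧ 4 * (m (p + 1) : ℝ) * ∑ l ∈ e.1.y.support, ‖e.1.y l‖ ≤ m t.J

theorem EX_chooseJ (p : ℕ) (h : List (EX_Item 𝕜 × ℚ)) : ∃ J : ℕ, p + 1 < J ∧
    ∀ e ∈ h, e.1.J < J ∧ 4 * (m (p + 1) : ℝ) * ∑ l ∈ e.1.y.support, ‖e.1.y l‖ ≤ m J := by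
  induction h with
  | nil => exact ⟨p + 2, by omega, by simp⟩
  | cons e h ih =>
    obtain ⟨J, hJ1, hJ2⟩ := ih
    obtain ⟨s, hs⟩ := exists_m_ge (4 * (m (p + 1) : ℝ) * ∑ l ∈ e.1.y.support, ‖e.1.y l‖)
    refine ⟨max J (max (e.1.J + 1) s), by omega, ?_⟩
    intro e' he'
    rcases List.mem_cons.1 he' with rfl | he'
    · refine ⟨by omega, hs.trans ?_⟩
      have : m s ≤ m (max J (max (e'.1.J + 1) s)) := m_strictMono.monotone (by omega)
      exact_mod_cast this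
    · obtain ⟨h1, h2⟩ := hJ2 e' he'
      refine ⟨by omega, h2.trans ?_⟩
      have : m J ≤ m (max J (max (e.1.J + 1) s)) := m_strictMono.monotone (by omega)
      exact_mod_cast this

theorem EX_unimod (w : 𝕜) (hw : 0 < ‖w‖) : ∃ z : 𝕜, ‖z‖ = 1 ∧ z * w = ((‖w‖ : ℝ) : 𝕜) := by
  refine ⟨(starRingEnd 𝕜) w * (((‖w‖)⁻¹ : ℝ) : 𝕜), ?_, ?_⟩
  · rw [norm_mul, RCLike.norm_conj, RCLike.norm_ofReal, abs_of_pos (inv_pos.2 hw), mul_inv_cancel₀ hw.ne']
  · have h1 : (starRingEnd 𝕜) w * w = ((‖w‖ ^ 2 : ℝ) : 𝕜) := by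
      rw [RCLike.conj_mul]; norm_cast
    rw [mul_right_comm, h1, ← RCLike.ofReal_mul]
    congr 1
    field_simp

theorem EX_hR (p D : ℕ) {Z : Submodule 𝕜 (X0 𝕜)} (hZ : Far Z) (h : List (EX_Item 𝕜 × ℚ)) (c : ℚ) (N : ℕ) :
    ∃ t : EX_Item 𝕜, EX_R p D Z h c t ∧ N < t.lo := by
  obtain ⟨J, hJ1, hJ2⟩ := EX_chooseJ p h
  obtain ⟨y, hyZ, hgood, hnor, hsup⟩ := base hZ (D + 2 ^ (p + 1)) J N
  obtain ⟨hi, hhi1, hhi2⟩ : ∃ hi : ℕ, N + 1 ≤ hi ∧ ∀ l ∈ y.support, l ≤ hi :=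
    ⟨max (N + 1) (y.support.sup id), le_max_left _ _,
      fun l hl => le_max_of_le_right (Finset.le_sup (f := id) hl)⟩
  have hJc : (Set.Icc (N + 1) hi).OrdConnected := Set.ordConnected_Icc
  obtain ⟨u, hu1, hu2, hu3, hu4⟩ := exists_norming hJc (x := y)
    (fun l hl => ⟨hsup l hl, hhi2 l hl⟩) (c := 1 / 4) (by linarith)
  obtain ⟨z, hz1, hz2⟩ := EX_unimod (Phi u y) (by linarith)
  refine ⟨⟨z • y, u, N + 1, hi, J, hhi1⟩, ⟨Z.smul_mem z hyZ, ?_, fun a ha => hu3 a ha, hu1, hu2,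
    ⟨‖Phi u y‖, hu4.le, ?_⟩, ?_, hJ1, hJ2⟩, Nat.lt_succ_self _⟩
  · intro l hl
    have : l ∈ y.support := Finsupp.support_smul hl
    exact ⟨hsup l this, hhi2 l this⟩
  · show Phi u (z • y) = _
    rw [Phi_smul_right, hz2]
  · intro d hd v hv
    have hh := hgood d hd v hv
    simp only [Phi_smul_right, norm_mul, hz1, one_mul]
    exact hh

theorem EX_ivals {M : ℕ} {lo hi : ℕ → ℕ} (hI : Ivals M lo hi) {i j : ℕ} (hij : i < j) (hj : j < M) :
    hi i < lo j := by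
  induction j with
  | zero => omega
  | succ j ih =>
    rcases Nat.lt_succ_iff_lt_or_eq.1 hij with h | rfl
    · have h1 := ih h (by omega)
      have h2 := hI.1 j (by omega)
      have h3 := hI.2 j hj
      omega
    · exact hI.2 i hj

theorem EX_lo_le {M : ℕ} {lo hi : ℕ → ℕ} (hI : Ivals M lo hi) {i j : ℕ} (hij : i ≤ j) (hj : j < M) :
    lo i ≤ lo j := by
  rcases Nat.lt_or_eq_of_le hij with h | rfl
  · have := EX_ivals hI h hj
    have := hI.1 i (by omega)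
    omega
  · exact le_rfl

theorem EX_hi_le {M : ℕ} {lo hi : ℕ → ℕ} (hI : Ivals M lo hi) {i j : ℕ} (hij : i ≤ j) (hj : j < M) :
    hi i ≤ hi j := by
  rcases Nat.lt_or_eq_of_le hij with h | rfl
  · have := EX_ivals hI h hj
    have := hI.1 j hj
    omega
  · exact le_rfl

theorem EX_res_cell {M : ℕ} {lo hi : ℕ → ℕ} (hI : Ivals M lo hi) (u : ℕ → V) (c : ℕ → ℚ)
    (hu : ∀ k < M, ∀ a ∈ (u k).support, lo k ≤ a.1 ∧ a.1 ≤ hi k) {k : ℕ} (hk : k < M) :
    res (cell ((Finset.range M).image lo) (lo k)) (∑ i ∈ Finset.range M, c i • u i) = c k • u k := by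
  rw [res_sum, Finset.sum_eq_single_of_mem k (Finset.mem_range.2 hk)]
  · rw [res_smul, res_eq_self]
    intro p hp
    have h1 := hu k hk p hp
    refine ⟨h1.1, ?_⟩
    intro a' ha' hlt
    obtain ⟨j, hj, rfl⟩ := Finset.mem_image.1 ha'
    have hj' := Finset.mem_range.1 hj
    have hkj : k < j := by
      by_contra hcon
      have := EX_lo_le hI (not_lt.1 hcon) hk
      omega
    have := EX_ivals hI hkj hj'
    omega
  · intro i hi' hik
    have hi'' := Finset.mem_range.1 hi'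
    rw [res_smul, res_eq_zero, smul_zero]
    intro p hp hmem
    have h1 := hu i hi'' p hp
    rcases Nat.lt_or_gt_of_ne hik with h | h
    · have h2 := EX_ivals hI h hk
      have h3 := hmem.1
      omega
    · have h2 := EX_ivals hI h hi''
      have h2' := hI.1 k hk
      have h3 := hmem.2 (lo i) (Finset.mem_image_of_mem _ hi') (by omega)
      omega

theorem EX_disj {M : ℕ} {lo hi : ℕ → ℕ} (hI : Ivals M lo hi) {i j : ℕ} (hi' : i < M) (hj : j < M) (hij : i ≠ j)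
    {l : ℕ} (h1 : lo i ≤ l ∧ l ≤ hi i) (h2 : lo j ≤ l ∧ l ≤ hi j) : False := by
  rcases Nat.lt_or_gt_of_ne hij with h | h
  · have := EX_ivals hI h hj
    omega
  · have := EX_ivals hI h hi'
    omega

theorem EX_final {p : ℕ} (hp : 2 ≤ p) (hpe : Even p) {D : ℕ} {Z : Submodule 𝕜 (X0 𝕜)} {M : ℕ} (hM : 0 < M)
    {lo hi : ℕ → ℕ} (hI : Ivals M lo hi) (y : ℕ → X0 𝕜) (u : ℕ → V) (c : ℕ → ℚ) (ρ : ℕ → ℝ)
    (hyZ : ∀ k < M, y k ∈ Z) (hy : ∀ k < M, ∀ l ∈ (y k).support, lo k ≤ l ∧ l ≤ hi k)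
    (hu : ∀ k < M, ∀ a ∈ (u k).support, lo k ≤ a.1 ∧ a.1 ≤ hi k)
    (hC : ∀ k < M, C (u k)) (hn : ∀ k < M, nrm (u k) ≤ 1) (hρ : ∀ k < M, 1 / 4 ≤ ρ k ∧ Phi (u k) (y k) = (ρ k : 𝕜))
    (hc : ∑ k ∈ Finset.range M, (c k) ^ 2 = 1) (hK : Kset (nn p) ((Finset.range M).image lo))
    (hest : ∀ d ≤ D, ∀ v, G d v →
      ‖Phi v ((m p : ℝ) • ∑ k ∈ Finset.range M, (c k : ℝ) • y k)‖ ≤ 17 * nrm v ∧
      (∀ s, 1 ≤ s → s < p → ‖Phi (col {s} v) ((m p : ℝ) • ∑ k ∈ Finset.range M, (c k : ℝ) • y k)‖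
        ≤ 17 / m s * nrm v) ∧
      ‖Phi (col {s | p < s} v) ((m p : ℝ) • ∑ k ∈ Finset.range M, (c k : ℝ) • y k)‖ ≤ 12 / m p * nrm v) :
    ∃ x u', x ∈ Z ∧ Exact p D x u' (lo 0) (hi (M - 1)) := by
  classical
  set x' : X0 𝕜 := (m p : ℝ) • ∑ k ∈ Finset.range M, (c k : ℝ) • y k with hx'
  set w : V := ∑ i ∈ Finset.range M, c i • u i with hw
  have hcR : ∑ k ∈ Finset.range M, (c k : ℝ) ^ 2 = 1 := by
    have := congrArg (fun q : ℚ => (q : ℝ)) hc
    push_cast at this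
    exact this
  have hreal : ∀ (r : ℝ) (x : X0 𝕜), r • x = (r : 𝕜) • x := fun r x => RCLike.real_smul_eq_coe_smul r x
  -- membership
  have hx'Z : x' ∈ Z := by
    rw [hx', hreal]
    apply Z.smul_mem
    apply Z.sum_mem
    intro k hk
    rw [hreal]
    exact Z.smul_mem _ (hyZ k (Finset.mem_range.1 hk))
  have hxsupp : ∀ l ∈ x'.support, lo 0 ≤ l ∧ l ≤ hi (M - 1) := by
    intro l hl
    rw [hx'] at hl
    have h1 := Finsupp.support_smul hl
    have h2 := Finsupp.support_finsetSum h1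
    obtain ⟨k, hk, hl2⟩ := Finset.mem_biUnion.1 h2
    have hk' := Finset.mem_range.1 hk
    have h3 := hy k hk' l (Finsupp.support_smul hl2)
    exact ⟨(EX_lo_le hI (Nat.zero_le k) hk').trans h3.1, h3.2.trans (EX_hi_le hI (by omega) (by omega))⟩
  have hwsupp : ∀ a ∈ w.support, ∃ k < M, lo k ≤ a.1 ∧ a.1 ≤ hi k := by
    intro a ha
    rw [hw] at ha
    have h2 := Finsupp.support_finsetSum ha
    obtain ⟨k, hk, hl2⟩ := Finset.mem_biUnion.1 h2
    have hk' := Finset.mem_range.1 hk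
    exact ⟨k, hk', hu k hk' a (Finsupp.support_smul hl2)⟩
  have hwC : C (pre p w) := by
    refine C.even p (by omega) hpe w _ hK ?_ ?_
    · intro a ha
      obtain ⟨k, hk, h1, -⟩ := hwsupp a ha
      exact ⟨lo k, Finset.mem_image_of_mem _ (Finset.mem_range.2 hk), h1⟩
    · intro a ha
      obtain ⟨k, hk, rfl⟩ := Finset.mem_image.1 ha
      have hk' := Finset.mem_range.1 hk
      rw [hw, EX_res_cell hI u c hu hk']
      exact C.smul _ (hC k hk')
  have hnw : nrm (pre p w) ≤ 1 := by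
    rw [nrm_pre]
    have h1 : nrm w ^ 2 = ∑ k ∈ Finset.range M, nrm (c k • u k) ^ 2 := by
      rw [hw]
      refine nrm_sum_sq (Finset.range M) (fun k => Set.Icc (lo k) (hi k)) ?_ _ ?_
      · intro i hi' j hj hij
        rw [Set.disjoint_left]
        intro l h1 h2
        exact EX_disj hI (Finset.mem_range.1 hi') (Finset.mem_range.1 hj) hij h1 h2
      · intro k hk a ha
        exact hu k (Finset.mem_range.1 hk) a (Finsupp.support_smul ha)
    have h2 : nrm w ^ 2 ≤ 1 := by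
      rw [h1, ← hcR]
      refine Finset.sum_le_sum fun k hk => ?_
      rw [nrm_smul, mul_pow, sq_abs]
      have h3 := hn k (Finset.mem_range.1 hk)
      have h4 := nrm_nonneg (u k)
      have h5 : nrm (u k) ^ 2 ≤ 1 := by nlinarith
      nlinarith [sq_nonneg (c k : ℝ)]
    nlinarith [nrm_nonneg w]
  -- the value
  obtain ⟨r, hr⟩ : ∃ r : ℝ, r = ∑ k ∈ Finset.range M, (c k : ℝ) ^ 2 * ρ k := ⟨_, rfl⟩
  have hr4 : 1 / 4 ≤ r := by
    have h1 : ∑ k ∈ Finset.range M, (c k : ℝ) ^ 2 * (1 / 4) ≤ ∑ k ∈ Finset.range M, (c k : ℝ) ^ 2 * ρ k :=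
      Finset.sum_le_sum fun k hk =>
        mul_le_mul_of_nonneg_left (hρ k (Finset.mem_range.1 hk)).1 (sq_nonneg _)
    rw [← Finset.sum_mul, hcR, one_mul] at h1
    rw [hr]; exact h1
  have hr0 : 0 < r := by linarith
  have hval : Phi (pre p w) x' = (r : 𝕜) := by
    rw [Phi_pre, hx', Phi_smul_real, ← mul_assoc, ← RCLike.ofReal_mul, inv_mul_cancel₀ (m_pos p).ne',
      RCLike.ofReal_one, one_mul, hw, Phi_sum_left, hr]
    push_cast
    refine Finset.sum_congr rfl fun i hi' => ?_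
    have hi'' := Finset.mem_range.1 hi'
    rw [Phi_smul_left, Phi_sum_right, Finset.sum_eq_single_of_mem i hi']
    · rw [Phi_smul_real, (hρ i hi'').2]
      push_cast
      ring
    · intro j hj hji
      have hj' := Finset.mem_range.1 hj
      rw [Phi_smul_real, Phi_eq_zero_of_disj, mul_zero]
      intro a ha hmem
      exact EX_disj hI hj' hi'' hji (hy j hj' _ hmem) (hu i hi'' a ha)
  have hsc : ∀ v : V, ‖Phi v ((r⁻¹ : ℝ) • x')‖ ≤ 4 * ‖Phi v x'‖ := by
    intro v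
    rw [Phi_smul_real, norm_mul, RCLike.norm_ofReal, abs_of_pos (inv_pos.2 hr0)]
    have h1 : r⁻¹ ≤ 4 := by
      rw [inv_le_comm₀ hr0 (by norm_num)]
      linarith
    exact mul_le_mul_of_nonneg_right h1 (norm_nonneg _)
  refine ⟨(r⁻¹ : ℝ) • x', pre p w, ?_, ?_⟩
  · rw [hreal]; exact Z.smul_mem _ hx'Z
  · refine ⟨(EX_lo_le hI (Nat.zero_le _) (by omega)).trans (hI.1 (M - 1) (by omega)), ?_, ?_, hwC, hnw,
      col_pre_mem (Set.mem_singleton p) w, ?_, ?_, ?_, ?_⟩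
    · intro l hl
      exact hxsupp l (Finsupp.support_smul hl)
    · intro a ha
      obtain ⟨q, hq, rfl⟩ := mem_pre.1 ha
      obtain ⟨k, hk, h1, h2⟩ := hwsupp q hq
      exact ⟨(EX_lo_le hI (Nat.zero_le k) hk).trans h1, h2.trans (EX_hi_le hI (by omega) (by omega))⟩
    · rw [Phi_smul_real, hval, ← RCLike.ofReal_mul, inv_mul_cancel₀ hr0.ne', RCLike.ofReal_one]
    · intro d hd v hv
      have h1 := (hest d hd v hv).1
      have h2 := hsc v
      have h3 := nrm_nonneg v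
      linarith
    · intro d hd v hv s hs1 hs2
      have h1 := (hest d hd v hv).2.1 s hs1 hs2
      have h2 := hsc (col {s} v)
      have h3 := nrm_nonneg v
      have h4 := m_pos s
      have h5 : 4 * (17 / (m s : ℝ) * nrm v) ≤ 100 / m s * nrm v := by
        have : (100 / (m s : ℝ)) * nrm v - 4 * (17 / (m s : ℝ) * nrm v) = 32 / m s * nrm v := by ring
        have h6 : 0 ≤ 32 / (m s : ℝ) * nrm v := by positivity
        linarith
      linarith
    · intro d hd v hv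
      have h1 := (hest d hd v hv).2.2
      have h2 := hsc (col {s | p < s} v)
      have h3 := nrm_nonneg v
      have h4 := m_pos p
      have h5 : 4 * (12 / (m p : ℝ) * nrm v) ≤ 100 / m p * nrm v := by
        have : (100 / (m p : ℝ)) * nrm v - 4 * (12 / (m p : ℝ) * nrm v) = 52 / m p * nrm v := by ring
        have h6 : 0 ≤ 52 / (m p : ℝ) * nrm v := by positivity
        linarith
      linarith

theorem exists_exact {p : ℕ} (hp : 2 ≤ p) (hpe : Even p) {D : ℕ} (hD : D ≤ nn (p - 1))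
    {Z : Submodule 𝕜 (X0 𝕜)} (hZ : Far Z) (N : ℕ) :
    ∃ x u lo hi, x ∈ Z ∧ N < lo ∧ Exact p D x u lo hi := by
  classical
  obtain ⟨b0, hb0⟩ := exists_le_g (p + 5)
  have hYY : 0 ≤ YY p 5 0 := by unfold YY; positivity
  obtain ⟨κ, hκ⟩ : ∃ κ : ℝ, κ = (m p : ℝ) ^ 2 * (YY p 5 0 + 5) := ⟨_, rfl⟩
  have hκ0 : 0 < κ := by
    rw [hκ]
    have := m_pos p
    positivity
  obtain ⟨M, t, c, hM, hc0, hR, hN, hsucc, hc, hKhi, hKlo, hsm⟩ := averages (T := EX_Item 𝕜) (fun t => t.lo)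
    (fun t => t.hi) (fun t => t.hlh) (EX_R p D Z) (fun h c N _ => EX_hR p D hZ h c N) (nn p - 1) ((κ⁻¹) ^ 2)
    (by positivity) (max N b0)
  have h1nn : nn p - 1 + 1 = nn p := Nat.sub_add_cancel (one_le_nn p)
  rw [h1nn] at hKlo
  have hI : Ivals M (fun k => (t k).lo) (fun k => (t k).hi) := ⟨fun k _ => (t k).hlh, hsucc⟩
  -- the function J
  obtain ⟨JM, hJM1, hJM2⟩ := EX_chooseJ (𝕜 := 𝕜) p [(t (M - 1), (1 : ℚ))]
  have hJM2' := hJM2 (t (M - 1), 1) (by simp)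
  have hstep : ∀ k, k + 1 < M → (t k).J < (t (k + 1)).J ∧
      4 * (m (p + 1) : ℝ) * ∑ l ∈ (t k).y.support, ‖(t k).y l‖ ≤ m (t (k + 1)).J := by
    intro k hk
    obtain ⟨-, -, -, -, -, -, -, -, h9⟩ := hR (k + 1) hk
    exact h9 (t k, c k) (List.mem_map.2 ⟨k, List.mem_range.2 (by omega), rfl⟩)
  choose! ρ hρ using fun k (hk : k < M) => (hR k hk).2.2.2.2.2.1
  have hest := fun d (hd : d ≤ D) v (hv : G d v) => ris_estimates (𝕜 := 𝕜) hp hD hM hI
    (y := fun k => (t k).y) (fun k => (c k : ℝ)) (fun k => if k < M then (t k).J else JM + (k - M))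
    (fun k hk => (hR k hk).2.1)
    (fun k hk => by
      simp only [hk, if_true]
      exact (hR k hk).2.2.2.2.2.2.1)
    (by
      simp only [hM, if_true]
      exact (hR 0 hM).2.2.2.2.2.2.2.1)
    (fun k => by
      rcases lt_trichotomy (k + 1) M with h | h | h
      · have h' : k < M := by omega
        simp only [h, h', if_true]
        exact (hstep k h).1
      · have h' : k < M := by omega
        have h'' : ¬ (k + 1 < M) := by omega
        have h3 : k = M - 1 := by omega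
        simp only [h', h'', if_true, if_false]
        rw [h3]
        have := hJM2'.1
        simp only at this
        omega
      · have h' : ¬ (k < M) := by omega
        have h'' : ¬ (k + 1 < M) := by omega
        simp only [h', h'', if_false]
        omega)
    (fun k hk => by
      rcases Nat.lt_or_ge (k + 1) M with h | h
      · simp only [h, if_true]
        exact (hstep k h).2
      · have h'' : ¬ (k + 1 < M) := by omega
        have h3 : k = M - 1 := by omega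
        have h4 : k + 1 - M = 0 := by omega
        simp only [h'', if_false, h4, add_zero]
        rw [h3]
        exact hJM2'.2)
    (hb0.trans (g_mono ((le_max_right N b0).trans hN.le)))
    (δ := (κ⁻¹) ^ 2) (by positivity)
    (by
      rw [Real.sqrt_sq (by positivity), ← hκ, mul_inv_cancel₀ hκ0.ne'])
    (by
      have := congrArg (fun q : ℚ => (q : ℝ)) hc
      push_cast at this
      exact this)
    hsm hd hv
  obtain ⟨x, u', hxZ, hE⟩ := EX_final hp hpe hM hI (fun k => (t k).y) (fun k => (t k).u) c ρ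
    (fun k hk => (hR k hk).1) (fun k hk => (hR k hk).2.1) (fun k hk => (hR k hk).2.2.1)
    (fun k hk => (hR k hk).2.2.2.1) (fun k hk => (hR k hk).2.2.2.2.1) hρ hc hKlo hest
  exact ⟨x, u', _, _, hxZ, lt_of_le_of_lt (le_max_left _ _) hN, hE⟩

end H94.WH

end S_EX

section S_HQ

/-!
# MODULE HQ: the conditional estimate (hypothesis hq of Lemma IS for special vectors, section 10)

`w k = c k • u k`, `p k = code q ((List.range k).map w)`, `x k` exact of weight `p k ≥ q + 2` (pairwise different by `code_inj`). `V' = comp q v ∈ G_{nn q + d}` (`G.comp_mem`), all its root symbols are `≥ q + 2` (`G.comp_odd`).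
`Phi (col {q} v) x = (m q)⁻¹ Phi V' x` (`Phi_col_single`). For `k ∈ Ico α β`, `V'_k = res [lo k, hi k] V' = col {p k} V'_k + col {s | q < s ∧ s < p k} V'_k + col {s | p k < s} V'_k`.
Rest: `e2` with `abs_Phi_range_le` and `e3` (`1/m (p k) ≤ 1/m (q+1)`): `≤ 300/m_{q+1} nrm V'_k`; sum: `sum_abs_mul_nrm_le`.
Main part `P_k = Phi (col {p k} V'_k) (x k)`, `λ_k = nrm (col {p k} V'_k)`. Take `Ch, γ` from `qlemma` (b = 0). `k ∈ Ch`: `|P_k| ≤ 100 λ_k`. `k ∉ Ch`: `P_k = γ_k * Phi (w k) (x k) = γ_k c_k`, `|γ_k| c_k nrm (u k) = λ_k` and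
`nrm (u k) ≥ 1/100` (`1 = Phi (u k) (x k) ≤ 100 nrm (u k)`). So the `k`-th term is `(-1)^k c_k^2 γ_k`, `|..| ≤ 100 c_k λ_k`. Pair `k = 2j, 2j+1`: if both are in `Ico α β \ Ch` the two terms cancel
(`γ` equal, `c` equal). Otherwise, if `k ∈ Ico α β \ Ch` and its partner `k'` is in `Ch ∩ Ico α β`: `100 c_k λ_k = 100 c_{k'} λ_k`; if the partner is not in `Ico α β` then `k = α` or `k = β - 1`.
`∑_k 100 c_{k'} λ_k ≤ 100 nrm V' l2 c Ch`. `B = (Ch ∩ Ico α β) ∪ ({α, β-1} ∩ Ico α β)`, `B.image hi ∈ K_{d+2}`. Total: `(m q)⁻¹ nrm v (300/m_{q+1} l2 + 300 l2_B)`.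
-/

set_option autoImplicit false

namespace H94.WH

open Finset

variable {𝕜 : Type} [RCLike 𝕜]

private lemma HQ_ivals_lt {M : ℕ} {lo hi : ℕ → ℕ} (hI : Ivals M lo hi) :
    ∀ j i : ℕ, i < j → j < M → hi i < lo j := by
  intro j
  induction j with
  | zero => intro i hi; omega
  | succ j ih =>
    intro i hij hjM
    rcases Nat.lt_succ_iff_lt_or_eq.mp hij with h | h
    · have h1 := ih i h (by omega)
      have h2 := hI.1 j (by omega)
      have h3 := hI.2 j hjM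
      omega
    · subst h
      exact hI.2 i hjM

private lemma HQ_disj {M : ℕ} {lo hi : ℕ → ℕ} (hI : Ivals M lo hi) {i j : ℕ} (hi' : i < M)
    (hj : j < M) (hij : i ≠ j) :
    Disjoint (Set.Icc (lo i) (hi i)) (Set.Icc (lo j) (hi j)) := by
  rw [Set.disjoint_left]
  rintro l ⟨h1, h2⟩ ⟨h3, h4⟩
  rcases lt_or_gt_of_ne hij with h | h
  · have := HQ_ivals_lt hI j i h hj
    omega
  · have := HQ_ivals_lt hI i j h hi'
    omega

/-- the part of `v` away from the symbol `p` -/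
private lemma HQ_rest {q p D : ℕ} (hqp : q + 2 ≤ p) {x : X0 𝕜} {u : V} {lo hi : ℕ}
    (hE : Exact p D x u lo hi) {e : ℕ} (he : e ≤ D) {v : V} (hv : G e v)
    (hcol : col {s | q + 2 ≤ s} v = v) :
    ‖Phi v x - Phi (col {p} v) x‖ ≤ 300 / m (q + 1) * nrm v := by
  have h1 : col {s | q < s} v = v := by
    have e1 : ({s | q < s} : Set ℕ) ∩ {s | q + 2 ≤ s} = {s | q + 2 ≤ s} := by
      ext s
      simp only [Set.mem_inter_iff, Set.mem_ofPred_eq]
      omega
    calc col {s | q < s} v = col {s | q < s} (col {s | q + 2 ≤ s} v) := by rw [hcol]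
      _ = col {s | q + 2 ≤ s} v := by rw [col_col, e1]
      _ = v := hcol
  have h2 : ({s | q < s} : Set ℕ) = {s | q < s ∧ s < p} ∪ ({p} ∪ {s | p < s}) := by
    ext s
    simp only [Set.mem_ofPred_eq, Set.mem_union, Set.mem_singleton_iff]
    omega
  have d1 : Disjoint ({s | q < s ∧ s < p} : Set ℕ) ({p} ∪ {s | p < s}) := by
    rw [Set.disjoint_left]
    intro s hs
    simp only [Set.mem_ofPred_eq, Set.mem_union, Set.mem_singleton_iff] at hs ⊢
    omega
  have d2 : Disjoint ({p} : Set ℕ) {s | p < s} := by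
    rw [Set.disjoint_left]
    intro s hs
    simp only [Set.mem_ofPred_eq, Set.mem_singleton_iff] at hs ⊢
    omega
  have h3 : v = col {s | q < s ∧ s < p} v + (col {p} v + col {s | p < s} v) := by
    rw [← col_union d2, ← col_union d1, ← h2, h1]
  have h4 : Phi v x = Phi (col {s | q < s ∧ s < p} v) x
      + (Phi (col {p} v) x + Phi (col {s | p < s} v) x) := by
    conv_lhs => rw [h3]
    rw [Phi_add_left, Phi_add_left]
  have h5 : Phi v x - Phi (col {p} v) x = Phi (col {s | q < s ∧ s < p} v) x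
      + Phi (col {s | p < s} v) x := by
    rw [h4]; ring
  have h6 : ‖Phi (col {s | q < s ∧ s < p} v) x‖ ≤ 2 * 100 / m (q + 1) * nrm v := by
    apply abs_Phi_range_le q p v x 100 (by norm_num)
    intro s hs1 hs2
    exact hE.e2 e he v hv s (by omega) hs2
  have h7 : ‖Phi (col {s | p < s} v) x‖ ≤ 100 / m (q + 1) * nrm v := by
    refine (hE.e3 e he v hv).trans ?_
    apply mul_le_mul_of_nonneg_right _ (nrm_nonneg v)
    have h8 : (m (q + 1) : ℝ) ≤ m p := by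
      exact_mod_cast m_strictMono.monotone (show q + 1 ≤ p by omega)
    exact div_le_div_of_nonneg_left (by norm_num) (m_pos _) h8
  rw [h5]
  calc ‖Phi (col {s | q < s ∧ s < p} v) x + Phi (col {s | p < s} v) x‖
      ≤ ‖Phi (col {s | q < s ∧ s < p} v) x‖ + ‖Phi (col {s | p < s} v) x‖ := norm_add_le _ _
    _ ≤ 2 * 100 / m (q + 1) * nrm v + 100 / m (q + 1) * nrm v := add_le_add h6 h7
    _ = 300 / m (q + 1) * nrm v := by ring

/-- partner of an index -/
private def HQ_par (k : ℕ) : ℕ := if k % 2 = 0 then k + 1 else k - 1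

private lemma HQ_par_par (k : ℕ) : HQ_par (HQ_par k) = k := by
  unfold HQ_par
  split_ifs <;> omega

private lemma HQ_par_ne (k : ℕ) : HQ_par k ≠ k := by
  unfold HQ_par
  split_ifs <;> omega

private lemma HQ_par_pow (k : ℕ) : ((-1 : ℝ)) ^ (HQ_par k) = -((-1) ^ k) := by
  unfold HQ_par
  split_ifs with h
  · rw [pow_succ]; ring
  · obtain ⟨j, rfl⟩ : ∃ j, k = j + 1 := ⟨k - 1, by omega⟩
    rw [Nat.add_sub_cancel, pow_succ]; ring

private lemma HQ_par_c {M M' : ℕ} (hM : M = 2 * M') {c : ℕ → ℚ}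
    (hpair : ∀ j < M', c (2 * j + 1) = c (2 * j)) {k : ℕ} (hk : k < M) : c (HQ_par k) = c k := by
  unfold HQ_par
  split_ifs with h
  · have h1 := hpair (k / 2) (by omega)
    have e1 : 2 * (k / 2) = k := by omega
    rw [e1] at h1
    exact h1
  · have h1 := hpair (k / 2) (by omega)
    have e1 : 2 * (k / 2) = k - 1 := by omega
    have e2 : k - 1 + 1 = k := by omega
    rw [e1, e2] at h1
    exact h1.symm

theorem qpart_estimate {q : ℕ} (hq : Odd q) {M M' : ℕ} (hM : M = 2 * M') {x : ℕ → X0 𝕜} {u : ℕ → V} {c : ℕ → ℚ}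
    {lo hi : ℕ → ℕ} (hI : Ivals M lo hi) (hc : ∀ k < M, 0 < c k) (hpair : ∀ j < M', c (2 * j + 1) = c (2 * j))
    {D : ℕ} (hex : ∀ k < M, Exact (code q ((List.range k).map (fun i => c i • u i))) D (x k) (u k) (lo k) (hi k))
    {d : ℕ} (hd : nn q + d ≤ D) {v : V} (hv : G d v) {α β : ℕ} (hβ : β ≤ M) :
    ∃ B ⊆ Finset.Ico α β, Kset (d + 3) (B.image hi) ∧
      ‖Phi (col {q} v) (∑ k ∈ Finset.Ico α β, ((-1) ^ k * (c k : ℝ)) • x k)‖ ≤
        nrm v * (300 / (m q * m (q + 1)) * l2 (fun k => (-1) ^ k * (c k : ℝ)) (Finset.Ico α β) +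
          300 / m q * l2 (fun k => (-1) ^ k * (c k : ℝ)) B) := by
  classical
  have hq1 : 1 ≤ q := hq.pos
  set w : ℕ → V := fun i => c i • u i with hwdef
  set pk : ℕ → ℕ := fun k => code q ((List.range k).map w) with hpk
  set a : ℕ → ℝ := fun k => (-1) ^ k * (c k : ℝ) with hadef
  set A := Finset.Ico α β with hA
  have hAM : ∀ k ∈ A, k < M := fun k hk => lt_of_lt_of_le (Finset.mem_Ico.mp hk).2 hβ
  obtain ⟨V', hV'def⟩ : ∃ V', V' = comp q v := ⟨_, rfl⟩
  have hV' : G (nn q + d) V' := by rw [hV'def]; exact G.comp_mem hv hq1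
  have hV'col : col {s | q + 2 ≤ s} V' = V' := by rw [hV'def]; exact G.comp_odd hv hq
  obtain ⟨J, hJdef⟩ : ∃ J : ℕ → Set ℕ, J = fun k => Set.Icc (lo k) (hi k) := ⟨_, rfl⟩
  have hJd : ∀ i ∈ A, ∀ j ∈ A, i ≠ j → Disjoint (J i) (J j) := by
    intro i hiA j hjA hij
    rw [hJdef]
    exact HQ_disj hI (hAM i hiA) (hAM j hjA) hij
  have hVk : ∀ k, G (nn q + d) (res (J k) V') := by
    intro k
    rw [hJdef]
    exact hV'.res Set.ordConnected_Icc
  have hVkcol : ∀ k, col {s | q + 2 ≤ s} (res (J k) V') = res (J k) V' := by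
    intro k
    rw [← res_col, hV'col]
  -- the q-lemma
  have hwI : ∀ k < M, ∀ p ∈ (w k).support, lo k ≤ p.1 ∧ p.1 ≤ hi k := by
    intro k hk p hp
    exact (hex k hk).hu p (Finsupp.support_smul hp)
  have hwc : ∀ k < M, col {code q ((List.range k).map w)} (w k) = w k := by
    intro k hk
    show col _ (c k • u k) = c k • u k
    rw [col_smul, (hex k hk).hcol]
  obtain ⟨Ch, γ, hChM, hChK, -, hγ, hγeq⟩ := qlemma hq hI hwI hwc hv 0 (fun _ _ => Nat.zero_le _)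
  -- values
  have hPhik : ∀ k ∈ A, Phi V' (x k) = Phi (res (J k) V') (x k) := by
    intro k hk
    refine (Phi_res V' (x k) ?_).symm
    intro l hl
    rw [hJdef]
    exact (hex k (hAM k hk)).hx l hl
  have hrest : ∀ k ∈ A, ‖Phi V' (x k) - Phi (col {pk k} (res (J k) V')) (x k)‖ ≤
      300 / m (q + 1) * nrm (res (J k) V') := by
    intro k hk
    rw [hPhik k hk]
    exact HQ_rest (code_ge q _) (hex k (hAM k hk)) hd (hVk k) (hVkcol k)
  have hapos : ∀ k ∈ A, |a k| = (c k : ℝ) := by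
    intro k hk
    have h1 : (0 : ℝ) < (c k : ℝ) := by exact_mod_cast hc k (hAM k hk)
    show |(-1) ^ k * (c k : ℝ)| = _
    rw [abs_mul, abs_pow, abs_neg, abs_one, one_pow, one_mul, abs_of_pos h1]
  -- chosen terms
  have hch : ∀ k ∈ A, ‖Phi (col {pk k} (res (J k) V')) (x k)‖ ≤ 100 * nrm (res (J k) V') := by
    intro k hk
    refine ((hex k (hAM k hk)).e1 (nn q + d) hd _ ((hVk k).col _)).trans ?_
    exact mul_le_mul_of_nonneg_left (nrm_col_le _ _) (by norm_num)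
  -- unchosen terms
  have hun : ∀ k ∈ A, k ∉ Ch → Phi (col {pk k} (res (J k) V')) (x k)
      = (((γ k : ℝ) * (c k : ℝ) : ℝ) : 𝕜) := by
    intro k hk hkC
    have h1 : col {pk k} (res (J k) V') = γ k • w k := by
      rw [← res_col, hV'def, hJdef]
      exact hγ k (hAM k hk) hkC
    rw [h1, Phi_smul_left]
    show _ * Phi (c k • u k) (x k) = _
    rw [Phi_smul_left, (hex k (hAM k hk)).hPhi]
    push_cast
    ring
  -- the sums
  obtain ⟨P, hP⟩ : ∃ P : ℕ → 𝕜, P = fun k => Phi (col {pk k} (res (J k) V')) (x k) := ⟨_, rfl⟩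
  obtain ⟨T, hT⟩ : ∃ T : ℕ → 𝕜, T = fun k => ((a k : ℝ) : 𝕜) * P k := ⟨_, rfl⟩
  have hTle : ∀ k ∈ A, ‖T k‖ ≤ 100 * (|a k| * nrm (res (J k) V')) := by
    intro k hk
    rw [hT, hP]
    show ‖((a k : ℝ) : 𝕜) * Phi (col {pk k} (res (J k) V')) (x k)‖ ≤ _
    rw [norm_mul, RCLike.norm_ofReal]
    calc |a k| * ‖Phi (col {pk k} (res (J k) V')) (x k)‖
        ≤ |a k| * (100 * nrm (res (J k) V')) := mul_le_mul_of_nonneg_left (hch k hk) (abs_nonneg _)
      _ = 100 * (|a k| * nrm (res (J k) V')) := by ring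
  have hsumle : ∀ B ⊆ A, ‖∑ k ∈ B, T k‖ ≤ 100 * (nrm V' * l2 a B) := by
    intro B hB
    calc ‖∑ k ∈ B, T k‖ ≤ ∑ k ∈ B, ‖T k‖ := norm_sum_le _ _
      _ ≤ ∑ k ∈ B, 100 * (|a k| * nrm (res (J k) V')) :=
          Finset.sum_le_sum fun k hk => hTle k (hB hk)
      _ = 100 * ∑ k ∈ B, |a k| * nrm (res (J k) V') := by rw [Finset.mul_sum]
      _ ≤ 100 * (nrm V' * l2 a B) := by
          apply mul_le_mul_of_nonneg_left _ (by norm_num)
          exact sum_abs_mul_nrm_le B J (fun i hi' j hj hij => hJd i (hB hi') j (hB hj) hij) V' a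
  -- index sets
  set CA := A.filter (fun k => k ∈ Ch) with hCA
  set U := A.filter (fun k => k ∉ Ch) with hU
  set U1 := U.filter (fun k => HQ_par k ∈ U) with hU1
  set U' := U.filter (fun k => HQ_par k ∉ U) with hU'
  set U2 := U'.filter (fun k => HQ_par k ∈ A) with hU2
  set U3 := U'.filter (fun k => HQ_par k ∉ A) with hU3
  have hUA : ∀ k ∈ U, k ∈ A ∧ k ∉ Ch := fun k hk => by
    rw [hU, Finset.mem_filter] at hk; exact hk
  have hU1sum : ∑ k ∈ U1, T k = 0 := by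
    apply Finset.sum_involution (fun k _ => HQ_par k)
    · intro k hk
      rw [hU1, Finset.mem_filter] at hk
      obtain ⟨hkU, hkpU⟩ := hk
      obtain ⟨hkA, hkC⟩ := hUA k hkU
      obtain ⟨hpA, hpC⟩ := hUA _ hkpU
      have hg : γ (HQ_par k) = γ k := by
        have hkM := hAM k hkA
        have hpM := hAM _ hpA
        unfold HQ_par at hpC hpM ⊢
        split_ifs at hpC hpM ⊢ with h
        · exact (hγeq k hpM hkC hpC).symm
        · have e2 : k - 1 + 1 = k := by omega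
          have := hγeq (k - 1) (by omega) hpC (by rw [e2]; exact hkC)
          rw [e2] at this
          exact this
      have hcc : c (HQ_par k) = c k := HQ_par_c hM hpair (hAM k hkA)
      rw [hT, hP]
      show ((a k : ℝ) : 𝕜) * Phi (col {pk k} (res (J k) V')) (x k) +
        ((a (HQ_par k) : ℝ) : 𝕜) *
          Phi (col {pk (HQ_par k)} (res (J (HQ_par k)) V')) (x (HQ_par k)) = 0
      rw [hun k hkA hkC, hun _ hpA hpC, hg, hcc]
      have ha : a (HQ_par k) = - a k := by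
        show (-1) ^ (HQ_par k) * (c (HQ_par k) : ℝ) = -((-1) ^ k * (c k : ℝ))
        rw [HQ_par_pow, hcc]; ring
      rw [ha]
      push_cast
      ring
    · intro k _ _
      exact HQ_par_ne k
    · intro k hk
      rw [hU1, Finset.mem_filter] at hk ⊢
      exact ⟨hk.2, by rw [HQ_par_par]; exact hk.1⟩
    · intro k _
      exact HQ_par_par k
  have hsplit : ∑ k ∈ A, T k = ∑ k ∈ CA, T k + (∑ k ∈ U2, T k + ∑ k ∈ U3, T k) := by
    have e1 : ∑ k ∈ A, T k = ∑ k ∈ CA, T k + ∑ k ∈ U, T k :=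
      (Finset.sum_filter_add_sum_filter_not A (fun k => k ∈ Ch) T).symm
    have e2 : ∑ k ∈ U, T k = ∑ k ∈ U1, T k + ∑ k ∈ U', T k :=
      (Finset.sum_filter_add_sum_filter_not U (fun k => HQ_par k ∈ U) T).symm
    have e3 : ∑ k ∈ U', T k = ∑ k ∈ U2, T k + ∑ k ∈ U3, T k :=
      (Finset.sum_filter_add_sum_filter_not U' (fun k => HQ_par k ∈ A) T).symm
    rw [e1, e2, e3, hU1sum, zero_add]
  have hCAA : CA ⊆ A := Finset.filter_subset _ _
  have hU'A : U' ⊆ A := (Finset.filter_subset _ _).trans (Finset.filter_subset _ _)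
  have hU2A : U2 ⊆ A := (Finset.filter_subset _ _).trans hU'A
  have hU3A : U3 ⊆ A := (Finset.filter_subset _ _).trans hU'A
  set Bd := A.filter (fun k => k = α ∨ k = β - 1) with hBd
  have hBdA : Bd ⊆ A := Finset.filter_subset _ _
  have hU3B : U3 ⊆ Bd := by
    intro k hk
    have hkA := hU3A hk
    rw [hU3, Finset.mem_filter] at hk
    rw [hBd, Finset.mem_filter]
    refine ⟨hkA, ?_⟩
    have h1 := hk.2
    rw [hA, Finset.mem_Ico] at h1 hkA
    unfold HQ_par at h1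
    split_ifs at h1 with h
    · right; omega
    · left; omega
  have hU2l2 : l2 a U2 ≤ l2 a CA := by
    have e1 : l2 a U2 = l2 a (U2.image HQ_par) := by
      unfold l2
      congr 1
      rw [Finset.sum_image]
      · apply Finset.sum_congr rfl
        intro k hk
        have hkA := hU2A hk
        have hcc : c (HQ_par k) = c k := HQ_par_c hM hpair (hAM k hkA)
        show ((-1) ^ k * (c k : ℝ)) ^ 2 = ((-1) ^ (HQ_par k) * (c (HQ_par k) : ℝ)) ^ 2
        rw [HQ_par_pow, hcc]; ring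
      · intro i _ j _ hij
        have := congrArg HQ_par hij
        rwa [HQ_par_par, HQ_par_par] at this
    rw [e1]
    apply l2_mono
    intro j hj
    rw [Finset.mem_image] at hj
    obtain ⟨k, hk, rfl⟩ := hj
    rw [hU2, Finset.mem_filter, hU', Finset.mem_filter] at hk
    obtain ⟨⟨hkU, hkpU⟩, hkpA⟩ := hk
    rw [hCA, Finset.mem_filter]
    refine ⟨hkpA, ?_⟩
    by_contra hnot
    exact hkpU (by rw [hU, Finset.mem_filter]; exact ⟨hkpA, hnot⟩)
  obtain ⟨B, hB⟩ : ∃ B, B = CA ∪ Bd := ⟨_, rfl⟩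
  have hBA : B ⊆ A := by rw [hB]; exact Finset.union_subset hCAA hBdA
  have hCAB : CA ⊆ B := by rw [hB]; exact Finset.subset_union_left
  have hBdB : Bd ⊆ B := by rw [hB]; exact Finset.subset_union_right
  have hnV' : nrm V' ≤ nrm v := by rw [hV'def]; exact nrm_comp_le q v
  have hmain : ‖∑ k ∈ A, T k‖ ≤ 300 * (nrm V' * l2 a B) := by
    rw [hsplit]
    have h0 := nrm_nonneg V'
    have h1 : ‖∑ k ∈ CA, T k‖ ≤ 100 * (nrm V' * l2 a B) := by
      refine (hsumle CA hCAA).trans ?_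
      apply mul_le_mul_of_nonneg_left _ (by norm_num)
      exact mul_le_mul_of_nonneg_left (l2_mono a hCAB) h0
    have h2 : ‖∑ k ∈ U2, T k‖ ≤ 100 * (nrm V' * l2 a B) := by
      refine (hsumle U2 hU2A).trans ?_
      apply mul_le_mul_of_nonneg_left _ (by norm_num)
      exact mul_le_mul_of_nonneg_left (hU2l2.trans (l2_mono a hCAB)) h0
    have h3 : ‖∑ k ∈ U3, T k‖ ≤ 100 * (nrm V' * l2 a B) := by
      refine (hsumle U3 hU3A).trans ?_
      apply mul_le_mul_of_nonneg_left _ (by norm_num)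
      exact mul_le_mul_of_nonneg_left (l2_mono a (hU3B.trans hBdB)) h0
    calc ‖∑ k ∈ CA, T k + (∑ k ∈ U2, T k + ∑ k ∈ U3, T k)‖
        ≤ ‖∑ k ∈ CA, T k‖ + ‖∑ k ∈ U2, T k + ∑ k ∈ U3, T k‖ := norm_add_le _ _
      _ ≤ ‖∑ k ∈ CA, T k‖ + (‖∑ k ∈ U2, T k‖ + ‖∑ k ∈ U3, T k‖) := by
          have := norm_add_le (∑ k ∈ U2, T k) (∑ k ∈ U3, T k)
          linarith
      _ ≤ 300 * (nrm V' * l2 a B) := by linarith
  have hrestsum : ‖∑ k ∈ A, ((a k : ℝ) : 𝕜) * (Phi V' (x k) - P k)‖ ≤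
      300 / m (q + 1) * (nrm V' * l2 a A) := by
    calc ‖∑ k ∈ A, ((a k : ℝ) : 𝕜) * (Phi V' (x k) - P k)‖
        ≤ ∑ k ∈ A, ‖((a k : ℝ) : 𝕜) * (Phi V' (x k) - P k)‖ := norm_sum_le _ _
      _ ≤ ∑ k ∈ A, 300 / m (q + 1) * (|a k| * nrm (res (J k) V')) := by
          apply Finset.sum_le_sum
          intro k hk
          rw [norm_mul, RCLike.norm_ofReal, hP]
          calc |a k| * ‖Phi V' (x k) - Phi (col {pk k} (res (J k) V')) (x k)‖
              ≤ |a k| * (300 / m (q + 1) * nrm (res (J k) V')) :=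
                mul_le_mul_of_nonneg_left (hrest k hk) (abs_nonneg _)
            _ = 300 / m (q + 1) * (|a k| * nrm (res (J k) V')) := by ring
      _ = 300 / m (q + 1) * ∑ k ∈ A, |a k| * nrm (res (J k) V') := by rw [Finset.mul_sum]
      _ ≤ 300 / m (q + 1) * (nrm V' * l2 a A) := by
          apply mul_le_mul_of_nonneg_left _ (div_nonneg (by norm_num) (m_pos _).le)
          exact sum_abs_mul_nrm_le A J hJd V' a
  have hPhiV' : Phi V' (∑ k ∈ A, a k • x k) =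
      ∑ k ∈ A, T k + ∑ k ∈ A, ((a k : ℝ) : 𝕜) * (Phi V' (x k) - P k) := by
    rw [Phi_sum_right, ← Finset.sum_add_distrib]
    apply Finset.sum_congr rfl
    intro k _
    rw [Phi_smul_real, hT]
    ring
  refine ⟨B, hBA, ?_, ?_⟩
  · rw [hB, Finset.image_union]
    have k1 : Kset (d + 2) (CA.image hi) := by
      apply Kset.mono (show d + 1 ≤ d + 2 by omega)
      apply hChK.sub
      apply Finset.image_subset_image
      intro k hk
      rw [hCA, Finset.mem_filter] at hk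
      exact hk.2
    have k2 : Kset (d + 2) (Bd.image hi) := by
      apply Kset.mono (show 1 ≤ d + 2 by omega)
      apply Kset.of_card (b := 0) _ (fun _ _ => Nat.zero_le _)
      have h1 : Bd ⊆ {α, β - 1} := by
        intro k hk
        rw [hBd, Finset.mem_filter] at hk
        simpa using hk.2
      have h2 : Bd.card ≤ 2 := (Finset.card_le_card h1).trans Finset.card_le_two
      exact (Finset.card_image_le.trans h2).trans ((by norm_num : 2 ≤ 5).trans (five_le_g 0))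
    exact Kset.union k1 k2
  · have hmq := m_pos q
    have hmq1 := m_pos (q + 1)
    have hl2A := l2_nonneg a A
    have hl2B := l2_nonneg a B
    show ‖Phi (col {q} v) (∑ k ∈ A, a k • x k)‖ ≤
      nrm v * (300 / (m q * m (q + 1)) * l2 a A + 300 / m q * l2 a B)
    rw [norm_Phi_col_single, ← hV'def, hPhiV']
    calc ((m q : ℝ))⁻¹ * ‖∑ k ∈ A, T k + ∑ k ∈ A, ((a k : ℝ) : 𝕜) * (Phi V' (x k) - P k)‖
        ≤ ((m q : ℝ))⁻¹ * (300 * (nrm V' * l2 a B) + 300 / m (q + 1) * (nrm V' * l2 a A)) := by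
          apply mul_le_mul_of_nonneg_left _ (inv_nonneg.mpr hmq.le)
          exact (norm_add_le _ _).trans (add_le_add hmain hrestsum)
      _ = nrm V' * (300 / (m q * m (q + 1)) * l2 a A + 300 / m q * l2 a B) := by
          field_simp
          ring
      _ ≤ nrm v * (300 / (m q * m (q + 1)) * l2 a A + 300 / m q * l2 a B) := by
          apply mul_le_mul_of_nonneg_right hnV'
          positivity

end H94.WH

end S_HQ

section S_SD

/-!
# definition of the data of a special vector (no proof needed)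
-/

set_option autoImplicit false

namespace H94.WH

open Finset

variable {𝕜 : Type} [RCLike 𝕜]

/-- the data of a special vector -/
structure SpecialData (q M' : ℕ) (δ : ℝ) (x : ℕ → X0 𝕜) (u : ℕ → V) (c : ℕ → ℚ) (lo hi : ℕ → ℕ) : Prop where
  hI : Ivals (2 * M') lo hi
  hc : ∀ k < 2 * M', 0 < c k
  hpair : ∀ j < M', c (2 * j + 1) = c (2 * j)
  hex : ∀ k < 2 * M', Exact (code q ((List.range k).map (fun i => c i • u i))) (nn (q + 1)) (x k) (u k) (lo k) (hi k)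
  hg : q + 5 ≤ g (lo 0)
  hsum : ∑ k ∈ Finset.range (2 * M'), (c k) ^ 2 = 2
  hlo : Kset (nn q) ((Finset.range (2 * M')).image lo)
  hsm : ∀ B ⊆ Finset.range (2 * M'), Kset (nn q - 2) (B.image hi) → ∑ k ∈ B, (c k : ℝ) ^ 2 ≤ δ

end H94.WH

end S_SD
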