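import Mathlib
import Pool.Agent.H94.WHM.M2
import Pool.Agent.H94.WHM.M3
import Pool.Agent.H94.WHM.M4
import Pool.Agent.H94.WHM.M6
import Pool.Agent.H94.WHM.M7
import Pool.Agent.H94.WHM.Stmt

set_option autoImplicit false

/-! A hereditarily indecomposable weak Hilbert space, part M8: this file joins several modules. -/

section S_LH1

/-!
# MODULE LH1: upper bound for special vectors (section 10)
`main_estimate` with `Cc = 100`, `xq = 300/(m_q m_{q+1})`, `yq = 300/m_q`, `xt = 300/m_{q+1}`, `Crit k = {p k}`, `p k = code q ((List.range k).map w)` (disjoint by `code_inj`), `D := 2^(q+2)`, `r = 2^(q+2)`, `d = 0`, `a k = (-1)^k c_k`: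
h1: `e1` (`2^(q+2) ≤ nn (q+1)`, `par3`); h3: `{s | q < s ∧ s ≠ p k} = {q < s < p k} ∪ {p k < s}`: `abs_Phi_range_le` (c = 100) + `e3` (`m (p k) ≥ m (q+1)`): `≤ 300/m_{q+1}`; hq: `qpart_estimate` (`nn q + d ≤ nn (q+1)`, `par3`).
`XX = 100/m_{q+1} + 2(xq+xt) ≤ 738/m_q^2` (`two_pow_inv'`, `m_{q+1} = m_q^2`, `m_q ≥ 16`), `l2 ≤ √2 ≤ 1.5`, `Kset (nn q - 2)` from `par2`, `YY * l2 B ≤ YY √δ ≤ 100/m_q^2`.
So `‖Phi v x‖ ≤ nrm v * 2000/m_q^2` for `v ∈ C = G 0`; `nor_le_of`.
-/

set_option autoImplicit false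

namespace H94.WH

open Finset

variable {𝕜 : Type} [RCLike 𝕜]

theorem LH1_tail {p q D : ℕ} {x : X0 𝕜} {u : V} {lo hi : ℕ} (hp : q + 2 ≤ p)
    (h : Exact p D x u lo hi) {d : ℕ} (hd : d ≤ D) {v : V} (hv : G d v) :
    ‖Phi (col {s | q < s ∧ s ∉ ({p} : Set ℕ)} v) x‖ ≤ 300 / m (q + 1) * nrm v := by
  have hset : {s : ℕ | q < s ∧ s ∉ ({p} : Set ℕ)} = {s | q < s ∧ s < p} ∪ {s | p < s} := by
    ext s
    simp only [Set.mem_singleton_iff, Set.mem_union]
    constructor
    · rintro ⟨h1, h2⟩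
      rcases lt_or_gt_of_ne h2 with h3 | h3
      · exact Or.inl ⟨h1, h3⟩
      · exact Or.inr h3
    · rintro (⟨h1, h2⟩ | h1)
      · exact ⟨h1, h2.ne⟩
      · have h1' : p < s := h1
        exact ⟨by omega, by omega⟩
  have hdis : Disjoint {s : ℕ | q < s ∧ s < p} {s | p < s} := by
    rw [Set.disjoint_left]
    rintro s ⟨-, h2⟩ h3
    have h3' : p < s := h3
    omega
  rw [hset, col_union hdis, Phi_add_left]
  have e1 := abs_Phi_range_le q p v x 100 (by norm_num)
    (fun s hs1 hs2 => h.e2 d hd v hv s (by omega) hs2)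
  have e2 := h.e3 d hd v hv
  have hm : (m (q + 1) : ℝ) ≤ m p := by
    exact_mod_cast m_strictMono.monotone (by omega)
  have h0 := m_pos (q + 1)
  have e3 : (100 : ℝ) / m p ≤ 100 / m (q + 1) := by gcongr
  have e4 : (100 : ℝ) / m p * nrm v ≤ 100 / m (q + 1) * nrm v :=
    mul_le_mul_of_nonneg_right e3 (nrm_nonneg v)
  calc _ ≤ ‖Phi (col {s | q < s ∧ s < p} v) x‖ + ‖Phi (col {s | p < s} v) x‖ := norm_add_le _ _
    _ ≤ 2 * 100 / m (q + 1) * nrm v + 100 / m (q + 1) * nrm v := by linarith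
    _ = 300 / m (q + 1) * nrm v := by ring

theorem special_upper {q : ℕ} (hq : Odd q) {M' : ℕ} (hM : 0 < M') {δ : ℝ}
    (hδ : YY q 100 (300 / m q) * Real.sqrt δ ≤ 100 / (m q) ^ 2)
    {x : ℕ → X0 𝕜} {u : ℕ → V} {c : ℕ → ℚ} {lo hi : ℕ → ℕ} (h : SpecialData q M' δ x u c lo hi) :
    nor (∑ k ∈ Finset.range (2 * M'), ((-1) ^ k * (c k : ℝ)) • x k) ≤ 2000 / (m q) ^ 2 := by
  have hq1 : 1 ≤ q := hq.pos
  have hmq : (16 : ℝ) ≤ m q := by
    have h1 : m 1 ≤ m q := m_strictMono.monotone hq1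
    have h2 : m 1 = 16 := by rw [show (1 : ℕ) = 0 + 1 from rfl, m_succ, m_zero]; norm_num
    rw [h2] at h1
    exact_mod_cast h1
  have hm1 : (m (q + 1) : ℝ) = (m q : ℝ) ^ 2 := by rw [m_succ]; push_cast; ring
  have hp3 := par3 q
  set a : ℕ → ℝ := fun k => (-1) ^ k * (c k : ℝ) with ha
  have main := main_estimate (𝕜 := 𝕜) hq1 h.hI (x := x) a (fun k hk => (h.hex k hk).hx)
    (2 ^ (q + 2)) (Cc := 100) (xq := 300 / (m q * m (q + 1))) (yq := 300 / m q)
    (xt := 300 / m (q + 1)) (by norm_num) (by positivity) (by positivity) (by positivity)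
    (fun k hk d hd v hv => (h.hex k hk).e1 d (by omega) v hv)
    (fun k => {code q ((List.range k).map (fun i => c i • u i))})
    (fun i _ j _ hij => by
      rw [Set.disjoint_singleton]
      intro he
      have h1 := congrArg List.length (code_inj he)
      simp only [List.length_map, List.length_range] at h1
      exact hij h1)
    (fun k hk d hd v hv => LH1_tail (code_ge q _) (h.hex k hk) (by omega) hv)
    (fun d hd v hv α β hβ => qpart_estimate hq rfl h.hI h.hc h.hpair h.hex (by omega) hv hβ)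
    h.hg (2 ^ (q + 2)) 0 (by omega)
  unfold nor
  refine Real.sSup_le ?_ (by positivity)
  rintro _ ⟨v, hv, hv1, rfl⟩
  obtain ⟨B, hB, hK, hle⟩ := main v hv 0 (2 * M') le_rfl
  rw [← Finset.range_eq_Ico] at hB hle
  have hK2 : Kset (nn q - 2) (B.image hi) := Kset.mono (par2 q hq1) hK
  have hsq : ∀ k, a k ^ 2 = (c k : ℝ) ^ 2 := by
    intro k
    have e : ((-1 : ℝ) ^ k) ^ 2 = 1 := by
      rw [← pow_mul, mul_comm, pow_mul, neg_one_sq, one_pow]
    simp only [ha, mul_pow]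
    rw [e, one_mul]
  have hl1 : l2 a (Finset.range (2 * M')) ≤ 3 / 2 := by
    have h1 : ∑ k ∈ Finset.range (2 * M'), a k ^ 2 ≤ 2 := by
      rw [Finset.sum_congr rfl fun k _ => hsq k]
      have := h.hsum
      have h2 : ((∑ k ∈ Finset.range (2 * M'), (c k) ^ 2 : ℚ) : ℝ) = 2 := by rw [this]; norm_num
      push_cast at h2
      exact h2.le
    refine (l2_le_sqrt h1).trans ?_
    rw [Real.sqrt_le_left (by norm_num)]
    norm_num
  have hl2 : l2 a B ≤ Real.sqrt δ := by
    refine l2_le_sqrt ?_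
    rw [Finset.sum_congr rfl fun k _ => hsq k]
    exact h.hsm B hB hK2
  have hXX : XX 100 (300 / (m q * m (q + 1))) (300 / m (q + 1)) (2 ^ (q + 2)) ≤
      738 / (m q : ℝ) ^ 2 := by
    unfold XX
    rw [two_pow_inv', hm1]
    have hpos : (0 : ℝ) < m q := by linarith
    rw [le_div_iff₀ (by positivity)]
    have e : (100 * ((m q : ℝ) ^ 2)⁻¹ + 2 * (300 / ((m q : ℝ) * (m q : ℝ) ^ 2) +
        300 / (m q : ℝ) ^ 2)) * (m q : ℝ) ^ 2 = 700 + 600 / (m q : ℝ) := by
      field_simp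
      ring
    rw [e]
    have : (600 : ℝ) / m q ≤ 600 / 16 := by gcongr
    linarith
  have hYY : 0 ≤ YY q 100 (300 / m q) := by unfold YY; positivity
  have hXn : 0 ≤ l2 a (Finset.range (2 * M')) := l2_nonneg _ _
  have hnn := nrm_nonneg v
  have hb1 : XX 100 (300 / (m q * m (q + 1))) (300 / m (q + 1)) (2 ^ (q + 2)) *
      l2 a (Finset.range (2 * M')) ≤ 738 / (m q : ℝ) ^ 2 * (3 / 2) :=
    mul_le_mul hXX hl1 hXn (by positivity)
  have hb2 : YY q 100 (300 / m q) * l2 a B ≤ 100 / (m q : ℝ) ^ 2 :=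
    (mul_le_mul_of_nonneg_left hl2 hYY).trans hδ
  have hb3 : (738 : ℝ) / (m q : ℝ) ^ 2 * (3 / 2) + 100 / (m q : ℝ) ^ 2 ≤ 2000 / (m q : ℝ) ^ 2 := by
    have hpos : (0 : ℝ) < (m q : ℝ) ^ 2 := by positivity
    rw [← sub_nonneg]
    have : (2000 : ℝ) / (m q : ℝ) ^ 2 - (738 / (m q : ℝ) ^ 2 * (3 / 2) + 100 / (m q : ℝ) ^ 2) =
        793 / (m q : ℝ) ^ 2 := by ring
    rw [this]; positivity
  refine hle.trans ?_
  calc nrm v * _ ≤ 1 * (2000 / (m q : ℝ) ^ 2) := by
        refine mul_le_mul hv1 (by linarith) ?_ zero_le_one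
        have hX0 : 0 ≤ XX 100 (300 / (m q * m (q + 1))) (300 / m (q + 1)) (2 ^ (q + 2)) := by
          unfold XX; positivity
        exact add_nonneg (mul_nonneg hX0 hXn) (mul_nonneg hYY (l2_nonneg _ _))
    _ = 2000 / (m q : ℝ) ^ 2 := one_mul _

end H94.WH

end S_LH1

section S_LH2

/-!
# MODULE LH2: lower bound for special vectors (section 10)
`v = pre q (∑ w_k) ∈ C`: constructor `odd` with `ws = (List.range (2*M')).map w`, `w k = c k • u k`, `I = univ`, scalar `1`, `bs` = strictly monotone extension of `lo` (`bs k = lo k` for `k < 2M'`, `bs (2M'-1+j) = hi (2M'-1) + j` for `j ≥ 1`..),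
`ws.take r = (List.range r).map w`, `col {p k} (w k) = w k` from `hcol`. `nrm v ^ 2 = ∑ c_k^2 nrm (u_k)^2 ≤ 2` (`nrm_pre`, `nrm_sum_sq`), `Phi v (∑ c_k x_k) = (m q)⁻¹ ∑ c_k^2 = 2/m_q` (different blocks do not interact),
so `2/m_q ≤ √2 nor (..)` (`abs_Phi_le_nor`).
-/

set_option autoImplicit false

namespace H94.WH

open Finset

variable {𝕜 : Type} [RCLike 𝕜]

theorem LH2_listsum {n : ℕ} (w : ℕ → V) : ((List.range n).map w).sum = ∑ k ∈ Finset.range n, w k := by
  induction n with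
  | zero => simp
  | succ n ih => rw [List.range_succ, List.map_append, List.sum_append, ih, Finset.sum_range_succ]; simp

theorem LH2_smul_support {c : ℚ} {u : V} {p : Atom} (h : p ∈ (c • u).support) : p ∈ u.support :=
  Finsupp.support_smul h

theorem LH2_far {n : ℕ} {lo hi : ℕ → ℕ} (hI : Ivals n lo hi) {i j : ℕ} (hij : i < j) (hj : j < n) :
    hi i < lo j := by
  induction j with
  | zero => omega
  | succ j ih =>
    have h1 := hI.2 j hj
    rcases Nat.lt_or_ge i j with h2 | h2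
    · have h3 := ih h2 (by omega)
      have h4 := hI.1 j (by omega)
      omega
    · have : i = j := by omega
      subst this
      exact h1

theorem special_lower {q : ℕ} (hq : Odd q) {M' : ℕ} (hM : 0 < M') {δ : ℝ}
    {x : ℕ → X0 𝕜} {u : ℕ → V} {c : ℕ → ℚ} {lo hi : ℕ → ℕ} (h : SpecialData q M' δ x u c lo hi) :
    1 / (m q : ℝ) ≤ nor (∑ k ∈ Finset.range (2 * M'), (c k : ℝ) • x k) := by
  classical
  obtain ⟨n, hn⟩ : ∃ n, n = 2 * M' := ⟨_, rfl⟩
  have hn0 : 0 < n := by omega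
  have hI := h.hI
  have hex := h.hex
  have hlo := h.hlo
  have hsum := h.hsum
  rw [← hn] at hI hex hlo hsum ⊢
  obtain ⟨w, hw⟩ : ∃ w : ℕ → V, w = fun i => c i • u i := ⟨_, rfl⟩
  have hwk : ∀ k, w k = c k • u k := fun k => by rw [hw]
  rw [← hw] at hex
  obtain ⟨bs, hbs⟩ : ∃ bs : ℕ → ℕ, bs = fun k => if k < n then lo k else hi (n - 1) + 1 + (k - n) :=
    ⟨_, rfl⟩
  have hbs1 : ∀ k < n, bs k = lo k := fun k hk => by rw [hbs]; simp [hk]
  have hbs2 : ∀ k, n ≤ k → bs k = hi (n - 1) + 1 + (k - n) := fun k hk => by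
    rw [hbs]; simp [not_lt.2 hk]
  have hnext : ∀ k < n, hi k < bs (k + 1) := by
    intro k hk
    rcases Nat.lt_or_ge (k + 1) n with h1 | h1
    · rw [hbs1 _ h1]
      exact hI.2 k h1
    · rw [hbs2 _ h1]
      have : k = n - 1 := by omega
      subst this
      omega
  have hmono : StrictMono bs := by
    refine strictMono_nat_of_lt_succ fun k => ?_
    rcases Nat.lt_or_ge k n with h1 | h1
    · rw [hbs1 k h1]
      exact lt_of_le_of_lt (hI.1 k h1) (hnext k h1)
    · rw [hbs2 k h1, hbs2 (k + 1) (by omega)]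
      omega
  obtain ⟨ws, hws⟩ : ∃ ws : List V, ws = (List.range n).map w := ⟨_, rfl⟩
  have hlen : ws.length = n := by rw [hws]; simp
  have hget : ∀ r (hr : r < ws.length), ws[r] = w r := by
    intro r hr
    subst hws
    simp
  have htake : ∀ r, r < n → ws.take r = (List.range r).map w := by
    intro r hr
    rw [hws, ← List.map_take, List.take_range, min_eq_left hr.le]
  have hsp : Special q ws bs := by
    refine ⟨hmono, ?_, ?_, ?_⟩
    · rw [hlen]
      have : (Finset.range n).image bs = (Finset.range n).image lo := by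
        refine Finset.image_congr fun k hk => hbs1 k ?_
        simpa using hk
      rw [this]
      exact hlo
    · intro r hr p hp
      rw [hget r hr, hwk] at hp
      rw [hlen] at hr
      have h1 := (hex r hr).hu p (LH2_smul_support hp)
      exact ⟨by rw [hbs1 r hr]; exact h1.1, lt_of_le_of_lt h1.2 (hnext r hr)⟩
    · intro r hr
      have hr' := hr
      rw [hlen] at hr'
      rw [hget r hr, htake r hr', hwk, col_smul, (hex r hr').hcol]
  have hCw : ∀ v ∈ ws, C v := by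
    intro v hv
    rw [hws, List.mem_map] at hv
    obtain ⟨k, hk, rfl⟩ := hv
    rw [List.mem_range] at hk
    rw [hwk]
    have h1 : G 0 (u k) := (hex k hk).hC
    exact G.smul h1 (c k)
  have hCv : C (pre q (∑ k ∈ Finset.range n, w k)) := by
    have h1 := C.odd q hq ws bs hsp hCw Set.univ Set.ordConnected_univ 1
    rw [one_smul, res_eq_self (fun p _ => Set.mem_univ _), hws, LH2_listsum] at h1
    exact h1
  -- norm of the functional
  have hd : ∀ i ∈ Finset.range n, ∀ j ∈ Finset.range n, i ≠ j →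
      Disjoint (Set.Icc (lo i) (hi i)) (Set.Icc (lo j) (hi j)) := by
    intro i hi' j hj hij
    rw [Finset.mem_range] at hi' hj
    rw [Set.disjoint_left]
    intro a ha1 ha2
    rw [Set.mem_Icc] at ha1 ha2
    rcases Nat.lt_or_ge i j with h1 | h1
    · have := LH2_far hI h1 hj
      omega
    · have := LH2_far hI (lt_of_le_of_ne h1 (Ne.symm hij)) hi'
      omega
  have hnrm : nrm (pre q (∑ k ∈ Finset.range n, w k)) ^ 2 ≤ 2 := by
    rw [nrm_pre, nrm_sum_sq (Finset.range n) (fun k => Set.Icc (lo k) (hi k)) hd w]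
    · have h1 : ∀ k ∈ Finset.range n, nrm (w k) ^ 2 ≤ ((c k ^ 2 : ℚ) : ℝ) := by
        intro k hk
        rw [Finset.mem_range] at hk
        rw [hwk, nrm_smul, mul_pow, sq_abs]
        push_cast
        have h2 := (hex k hk).hn
        have h3 := nrm_nonneg (u k)
        have h4 : nrm (u k) ^ 2 ≤ 1 := by nlinarith
        have h5 : 0 ≤ (c k : ℝ) ^ 2 := sq_nonneg _
        nlinarith
      refine (Finset.sum_le_sum h1).trans (le_of_eq ?_)
      rw [← Rat.cast_sum, hsum]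
      norm_num
    · intro k hk p hp
      rw [Finset.mem_range] at hk
      rw [hwk] at hp
      exact (hex k hk).hu p (LH2_smul_support hp)
  -- the value of the functional
  have hval : Phi (pre q (∑ k ∈ Finset.range n, w k)) (∑ k ∈ Finset.range n, (c k : ℝ) • x k)
      = ((2 * (m q : ℝ)⁻¹ : ℝ) : 𝕜) := by
    rw [Phi_pre, Phi_sum_left]
    have h1 : ∀ k ∈ Finset.range n, Phi (w k) (∑ j ∈ Finset.range n, (c j : ℝ) • x j)
        = (((c k ^ 2 : ℚ) : ℝ) : 𝕜) := by
      intro k hk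
      rw [Phi_sum_right, Finset.sum_eq_single k]
      · rw [Phi_smul_real, hwk, Phi_smul_left, (hex k (Finset.mem_range.1 hk)).hPhi]
        push_cast
        ring
      · intro j hj hjk
        rw [Phi_smul_real, Phi_eq_zero_of_disj, mul_zero]
        intro p hp hpx
        rw [hwk] at hp
        have h2 := (hex k (Finset.mem_range.1 hk)).hu p (LH2_smul_support hp)
        have h3 := (hex j (Finset.mem_range.1 hj)).hx p.1 hpx
        exact Set.disjoint_left.1 (hd k hk j hj (Ne.symm hjk)) ⟨h2.1, h2.2⟩ ⟨h3.1, h3.2⟩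
      · intro h2
        exact absurd hk h2
    rw [Finset.sum_congr rfl h1]
    have h2 : (∑ k ∈ Finset.range n, (((c k ^ 2 : ℚ) : ℝ) : 𝕜)) = ((2 : ℝ) : 𝕜) := by
      rw [← RCLike.ofReal_sum, ← Rat.cast_sum, hsum]
      norm_num
    rw [h2]
    push_cast
    ring
  have hfin := abs_Phi_le_nor hCv (∑ k ∈ Finset.range n, (c k : ℝ) • x k)
  rw [hval, RCLike.norm_ofReal] at hfin
  have hm : (0 : ℝ) < m q := by
    unfold m
    positivity
  have hinv : (0 : ℝ) < (m q : ℝ)⁻¹ := by positivity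
  rw [abs_of_pos (by positivity)] at hfin
  have hN0 := nrm_nonneg (pre q (∑ k ∈ Finset.range n, w k))
  have hN2 : nrm (pre q (∑ k ∈ Finset.range n, w k)) ≤ 2 := by nlinarith
  have hx0 := nor_nonneg (∑ k ∈ Finset.range n, (c k : ℝ) • x k)
  rw [one_div]
  nlinarith

end H94.WH

end S_LH2

section S_LH3

/-!
# MODULE LH3: existence of special vectors (section 10)
`averages` at level `n = nn q - 2` with `δ/2` and items `T` = pairs `(x,u,lo,hi,x',u',lo',hi')`, `lo(item) = lo`, `hi(item) = max lo hi'`; for a history `h : List (T × ℚ)` let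
`W h` = `h.flatMap (fun (item, c) => [c • item.u, c • item.u'])`. `R h c item`: `lo ≤ hi`, `hi < lo'`, `x ∈ Y`, `Exact (code q (W h)) (nn (q+1)) x u lo hi`, `x' ∈ Z`, `Exact (code q (W h ++ [c • u])) (nn (q+1)) x' u' lo' hi'`
(`exists_exact`: `code_ge`, `code_even`, `nn (q+1) ≤ nn (code - 1)`). Bound `N` with `q + 5 ≤ g N`.
Flatten: `x k`, `u k`, `lo k`, `hi k` = first/second component of item `k/2` according to the parity of `k`, `c k` = weight of item `k/2`; `(List.range (2j)).map w = W (history j)`.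
`{lo k : k < 2M'} ⊆ {Lo_j} ∪ {lo_{2j+1}}`, `lo_{2j+1} ≥ Lo_j` (`Kset.image`), `Kset.union`: `(nn q - 2) + 1 + 1 = nn q`. `hsm`: `{Hi_j : j = k/2, k ∈ B}` is the image of `{hi_k : k ∈ B}` under a map `≥ id` (`Kset.image`), mass `≤ 2 * δ/2`.
-/

set_option autoImplicit false

namespace H94.WH

open Finset

variable {𝕜 : Type} [RCLike 𝕜]

/-- items: pairs of exact vectors -/
structure LH3_T (𝕜 : Type) [RCLike 𝕜] : Type where
  x : X0 𝕜
  u : V
  lo : ℕ
  hi : ℕ
  x' : X0 𝕜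
  u' : V
  lo' : ℕ
  hi' : ℕ

noncomputable instance LH3_inh : Inhabited (LH3_T 𝕜) := ⟨⟨0, 0, 0, 0, 0, 0, 0, 0⟩⟩

/-- the lifts of a history -/
noncomputable def LH3_W (h : List (LH3_T 𝕜 × ℚ)) : List V :=
  h.flatMap (fun p => [p.2 • p.1.u, p.2 • p.1.u'])

/-- spreading along an injective parametrisation -/
theorem LH3_spread {n : ℕ} {S : Finset ℕ} {f h : ℕ → ℕ} (hK : Kset n (S.image f))
    (hinj : ∀ i ∈ S, ∀ j ∈ S, f i = f j → i = j) (hle : ∀ i ∈ S, f i ≤ h i) :
    Kset n (S.image h) := by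
  classical
  set φ : ℕ → ℕ := fun a => if ha : ∃ i ∈ S, f i = a then h (Classical.choose ha) else a with hφ
  have key : ∀ i ∈ S, φ (f i) = h i := by
    intro i hi
    have hex : ∃ j ∈ S, f j = f i := ⟨i, hi, rfl⟩
    have hs := Classical.choose_spec hex
    have : Classical.choose hex = i := hinj _ hs.1 _ hi hs.2
    simp only [hφ]
    rw [dif_pos hex, this]
  have h1 : Kset n ((S.image f).image φ) := by
    apply Kset.image hK
    intro a ha
    obtain ⟨i, hi, rfl⟩ := Finset.mem_image.mp ha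
    rw [key i hi]
    exact hle i hi
  rw [Finset.image_image] at h1
  have h2 : S.image (φ ∘ f) = S.image h := by
    apply Finset.image_congr
    intro i hi
    exact key i hi
  rwa [h2] at h1

theorem LH3_sum_half {A : Type} [Field A] (f : ℕ → A) (M : ℕ) :
    ∑ k ∈ Finset.range (2 * M), f (k / 2) = 2 * ∑ j ∈ Finset.range M, f j := by
  induction M with
  | zero => simp
  | succ M ih =>
    have h1 : 2 * (M + 1) = 2 * M + 1 + 1 := by ring
    rw [h1, Finset.sum_range_succ, Finset.sum_range_succ, ih, Finset.sum_range_succ]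
    have h2 : (2 * M) / 2 = M := by omega
    have h3 : (2 * M + 1) / 2 = M := by omega
    rw [h2, h3]
    ring

theorem LH3_mass (c : ℕ → ℝ) (B : Finset ℕ) :
    ∑ k ∈ B, (c (k / 2)) ^ 2 ≤ 2 * ∑ j ∈ B.image (fun k => k / 2), (c j) ^ 2 := by
  classical
  have h1 : B ⊆ (B.image (fun k => k / 2)).biUnion (fun j => {2 * j, 2 * j + 1}) := by
    intro k hk
    rw [Finset.mem_biUnion]
    refine ⟨k / 2, Finset.mem_image_of_mem _ hk, ?_⟩
    simp only [Finset.mem_insert, Finset.mem_singleton]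
    omega
  calc ∑ k ∈ B, (c (k / 2)) ^ 2
      ≤ ∑ k ∈ (B.image (fun k => k / 2)).biUnion (fun j => {2 * j, 2 * j + 1}), (c (k / 2)) ^ 2 :=
        Finset.sum_le_sum_of_subset_of_nonneg h1 (fun _ _ _ => sq_nonneg _)
    _ ≤ ∑ j ∈ B.image (fun k => k / 2), ∑ k ∈ ({2 * j, 2 * j + 1} : Finset ℕ), (c (k / 2)) ^ 2 := by
        rw [Finset.sum_biUnion]
        intro a _ b _ hab
        simp only [Function.onFun]
        rw [Finset.disjoint_left]
        intro t ht ht'
        simp only [Finset.mem_insert, Finset.mem_singleton] at ht ht'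
        omega
    _ = 2 * ∑ j ∈ B.image (fun k => k / 2), (c j) ^ 2 := by
        rw [Finset.mul_sum]
        apply Finset.sum_congr rfl
        intro j _
        rw [Finset.sum_pair (by omega)]
        have h2 : (2 * j) / 2 = j := by omega
        have h3 : (2 * j + 1) / 2 = j := by omega
        rw [h2, h3]
        ring

theorem exists_special {q : ℕ} (hq : Odd q) {δ : ℝ} (hδ : 0 < δ) {Y Z : Submodule 𝕜 (X0 𝕜)} (hY : Far Y) (hZ : Far Z) :
    ∃ (M' : ℕ) (x : ℕ → X0 𝕜) (u : ℕ → V) (c : ℕ → ℚ) (lo hi : ℕ → ℕ), 0 < M' ∧ SpecialData q M' δ x u c lo hi ∧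
      ∀ j < M', x (2 * j) ∈ Y ∧ x (2 * j + 1) ∈ Z := by
  classical
  obtain ⟨N, hN⟩ := exists_le_g (q + 5)
  set R : List (LH3_T 𝕜 × ℚ) → ℚ → LH3_T 𝕜 → Prop := fun h c t =>
    t.hi < t.lo' ∧ t.x ∈ Y ∧ Exact (code q (LH3_W h)) (nn (q + 1)) t.x t.u t.lo t.hi ∧
      t.x' ∈ Z ∧ Exact (code q (LH3_W h ++ [c • t.u])) (nn (q + 1)) t.x' t.u' t.lo' t.hi' with hRdef
  have hcode : ∀ ws : List V, 2 ≤ code q ws ∧ nn (q + 1) ≤ nn (code q ws - 1) := by
    intro ws
    have := code_ge q ws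
    refine ⟨by omega, nn_mono (by omega)⟩
  have hR : ∀ (h : List (LH3_T 𝕜 × ℚ)) (c : ℚ) (N : ℕ), 0 < c → ∃ x, R h c x ∧ N < x.lo := by
    intro h c N _
    obtain ⟨x, u, lo, hi, hx, hlo, hE⟩ := exists_exact (hcode (LH3_W h)).1 (code_even q _)
      (hcode (LH3_W h)).2 hY N
    obtain ⟨x', u', lo', hi', hx', hlo', hE'⟩ := exists_exact (hcode (LH3_W h ++ [c • u])).1
      (code_even q _) (hcode (LH3_W h ++ [c • u])).2 hZ hi
    exact ⟨⟨x, u, lo, hi, x', u', lo', hi'⟩, ⟨hlo', hx, hE, hx', hE'⟩, hlo⟩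
  obtain ⟨M, X, c, hM, hc, hRk, hN0, hsucc, hsum, hKhi, hKlo, hsm⟩ :=
    averages (T := LH3_T 𝕜) (fun t => t.lo) (fun t => max t.lo t.hi') (fun t => le_max_left _ _)
      R hR (nn q - 2) (δ / 2) (by positivity) N
  have hnn : nn q - 2 + 1 + 1 = nn q := by
    have : 2 ≤ nn q := by
      unfold nn
      calc 2 = 2 ^ 1 := by norm_num
        _ ≤ 2 ^ ((q + 5) ^ 2) := Nat.pow_le_pow_right (by norm_num) (Nat.one_le_pow _ _ (by omega))
    omega
  set xx : ℕ → X0 𝕜 := fun k => if k % 2 = 0 then (X (k / 2)).x else (X (k / 2)).x' with hxx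
  set uu : ℕ → V := fun k => if k % 2 = 0 then (X (k / 2)).u else (X (k / 2)).u' with huu
  set ll : ℕ → ℕ := fun k => if k % 2 = 0 then (X (k / 2)).lo else (X (k / 2)).lo' with hll
  set hh : ℕ → ℕ := fun k => if k % 2 = 0 then (X (k / 2)).hi else (X (k / 2)).hi' with hhh
  set cc : ℕ → ℚ := fun k => c (k / 2) with hcc
  have e0 : ∀ j, (2 * j) % 2 = 0 := fun j => by omega
  have e1 : ∀ j, ¬ (2 * j + 1) % 2 = 0 := fun j => by omega
  have e2 : ∀ j, (2 * j) / 2 = j := fun j => by omega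
  have e3 : ∀ j, (2 * j + 1) / 2 = j := fun j => by omega
  have xx0 : ∀ j, xx (2 * j) = (X j).x := fun j => by simp only [hxx, e2, if_pos (e0 j)]
  have xx1 : ∀ j, xx (2 * j + 1) = (X j).x' := fun j => by simp only [hxx, e3, if_neg (e1 j)]
  have uu0 : ∀ j, uu (2 * j) = (X j).u := fun j => by simp only [huu, e2, if_pos (e0 j)]
  have uu1 : ∀ j, uu (2 * j + 1) = (X j).u' := fun j => by simp only [huu, e3, if_neg (e1 j)]
  have ll0 : ∀ j, ll (2 * j) = (X j).lo := fun j => by simp only [hll, e2, if_pos (e0 j)]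
  have ll1 : ∀ j, ll (2 * j + 1) = (X j).lo' := fun j => by simp only [hll, e3, if_neg (e1 j)]
  have hh0 : ∀ j, hh (2 * j) = (X j).hi := fun j => by simp only [hhh, e2, if_pos (e0 j)]
  have hh1 : ∀ j, hh (2 * j + 1) = (X j).hi' := fun j => by simp only [hhh, e3, if_neg (e1 j)]
  have cc0 : ∀ j, cc (2 * j) = c j := fun j => by simp only [hcc, e2]
  have cc1 : ∀ j, cc (2 * j + 1) = c j := fun j => by simp only [hcc, e3]
  have hlist : ∀ j, (List.range (2 * j)).map (fun i => cc i • uu i) =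
      LH3_W ((List.range j).map (fun i => (X i, c i))) := by
    intro j
    induction j with
    | zero => simp [LH3_W]
    | succ j ih =>
      have h1 : 2 * (j + 1) = 2 * j + 1 + 1 := by ring
      rw [h1, List.range_succ, List.range_succ, List.map_append, List.map_append, ih,
        List.range_succ, List.map_append]
      unfold LH3_W
      rw [List.flatMap_append]
      simp [uu0, uu1, cc0, cc1, List.append_assoc]
  have hlist1 : ∀ j, (List.range (2 * j + 1)).map (fun i => cc i • uu i) =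
      LH3_W ((List.range j).map (fun i => (X i, c i))) ++ [c j • (X j).u] := by
    intro j
    rw [List.range_succ, List.map_append, hlist j]
    simp [uu0, cc0]
  have parity : ∀ k, k < 2 * M → ∃ j < M, k = 2 * j ∨ k = 2 * j + 1 := by
    intro k hk
    exact ⟨k / 2, by omega, by omega⟩
  have hIv : Ivals (2 * M) ll hh := by
    constructor
    · intro k hk
      obtain ⟨j, hj, rfl | rfl⟩ := parity k hk
      · rw [ll0, hh0]; exact (hRk j hj).2.2.1.hlh
      · rw [ll1, hh1]; exact (hRk j hj).2.2.2.2.hlh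
    · intro k hk
      obtain ⟨j, hj, rfl | rfl⟩ := parity k (by omega)
      · rw [ll1, hh0]; exact (hRk j hj).1
      · have h1 : 2 * j + 1 + 1 = 2 * (j + 1) := by ring
        rw [h1, ll0, hh1]
        exact lt_of_le_of_lt (le_max_right _ _) (hsucc j (by omega))
  -- strict monotonicity
  have hLmono : ∀ i j, i < j → j < M → (X i).lo < (X j).lo := by
    intro i j hij
    induction j with
    | zero => omega
    | succ j ih =>
      intro hj
      have hstep : (X j).lo < (X (j + 1)).lo :=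
        lt_of_le_of_lt (le_max_left _ _) (hsucc j hj)
      rcases Nat.lt_succ_iff_lt_or_eq.mp hij with h | h
      · exact lt_trans (ih h (by omega)) hstep
      · rw [h]; exact hstep
  have hhmono : ∀ i j, i < j → j < 2 * M → hh i < hh j := by
    intro i j hij
    induction j with
    | zero => omega
    | succ j ih =>
      intro hj
      have hstep : hh j < hh (j + 1) :=
        lt_of_lt_of_le (hIv.2 j hj) (hIv.1 (j + 1) hj)
      rcases Nat.lt_succ_iff_lt_or_eq.mp hij with h | h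
      · exact lt_trans (ih h (by omega)) hstep
      · rw [h]; exact hstep
  refine ⟨M, xx, uu, cc, ll, hh, hM, ?_, ?_⟩
  · refine ⟨hIv, ?_, ?_, ?_, ?_, ?_, ?_, ?_⟩
    · intro k hk
      exact hc (k / 2) (by omega)
    · intro j _
      rw [cc0, cc1]
    · intro k hk
      obtain ⟨j, hj, rfl | rfl⟩ := parity k hk
      · rw [hlist, xx0, uu0, ll0, hh0]
        exact (hRk j hj).2.2.1
      · rw [hlist1, xx1, uu1, ll1, hh1]
        exact (hRk j hj).2.2.2.2
    · have h1 : ll 0 = (X 0).lo := ll0 0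
      rw [h1]
      exact le_trans hN (g_mono hN0.le)
    · rw [LH3_sum_half (fun j => (c j) ^ 2) M, hsum]
      norm_num
    · -- the left ends
      have h1 : Kset (nn q - 2 + 1) ((Finset.range M).image (fun j => (X j).lo')) := by
        refine LH3_spread hKlo ?_ ?_
        · intro i hi j hj hij
          rw [Finset.mem_range] at hi hj
          rcases lt_trichotomy i j with h | h | h
          · exact absurd hij (ne_of_lt (hLmono i j h hj))
          · exact h
          · exact absurd hij.symm (ne_of_lt (hLmono j i h hi))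
        · intro j hj
          rw [Finset.mem_range] at hj
          exact le_of_lt (lt_of_le_of_lt (hRk j hj).2.2.1.hlh (hRk j hj).1)
      have h2 := Kset.union hKlo h1
      rw [hnn] at h2
      refine Kset.sub h2 ?_
      intro a ha
      obtain ⟨k, hk, rfl⟩ := Finset.mem_image.mp ha
      rw [Finset.mem_range] at hk
      rw [Finset.mem_union]
      obtain ⟨j, hj, rfl | rfl⟩ := parity k hk
      · left
        exact Finset.mem_image.mpr ⟨j, Finset.mem_range.mpr hj, (ll0 j).symm⟩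
      · right
        exact Finset.mem_image.mpr ⟨j, Finset.mem_range.mpr hj, (ll1 j).symm⟩
    · -- small masses
      intro B hB hKB
      have hB' : B.image (fun k => k / 2) ⊆ Finset.range M := by
        intro j hj
        obtain ⟨k, hk, rfl⟩ := Finset.mem_image.mp hj
        have := Finset.mem_range.mp (hB hk)
        rw [Finset.mem_range]
        omega
      have h1 : Kset (nn q - 2) ((B.image (fun k => k / 2)).image (fun j => max (X j).lo (X j).hi')) := by
        rw [Finset.image_image]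
        refine LH3_spread hKB ?_ ?_
        · intro i hi j hj hij
          have hi' := Finset.mem_range.mp (hB hi)
          have hj' := Finset.mem_range.mp (hB hj)
          rcases lt_trichotomy i j with h | h | h
          · exact absurd hij (ne_of_lt (hhmono i j h hj'))
          · exact h
          · exact absurd hij.symm (ne_of_lt (hhmono j i h hi'))
        · intro k hk
          have hk' := Finset.mem_range.mp (hB hk)
          obtain ⟨j, hj, rfl | rfl⟩ := parity k hk'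
          · simp only [Function.comp, e2]
            rw [hh0]
            exact le_trans (le_of_lt (lt_of_lt_of_le (hRk j hj).1 (hRk j hj).2.2.2.2.hlh)) (le_max_right _ _)
          · simp only [Function.comp, e3]
            rw [hh1]
            exact le_max_right _ _
      have h2 := hsm _ hB' h1
      have h3 := LH3_mass (fun j => (c j : ℝ)) B
      calc ∑ k ∈ B, (cc k : ℝ) ^ 2 ≤ 2 * ∑ j ∈ B.image (fun k => k / 2), (c j : ℝ) ^ 2 := h3
        _ ≤ 2 * (δ / 2) := by linarith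
        _ = δ := by ring
  · intro j hj
    rw [xx0, xx1]
    exact ⟨(hRk j hj).2.1, (hRk j hj).2.2.2.1⟩

end H94.WH

end S_LH3

section S_LH

/-!
# MODULE LH: Lemma H (section 10)
choose `q` odd with `2000/m_q ≤ κ` (`exists_m_ge`, `m_strictMono`), `δ > 0` with `YY q 100 (300/m q) * √δ ≤ 100/(m q)^2`; `exists_special`; `y = ∑ c_{2j} x_{2j}`, `z = ∑ c_{2j+1} x_{2j+1}`.
-/

set_option autoImplicit false

namespace H94.WH

open Finset

variable {𝕜 : Type} [RCLike 𝕜]

theorem LH_pairs {M : Type*} [AddCommMonoid M] (f : ℕ → M) (n : ℕ) :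
    ∑ k ∈ Finset.range (2 * n), f k = ∑ j ∈ Finset.range n, (f (2 * j) + f (2 * j + 1)) := by
  induction n with
  | zero => simp
  | succ n ih =>
    rw [Finset.sum_range_succ, ← ih, show 2 * (n + 1) = 2 * n + 1 + 1 by ring,
      Finset.sum_range_succ, Finset.sum_range_succ, add_assoc]

theorem far_hi {Y Z : Submodule 𝕜 (X0 𝕜)} (hY : Far Y) (hZ : Far Z) {κ : ℝ} (hκ : 0 < κ) :
    ∃ y ∈ Y, ∃ z ∈ Z, y + z ≠ 0 ∧ nor (y - z) ≤ κ * nor (y + z) := by
  obtain ⟨s, hs⟩ := exists_m_ge (2000 / κ)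
  obtain ⟨q, hq, hsq⟩ : ∃ q, Odd q ∧ s ≤ q := ⟨2 * s + 1, ⟨s, rfl⟩, by omega⟩
  have hmq : 2000 / κ ≤ (m q : ℝ) := by
    refine hs.trans ?_
    exact_mod_cast m_strictMono.monotone hsq
  have hm0 : (0 : ℝ) < m q := m_pos q
  have hYY : 0 < YY q 100 (300 / m q) := by
    unfold YY
    positivity
  obtain ⟨δ, hδ, hδ2⟩ : ∃ δ : ℝ, 0 < δ ∧
      YY q 100 (300 / m q) * Real.sqrt δ ≤ 100 / (m q) ^ 2 := by
    refine ⟨(100 / (m q : ℝ) ^ 2 / YY q 100 (300 / m q)) ^ 2, by positivity, ?_⟩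
    rw [Real.sqrt_sq (by positivity)]
    rw [mul_div_cancel₀ _ hYY.ne']
  obtain ⟨M', x, u, c, lo, hi, hM, h, hmem⟩ := exists_special (𝕜 := 𝕜) hq hδ hY hZ
  have hup := special_upper (𝕜 := 𝕜) hq hM hδ2 h
  have hlow := special_lower (𝕜 := 𝕜) hq hM h
  rw [LH_pairs] at hup hlow
  set y : X0 𝕜 := ∑ j ∈ Finset.range M', (c (2 * j) : ℝ) • x (2 * j) with hy
  set z : X0 𝕜 := ∑ j ∈ Finset.range M', (c (2 * j + 1) : ℝ) • x (2 * j + 1) with hz
  have h1 : y + z = ∑ j ∈ Finset.range M', ((c (2 * j) : ℝ) • x (2 * j) +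
      (c (2 * j + 1) : ℝ) • x (2 * j + 1)) := by
    rw [hy, hz, ← Finset.sum_add_distrib]
  have h2 : y - z = ∑ j ∈ Finset.range M', (((-1) ^ (2 * j) * (c (2 * j) : ℝ)) • x (2 * j) +
      ((-1) ^ (2 * j + 1) * (c (2 * j + 1) : ℝ)) • x (2 * j + 1)) := by
    rw [hy, hz, ← Finset.sum_sub_distrib]
    refine Finset.sum_congr rfl fun j _ => ?_
    rw [pow_succ, pow_mul]
    simp [sub_eq_add_neg]
  rw [← h1] at hlow
  rw [← h2] at hup
  refine ⟨y, ?_, z, ?_, ?_, ?_⟩
  · refine Submodule.sum_mem _ fun j hj => ?_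
    exact Submodule.smul_of_tower_mem _ _ (hmem j (Finset.mem_range.1 hj)).1
  · refine Submodule.sum_mem _ fun j hj => ?_
    exact Submodule.smul_of_tower_mem _ _ (hmem j (Finset.mem_range.1 hj)).2
  · intro h0
    rw [h0, nor_zero] at hlow
    have : 0 < 1 / (m q : ℝ) := by positivity
    linarith
  · calc nor (y - z) ≤ 2000 / (m q : ℝ) ^ 2 := hup
      _ ≤ κ * (1 / m q) := by
          rw [div_le_iff₀ hκ] at hmq
          rw [div_le_iff₀ (by positivity)]
          have : κ * (1 / (m q : ℝ)) * (m q : ℝ) ^ 2 = m q * κ := by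
            field_simp
          rw [this]
          exact hmq
      _ ≤ κ * nor (y + z) := mul_le_mul_of_nonneg_left hlow hκ.le

end H94.WH

end S_LH

section S_HIP

/-!
# MODULE HIP: the completion is hereditarily indecomposable (section 11)

`hi_XB`: `Y₀ ⊓ Y₁ = ⊥`, `Y₀ ⊔ Y₁ = Y` closed: `exists_proj_bound`. Apply `far_hi` with a small `κ` to the far subspaces near `Y₀`, `Y₁` (`exists_far_near`, `ε` small):
`z₀ + z₁ ≠ 0`, `‖z₀ - z₁‖ ≤ κ ‖z₀+z₁‖`, so `‖z_i‖ ≤ ‖z₀+z₁‖` (κ ≤ 1), `‖y₀ - y₁‖ ≤ (κ + 2ε) ‖z₀+z₁‖`,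
`‖z₀+z₁‖ ≤ ‖y₀‖ + ‖y₁‖ + 2ε ‖z₀+z₁‖ ≤ 2K (κ+2ε) ‖z₀+z₁‖ + 2ε ‖z₀+z₁‖ < ‖z₀+z₁‖` (apply the projection bound to `y₀ + (-y₁)`).
-/

set_option autoImplicit false

namespace H94.WH

open Finset

theorem HIP_norm {𝕜 : Type} [RCLike 𝕜] {E : Type} [NormedAddCommGroup E] [NormedSpace 𝕜 E]
    (a b : E) : 2 * ‖a‖ ≤ ‖a + b‖ + ‖a - b‖ := by
  have h1 : (a + b) + (a - b) = (2 : 𝕜) • a := by
    rw [two_smul]
    abel
  have h2 := norm_add_le (a + b) (a - b)
  rw [h1, norm_smul, RCLike.norm_two] at h2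
  exact h2

theorem hi_XB (𝕜 : Type) [RCLike 𝕜] : IsHI 𝕜 (XB 𝕜) := by
  intro Y hYc _ hdec
  obtain ⟨Y₀, Y₁, h0c, h1c, h0, h1, hinf, hsup⟩ := hdec
  obtain ⟨K, hK, hb⟩ := exists_proj_bound h0c h1c hinf (by rw [hsup]; exact hYc)
  obtain ⟨ε, hε⟩ : ∃ ε : ℝ, ε = 1 / (16 * (K + 1)) := ⟨_, rfl⟩
  have hε0 : 0 < ε := by rw [hε]; positivity
  have hεK : ε * (16 * (K + 1)) = 1 := by
    rw [hε]
    field_simp
  have hε1 : ε ≤ 1 := by nlinarith
  obtain ⟨Z₀, hZ₀, hn₀⟩ := exists_far_near Y₀ h0 hε0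
  obtain ⟨Z₁, hZ₁, hn₁⟩ := exists_far_near Y₁ h1 hε0
  obtain ⟨z₀, hz₀, z₁, hz₁, hne, hle⟩ := far_hi hZ₀ hZ₁ hε0
  obtain ⟨y₀, hy₀, hd₀⟩ := hn₀ z₀ hz₀
  obtain ⟨y₁, hy₁, hd₁⟩ := hn₁ z₁ hz₁
  obtain ⟨S, hS⟩ : ∃ S, S = nor (z₀ + z₁) := ⟨_, rfl⟩
  rw [← hS] at hle
  have hS0 : 0 < S := by
    rw [hS]
    refine lt_of_le_of_ne (nor_nonneg _) ?_
    intro h
    exact hne (eq_zero_of_nor h.symm)
  have hab : ‖emb z₀ + emb z₁‖ = S := by rw [← emb_add, norm_emb, hS]
  have hamb : ‖emb z₀ - emb z₁‖ ≤ ε * S := by rw [← emb_sub, norm_emb]; exact hle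
  have hεS : ε * S ≤ S := by nlinarith
  have ha : nor z₀ ≤ S := by
    have h2 := HIP_norm (𝕜 := 𝕜) (emb z₀) (emb z₁)
    rw [norm_emb, hab] at h2
    linarith
  have hb' : nor z₁ ≤ S := by
    have h2 := HIP_norm (𝕜 := 𝕜) (emb z₁) (emb z₀)
    rw [norm_emb, add_comm (emb z₁) (emb z₀), hab, norm_sub_rev] at h2
    linarith
  have hd₀' : ‖y₀ - emb z₀‖ ≤ ε * S := hd₀.trans (mul_le_mul_of_nonneg_left ha hε0.le)
  have hd₁' : ‖y₁ - emb z₁‖ ≤ ε * S := hd₁.trans (mul_le_mul_of_nonneg_left hb' hε0.le)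
  have hy : ‖y₀ + -y₁‖ ≤ 3 * (ε * S) := by
    have h2 : y₀ + -y₁ = (y₀ - emb z₀) - (y₁ - emb z₁) + (emb z₀ - emb z₁) := by abel
    rw [h2]
    have h3 := norm_add_le ((y₀ - emb z₀) - (y₁ - emb z₁)) (emb z₀ - emb z₁)
    have h4 := norm_sub_le (y₀ - emb z₀) (y₁ - emb z₁)
    linarith
  obtain ⟨hb0, hb1⟩ := hb y₀ hy₀ (-y₁) (Y₁.neg_mem hy₁)
  rw [norm_neg] at hb1
  have hsum : S ≤ ‖y₀‖ + ‖y₁‖ + 2 * (ε * S) := by
    rw [← hab]
    have h2 : emb z₀ + emb z₁ = y₀ + y₁ - (y₀ - emb z₀) - (y₁ - emb z₁) := by abel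
    have h3 := norm_sub_le (y₀ + y₁ - (y₀ - emb z₀)) (y₁ - emb z₁)
    have h4 := norm_sub_le (y₀ + y₁) (y₀ - emb z₀)
    have h5 := norm_add_le y₀ y₁
    rw [← h2, hab] at h3
    rw [hab]
    linarith
  have hK1 : K * ‖y₀ + -y₁‖ ≤ K * (3 * (ε * S)) := mul_le_mul_of_nonneg_left hy hK.le
  have h2 : S ≤ (6 * K + 2) * ε * S := by nlinarith
  have h3 : (6 * K + 2) * ε < 1 := by nlinarith
  nlinarith

end H94.WH

end S_HIP
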